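import Pool.Agent.H781.NG.AlgG

/-!
The algebraic lemma: assembly.
-/

set_option autoImplicit false
set_option maxHeartbeats 4000000

noncomputable section

namespace Pool.Agent.H781.NG

open Finset Alg
open scoped RealInnerProductSpace Matrix
open Pool.Agent.H781.S22 (Pr)

theorem alg_main (n : ℕ) (hn : 5 ≤ n) {H : Type} [NormedAddCommGroup H] [InnerProductSpace ℝ H]
    {c cd : Fin (2 * n) → H →ₗ[ℝ] H} (hc : CAR c cd)
    {K : Fin (2 * n) → Fin (2 * n) → Fin (2 * n) → Fin (2 * n) → ℝ} (hK : CurvT K)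
    (hpos : KPos (n + 1) K) {w : H} (hw : ‖w‖ = 1) (hN : ∑ i, cd i (c i w) = (n : ℝ) • w) :
    0 < ∑ i, ∑ j, ∑ k, ∑ l, K i j k l * ⟪cd j (c i w), cd l (c k w)⟫ := by
  have hn' : (5 : ℝ) ≤ n := by exact_mod_cast hn
  have hN0 : (0 : ℝ) < n + 1 := by linarith
  set l₀ : ℝ := (n : ℝ) ^ 2 / (n + 1) with hl0
  have hl0p : 0 < l₀ := by positivity
  have hl0N : ((n + 1 : ℕ) : ℝ) * l₀ = (n : ℝ) ^ 2 := by
    push_cast
    rw [hl0]; field_simp
  have hKH : (KM K).IsHermitian := by
    ext p q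
    simp only [Matrix.conjTranspose_apply, star_trivial, KM, Matrix.of_apply]
    exact hK.pair _ _ _ _
  have hcard := card_Pr n (by omega)
  rw [pairs_W hK]
  set W := WM c cd w with hWdef
  have hWH : W.IsHermitian := WM_herm c cd w
  have htr : W.trace = (n : ℝ) ^ 2 := by
    rw [hWdef, hc.trace hw hN]
    push_cast
    ring
  have hW0 : ∀ a : Pr (2 * n) → ℝ, 0 ≤ a ⬝ᵥ (W *ᵥ a) := by
    intro a
    rw [hWdef, ← Wf_sk, Wf, real_inner_self_eq_norm_sq]
    positivity
  obtain ⟨x, y, l, l₂, hxx, hyy, hxy, hWx, hWy, htop, htop2⟩ := top_two W hWH (by omega)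
  by_cases hcase : l ≤ l₀
  · refine kyfan (KM K) W hKH (n + 1) (by omega) hcard (hpos hKH) hl0p hW0 ?_ ?_
    · intro a
      have haa : 0 ≤ a ⬝ᵥ a := by
        rw [dotProduct]; exact Finset.sum_nonneg fun i _ => mul_self_nonneg _
      exact (htop a).trans (mul_le_mul_of_nonneg_right hcase haa)
    · rw [htr, hl0N]
  · rw [not_le] at hcase
    have hlp : 0 < l := hl0p.trans hcase
    -- the eigenvectors as skew matrices
    set X := sk x with hX
    set g := sk y with hg
    have hXs : Xᵀ = -X := sk_skew x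
    have hgs : gᵀ = -g := sk_skew y
    have hX1 : bi X X = 1 := by rw [hX, bi_sk_sk, hxx]
    have hg1 : bi g g = 1 := by rw [hg, bi_sk_sk, hyy]
    have hXg : bi X g = 0 := by rw [hX, hg, bi_sk_sk, hxy]
    have hsymm : ∀ a b : Pr (2 * n) → ℝ, a ⬝ᵥ (W *ᵥ b) = b ⬝ᵥ (W *ᵥ a) := by
      intro a b
      rw [hWdef, ← Wf_sk, ← Wf_sk, Wf, Wf, real_inner_comm]
    have eX : IsEig c cd w X l := by
      intro A hA
      rw [eq_sk hA, hX, Wf_sk, bi_sk_sk, hsymm, hWx, dotProduct_smul, dotProduct_comm,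
        smul_eq_mul]
    have eg : IsEig c cd w g l₂ := by
      intro A hA
      rw [eq_sk hA, hg, Wf_sk, bi_sk_sk, hsymm, hWy, dotProduct_smul, dotProduct_comm,
        smul_eq_mul]
    have hWX : Wf c cd w X X = l := by rw [eX X hXs, hX1, mul_one]
    have hWg : Wf c cd w g g = l₂ := by rw [eg g hgs, hg1, mul_one]
    have hl2 : 0 ≤ l₂ := by
      rw [← hWg, Wf, real_inner_self_eq_norm_sq]; positivity
    have hm2 : (((2 * n : ℕ) : ℝ) / 2) = n := by push_cast; ring
    have hln : l ≤ n := by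
      have h1 := hc.hat_bound hXs w
      rw [← bi_self, hX1, hw, one_pow, mul_one, mul_one, ← real_inner_self_eq_norm_sq, hm2] at h1
      exact hWX ▸ h1
    have hop : ∀ z : Fin (2 * n) → ℝ, l * ((X *ᵥ z) ⬝ᵥ (X *ᵥ z)) ≤ z ⬝ᵥ z :=
      hc.op_bound hw hXs hX1 eX
    -- second eigenvalue
    have hL : l + l₂ ≤ (4 * n + 8 / l) / 3 := by
      have h1 := hc.fourth hw hXs hgs hX1 hg1 hXg eX eg
      rw [hm2] at h1
      have h2 : 0 ≤ Wf c cd w (X * g - g * X) (X * g - g * X) := by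
        rw [Wf, real_inner_self_eq_norm_sq]; positivity
      have h3 := nB_bracket_le hXs hlp hop g
      rw [← bi_self g, hg1, mul_one] at h3
      have h4 : nB (X * g - g * X) ≤ 4 / l := by
        rw [le_div_iff₀ hlp]; linarith
      have hk : 0 < l + l₂ := by linarith
      have h5 : (l + l₂) * (l + l₂) ≤ (l + l₂) * ((4 * n + 8 / l) / 3) := by
        have h6 : (l + l₂) * nB (X * g - g * X) ≤ (l + l₂) * (4 / l) :=
          mul_le_mul_of_nonneg_left h4 hk.le
        have h7 : (l + l₂) * (8 / l) = 2 * ((l + l₂) * (4 / l)) := by ring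
        nlinarith
      exact le_of_mul_le_mul_left h5 hk
    set κ := Tf X X X with hκ
    have hκe : κ = 1 - nB (X * X) := kappa_eq hXs hX1
    have hκ2 : κ ≤ 1 := by
      have := nB_nonneg (X * X)
      linarith
    have hκ1 : 1 - 1 / l ≤ κ := by
      have h1 := nB_sq_le hXs hX1 hlp hop
      have h2 : nB (X * X) ≤ 1 / l := by
        rw [le_div_iff₀ hlp]; linarith
      linarith
    obtain ⟨t, ht0, htl, ht1, hll2, ht2, ht3, ht4⟩ := num hn' hcase hln hκ1 hκ2 hL
    rw [← hl0] at ht2 ht3 ht4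
    -- decomposition of a vector
    have hdec : ∀ a : Pr (2 * n) → ℝ, ∃ (α : ℝ) (b : Pr (2 * n) → ℝ), x ⬝ᵥ b = 0 ∧
        a ⬝ᵥ a = α ^ 2 + b ⬝ᵥ b ∧
        a ⬝ᵥ (W *ᵥ a) = α ^ 2 * l + b ⬝ᵥ (W *ᵥ b) ∧
        a ⬝ᵥ (TM X *ᵥ a) = α ^ 2 * κ + 2 * α * Tf X X (sk b) + Tf X (sk b) (sk b) := by
      intro a
      set α := x ⬝ᵥ a with hα
      set b := a - α • x with hb
      have hab : a = α • x + b := by rw [hb]; abel
      have hxb : x ⬝ᵥ b = 0 := by
        rw [hb, dotProduct_sub, dotProduct_smul, hxx, smul_eq_mul, mul_one, ← hα, sub_self]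
      have hbx : b ⬝ᵥ x = 0 := by rw [dotProduct_comm, hxb]
      refine ⟨α, b, hxb, ?_, ?_, ?_⟩
      · rw [hab, add_dotProduct, dotProduct_add, dotProduct_add, smul_dotProduct,
          dotProduct_smul, smul_dotProduct, dotProduct_smul, hxx, hxb, hbx]
        simp only [smul_eq_mul]
        ring
      · rw [hab, Matrix.mulVec_add, Matrix.mulVec_smul, hWx, add_dotProduct, dotProduct_add,
          dotProduct_add, smul_dotProduct, smul_dotProduct, dotProduct_smul, dotProduct_smul,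
          dotProduct_smul, dotProduct_smul, hsymm x b, hWx, dotProduct_smul, hxx, hbx]
        simp only [smul_eq_mul]
        ring
      · rw [← Tf_sk hXs, hab, sk_add, sk_smul, Tf_add_right, Tf_add_left, Tf_add_left,
          Tf_smul_left, Tf_smul_left, Tf_smul_right, Tf_smul_right, ← hX, ← hκ,
          Tf_comm X (sk b) X]
        ring
    have hPq : ∀ a : Pr (2 * n) → ℝ, a ⬝ᵥ ((W - t • TM X) *ᵥ a) =
        a ⬝ᵥ (W *ᵥ a) - t * (a ⬝ᵥ (TM X *ᵥ a)) := by
      intro a
      rw [Matrix.sub_mulVec, Matrix.smul_mulVec, dotProduct_sub, dotProduct_smul, smul_eq_mul]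
    have hpair : ∑ p, ∑ q, KM K p q * W p q = ∑ p, ∑ q, KM K p q * (W - t • TM X) p q := by
      have h1 := pairs_T hK hXs
      have h2 : ∑ p, ∑ q, KM K p q * (W - t • TM X) p q =
          ∑ p, ∑ q, KM K p q * W p q - t * ∑ p, ∑ q, KM K p q * TM X p q := by
        simp only [Finset.mul_sum, ← Finset.sum_sub_distrib]
        refine Finset.sum_congr rfl fun p _ => Finset.sum_congr rfl fun q _ => ?_
        rw [Matrix.sub_apply, Matrix.smul_apply, smul_eq_mul]
        ring
      rw [h2, h1]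
      ring
    rw [hpair]
    refine kyfan (KM K) (W - t • TM X) hKH (n + 1) (by omega) hcard (hpos hKH) hl0p ?_ ?_ ?_
    · intro a
      obtain ⟨α, b, hxb, h1, h2, h3⟩ := hdec a
      rw [hPq, h2, h3]
      have hB : (sk b)ᵀ = - sk b := sk_skew b
      have hXB : bi X (sk b) = 0 := by rw [hX, bi_sk_sk, hxb]
      have hlow := hc.lower hw hXs hB hX1 eX hll2 (fun B hB' hXB' => by
        rw [eq_sk hB', Wf_sk, ← bi_self, bi_sk_sk]
        rw [eq_sk hB', hX, bi_sk_sk] at hXB'
        exact htop2 _ hXB')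
      rw [hm2, Wf_sk, ← hWdef] at hlow
      set S := nB (X * sk b + sk b * X) with hS
      set G := nB (X * sk b - sk b * X) with hG
      have hS0 : 0 ≤ S := nB_nonneg _
      have hG0 : 0 ≤ G := nB_nonneg _
      have hT := Tf_self hXs hB hXB
      rw [← hS, ← hG] at hT
      have hmix := Tf_mixed_sq hXs hX1 hXB
      rw [← hS, ← hκ] at hmix
      have hn2 : (0 : ℝ) < (n : ℝ) ^ 2 := by positivity
      have hWb : (t / 4) * G ≤ b ⬝ᵥ (W *ᵥ b) := by
        have k1 : t * (n : ℝ) ^ 2 * G ≤ 4 * (l - l₂) ^ 2 * G := mul_le_mul_of_nonneg_right ht1 hG0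
        have k2 : (n : ℝ) ^ 2 * ((t / 4) * G) ≤ (n : ℝ) ^ 2 * (b ⬝ᵥ (W *ᵥ b)) := by
          linarith
        exact le_of_mul_le_mul_left k2 hn2
      have hp : 0 ≤ l - t * κ := by
        have : t * κ ≤ t * 1 := mul_le_mul_of_nonneg_left hκ2 ht0.le
        linarith
      have hr : 0 ≤ (t / 4) * S := by positivity
      have hq := quad_nonneg (p := l - t * κ) (r := (t / 4) * S) (c := -(t * Tf X X (sk b))) α hp hr
        (by
          have k1 : (-(t * Tf X X (sk b))) ^ 2 = t * (t * Tf X X (sk b) ^ 2) := by ring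
          have k2 : t * (t * Tf X X (sk b) ^ 2) ≤ t * (t * ((1 / 4) * (1 - κ) * S)) :=
            mul_le_mul_of_nonneg_left (mul_le_mul_of_nonneg_left hmix ht0.le) ht0.le
          have k3 : t * (1 - κ) ≤ l - t * κ := by linarith
          have k4 : t * (1 - κ) * ((t / 4) * S) ≤ (l - t * κ) * ((t / 4) * S) :=
            mul_le_mul_of_nonneg_right k3 hr
          rw [k1]
          refine k2.trans (le_trans (le_of_eq ?_) k4)
          ring)
      rw [hT]
      nlinarith
    · intro a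
      obtain ⟨α, b, hxb, h1, h2, h3⟩ := hdec a
      rw [hPq, h1, h2, h3]
      have hB : (sk b)ᵀ = - sk b := sk_skew b
      have hXB : bi X (sk b) = 0 := by rw [hX, bi_sk_sk, hxb]
      have hbb : 0 ≤ b ⬝ᵥ b := by
        rw [dotProduct]; exact Finset.sum_nonneg fun i _ => mul_self_nonneg _
      have hT := Tf_self_lower hXs hlp hop hB hXB
      have hmix := Tf_mixed_sq' hXs hX1 hlp hop hXB
      rw [← bi_self, bi_sk_sk] at hT hmix
      have hWb := htop2 b hxb
      have hT' : - (t / l) * (b ⬝ᵥ b) ≤ t * Tf X (sk b) (sk b) := by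
        have k1 := mul_le_mul_of_nonneg_left hT (div_nonneg ht0.le hlp.le)
        have k2 : t / l * (l * Tf X (sk b) (sk b)) = t * Tf X (sk b) (sk b) := by
          field_simp
        rw [k2] at k1
        linarith
      have hr : 0 ≤ (l₀ - l₂ - t / l) * (b ⬝ᵥ b) := mul_nonneg ht3 hbb
      have hq := quad_nonneg (p := l₀ - l + t * κ) (r := (l₀ - l₂ - t / l) * (b ⬝ᵥ b))
        (c := t * Tf X X (sk b)) α ht2 hr
        (by
          have k1 : (t * Tf X X (sk b)) ^ 2 = t ^ 2 * Tf X X (sk b) ^ 2 := by ring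
          have k2 : t ^ 2 * Tf X X (sk b) ^ 2 ≤ t ^ 2 * ((1 / (2 * l)) ^ 2 * (b ⬝ᵥ b)) :=
            mul_le_mul_of_nonneg_left hmix (sq_nonneg _)
          have k3 := mul_le_mul_of_nonneg_right ht4 hbb
          rw [k1]
          refine k2.trans (le_trans (le_of_eq ?_) (k3.trans (le_of_eq ?_)))
          · ring
          · ring)
      nlinarith
    · rw [Matrix.trace_sub, Matrix.trace_smul, TM_trace hXs, smul_zero, sub_zero, htr, hl0N]

theorem s_alg : S_ALG := by
  intro n hn H _ _ c cd h1 h2 h3 K hK hpos u hu hN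
  have hc : CAR c cd := ⟨h1, h2, h3⟩
  have hu0 : 0 < ‖u‖ := norm_pos_iff.2 hu
  set w := ‖u‖⁻¹ • u with hw
  have hw1 : ‖w‖ = 1 := by
    rw [hw, norm_smul, norm_inv, norm_norm, inv_mul_cancel₀ hu0.ne']
  have hNw : ∑ i, cd i (c i w) = (n : ℝ) • w := by
    simp only [hw, map_smul]
    rw [← Finset.smul_sum, hN, smul_comm]
  have hmain := alg_main n hn hc hK hpos hw1 hNw
  have huw : u = ‖u‖ • w := by
    rw [hw, smul_smul, mul_inv_cancel₀ hu0.ne', one_smul]
  have e : ∑ i, ∑ j, ∑ k, ∑ l, K i j k l * ⟪cd j (c i u), cd l (c k u)⟫ =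
      ‖u‖ ^ 2 * ∑ i, ∑ j, ∑ k, ∑ l, K i j k l * ⟪cd j (c i w), cd l (c k w)⟫ := by
    simp only [Finset.mul_sum]
    refine Finset.sum_congr rfl fun i _ => Finset.sum_congr rfl fun j _ =>
      Finset.sum_congr rfl fun k _ => Finset.sum_congr rfl fun l _ => ?_
    have e1 : ∀ a b, cd a (c b u) = ‖u‖ • cd a (c b w) := by
      intro a b
      conv_lhs => rw [huw]
      rw [map_smul, map_smul]
    rw [e1, e1, real_inner_smul_left, real_inner_smul_right]
    ring
  rw [e]
  exact mul_pos (by positivity) hmain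

end Pool.Agent.H781.NG
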