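import Pool.Agent.H781.NG.Spec

/-!
Properties of the horizontal projection (`S_PH`).
-/

open Bundle Manifold ContDiff VectorField Metric MeasureTheory Filter
open scoped Topology RealInnerProductSpace

set_option autoImplicit false
set_option synthInstance.maxHeartbeats 400000
set_option maxHeartbeats 4000000

noncomputable section

namespace Pool.Agent.H781.NG

open Pool.Agent.H781.S22

namespace Ph

open Finset

variable {N : ℕ} {A : Type*} [CommRing A]

/-- contraction with `∑ x b e_b` -/
def av (x : Fin N → A) : Fk N A →ₗ[A] Fk N A := ∑ b, x b • an b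

/-- exterior multiplication with `∑ x b e_b` -/
def cv (x : Fin N → A) : Fk N A →ₗ[A] Fk N A := ∑ b, x b • cr b

theorem av_apply (x : Fin N → A) (u : Fk N A) : av x u = ∑ b, x b • an b u := by
  simp [av, LinearMap.sum_apply]

theorem cv_apply (x : Fin N → A) (u : Fk N A) : cv x u = ∑ b, x b • cr b u := by
  simp [cv, LinearMap.sum_apply]

theorem cr_sum {κ : Type*} (s : Finset κ) (i : Fin N) (f : κ → Fk N A) :
    cr i (∑ k ∈ s, f k) = ∑ k ∈ s, cr i (f k) := map_sum _ _ _

/-- `a(x) c_i† + c_i† a(x) = x_i` -/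
theorem av_cr (x : Fin N → A) (i : Fin N) (u : Fk N A) :
    av x (cr i u) = x i • u - cr i (av x u) := by
  rw [av_apply, av_apply, map_sum]
  have h : ∀ b, x b • an b (cr i u) = (if b = i then x b • u else 0) - cr i (x b • an b u) := by
    intro b
    rw [an_cr, smul_sub, map_smul]
    split_ifs <;> simp
  rw [Finset.sum_congr rfl fun b _ => h b, Finset.sum_sub_distrib, Finset.sum_ite_eq' _ i]
  simp

theorem av_an (x : Fin N → A) (i : Fin N) (u : Fk N A) :
    av x (an i u) = - an i (av x u) := by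
  rw [av_apply, av_apply, map_sum, ← Finset.sum_neg_distrib]
  refine Finset.sum_congr rfl fun b _ => ?_
  rw [an_an, smul_neg, map_smul]

theorem cv_cr (x : Fin N → A) (i : Fin N) (u : Fk N A) :
    cv x (cr i u) = - cr i (cv x u) := by
  rw [cv_apply, cv_apply, map_sum, ← Finset.sum_neg_distrib]
  refine Finset.sum_congr rfl fun b _ => ?_
  rw [cr_cr, smul_neg, map_smul]

theorem cv_an (x : Fin N → A) (i : Fin N) (u : Fk N A) :
    cv x (an i u) = x i • u - an i (cv x u) := by
  rw [cv_apply, cv_apply, map_sum]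
  have h : ∀ b, x b • cr b (an i u) = (if b = i then x b • u else 0) - an i (x b • cr b u) := by
    intro b
    rw [map_smul, an_cr, smul_sub]
    by_cases hb : i = b
    · subst hb
      simp
    · rw [if_neg hb, if_neg (Ne.symm hb)]
      simp
  rw [Finset.sum_congr rfl fun b _ => h b, Finset.sum_sub_distrib, Finset.sum_ite_eq' _ i]
  simp

theorem av_cv (x y : Fin N → A) (u : Fk N A) :
    av x (cv y u) = (∑ b, x b * y b) • u - cv y (av x u) := by
  rw [cv_apply, cv_apply, map_sum, Finset.sum_smul, ← Finset.sum_sub_distrib]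
  refine Finset.sum_congr rfl fun b _ => ?_
  rw [map_smul, av_cr, smul_sub, smul_smul, mul_comm]

theorem av_av (x y : Fin N → A) (u : Fk N A) : av x (av y u) = - av y (av x u) := by
  rw [av_apply y, av_apply y, map_sum, ← Finset.sum_neg_distrib]
  refine Finset.sum_congr rfl fun b _ => ?_
  rw [map_smul, av_an, smul_neg]

theorem cv_cv (x y : Fin N → A) (u : Fk N A) : cv x (cv y u) = - cv y (cv x u) := by
  rw [cv_apply y, cv_apply y, map_sum, ← Finset.sum_neg_distrib]
  refine Finset.sum_congr rfl fun b _ => ?_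
  rw [map_smul, cv_cr, smul_neg]

theorem ip_av (x : Fin N → A) (u v : Fk N A) : ip (av x u) v = ip u (cv x v) := by
  rw [av_apply, cv_apply, ip_sum_left, ip_sum_right]
  refine Finset.sum_congr rfl fun b _ => ?_
  rw [ip_smul_left, ip_smul_right, ip_an]

theorem ip_cv (x : Fin N → A) (u v : Fk N A) : ip (cv x u) v = ip u (av x v) := by
  rw [ip_comm, ← ip_av, ip_comm]

/-- homogeneous elements -/
def Deg (r : ℕ) (u : Fk N A) : Prop := ∀ S : Finset (Fin N), S.card ≠ r → u S = 0

theorem Deg.add {r : ℕ} {u v : Fk N A} (hu : Deg r u) (hv : Deg r v) : Deg r (u + v) := by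
  intro S hS
  rw [Pi.add_apply, hu S hS, hv S hS, add_zero]

theorem Deg.smul {r : ℕ} {u : Fk N A} (a : A) (hu : Deg r u) : Deg r (a • u) := by
  intro S hS
  rw [Pi.smul_apply, hu S hS, smul_zero]

theorem Deg.neg {r : ℕ} {u : Fk N A} (hu : Deg r u) : Deg r (-u) := by
  intro S hS
  rw [Pi.neg_apply, hu S hS, neg_zero]

theorem Deg.sum {r : ℕ} {κ : Type*} (s : Finset κ) {f : κ → Fk N A} (h : ∀ k, Deg r (f k)) :
    Deg r (∑ k ∈ s, f k) := by
  intro S hS
  rw [Finset.sum_apply]
  exact Finset.sum_eq_zero fun k _ => h k S hS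

theorem Deg.cr {r : ℕ} {u : Fk N A} (i : Fin N) (hu : Deg r u) :
    Deg (r + 1) (NG.cr i u) := by
  intro S hS
  rw [cr_apply]
  split_ifs with h
  · rw [hu, mul_zero]
    intro h2
    apply hS
    rw [← h2, Finset.card_erase_add_one h]
  · rfl

theorem Deg.an {r : ℕ} {u : Fk N A} (i : Fin N) (hu : Deg (r + 1) u) :
    Deg r (NG.an i u) := by
  intro S hS
  rw [an_apply]
  split_ifs with h
  · rfl
  · rw [hu, mul_zero]
    rw [Finset.card_insert_of_notMem h]
    omega

theorem Deg.cr_an {r : ℕ} {u : Fk N A} (i j : Fin N) (hu : Deg r u) :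
    Deg r (NG.cr i (NG.an j u)) := by
  cases r with
  | zero =>
    have h : NG.an j u = 0 := by
      funext S
      rw [an_apply]
      split_ifs with h
      · rfl
      · rw [hu, mul_zero]
        · rfl
        · rw [Finset.card_insert_of_notMem h]
          omega
    rw [h, map_zero]
    intro S _
    rfl
  | succ r => exact (hu.an j).cr i

theorem Deg.cv {r : ℕ} {u : Fk N A} (x : Fin N → A) (hu : Deg r u) : Deg (r + 1) (cv x u) := by
  rw [cv_apply]
  exact Deg.sum _ fun b => (hu.cr b).smul _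

theorem Deg.av {r : ℕ} {u : Fk N A} (x : Fin N → A) (hu : Deg (r + 1) u) : Deg r (av x u) := by
  rw [av_apply]
  exact Deg.sum _ fun b => (hu.an b).smul _

/-! ### covariant derivatives -/

section nabla

variable [Algebra ℝ A] (F : Fr N A)

theorem gam_add (a : Fin N) (u v : Fk N A) : gam F a (u + v) = gam F a u + gam F a v := by
  unfold gam
  simp only [map_add, smul_add, Finset.sum_add_distrib]

theorem gam_smul (a : Fin N) (f : A) (u : Fk N A) : gam F a (f • u) = f • gam F a u := by
  unfold gam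
  simp only [map_smul, Finset.smul_sum, smul_smul, mul_comm f]

theorem nab_add (a : Fin N) (u v : Fk N A) : nab F a (u + v) = nab F a u + nab F a v := by
  unfold nab
  rw [gam_add]
  funext S
  simp only [Pi.add_apply, map_add]
  ring

theorem nab_smul (a : Fin N) (f : A) (u : Fk N A) :
    nab F a (f • u) = F.e a f • u + f • nab F a u := by
  unfold nab
  rw [gam_smul]
  funext S
  simp only [Pi.add_apply, Pi.smul_apply, smul_eq_mul, Derivation.leibniz]
  ring

theorem nab_zero (a : Fin N) : nab F a 0 = 0 := by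
  have h := nab_add F a 0 0
  rw [add_zero] at h
  exact left_eq_add.1 h

theorem nab_sum {κ : Type*} (s : Finset κ) (a : Fin N) (f : κ → Fk N A) :
    nab F a (∑ k ∈ s, f k) = ∑ k ∈ s, nab F a (f k) := by
  classical
  induction s using Finset.induction_on with
  | empty => simp [nab_zero]
  | insert k s hk ih => rw [Finset.sum_insert hk, Finset.sum_insert hk, nab_add, ih]

theorem der_an (d : Derivation ℝ A A) (i : Fin N) (u : Fk N A) :
    (fun S => d (an i u S)) = an i (fun S => d (u S)) := by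
  funext S
  rw [an_apply, an_apply]
  split_ifs with h
  · exact map_zero d
  · rw [Derivation.leibniz, Derivation.map_intCast]
    simp

theorem der_cr (d : Derivation ℝ A A) (i : Fin N) (u : Fk N A) :
    (fun S => d (cr i u S)) = cr i (fun S => d (u S)) := by
  funext S
  rw [cr_apply, cr_apply]
  split_ifs with h
  · rw [Derivation.leibniz, Derivation.map_intCast]
    simp
  · exact map_zero d

theorem gam_an (b c : Fin N) (u : Fk N A) :
    gam F b (an c u) = an c (gam F b u) + ∑ d, F.Γ b c d • an d u := by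
  unfold gam
  have h : ∀ i j, F.Γ b i j • cr j (an i (an c u)) =
      an c (F.Γ b i j • cr j (an i u)) - (if c = j then F.Γ b i j • an i u else 0) := by
    intro i j
    rw [map_smul, an_cr, an_an c i u, map_neg, sub_neg_eq_add, smul_add]
    split_ifs with hj
    · abel
    · rw [smul_zero]
      abel
  have h2 : ∀ i, ∑ j, F.Γ b i j • cr j (an i (an c u)) =
      an c (∑ j, F.Γ b i j • cr j (an i u)) + F.Γ b c i • an i u := by
    intro i
    rw [Finset.sum_congr rfl fun j _ => h i j, Finset.sum_sub_distrib, map_sum,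
      Finset.sum_ite_eq Finset.univ c, if_pos (Finset.mem_univ c), F.anti b i c, neg_smul,
      sub_neg_eq_add]
  rw [Finset.sum_congr rfl fun i _ => h2 i, Finset.sum_add_distrib, map_sum]

theorem gam_cr (b c : Fin N) (u : Fk N A) :
    gam F b (cr c u) = cr c (gam F b u) + ∑ d, F.Γ b c d • cr d u := by
  unfold gam
  have h : ∀ i j, F.Γ b i j • cr j (an i (cr c u)) =
      cr c (F.Γ b i j • cr j (an i u)) + (if c = i then F.Γ b i j • cr j u else 0) := by
    intro i j
    rw [map_smul, an_cr, cr_cr c j, map_sub, smul_sub]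
    by_cases hj : i = c
    · subst hj
      simp only [if_true, smul_neg]
      abel
    · rw [if_neg hj, if_neg (Ne.symm hj), map_zero, smul_zero, smul_neg]
      abel
  have h2 : ∀ i, ∑ j, F.Γ b i j • cr j (an i (cr c u)) =
      cr c (∑ j, F.Γ b i j • cr j (an i u)) +
        (if c = i then ∑ j, F.Γ b i j • cr j u else 0) := by
    intro i
    rw [Finset.sum_congr rfl fun j _ => h i j, Finset.sum_add_distrib, map_sum]
    congr 1
    split_ifs
    · rfl
    · exact Finset.sum_const_zero
  rw [Finset.sum_congr rfl fun i _ => h2 i, Finset.sum_add_distrib, map_sum,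
    Finset.sum_ite_eq Finset.univ c, if_pos (Finset.mem_univ c)]

theorem nab_an (b c : Fin N) (u : Fk N A) :
    nab F b (an c u) = an c (nab F b u) + ∑ d, F.Γ b c d • an d u := by
  unfold nab
  rw [der_an, gam_an, map_add]
  abel

theorem nab_cr (b c : Fin N) (u : Fk N A) :
    nab F b (cr c u) = cr c (nab F b u) + ∑ d, F.Γ b c d • cr d u := by
  unfold nab
  rw [der_cr, gam_cr, map_add]
  abel

/-- parallel coefficient vectors -/
def Par (x : Fin N → A) : Prop := ∀ b c, F.e b (x c) = ∑ d, F.Γ b c d * x d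

theorem nab_av {x : Fin N → A} (hx : Par F x) (b : Fin N) (u : Fk N A) :
    nab F b (av x u) = av x (nab F b u) := by
  rw [av_apply, av_apply, nab_sum]
  have h : ∀ c, nab F b (x c • an c u) = x c • an c (nab F b u) +
      ((∑ d, (F.Γ b c d * x d) • an c u) + ∑ d, (F.Γ b c d * x c) • an d u) := by
    intro c
    rw [nab_smul, nab_an, hx b c, Finset.sum_smul, smul_add, Finset.smul_sum]
    simp only [smul_smul, mul_comm (x c)]
    abel
  rw [Finset.sum_congr rfl fun c _ => h c, Finset.sum_add_distrib, Finset.sum_add_distrib,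
    Finset.sum_comm (f := fun c d => (F.Γ b c d * x c) • an d u), ← Finset.sum_add_distrib]
  have h0 : ∀ c, (∑ d, (F.Γ b c d * x d) • an c u) + ∑ d, (F.Γ b d c * x d) • an c u = 0 := by
    intro c
    rw [← Finset.sum_add_distrib]
    refine Finset.sum_eq_zero fun d _ => ?_
    rw [← add_smul, F.anti b c d]
    simp
  rw [Finset.sum_congr rfl fun c _ => h0 c, Finset.sum_const_zero, add_zero]

theorem nab_cv {x : Fin N → A} (hx : Par F x) (b : Fin N) (u : Fk N A) :
    nab F b (cv x u) = cv x (nab F b u) := by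
  rw [cv_apply, cv_apply, nab_sum]
  have h : ∀ c, nab F b (x c • cr c u) = x c • cr c (nab F b u) +
      ((∑ d, (F.Γ b c d * x d) • cr c u) + ∑ d, (F.Γ b c d * x c) • cr d u) := by
    intro c
    rw [nab_smul, nab_cr, hx b c, Finset.sum_smul, smul_add, Finset.smul_sum]
    simp only [smul_smul, mul_comm (x c)]
    abel
  rw [Finset.sum_congr rfl fun c _ => h c, Finset.sum_add_distrib, Finset.sum_add_distrib,
    Finset.sum_comm (f := fun c d => (F.Γ b c d * x c) • cr d u), ← Finset.sum_add_distrib]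
  have h0 : ∀ c, (∑ d, (F.Γ b c d * x d) • cr c u) + ∑ d, (F.Γ b d c * x d) • cr c u = 0 := by
    intro c
    rw [← Finset.sum_add_distrib]
    refine Finset.sum_eq_zero fun d _ => ?_
    rw [← add_smul, F.anti b c d]
    simp
  rw [Finset.sum_congr rfl fun c _ => h0 c, Finset.sum_const_zero, add_zero]

/-- normal coefficient vectors -/
def Nor (x : Fin N → A) : Prop :=
  (∀ f, ∑ b, x b * F.e b f = 0) ∧ ∀ c d, ∑ b, x b * F.Γ b c d = 0

theorem nab_nor {x : Fin N → A} (hx : Nor F x) (u : Fk N A) : ∑ b, x b • nab F b u = 0 := by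
  unfold nab
  simp only [smul_add, Finset.sum_add_distrib]
  have h1 : ∑ b, x b • (fun S => F.e b (u S)) = 0 := by
    funext S
    rw [Finset.sum_apply]
    simp only [Pi.smul_apply, smul_eq_mul]
    exact hx.1 _
  have h2 : ∑ b, x b • gam F b u = 0 := by
    unfold gam
    simp only [Finset.smul_sum, smul_smul]
    rw [Finset.sum_comm]
    refine Finset.sum_eq_zero fun i _ => ?_
    rw [Finset.sum_comm]
    refine Finset.sum_eq_zero fun j _ => ?_
    rw [← Finset.sum_smul, hx.2, zero_smul]
  rw [h1, h2, add_zero]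

theorem nab_deg {r : ℕ} {u : Fk N A} (hu : Deg r u) (b : Fin N) : Deg r (nab F b u) := by
  unfold nab
  refine Deg.add ?_ ?_
  · intro S hS
    change F.e b (u S) = 0
    rw [hu S hS, map_zero]
  · unfold gam
    exact Deg.sum _ fun i => Deg.sum _ fun j => (hu.cr_an j i).smul _

/-! ### families -/

omit [Algebra ℝ A] in
theorem av_crs (x : Fin N → A) (w : Fin N → Fk N A) (hw : ∑ a, x a • w a = 0) :
    av x (∑ a, cr a (w a)) = - ∑ a, cr a (av x (w a)) := by
  rw [map_sum, Finset.sum_congr rfl fun a _ => av_cr x a (w a), Finset.sum_sub_distrib, hw,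
    zero_sub]

omit [Algebra ℝ A] in
theorem cv_crs (x : Fin N → A) (w : Fin N → Fk N A) :
    cv x (∑ a, cr a (w a)) = - ∑ a, cr a (cv x (w a)) := by
  rw [map_sum, Finset.sum_congr rfl fun a _ => cv_cr x a (w a), Finset.sum_neg_distrib]

omit [Algebra ℝ A] in
theorem av_ans (x : Fin N → A) (w : Fin N → Fk N A) :
    av x (∑ a, an a (w a)) = - ∑ a, an a (av x (w a)) := by
  rw [map_sum, Finset.sum_congr rfl fun a _ => av_an x a (w a), Finset.sum_neg_distrib]

omit [Algebra ℝ A] in
theorem cv_ans (x : Fin N → A) (w : Fin N → Fk N A) (hw : ∑ a, x a • w a = 0) :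
    cv x (∑ a, an a (w a)) = - ∑ a, an a (cv x (w a)) := by
  rw [map_sum, Finset.sum_congr rfl fun a _ => cv_an x a (w a), Finset.sum_sub_distrib, hw,
    zero_sub]

omit [Algebra ℝ A] in
theorem fam_map (x : Fin N → A) (w : Fin N → Fk N A) (hw : ∑ a, x a • w a = 0)
    (T : Fk N A →ₗ[A] Fk N A) : ∑ a, x a • T (w a) = 0 := by
  rw [Finset.sum_congr rfl fun a _ => (map_smul T (x a) (w a)).symm, ← map_sum, hw, map_zero]

/-- the projection in general -/
def PP (x y : Fin N → A) : Fk N A →ₗ[A] Fk N A := av x ∘ₗ cv x ∘ₗ av y ∘ₗ cv y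

omit [Algebra ℝ A] in
theorem PP_apply (x y : Fin N → A) (u : Fk N A) : PP x y u = av x (cv x (av y (cv y u))) := rfl

omit [Algebra ℝ A] in
theorem PP_crs (x y : Fin N → A) (w : Fin N → Fk N A) (hx : ∑ a, x a • w a = 0)
    (hy : ∑ a, y a • w a = 0) :
    ∑ a, cr a (PP x y (w a)) = PP x y (∑ a, cr a (w a)) := by
  have h1 := cv_crs y w
  have h2 := av_crs y (fun a => cv y (w a)) (fam_map y w hy (cv y))
  have h3 := cv_crs x (fun a => av y (cv y (w a)))
  have h4 := av_crs x (fun a => cv x (av y (cv y (w a))))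
    (fam_map x w hx (cv x ∘ₗ av y ∘ₗ cv y))
  rw [PP_apply, h1, map_neg, h2, neg_neg, h3, map_neg, h4, neg_neg]
  rfl

omit [Algebra ℝ A] in
theorem PP_ans (x y : Fin N → A) (w : Fin N → Fk N A) (hx : ∑ a, x a • w a = 0)
    (hy : ∑ a, y a • w a = 0) :
    ∑ a, an a (PP x y (w a)) = PP x y (∑ a, an a (w a)) := by
  have h1 := cv_ans y w hy
  have h2 := av_ans y (fun a => cv y (w a))
  have h3 := cv_ans x (fun a => av y (cv y (w a))) (fam_map x w hx (av y ∘ₗ cv y))
  have h4 := av_ans x (fun a => cv x (av y (cv y (w a))))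
  rw [PP_apply, h1, map_neg, h2, neg_neg, h3, map_neg, h4, neg_neg]
  rfl

theorem nab_PP {x y : Fin N → A} (hx : Par F x) (hy : Par F y) (b : Fin N) (u : Fk N A) :
    nab F b (PP x y u) = PP x y (nab F b u) := by
  rw [PP_apply, PP_apply, nab_av F hx, nab_cv F hx, nab_av F hy, nab_cv F hy]

theorem dd_PP {x y : Fin N → A} (hx : Par F x) (hy : Par F y) (hx' : Nor F x) (hy' : Nor F y)
    (u : Fk N A) : dd F (PP x y u) = PP x y (dd F u) := by
  unfold dd
  rw [← PP_crs x y _ (nab_nor F hx' u) (nab_nor F hy' u)]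
  exact Finset.sum_congr rfl fun a _ => by rw [nab_PP F hx hy]

theorem de_PP {x y : Fin N → A} (hx : Par F x) (hy : Par F y) (hx' : Nor F x) (hy' : Nor F y)
    (u : Fk N A) : de F (PP x y u) = PP x y (de F u) := by
  unfold de
  rw [map_neg, ← PP_ans x y _ (nab_nor F hx' u) (nab_nor F hy' u)]
  congr 1
  exact Finset.sum_congr rfl fun a _ => by rw [nab_PP F hx hy]

end nabla

/-! ### algebra of the projection -/

section proj

variable [Algebra ℝ A]

theorem eq_zero_of_eq_neg {v : Fk N A} (h : v = -v) : v = 0 := by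
  funext S
  have h1 : v S = - v S := congrFun h S
  have h2 : v S + v S = 0 := by
    nth_rewrite 1 [h1]
    exact neg_add_cancel _
  have h3 : v S = (1 / 2 : ℝ) • (v S + v S) := by
    rw [← two_smul ℝ (v S), smul_smul]
    norm_num
  rw [h3, h2, smul_zero]
  rfl

theorem av_av_self (x : Fin N → A) (u : Fk N A) : av x (av x u) = 0 :=
  eq_zero_of_eq_neg (av_av x x u)

variable {x y : Fin N → A} (hxx : ∑ b, x b * x b = 1) (hyy : ∑ b, y b * y b = 1)
  (hxy : ∑ b, x b * y b = 0)

include hxy in
omit [Algebra ℝ A] in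
theorem hyx : ∑ b, y b * x b = 0 := by
  rw [← hxy]
  exact Finset.sum_congr rfl fun b _ => mul_comm _ _

include hxy in
omit [Algebra ℝ A] in
theorem av_cv_xy (u : Fk N A) : av x (cv y u) = - cv y (av x u) := by
  rw [av_cv, hxy, zero_smul, zero_sub]

include hxy in
omit [Algebra ℝ A] in
theorem av_cv_yx (u : Fk N A) : av y (cv x u) = - cv x (av y u) := by
  rw [av_cv, hyx hxy, zero_smul, zero_sub]

theorem av_PP_left (u : Fk N A) : av x (PP x y u) = 0 := by
  rw [PP_apply, av_av_self]

include hxy in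
theorem av_PP_right (u : Fk N A) : av y (PP x y u) = 0 := by
  rw [PP_apply, av_av, av_cv_yx hxy, av_av_self, map_zero, neg_zero, map_zero, neg_zero]

include hxx hyy in
omit [Algebra ℝ A] in
theorem PP_fix (u : Fk N A) (hx : av x u = 0) (hy : av y u = 0) : PP x y u = u := by
  have h1 : av y (cv y u) = u := by
    rw [av_cv, hyy, hy, one_smul, map_zero, sub_zero]
  rw [PP_apply, h1, av_cv, hxx, hx, one_smul, map_zero, sub_zero]

include hxx hyy hxy in
theorem PP_PP (u : Fk N A) : PP x y (PP x y u) = PP x y u :=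
  PP_fix hxx hyy _ (av_PP_left u) (av_PP_right hxy u)

include hxy in
omit [Algebra ℝ A] in
theorem PP_swap (u : Fk N A) : PP y x u = PP x y u := by
  rw [PP_apply, PP_apply]
  -- av y cv y av x cv x = av x cv x av y cv y
  have h1 : ∀ w : Fk N A, cv y (av x w) = - av x (cv y w) := by
    intro w
    rw [av_cv_xy hxy, neg_neg]
  have h2 : cv y (av x (cv x u)) = av x (cv x (cv y u)) := by
    rw [h1, cv_cv y x, map_neg, neg_neg]
  rw [h2, av_av y x, av_cv_yx hxy, map_neg, neg_neg]

include hxy in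
omit [Algebra ℝ A] in
theorem ip_PP (u v : Fk N A) : ip (PP x y u) v = ip u (PP x y v) := by
  rw [← PP_swap hxy v, PP_apply, PP_apply, ip_av, ip_cv, ip_av, ip_cv]

include hxx hyy hxy in
theorem ip_split (u : Fk N A) :
    ip u u = ip (PP x y u) (PP x y u) + ip (u - PP x y u) (u - PP x y u) := by
  have h1 : ip (PP x y u) (PP x y u) = ip u (PP x y u) := by
    rw [ip_PP hxy, PP_PP hxx hyy hxy]
  rw [ip_sub_left, ip_sub_right, ip_sub_right, ip_comm (PP x y u) u, h1]
  ring

omit [Algebra ℝ A] in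
theorem Deg.PP {r : ℕ} {u : Fk N A} (hu : Deg r u) : Deg r (Ph.PP x y u) := by
  rw [PP_apply]
  exact (((hu.cv y).av y).cv x).av x

variable (F : Fr N A)

theorem av_dd (hx : Par F x) (hx' : Nor F x) (u : Fk N A) (hu : av x u = 0) :
    av x (dd F u) = 0 := by
  unfold dd
  rw [av_crs x _ (nab_nor F hx' u)]
  rw [neg_eq_zero]
  refine Finset.sum_eq_zero fun a _ => ?_
  rw [← nab_av F hx, hu, nab_zero, map_zero]

theorem av_de (hx : Par F x) (u : Fk N A) (hu : av x u = 0) :
    av x (de F u) = 0 := by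
  unfold de
  rw [map_neg, av_ans, neg_neg]
  refine Finset.sum_eq_zero fun a _ => ?_
  rw [← nab_av F hx, hu, nab_zero, map_zero]

theorem deg_dd {r : ℕ} {u : Fk N A} (hu : Deg r u) : Deg (r + 1) (dd F u) :=
  Deg.sum _ fun a => (nab_deg F hu a).cr a

theorem deg_de {r : ℕ} {u : Fk N A} (hu : Deg (r + 1) u) : Deg r (de F u) :=
  (Deg.sum _ fun a => (nab_deg F hu a).an a).neg

end proj

end Ph

open Ph in
theorem s_ph : S_PH := by
  intro n k μ D
  have hanu : ∀ a u, anu D a u = av (D.nu a) u := fun a u => by rw [av_apply]; rfl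
  have hcnu : ∀ a u, cnu D a u = cv (D.nu a) u := fun a u => by rw [cv_apply]; rfl
  have hPh : ∀ u, Ph D u = PP (D.nu 0) (D.nu 1) u := by
    intro u
    rw [PP_apply, NG.Ph, hanu, hcnu, hanu, hcnu]
  have h00 : ∑ b, D.nu 0 b * D.nu 0 b = 1 := by simpa using D.nu_on 0 0
  have h11 : ∑ b, D.nu 1 b * D.nu 1 b = 1 := by simpa using D.nu_on 1 1
  have h01 : ∑ b, D.nu 0 b * D.nu 1 b = 0 := by simpa using D.nu_on 0 1
  have hpar : ∀ a, Par D.F (D.nu a) := fun a b c => D.nu_par a b c
  have hnor : ∀ a, Nor D.F (D.nu a) := fun a => ⟨D.nu_e a, D.nu_G a⟩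
  refine ⟨?_, ?_, ?_, ?_, ?_, ?_, ?_, ?_, ?_⟩
  · intro u a
    rw [hPh, hanu]
    fin_cases a
    · exact av_PP_left u
    · exact av_PP_right h01 u
  · intro u hu
    rw [hPh]
    exact PP_fix h00 h11 u (by rw [← hanu]; exact hu 0) (by rw [← hanu]; exact hu 1)
  · intro u
    rw [hPh, hPh]
    exact dd_PP D.F (hpar 0) (hpar 1) (hnor 0) (hnor 1) u
  · intro u
    rw [hPh, hPh]
    exact de_PP D.F (hpar 0) (hpar 1) (hnor 0) (hnor 1) u
  · intro u v
    rw [hPh, hPh]
    exact ip_PP h01 u v
  · intro r u hu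
    rw [hPh]
    exact Deg.PP hu
  · intro u p
    rw [hPh, ip_split h00 h11 h01 u, map_add]
    have h : 0 ≤ ev p (ip (u - PP (D.nu 0) (D.nu 1) u) (u - PP (D.nu 0) (D.nu 1) u)) := by
      unfold ip
      rw [map_sum]
      refine Finset.sum_nonneg fun S _ => ?_
      rw [map_mul]
      exact mul_self_nonneg _
    linarith
  · intro r u hu
    refine ⟨deg_dd D.F hu.1, fun a => ?_⟩
    rw [hanu]
    exact av_dd D.F (hpar a) (hnor a) u (by rw [← hanu]; exact hu.2 a)
  · intro r u hu
    refine ⟨deg_de D.F hu.1, fun a => ?_⟩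
    rw [hanu]
    exact av_de D.F (hpar a) u (by rw [← hanu]; exact hu.2 a)

end Pool.Agent.H781.NG
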