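import Pool.Agent.H781.NG.Spec

/-!
Uniform positivity of the Weitzenböck term.
-/

open Bundle Manifold ContDiff VectorField Metric MeasureTheory Filter
open scoped Topology RealInnerProductSpace

set_option autoImplicit false
set_option synthInstance.maxHeartbeats 400000
set_option maxHeartbeats 4000000

noncomputable section

namespace Pool.Agent.H781.NG

namespace Ric

variable {N : ℕ}

/-- contraction with a vector -/
def lan (w : Fin N → ℝ) : Fk N ℝ →ₗ[ℝ] Fk N ℝ := ∑ a, w a • an a

/-- exterior multiplication with a vector -/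
def lcr (w : Fin N → ℝ) : Fk N ℝ →ₗ[ℝ] Fk N ℝ := ∑ a, w a • cr a

theorem lan_apply (w : Fin N → ℝ) (v : Fk N ℝ) : lan w v = ∑ a, w a • an a v := by
  simp [lan, LinearMap.sum_apply]

theorem lcr_apply (w : Fin N → ℝ) (v : Fk N ℝ) : lcr w v = ∑ a, w a • cr a v := by
  simp [lcr, LinearMap.sum_apply]

theorem lan_lcr (w w' : Fin N → ℝ) (v : Fk N ℝ) :
    lan w (lcr w' v) + lcr w' (lan w v) = (∑ a, w a * w' a) • v := by
  have h1 : lan w (lcr w' v) = ∑ a, ∑ b, (w a * w' b) • an a (cr b v) := by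
    rw [lan_apply, lcr_apply]
    refine Finset.sum_congr rfl fun a _ => ?_
    rw [map_sum, Finset.smul_sum]
    refine Finset.sum_congr rfl fun b _ => ?_
    rw [map_smul, smul_smul]
  have h2 : lcr w' (lan w v) = ∑ a, ∑ b, (w a * w' b) • cr b (an a v) := by
    rw [lcr_apply, lan_apply, Finset.sum_comm]
    refine Finset.sum_congr rfl fun b _ => ?_
    rw [map_sum, Finset.smul_sum]
    refine Finset.sum_congr rfl fun a _ => ?_
    rw [map_smul, smul_smul, mul_comm]
  rw [h1, h2, ← Finset.sum_add_distrib, Finset.sum_smul]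
  refine Finset.sum_congr rfl fun a _ => ?_
  rw [← Finset.sum_add_distrib]
  rw [Finset.sum_eq_single a]
  · rw [← smul_add, car, if_pos rfl]
  · intro b _ hb
    rw [← smul_add, car, if_neg (Ne.symm hb), smul_zero]
  · intro h
    exact absurd (Finset.mem_univ a) h

theorem lan_lan (w w' : Fin N → ℝ) (v : Fk N ℝ) : lan w (lan w' v) = - lan w' (lan w v) := by
  have h : ∀ w w' : Fin N → ℝ, lan w (lan w' v) = ∑ a, ∑ b, (w a * w' b) • an a (an b v) := by
    intro w w'
    rw [lan_apply, lan_apply]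
    refine Finset.sum_congr rfl fun a _ => ?_
    rw [map_sum, Finset.smul_sum]
    refine Finset.sum_congr rfl fun b _ => ?_
    rw [map_smul, smul_smul]
  rw [h, h w' w, Finset.sum_comm, ← Finset.sum_neg_distrib]
  refine Finset.sum_congr rfl fun b _ => ?_
  rw [← Finset.sum_neg_distrib]
  refine Finset.sum_congr rfl fun a _ => ?_
  rw [an_an, smul_neg, mul_comm]

theorem ip_lan (w : Fin N → ℝ) (u v : Fk N ℝ) : ip (lan w u) v = ip u (lcr w v) := by
  rw [lan_apply, lcr_apply, ip_sum_left, ip_sum_right]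
  refine Finset.sum_congr rfl fun a _ => ?_
  rw [ip_smul_left, ip_smul_right, ip_an]

/-- the Euclidean space -/
abbrev HH (N : ℕ) : Type := EuclideanSpace ℝ (Finset (Fin N))

/-- identification -/
def ee (N : ℕ) : HH N ≃ₗ[ℝ] Fk N ℝ := WithLp.linearEquiv 2 ℝ (Finset (Fin N) → ℝ)

theorem inner_ee (x y : HH N) : ⟪x, y⟫ = ip (ee N x) (ee N y) := by
  rw [PiLp.inner_apply]
  unfold ip
  refine Finset.sum_congr rfl fun S _ => ?_
  simp [ee, mul_comm]

/-- transport of an operator -/
def tr (T : Fk N ℝ →ₗ[ℝ] Fk N ℝ) : HH N →ₗ[ℝ] HH N :=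
  (ee N).symm.toLinearMap ∘ₗ T ∘ₗ (ee N).toLinearMap

theorem ee_tr (T : Fk N ℝ →ₗ[ℝ] Fk N ℝ) (x : HH N) : ee N (tr T x) = T (ee N x) := by
  simp [tr]

/-- the quadratic form -/
def QQ (R : Fin N → Fin N → Fin N → Fin N → ℝ) (v : Fk N ℝ) : ℝ :=
  ∑ a, ∑ b, ∑ c, ∑ d, R a b c d * ip (cr b (an a v)) (cr d (an c v))

theorem ip_expand {m : ℕ} (f : Fin m → Fin N → ℝ) (v : Fk N ℝ) (i j k l : Fin m) :
    ip (lcr (f j) (lan (f i) v)) (lcr (f l) (lan (f k) v)) =
      ∑ a, ∑ b, ∑ c, ∑ d, f i a * f j b * f k c * f l d *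
        ip (cr b (an a v)) (cr d (an c v)) := by
  have h : ∀ i j : Fin m, lcr (f j) (lan (f i) v) = ∑ a, ∑ b, (f i a * f j b) • cr b (an a v) := by
    intro i j
    rw [lcr_apply, lan_apply, Finset.sum_comm]
    refine Finset.sum_congr rfl fun b _ => ?_
    rw [map_sum, Finset.smul_sum]
    refine Finset.sum_congr rfl fun a _ => ?_
    rw [map_smul, smul_smul, mul_comm]
  rw [h, h, ip_sum_left]
  refine Finset.sum_congr rfl fun a _ => ?_
  rw [ip_sum_left]
  refine Finset.sum_congr rfl fun b _ => ?_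
  rw [ip_sum_right]
  refine Finset.sum_congr rfl fun c _ => ?_
  rw [ip_sum_right]
  refine Finset.sum_congr rfl fun d _ => ?_
  rw [ip_smul_left, ip_smul_right]
  ring

theorem QQ_eq {m : ℕ} (f : Fin m → Fin N → ℝ) (K : Fin m → Fin m → Fin m → Fin m → ℝ)
    (R : Fin N → Fin N → Fin N → Fin N → ℝ)
    (hR : ∀ a b c d, R a b c d =
      ∑ i, ∑ j, ∑ k, ∑ l, f i a * f j b * f k c * f l d * K i j k l) (v : Fk N ℝ) :
    QQ R v = ∑ i, ∑ j, ∑ k, ∑ l, K i j k l *
      ip (lcr (f j) (lan (f i) v)) (lcr (f l) (lan (f k) v)) := by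
  simp only [QQ, ip_expand, hR]
  simp only [Finset.sum_mul, Finset.mul_sum]
  have hL : (∑ a, ∑ b, ∑ c, ∑ d, ∑ i, ∑ j, ∑ k, ∑ l, f i a * f j b * f k c * f l d * K i j k l *
      ip (cr b (an a v)) (cr d (an c v))) =
      ∑ x : (Fin N × Fin N × Fin N × Fin N), ∑ y : (Fin m × Fin m × Fin m × Fin m),
        f y.1 x.1 * f y.2.1 x.2.1 * f y.2.2.1 x.2.2.1 * f y.2.2.2 x.2.2.2 *
          K y.1 y.2.1 y.2.2.1 y.2.2.2 *
          ip (cr x.2.1 (an x.1 v)) (cr x.2.2.2 (an x.2.2.1 v)) := by
    simp only [Fintype.sum_prod_type]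
  have hRr : (∑ i, ∑ j, ∑ k, ∑ l, ∑ a, ∑ b, ∑ c, ∑ d, K i j k l * (f i a * f j b * f k c * f l d *
      ip (cr b (an a v)) (cr d (an c v)))) =
      ∑ y : (Fin m × Fin m × Fin m × Fin m), ∑ x : (Fin N × Fin N × Fin N × Fin N),
        K y.1 y.2.1 y.2.2.1 y.2.2.2 *
        (f y.1 x.1 * f y.2.1 x.2.1 * f y.2.2.1 x.2.2.1 * f y.2.2.2 x.2.2.2 *
          ip (cr x.2.1 (an x.1 v)) (cr x.2.2.2 (an x.2.2.1 v))) := by
    simp only [Fintype.sum_prod_type]
  rw [hL, hRr, Finset.sum_comm]
  refine Finset.sum_congr rfl fun y _ => Finset.sum_congr rfl fun x _ => ?_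
  ring

/-- completeness of an orthonormal basis -/
theorem complete {n : ℕ} (f : Fin (2 * n) → Fin (2 * n + 2) → ℝ) (nu : Fin 2 → Fin (2 * n + 2) → ℝ)
    (hf : ∀ i j, ∑ a, f i a * f j a = if i = j then 1 else 0)
    (hfn : ∀ i b, ∑ a, f i a * nu b a = 0)
    (hn : ∀ a a', ∑ b, nu a b * nu a' b = if a = a' then 1 else 0) (a b : Fin (2 * n + 2)) :
    ∑ i, f i a * f i b = (if a = b then 1 else 0) - ∑ c, nu c a * nu c b := by
  let M : Matrix (Fin (2 * n) ⊕ Fin 2) (Fin (2 * n + 2)) ℝ := Matrix.of (Sum.elim f nu)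
  have h1 : M * M.transpose = 1 := by
    ext x y
    rw [Matrix.mul_apply]
    rcases x with i | i <;> rcases y with j | j
    · simp only [M, Matrix.transpose_apply, Matrix.of_apply, Sum.elim_inl, hf, Matrix.one_apply,
        Sum.inl.injEq]
    · simp only [M, Matrix.transpose_apply, Matrix.of_apply, Sum.elim_inl, Sum.elim_inr, hfn,
        Matrix.one_apply]
      simp
    · simp only [M, Matrix.transpose_apply, Matrix.of_apply, Sum.elim_inl, Sum.elim_inr,
        Matrix.one_apply]
      have := hfn j i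
      simp only [mul_comm (nu i _)]
      rw [this]
      simp
    · simp only [M, Matrix.transpose_apply, Matrix.of_apply, Sum.elim_inr, hn, Matrix.one_apply,
        Sum.inr.injEq]
  have h2 : M.transpose * M = 1 :=
    (Matrix.mul_eq_one_comm_of_equiv (finSumFinEquiv (m := 2 * n) (n := 2))).1 h1
  have h3 := congrFun (congrFun h2 a) b
  rw [Matrix.mul_apply, Fintype.sum_sum_type, Matrix.one_apply] at h3
  simp only [M, Matrix.transpose_apply, Matrix.of_apply, Sum.elim_inl, Sum.elim_inr] at h3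
  linarith

/-- pointwise positivity -/
theorem QQ_pos {n : ℕ} (hA : AlgLemma n) (f : Fin (2 * n) → Fin (2 * n + 2) → ℝ)
    (nu : Fin 2 → Fin (2 * n + 2) → ℝ)
    (hf : ∀ i j, ∑ a, f i a * f j a = if i = j then 1 else 0)
    (hfn : ∀ i b, ∑ a, f i a * nu b a = 0)
    (hn : ∀ a a', ∑ b, nu a b * nu a' b = if a = a' then 1 else 0)
    (K : Fin (2 * n) → Fin (2 * n) → Fin (2 * n) → Fin (2 * n) → ℝ) (hK : CurvT K)
    (hKP : KPos (n + 1) K)
    (R : Fin (2 * n + 2) → Fin (2 * n + 2) → Fin (2 * n + 2) → Fin (2 * n + 2) → ℝ)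
    (hR : ∀ a b c d, R a b c d =
      ∑ i, ∑ j, ∑ k, ∑ l, f i a * f j b * f k c * f l d * K i j k l)
    (v : Fk (2 * n + 2) ℝ) (hv : v ≠ 0) (hv1 : ∀ S, S.card ≠ n → v S = 0)
    (hv2 : ∀ c, lan (nu c) v = 0) : 0 < QQ R v := by
  have key := hA (HH (2 * n + 2)) (fun i => tr (lan (f i))) (fun i => tr (lcr (f i)))
    (by
      intro i x y
      rw [inner_ee, inner_ee, ee_tr, ee_tr, ip_lan])
    (by
      intro i j x
      apply (ee (2 * n + 2)).injective
      rw [map_add, ee_tr, ee_tr, ee_tr, ee_tr, lan_lcr, hf]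
      split_ifs with h
      · rw [one_smul]
      · rw [zero_smul, map_zero])
    (by
      intro i j x
      apply (ee (2 * n + 2)).injective
      rw [map_neg, ee_tr, ee_tr, ee_tr, ee_tr, lan_lan])
    K hK hKP ((ee (2 * n + 2)).symm v)
    (by
      intro h
      apply hv
      have := congrArg (ee (2 * n + 2)) h
      rwa [LinearEquiv.apply_symm_apply, map_zero] at this)
    (by
      apply (ee (2 * n + 2)).injective
      rw [map_sum, map_smul, LinearEquiv.apply_symm_apply]
      simp only [ee_tr, LinearEquiv.apply_symm_apply]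
      have h1 : ∀ i, lcr (f i) (lan (f i) v) = ∑ a, ∑ b, (f i a * f i b) • cr a (an b v) := by
        intro i
        rw [lcr_apply, lan_apply]
        refine Finset.sum_congr rfl fun a _ => ?_
        rw [map_sum, Finset.smul_sum]
        refine Finset.sum_congr rfl fun b _ => ?_
        rw [map_smul, smul_smul]
      have h2 : ∑ i, lcr (f i) (lan (f i) v) =
          ∑ a, ∑ b, ((if a = b then (1:ℝ) else 0) - ∑ c, nu c a * nu c b) • cr a (an b v) := by
        simp only [h1]
        rw [Finset.sum_comm]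
        refine Finset.sum_congr rfl fun a _ => ?_
        rw [Finset.sum_comm]
        refine Finset.sum_congr rfl fun b _ => ?_
        rw [← Finset.sum_smul, complete f nu hf hfn hn]
      rw [h2]
      have h3 : ∀ a, ∑ b, ((if a = b then (1:ℝ) else 0) - ∑ c, nu c a * nu c b) • cr a (an b v) =
          cr a (an a v) := by
        intro a
        simp only [sub_smul, Finset.sum_sub_distrib, ite_smul, one_smul, zero_smul,
          Finset.sum_ite_eq, Finset.mem_univ, if_true, Finset.sum_smul]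
        rw [Finset.sum_comm]
        have h4 : ∀ c, ∑ b, (nu c a * nu c b) • cr a (an b v) = 0 := by
          intro c
          have h5 : ∑ b, (nu c a * nu c b) • cr a (an b v) = nu c a • cr a (lan (nu c) v) := by
            rw [lan_apply, map_sum, Finset.smul_sum]
            refine Finset.sum_congr rfl fun b _ => ?_
            rw [map_smul, smul_smul]
          rw [h5, hv2, map_zero, smul_zero]
        simp only [h4, Finset.sum_const_zero, sub_zero]
      simp only [h3]
      funext S
      rw [number, Pi.smul_apply, smul_eq_mul]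
      by_cases hS : S.card = n
      · rw [hS]
      · rw [hv1 S hS, mul_zero, mul_zero])
  rw [QQ_eq f K R hR v]
  refine lt_of_lt_of_eq key ?_
  refine Finset.sum_congr rfl fun i _ => Finset.sum_congr rfl fun j _ =>
    Finset.sum_congr rfl fun k _ => Finset.sum_congr rfl fun l _ => ?_
  rw [inner_ee, ee_tr, ee_tr, ee_tr, ee_tr, LinearEquiv.apply_symm_apply]

theorem QQ_smul (R : Fin N → Fin N → Fin N → Fin N → ℝ) (t : ℝ) (v : Fk N ℝ) :
    QQ R (t • v) = t ^ 2 * QQ R v := by
  unfold QQ
  simp only [map_smul, ip_smul_left, ip_smul_right, Finset.mul_sum]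
  refine Finset.sum_congr rfl fun i _ => Finset.sum_congr rfl fun j _ =>
    Finset.sum_congr rfl fun k _ => Finset.sum_congr rfl fun l _ => ?_
  ring

/-! ### evaluation -/

variable {n : ℕ}

/-- evaluation of a form at a point -/
def evF (p : MM n) (u : Fk N (SmA n)) : Fk N ℝ := fun S => ev p (u S)

theorem evF_an (p : MM n) (i : Fin N) (u : Fk N (SmA n)) : evF p (an i u) = an i (evF p u) := by
  funext S
  simp only [evF, an_apply]
  split_ifs
  · exact map_zero _
  · rw [map_mul, map_intCast]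

theorem evF_cr (p : MM n) (i : Fin N) (u : Fk N (SmA n)) : evF p (cr i u) = cr i (evF p u) := by
  funext S
  simp only [evF, cr_apply]
  split_ifs
  · rw [map_mul, map_intCast]
  · exact map_zero _

theorem ev_ip (p : MM n) (u v : Fk N (SmA n)) : ev p (ip u v) = ip (evF p u) (evF p v) := by
  unfold ip
  rw [map_sum]
  refine Finset.sum_congr rfl fun S _ => ?_
  rw [map_mul]
  rfl

theorem ev_ric (p : MM n) (F : Fr N (SmA n)) (u : Fk N (SmA n)) :
    ev p (ric F u) = QQ (fun a b c d => - ev p (Rm F a b c d)) (evF p u) := by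
  unfold ric QQ
  rw [map_neg, map_sum, ← Finset.sum_neg_distrib]
  refine Finset.sum_congr rfl fun a _ => ?_
  rw [map_sum, ← Finset.sum_neg_distrib]
  refine Finset.sum_congr rfl fun b _ => ?_
  rw [map_sum, ← Finset.sum_neg_distrib]
  refine Finset.sum_congr rfl fun c _ => ?_
  rw [map_sum, ← Finset.sum_neg_distrib]
  refine Finset.sum_congr rfl fun d _ => ?_
  rw [map_mul, ev_ip, evF_cr, evF_an, evF_cr, evF_an, neg_mul]

theorem evF_lan (p : MM n) (w : Fin N → SmA n) (u : Fk N (SmA n)) :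
    evF p (∑ b, w b • an b u) = lan (fun b => ev p (w b)) (evF p u) := by
  rw [lan_apply]
  funext S
  simp only [evF, Finset.sum_apply, Pi.smul_apply, smul_eq_mul, map_sum, map_mul]
  refine Finset.sum_congr rfl fun b _ => ?_
  rw [← evF_an]
  rfl

theorem continuous_ev (f : SmA n) : Continuous fun p : MM n => ev p f := by
  have h : ContMDiff (IM n) 𝓘(ℝ, ℝ) ∞ f.1 := f.2
  exact h.continuous

theorem continuous_an (i : Fin N) : Continuous fun v : Fk N ℝ => an i v :=
  (an (A := ℝ) i).continuous_of_finiteDimensional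

theorem continuous_cr (i : Fin N) : Continuous fun v : Fk N ℝ => cr i v :=
  (cr (A := ℝ) i).continuous_of_finiteDimensional

theorem continuous_ip : Continuous fun q : Fk N ℝ × Fk N ℝ => ip q.1 q.2 := by
  unfold ip
  fun_prop

/-- the compact set -/
def CS {k : ℕ} {μ : Measure (MM n)} (D : GeoDat n k μ) : Set (MM n × Fk (2 * n + 2) ℝ) :=
  {q | ip q.2 q.2 = 1 ∧ (∀ S, S.card ≠ n → q.2 S = 0) ∧
    ∀ c, lan (fun b => ev q.1 (D.nu c b)) q.2 = 0}

theorem isCompact_CS {k : ℕ} {μ : Measure (MM n)} (D : GeoDat n k μ) : IsCompact (CS D) := by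
  have hK : IsCompact ((Set.univ : Set (MM n)) ×ˢ
      (Set.pi Set.univ fun _ : Finset (Fin (2 * n + 2)) => Set.Icc (-1 : ℝ) 1)) :=
    isCompact_univ.prod (isCompact_univ_pi fun _ => isCompact_Icc)
  refine hK.of_isClosed_subset ?_ ?_
  · unfold CS
    refine IsClosed.inter ?_ (IsClosed.inter ?_ ?_)
    · refine isClosed_eq ?_ continuous_const
      exact continuous_ip.comp (continuous_snd.prodMk continuous_snd)
    · have : {q : MM n × Fk (2 * n + 2) ℝ | ∀ S, S.card ≠ n → q.2 S = 0} =
          ⋂ S, ⋂ (_ : S.card ≠ n), {q : MM n × Fk (2 * n + 2) ℝ | q.2 S = 0} := by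
        ext q
        simp
      change IsClosed {q : MM n × Fk (2 * n + 2) ℝ | ∀ S, S.card ≠ n → q.2 S = 0}
      rw [this]
      refine isClosed_iInter fun S => isClosed_iInter fun _ => ?_
      exact isClosed_eq ((continuous_apply S).comp continuous_snd) continuous_const
    · change IsClosed {q : MM n × Fk (2 * n + 2) ℝ | ∀ c, lan (fun b => ev q.1 (D.nu c b)) q.2 = 0}
      have : {q : MM n × Fk (2 * n + 2) ℝ | ∀ c, lan (fun b => ev q.1 (D.nu c b)) q.2 = 0} =
          ⋂ c, {q : MM n × Fk (2 * n + 2) ℝ | lan (fun b => ev q.1 (D.nu c b)) q.2 = 0} := by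
        ext q
        simp
      rw [this]
      refine isClosed_iInter fun c => ?_
      refine isClosed_eq ?_ continuous_const
      simp only [lan_apply]
      refine continuous_finsetSum _ fun b _ => ?_
      exact ((continuous_ev (D.nu c b)).comp continuous_fst).smul
        ((continuous_an b).comp continuous_snd)
  · rintro ⟨p, v⟩ ⟨h1, -, -⟩
    refine ⟨Set.mem_univ _, fun S _ => ?_⟩
    have h2 : v S * v S ≤ 1 := by
      rw [← h1]
      unfold ip
      exact Finset.single_le_sum (f := fun S => v S * v S) (fun S _ => mul_self_nonneg _)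
        (Finset.mem_univ S)
    exact abs_le.1 (by
      rw [← abs_mul_abs_self, ← pow_two] at h2
      exact (sq_le_one_iff₀ (abs_nonneg _)).1 h2)

theorem continuous_QQ {k : ℕ} {μ : Measure (MM n)} (D : GeoDat n k μ) :
    Continuous fun q : MM n × Fk (2 * n + 2) ℝ =>
      QQ (fun a b c d => - ev q.1 (Rm D.F a b c d)) q.2 := by
  unfold QQ
  refine continuous_finsetSum _ fun a _ => continuous_finsetSum _ fun b _ =>
    continuous_finsetSum _ fun c _ => continuous_finsetSum _ fun d _ => ?_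
  refine Continuous.mul ((continuous_ev (Rm D.F a b c d)).comp continuous_fst).neg ?_
  exact continuous_ip.comp
    (((continuous_cr b).comp ((continuous_an a).comp continuous_snd)).prodMk
      ((continuous_cr d).comp ((continuous_an c).comp continuous_snd)))

theorem ip_self_nonneg (v : Fk N ℝ) : 0 ≤ ip v v :=
  Finset.sum_nonneg fun _ _ => mul_self_nonneg _

theorem ip_self_eq_zero {v : Fk N ℝ} (h : ip v v = 0) : v = 0 := by
  funext S
  have := (Finset.sum_eq_zero_iff_of_nonneg (fun S _ => mul_self_nonneg (v S))).1 h S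
    (Finset.mem_univ S)
  exact mul_self_eq_zero.1 this

end Ric

open Ric in
theorem s_ric : S_RIC := by
  intro n μ _ hA D
  have hpos : ∀ q ∈ CS D, 0 < QQ (fun a b c d => - ev q.1 (Rm D.F a b c d)) q.2 := by
    rintro ⟨p, v⟩ ⟨h1, h2, h3⟩
    obtain ⟨f, K, hf, hfn, hK, hKP, hR⟩ := D.pos p
    refine QQ_pos hA f (fun c b => ev p (D.nu c b)) hf hfn ?_ K hK hKP _ hR v ?_ h2 h3
    · intro a a'
      have := congrArg (ev p) (D.nu_on a a')
      rw [map_sum] at this
      simp only [map_mul] at this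
      rw [this]
      split_ifs
      · exact map_one _
      · exact map_zero _
    · rintro rfl
      rw [ip_zero_left] at h1
      exact zero_ne_one h1
  obtain ⟨c, hc, hcle⟩ : ∃ c : ℝ, 0 < c ∧ ∀ q ∈ CS D,
      c ≤ QQ (fun a b c d => - ev q.1 (Rm D.F a b c d)) q.2 := by
    rcases (CS D).eq_empty_or_nonempty with h | h
    · exact ⟨1, one_pos, fun q hq => by rw [h] at hq; exact absurd hq (Set.notMem_empty q)⟩
    · obtain ⟨q, hq, hmin⟩ := (isCompact_CS D).exists_isMinOn h (continuous_QQ D).continuousOn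
      exact ⟨_, hpos q hq, fun q' hq' => hmin hq'⟩
  refine ⟨c, hc, fun u hu p => ?_⟩
  rw [ev_ric, ev_ip]
  by_cases h0 : ip (evF p u) (evF p u) = 0
  · rw [h0, mul_zero, ip_self_eq_zero h0]
    unfold QQ
    simp [ip_zero_left]
  · have hp : 0 < ip (evF p u) (evF p u) := lt_of_le_of_ne (ip_self_nonneg _) (Ne.symm h0)
    set t := Real.sqrt (ip (evF p u) (evF p u)) with ht
    have htp : 0 < t := Real.sqrt_pos.2 hp
    have htt : t * t = ip (evF p u) (evF p u) := Real.mul_self_sqrt hp.le
    have hmem : ((p, t⁻¹ • evF p u) : MM n × Fk (2 * n + 2) ℝ) ∈ CS D := by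
      refine ⟨?_, ?_, ?_⟩
      · change ip (t⁻¹ • evF p u) (t⁻¹ • evF p u) = 1
        rw [ip_smul_left, ip_smul_right, ← htt]
        field_simp
      · intro S hS
        change t⁻¹ * ev p (u S) = 0
        rw [hu.1 S hS, map_zero, mul_zero]
      · intro c
        change lan (fun b => ev p (D.nu c b)) (t⁻¹ • evF p u) = 0
        rw [map_smul, ← evF_lan]
        have h := hu.2 c
        unfold anu at h
        rw [h]
        have : evF p (0 : Fk (2 * n + 2) (SmA n)) = 0 := by
          funext S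
          exact map_zero _
        rw [this, smul_zero]
    have h1 := hcle _ hmem
    have h2 : evF p u = t • (t⁻¹ • evF p u) := by
      rw [smul_smul, mul_inv_cancel₀ htp.ne', one_smul]
    rw [← htt]
    calc c * (t * t) = t ^ 2 * c := by ring
      _ ≤ t ^ 2 * QQ (fun a b c d => - ev p (Rm D.F a b c d)) (t⁻¹ • evF p u) :=
        mul_le_mul_of_nonneg_left h1 (by positivity)
      _ = QQ (fun a b c d => - ev p (Rm D.F a b c d)) (t • (t⁻¹ • evF p u)) :=
        (QQ_smul _ t _).symm
      _ = QQ (fun a b c d => - ev p (Rm D.F a b c d)) (evF p u) := by rw [← h2]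

end Pool.Agent.H781.NG
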