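import Pool.Agent.H781.NG.Spec4
import Pool.Agent.H781.NG.AlgH
import Pool.Agent.H781.NG.Ric
import Pool.Agent.H781.NG.Ph

/-!
The algebraic lemma for `n = 4`: assembly.
-/

set_option autoImplicit false
set_option maxHeartbeats 4000000

noncomputable section

namespace Pool.Agent.H781.NG

open Finset Alg
open scoped RealInnerProductSpace Matrix
open Pool.Agent.H781.S22 (Pr)

namespace Alg4

theorem nF_eq {ι κ : Type} [Fintype ι] [Fintype κ] (M : Matrix ι κ ℝ) :
    nF M = (Mᵀ * M).trace := by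
  unfold nF Matrix.trace
  rw [Finset.sum_comm]
  refine Finset.sum_congr rfl fun j _ => ?_
  rw [Matrix.diag_apply, Matrix.mul_apply]
  refine Finset.sum_congr rfl fun i _ => ?_
  rw [Matrix.transpose_apply, pow_two]

/-- the combination `∑ a_p R_p` -/
def cmb (R : Pr 8 → M8) (a : Pr 8 → ℝ) : M8 := ∑ p, a p • R p

theorem cmb_skew {R : Pr 8 → M8} (hR : ∀ p, (R p)ᵀ = - R p) (a : Pr 8 → ℝ) :
    (cmb R a)ᵀ = - cmb R a := by
  unfold cmb
  rw [Matrix.transpose_sum, ← Finset.sum_neg_distrib]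
  refine Finset.sum_congr rfl fun p _ => ?_
  rw [Matrix.transpose_smul, hR, smul_neg]

/-- the matrix of the form `tr (s Rᵀ R)` -/
def sM (s : M8) (R : Pr 8 → M8) : Matrix (Pr 8) (Pr 8) ℝ :=
  Matrix.of fun p q => (s * ((R p)ᵀ * R q)).trace

theorem cmb_sM (s : M8) (R : Pr 8 → M8) (a : Pr 8 → ℝ) :
    (s * ((cmb R a)ᵀ * cmb R a)).trace = a ⬝ᵥ (sM s R *ᵥ a) := by
  unfold cmb
  simp only [Matrix.transpose_sum, Matrix.transpose_smul, Finset.sum_mul, Finset.mul_sum,
    Matrix.trace_sum, dotProduct, Matrix.mulVec, sM, Matrix.of_apply, Matrix.smul_mul,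
    Matrix.mul_smul, Matrix.trace_smul, smul_eq_mul]
  rw [Finset.sum_comm]
  refine Finset.sum_congr rfl fun p _ => Finset.sum_congr rfl fun q _ => ?_
  ring

theorem cmb_nF (R : Pr 8 → M8) (hR : ∀ p q, ((R p)ᵀ * R q).trace = if p = q then 2 else 0)
    (a : Pr 8 → ℝ) : (1 / 2) * nF (cmb R a) = a ⬝ᵥ a := by
  have h := cmb_sM 1 R a
  rw [one_mul, ← nF_eq] at h
  rw [h]
  simp only [dotProduct, Matrix.mulVec, sM, Matrix.of_apply, one_mul, hR]
  rw [Finset.mul_sum]
  refine Finset.sum_congr rfl fun p _ => ?_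
  simp
  ring

/-- the commutator with a combination -/
theorem cmb_comm (R : Pr 8 → M8) (a : Pr 8 → ℝ) (X : M8) :
    cmb R a * X - X * cmb R a = ∑ p, a p • (R p * X - X * R p) := by
  unfold cmb
  rw [Finset.sum_mul, Finset.mul_sum, ← Finset.sum_sub_distrib]
  refine Finset.sum_congr rfl fun p _ => ?_
  rw [Matrix.smul_mul, Matrix.mul_smul, smul_sub]

section gam

variable {A B : Fin 8 → M8}
  (hAB : ∀ i j, A i * B j + A j * B i = if i = j then (2 : M8) else 0)
  (hBA : ∀ i j, B i * A j + B j * A i = if i = j then (2 : M8) else 0)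

include hAB in
theorem self_one (i : Fin 8) : A i * B i = 1 := by
  have h := hAB i i
  rw [if_pos rfl, ← two_mul] at h
  have h2 : (2 : M8) * (A i * B i) = 2 * 1 := by rw [h, mul_one]
  have h3 : ((2 : ℝ) • (A i * B i) : M8) = (2 : ℝ) • (1 : M8) := by
    rw [two_smul, two_smul, ← two_mul, ← two_mul]
    exact h2
  exact smul_right_injective M8 (two_ne_zero (α := ℝ)) h3

include hAB in
theorem anti (i j : Fin 8) (hij : i ≠ j) : A j * B i = - (A i * B j) := by
  have h := hAB i j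
  rw [if_neg hij] at h
  rw [eq_neg_iff_add_eq_zero, add_comm]
  exact h

end gam

end Alg4

open Alg4

theorem s_n4 (hg : S_GAM) (hm : S_MODEL) (hl : S_LEM8) (hb : S_CLIFB) : AlgLemmaF 4 := by
  obtain ⟨G, hG⟩ := hg
  obtain ⟨Pp, Pm, hP⟩ := hm G hG
  intro K hK hpos u hu hdeg
  change CurvT (m := 8) K at hK
  change KPos (m := 8) (4 + 1) K at hpos
  obtain ⟨hX1, hY1, hX2, hY2, hq, -⟩ := hP u hdeg
  obtain ⟨s, hs1, hs2, hs3⟩ := hl (Pp u) hX1 hX2
  obtain ⟨s', hs1', hs2', hs3'⟩ := hl (Pm u) hY1 hY2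
  set q : ℝ := ip u u with hqd
  have hq0 : 0 < q := by
    rcases (Ric.ip_self_nonneg u).eq_or_lt with h | h
    · exact absurd (Ric.ip_self_eq_zero h.symm) hu
    · exact h
  -- the two families
  set R : Pr 8 → M8 := fun p => (1 / 2 : ℝ) • ((G p.1.1)ᵀ * G p.1.2) with hR
  set R' : Pr 8 → M8 := fun p => (1 / 2 : ℝ) • (G p.1.1 * (G p.1.2)ᵀ) with hR'
  have hRs : ∀ p, (R p)ᵀ = - R p := by
    intro p
    have h := anti (A := fun i => (G i)ᵀ) (B := G) hG.tr p.1.1 p.1.2 p.2.ne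
    simp only [hR]
    rw [Matrix.transpose_smul, Matrix.transpose_mul, Matrix.transpose_transpose, ← smul_neg]
    congr 1
  have hRs' : ∀ p, (R' p)ᵀ = - R' p := by
    intro p
    have h := anti (A := G) (B := fun i => (G i)ᵀ) hG.rt p.1.1 p.1.2 p.2.ne
    simp only [hR']
    rw [Matrix.transpose_smul, Matrix.transpose_mul, Matrix.transpose_transpose, ← smul_neg]
    congr 1
  have hRt : ∀ p q, ((R p)ᵀ * R q).trace = if p = q then 2 else 0 := by
    intro p q
    simp only [hR]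
    rw [Matrix.transpose_smul, Matrix.smul_mul, Matrix.mul_smul, smul_smul, Matrix.trace_smul,
      hG.trp, smul_eq_mul]
    split_ifs <;> norm_num
  have hRt' : ∀ p q, ((R' p)ᵀ * R' q).trace = if p = q then 2 else 0 := by
    intro p q
    simp only [hR']
    rw [Matrix.transpose_smul, Matrix.smul_mul, Matrix.mul_smul, smul_smul, Matrix.trace_smul,
      hG.trm, smul_eq_mul]
    split_ifs <;> norm_num
  have hRR : ∀ p, (R p)ᵀ * R p = (1 / 4 : ℝ) • (1 : M8) := by
    intro p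
    simp only [hR]
    rw [Matrix.transpose_smul, Matrix.smul_mul, Matrix.mul_smul, smul_smul, Matrix.transpose_mul,
      Matrix.transpose_transpose]
    have e : (G p.1.2)ᵀ * G p.1.1 * ((G p.1.1)ᵀ * G p.1.2) = 1 := by
      rw [Matrix.mul_assoc, ← Matrix.mul_assoc (G p.1.1),
        self_one (A := G) (B := fun i => (G i)ᵀ) hG.rt, Matrix.one_mul,
        self_one (A := fun i => (G i)ᵀ) (B := G) hG.tr]
    rw [e]
    norm_num
  have hRR' : ∀ p, (R' p)ᵀ * R' p = (1 / 4 : ℝ) • (1 : M8) := by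
    intro p
    simp only [hR']
    rw [Matrix.transpose_smul, Matrix.smul_mul, Matrix.mul_smul, smul_smul, Matrix.transpose_mul,
      Matrix.transpose_transpose]
    have e : G p.1.2 * (G p.1.1)ᵀ * (G p.1.1 * (G p.1.2)ᵀ) = 1 := by
      rw [Matrix.mul_assoc, ← Matrix.mul_assoc ((G p.1.1)ᵀ),
        self_one (A := fun i => (G i)ᵀ) (B := G) hG.tr, Matrix.one_mul,
        self_one (A := G) (B := fun i => (G i)ᵀ) hG.rt]
    rw [e]
    norm_num
  -- abstract representation
  let c : Fin 8 → Ric.HH 8 →ₗ[ℝ] Ric.HH 8 := fun i => Ric.tr (an i)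
  let cd : Fin 8 → Ric.HH 8 →ₗ[ℝ] Ric.HH 8 := fun i => Ric.tr (cr i)
  have hc : CAR c cd := by
    refine ⟨?_, ?_, ?_⟩
    · intro i x y
      rw [Ric.inner_ee, Ric.inner_ee, Ric.ee_tr, Ric.ee_tr, ip_an]
    · intro i j x
      apply (Ric.ee 8).injective
      rw [map_add, Ric.ee_tr, Ric.ee_tr, Ric.ee_tr, Ric.ee_tr, car]
      split_ifs with h
      · rfl
      · rw [map_zero]
    · intro i j x
      apply (Ric.ee 8).injective
      rw [map_neg, Ric.ee_tr, Ric.ee_tr, Ric.ee_tr, Ric.ee_tr, an_an]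
  set w : Ric.HH 8 := (Ric.ee 8).symm u with hw
  have hwu : Ric.ee 8 w = u := LinearEquiv.apply_symm_apply _ _
  have hcd : ∀ i j, Ric.ee 8 (cd i (c j w)) = cr i (an j u) := by
    intro i j
    rw [Ric.ee_tr, Ric.ee_tr, hwu]
  have hnw : ‖w‖ ^ 2 = q := by
    rw [← real_inner_self_eq_norm_sq, Ric.inner_ee, hwu]
  have hN : ∑ i, cd i (c i w) = (4 : ℝ) • w := by
    apply (Ric.ee 8).injective
    rw [map_sum, map_smul, hwu]
    simp only [hcd]
    funext S
    rw [number, Pi.smul_apply, smul_eq_mul]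
    by_cases hS : S.card = 4
    · rw [hS]; norm_num
    · rw [hdeg S hS, mul_zero, mul_zero]
  -- the goal in terms of `WM`
  have hgoal : ∑ i, ∑ j, ∑ k, ∑ l, K i j k l * ip (cr j (an i u)) (cr l (an k u)) =
      ∑ p : Pr 8, ∑ q : Pr 8, KM K p q * WM c cd w p q := by
    rw [← pairs_W hK]
    refine Finset.sum_congr rfl fun i _ => Finset.sum_congr rfl fun j _ =>
      Finset.sum_congr rfl fun k _ => Finset.sum_congr rfl fun l _ => ?_
    rw [Ric.inner_ee, hcd, hcd]
  rw [hgoal]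
  set W := WM c cd w with hW
  -- trace of `W`
  have htrW : W.trace = 16 * q := by
    have hw0 : 0 < ‖w‖ := by
      by_contra hcon
      have h0 : ‖w‖ = 0 := le_antisymm (not_lt.1 hcon) (norm_nonneg _)
      rw [h0] at hnw
      norm_num at hnw
      linarith
    set w1 := ‖w‖⁻¹ • w with hw1
    have hw11 : ‖w1‖ = 1 := by
      rw [hw1, norm_smul, norm_inv, norm_norm, inv_mul_cancel₀ hw0.ne']
    have hNw : ∑ i, cd i (c i w1) = (4 : ℝ) • w1 := by
      simp only [hw1, map_smul]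
      rw [← Finset.smul_sum, hN, smul_comm]
    have h := hc.trace hw11 hNw
    have hww : w = ‖w‖ • w1 := by
      rw [hw1, smul_smul, mul_inv_cancel₀ hw0.ne', one_smul]
    have key : ∀ (t : ℝ) (x : Ric.HH 8), WM c cd (t • x) = (t ^ 2) • WM c cd x := by
      intro t x
      ext p q
      rw [Matrix.smul_apply, smul_eq_mul, WM, WM, Matrix.of_apply, Matrix.of_apply, Wf, Wf,
        hat_smulx, hat_smulx, real_inner_smul_left, real_inner_smul_right]
      ring
    have e : W = (‖w‖ ^ 2) • WM c cd w1 := by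
      rw [← key, ← hww]
    rw [e, Matrix.trace_smul, h, hnw, smul_eq_mul]
    push_cast
    ring
  -- quadratic form of `W`
  have hWq : ∀ a : Pr 8 → ℝ, a ⬝ᵥ (W *ᵥ a) =
      nF (cmb R a * Pp u - Pp u * cmb R a) + nF (cmb R' a * Pm u - Pm u * cmb R' a) := by
    intro a
    set D : Fk 8 ℝ := ∑ p : Pr 8, a p • (cr p.1.1 (an p.1.2 u) - cr p.1.2 (an p.1.1 u)) with hD
    have hDdeg : ∀ S : Finset (Fin 8), S.card ≠ 4 → D S = 0 := by
      have h1 : Ph.Deg 4 D := by
        refine Ph.Deg.sum _ fun p => ?_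
        refine Ph.Deg.smul _ ?_
        rw [sub_eq_add_neg]
        exact (Ph.Deg.cr_an _ _ hdeg).add (Ph.Deg.cr_an _ _ hdeg).neg
      exact h1
    obtain ⟨-, -, -, -, hq2, -⟩ := hP D hDdeg
    have e1 : Pp D = cmb R a * Pp u - Pp u * cmb R a := by
      rw [cmb_comm, hD, map_sum]
      refine Finset.sum_congr rfl fun p _ => ?_
      rw [map_smul, ((hP u hdeg).2.2.2.2.2 p.1.1 p.1.2 p.2.ne).1]
    have e2 : Pm D = cmb R' a * Pm u - Pm u * cmb R' a := by
      rw [cmb_comm, hD, map_sum]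
      refine Finset.sum_congr rfl fun p _ => ?_
      rw [map_smul, ((hP u hdeg).2.2.2.2.2 p.1.1 p.1.2 p.2.ne).2]
    have e3 : a ⬝ᵥ (W *ᵥ a) = ip D D := by
      have e4 : Ric.ee 8 (hat c cd (sk a) w) = D := by
        rw [hat_sk, map_sum, hD]
        refine Finset.sum_congr rfl fun p _ => ?_
        rw [map_smul, hat_EE, map_sub, hcd, hcd]
      rw [hW, ← Wf_sk, Wf, Ric.inner_ee, e4]
    rw [e3, hq2, e1, e2]
  set P : Matrix (Pr 8) (Pr 8) ℝ := W - (sM s R + sM s' R') with hPd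
  have hPq : ∀ a : Pr 8 → ℝ, a ⬝ᵥ (P *ᵥ a) =
      (nF (cmb R a * Pp u - Pp u * cmb R a) - (s * ((cmb R a)ᵀ * cmb R a)).trace) +
      (nF (cmb R' a * Pm u - Pm u * cmb R' a) - (s' * ((cmb R' a)ᵀ * cmb R' a)).trace) := by
    intro a
    rw [hPd, Matrix.sub_mulVec, Matrix.add_mulVec, dotProduct_sub, dotProduct_add, hWq,
      cmb_sM, cmb_sM]
    ring
  -- orthogonality to `K`
  have horth : ∀ (A B : Fin 8 → M8),
      (∀ i j, A i * B j + A j * B i = if i = j then (2 : M8) else 0) →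
      (∀ i j, B i * A j + B j * A i = if i = j then (2 : M8) else 0) →
      ∀ (t : M8), t.trace = 0 →
      ∑ p : Pr 8, ∑ q : Pr 8, KM K p q *
        (t * (((1 / 2 : ℝ) • (A p.1.1 * B p.1.2)) * ((1 / 2 : ℝ) • (A q.1.1 * B q.1.2)))).trace
        = 0 := by
    intro A B hAB hBA t ht
    obtain ⟨c0, hc0⟩ := hb 8 M8 A B hAB hBA K hK
    set F : Fin 8 → Fin 8 → Fin 8 → Fin 8 → ℝ := fun i j k l =>
      K i j k l * (t * (A i * B j * A k * B l)).trace with hF
    have hsym1 : ∀ i j k l, F i j k l = F j i k l := by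
      intro i j k l
      simp only [hF]
      by_cases hij : i = j
      · rw [hij]
      · rw [hK.anti1 i j k l, anti hAB i j hij]
        simp only [Matrix.neg_mul, Matrix.mul_neg, Matrix.trace_neg]
        ring
    have hsym2 : ∀ i j k l, F i j k l = F i j l k := by
      intro i j k l
      simp only [hF]
      by_cases hkl : k = l
      · rw [hkl]
      · rw [hK.anti2 i j k l]
        have e1 : A i * B j * A l * B k = - (A i * B j * A k * B l) := by
          rw [Matrix.mul_assoc (A i * B j) (A l), anti hAB k l hkl, Matrix.mul_neg,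
            Matrix.mul_assoc (A i * B j) (A k)]
        rw [e1, Matrix.mul_neg, Matrix.trace_neg]
        ring
    have h := sum_pr_pr F hsym1 hsym2
      (fun i k l => by simp only [hF]; rw [K_zero1 hK, zero_mul])
      (fun i j k => by simp only [hF]; rw [K_zero2 hK, zero_mul])
    have h2 : ∑ i, ∑ j, ∑ k, ∑ l, F i j k l = 0 := by
      have e1 : ∑ i, ∑ j, ∑ k, ∑ l, F i j k l =
          (t * ∑ i, ∑ j, ∑ k, ∑ l, K i j k l • (A i * B j * A k * B l)).trace := by
        simp only [Finset.mul_sum, Matrix.trace_sum, Matrix.mul_smul, Matrix.trace_smul,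
          smul_eq_mul, hF]
      rw [e1, hc0, Matrix.mul_smul, Matrix.mul_one, Matrix.trace_smul, ht, smul_zero]
    rw [h2] at h
    have h3 : ∑ p : Pr 8, ∑ q : Pr 8, KM K p q *
        (t * (((1 / 2 : ℝ) • (A p.1.1 * B p.1.2)) * ((1 / 2 : ℝ) • (A q.1.1 * B q.1.2)))).trace =
        (1 / 4) * ∑ p : Pr 8, ∑ q : Pr 8, F p.1.1 p.1.2 q.1.1 q.1.2 := by
      rw [Finset.mul_sum]
      refine Finset.sum_congr rfl fun p _ => ?_
      rw [Finset.mul_sum]
      refine Finset.sum_congr rfl fun q _ => ?_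
      have e : t * (((1 / 2 : ℝ) • (A p.1.1 * B p.1.2)) * ((1 / 2 : ℝ) • (A q.1.1 * B q.1.2))) =
          (1 / 4 : ℝ) • (t * (A p.1.1 * B p.1.2 * (A q.1.1 * B q.1.2))) := by
        simp only [Matrix.smul_mul, Matrix.mul_smul, smul_smul]
        norm_num
      rw [e, Matrix.trace_smul, smul_eq_mul]
      simp only [hF, KM, Matrix.of_apply]
      rw [Matrix.mul_assoc (A p.1.1 * B p.1.2) (A q.1.1)]
      ring
    rw [h3]
    linarith
  have hKT : ∑ p : Pr 8, ∑ q : Pr 8, KM K p q * (sM s R + sM s' R') p q = 0 := by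
    have e1 := horth (fun i => (G i)ᵀ) G hG.tr hG.rt s hs2
    have e2 := horth G (fun i => (G i)ᵀ) hG.rt hG.tr s' hs2'
    have e3 : ∀ p q : Pr 8, (sM s R + sM s' R') p q =
        - (s * (((1 / 2 : ℝ) • ((G p.1.1)ᵀ * G p.1.2)) *
          ((1 / 2 : ℝ) • ((G q.1.1)ᵀ * G q.1.2)))).trace
        - (s' * (((1 / 2 : ℝ) • (G p.1.1 * (G p.1.2)ᵀ)) *
          ((1 / 2 : ℝ) • (G q.1.1 * (G q.1.2)ᵀ)))).trace := by
      intro p q
      rw [Matrix.add_apply, sM, sM, Matrix.of_apply, Matrix.of_apply, hRs, hRs', Matrix.neg_mul,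
        Matrix.neg_mul, Matrix.mul_neg, Matrix.mul_neg, Matrix.trace_neg, Matrix.trace_neg]
      ring
    have e4 : ∑ p : Pr 8, ∑ q : Pr 8, KM K p q * (sM s R + sM s' R') p q =
        - (∑ p : Pr 8, ∑ q : Pr 8, KM K p q *
        (s * (((1 / 2 : ℝ) • ((G p.1.1)ᵀ * G p.1.2)) * ((1 / 2 : ℝ) • ((G q.1.1)ᵀ * G q.1.2)))).trace)
        - ∑ p : Pr 8, ∑ q : Pr 8, KM K p q *
        (s' * (((1 / 2 : ℝ) • (G p.1.1 * (G p.1.2)ᵀ)) * ((1 / 2 : ℝ) • (G q.1.1 * (G q.1.2)ᵀ)))).trace := by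
      simp only [e3, ← Finset.sum_neg_distrib, ← Finset.sum_sub_distrib]
      refine Finset.sum_congr rfl fun p _ => Finset.sum_congr rfl fun q _ => ?_
      ring
    rw [e4]
    rw [e1, e2]
    norm_num
  have hsum : ∑ p : Pr 8, ∑ q : Pr 8, KM K p q * W p q = ∑ p : Pr 8, ∑ q : Pr 8, KM K p q * P p q := by
    have e1 : ∑ p : Pr 8, ∑ q : Pr 8, KM K p q * P p q = ∑ p : Pr 8, ∑ q : Pr 8, KM K p q * W p q -
        ∑ p : Pr 8, ∑ q : Pr 8, KM K p q * (sM s R + sM s' R') p q := by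
      rw [← Finset.sum_sub_distrib]
      refine Finset.sum_congr rfl fun p _ => ?_
      rw [← Finset.sum_sub_distrib]
      refine Finset.sum_congr rfl fun q _ => ?_
      rw [hPd, Matrix.sub_apply]
      ring
    rw [e1, hKT, sub_zero]
  rw [hsum]
  have hKH : (KM K).IsHermitian := by
    ext p q
    simp only [Matrix.conjTranspose_apply, star_trivial, KM, Matrix.of_apply]
    exact hK.pair _ _ _ _
  have hcard := card_Pr 4 (by norm_num)
  have hsk := fun a => cmb_skew hRs a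
  have hsk' := fun a => cmb_skew hRs' a
  refine kyfan (KM K) P hKH (4 + 1) (by norm_num) hcard (hpos hKH) (L := (16 / 5) * q)
    (by positivity) ?_ ?_ ?_
  · intro a
    rw [hPq]
    exact add_nonneg (hs3 _ (hsk a)).1 (hs3' _ (hsk' a)).1
  · intro a
    rw [hPq]
    have h1 := (hs3 _ (hsk a)).2
    have h2 := (hs3' _ (hsk' a)).2
    rw [cmb_nF R hRt a] at h1
    rw [cmb_nF R' hRt' a] at h2
    rw [hq]
    linarith
  · have h0 : (sM s R).trace = 0 := by
      rw [Matrix.trace]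
      refine Finset.sum_eq_zero fun p _ => ?_
      rw [Matrix.diag_apply, sM, Matrix.of_apply, hRR, Matrix.mul_smul, Matrix.mul_one,
        Matrix.trace_smul, hs2, smul_zero]
    have h0' : (sM s' R').trace = 0 := by
      rw [Matrix.trace]
      refine Finset.sum_eq_zero fun p _ => ?_
      rw [Matrix.diag_apply, sM, Matrix.of_apply, hRR', Matrix.mul_smul, Matrix.mul_one,
        Matrix.trace_smul, hs2', smul_zero]
    rw [hPd, Matrix.trace_sub, Matrix.trace_add, h0, h0', htrW]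
    push_cast
    ring

end Pool.Agent.H781.NG
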