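import Mathlib

/-!
Canonical anticommutation relations on a real inner product space: quadratic operators.
-/

set_option autoImplicit false
set_option maxHeartbeats 1000000

noncomputable section

namespace Pool.Agent.H781.NG.Alg

open Finset
open scoped RealInnerProductSpace Matrix

variable {m : ℕ} {H : Type*} [NormedAddCommGroup H] [InnerProductSpace ℝ H]

/-- the canonical anticommutation relations -/
structure CAR (c cd : Fin m → H →ₗ[ℝ] H) : Prop where
  adj : ∀ i x y, ⟪c i x, y⟫ = ⟪x, cd i y⟫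
  car : ∀ i j x, c i (cd j x) + cd j (c i x) = if i = j then x else 0
  cc : ∀ i j x, c i (c j x) = - c j (c i x)

variable {c cd : Fin m → H →ₗ[ℝ] H} (hc : CAR c cd)

include hc

theorem CAR.adj' (i : Fin m) (x y : H) : ⟪cd i x, y⟫ = ⟪x, c i y⟫ := by
  rw [real_inner_comm, ← hc.adj, real_inner_comm]

theorem CAR.dd (i j : Fin m) (x : H) : cd i (cd j x) = - cd j (cd i x) := by
  apply ext_inner_right ℝ
  intro y
  rw [hc.adj', hc.adj', inner_neg_left, hc.adj', hc.adj', hc.cc j i, inner_neg_right]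

omit hc

/-- `c(v)` -/
def cv (c : Fin m → H →ₗ[ℝ] H) (v : Fin m → ℝ) : H →ₗ[ℝ] H := ∑ i, v i • c i

theorem cv_apply (c : Fin m → H →ₗ[ℝ] H) (v : Fin m → ℝ) (x : H) :
    cv c v x = ∑ i, v i • c i x := by
  simp [cv, LinearMap.sum_apply]

include hc

theorem CAR.vadj (v : Fin m → ℝ) (x y : H) : ⟪cv c v x, y⟫ = ⟪x, cv cd v y⟫ := by
  rw [cv_apply, cv_apply, sum_inner, inner_sum]
  refine Finset.sum_congr rfl fun i _ => ?_
  rw [real_inner_smul_left, real_inner_smul_right, hc.adj]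

theorem CAR.vadj' (v : Fin m → ℝ) (x y : H) : ⟪cv cd v x, y⟫ = ⟪x, cv c v y⟫ := by
  rw [real_inner_comm, ← hc.vadj, real_inner_comm]

theorem CAR.vcar (u v : Fin m → ℝ) (x : H) :
    cv c u (cv cd v x) + cv cd v (cv c u x) = (u ⬝ᵥ v) • x := by
  have h1 : cv c u (cv cd v x) = ∑ i, ∑ j, (u i * v j) • c i (cd j x) := by
    rw [cv_apply]
    refine Finset.sum_congr rfl fun i _ => ?_
    rw [cv_apply, map_sum, Finset.smul_sum]
    refine Finset.sum_congr rfl fun j _ => ?_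
    rw [map_smul, smul_smul]
  have h2 : cv cd v (cv c u x) = ∑ i, ∑ j, (u i * v j) • cd j (c i x) := by
    rw [cv_apply, Finset.sum_comm]
    refine Finset.sum_congr rfl fun j _ => ?_
    rw [cv_apply, map_sum, Finset.smul_sum]
    refine Finset.sum_congr rfl fun i _ => ?_
    rw [map_smul, smul_smul, mul_comm]
  rw [h1, h2, ← Finset.sum_add_distrib]
  have h3 : ∀ i, ∑ j, (u i * v j) • c i (cd j x) + ∑ j, (u i * v j) • cd j (c i x) =
      (u i * v i) • x := by
    intro i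
    rw [← Finset.sum_add_distrib]
    have : ∀ j, (u i * v j) • c i (cd j x) + (u i * v j) • cd j (c i x) =
        if i = j then (u i * v j) • x else 0 := by
      intro j
      rw [← smul_add, hc.car]
      split_ifs <;> simp
    rw [Finset.sum_congr rfl fun j _ => this j]
    simp
  rw [Finset.sum_congr rfl fun i _ => h3 i, ← Finset.sum_smul]
  rfl

theorem CAR.vsq (v : Fin m → ℝ) (x : H) : cv c v (cv c v x) = 0 := by
  have h1 : cv c v (cv c v x) = ∑ i, ∑ j, (v i * v j) • c i (c j x) := by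
    rw [cv_apply]
    refine Finset.sum_congr rfl fun i _ => ?_
    rw [cv_apply, map_sum, Finset.smul_sum]
    refine Finset.sum_congr rfl fun j _ => ?_
    rw [map_smul, smul_smul]
  have h2 : cv c v (cv c v x) = - cv c v (cv c v x) := by
    conv_lhs => rw [h1, Finset.sum_comm]
    rw [h1, ← Finset.sum_neg_distrib]
    refine Finset.sum_congr rfl fun i _ => ?_
    rw [← Finset.sum_neg_distrib]
    refine Finset.sum_congr rfl fun j _ => ?_
    rw [hc.cc j i, smul_neg, mul_comm]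
  rw [eq_neg_iff_add_eq_zero, ← two_smul ℝ] at h2
  exact (smul_eq_zero.1 h2).resolve_left two_ne_zero

/-- `‖c†(u) a‖² = |u|² ‖a‖² - ‖c(u) a‖²` -/
theorem CAR.norm_cd (u : Fin m → ℝ) (a : H) :
    ‖cv cd u a‖ ^ 2 = (u ⬝ᵥ u) * ‖a‖ ^ 2 - ‖cv c u a‖ ^ 2 := by
  rw [← real_inner_self_eq_norm_sq, ← real_inner_self_eq_norm_sq, ← real_inner_self_eq_norm_sq,
    hc.vadj', hc.vadj, ← real_inner_smul_right, ← inner_sub_right]
  congr 1
  rw [← hc.vcar u u a]
  abel

/-- the rotation `R_{uv} = c†(u) c(v) - c†(v) c(u)` -/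
def rot (c cd : Fin m → H →ₗ[ℝ] H) (u v : Fin m → ℝ) (x : H) : H :=
  cv cd u (cv c v x) - cv cd v (cv c u x)

/-- `‖R_{uv} x‖² = |u|²‖c(v)x‖² + |v|²‖c(u)x‖² - 2‖c(u)c(v)x‖²` for `u ⊥ v` -/
theorem CAR.norm_rot {u v : Fin m → ℝ} (huv : u ⬝ᵥ v = 0) (x : H) :
    ‖rot c cd u v x‖ ^ 2 = (u ⬝ᵥ u) * ‖cv c v x‖ ^ 2 + (v ⬝ᵥ v) * ‖cv c u x‖ ^ 2
      - 2 * ‖cv c u (cv c v x)‖ ^ 2 := by
  have h1 : ‖rot c cd u v x‖ ^ 2 = ‖cv cd u (cv c v x)‖ ^ 2 -
      2 * ⟪cv cd u (cv c v x), cv cd v (cv c u x)⟫ + ‖cv cd v (cv c u x)‖ ^ 2 :=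
    norm_sub_sq_real _ _
  have h2 : ⟪cv cd u (cv c v x), cv cd v (cv c u x)⟫ = 0 := by
    rw [hc.vadj']
    have h := hc.vcar u v (cv c u x)
    rw [huv, zero_smul, hc.vsq u x, map_zero, add_zero] at h
    rw [h, inner_zero_right]
  have h3 : ‖cv c v (cv c u x)‖ = ‖cv c u (cv c v x)‖ := by
    have e : cv c v (cv c u x) = - cv c u (cv c v x) := by
      have e1 : ∀ a b : Fin m → ℝ, cv c a (cv c b x) = ∑ i, ∑ j, (a i * b j) • c i (c j x) := by
        intro a b
        rw [cv_apply]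
        refine Finset.sum_congr rfl fun i _ => ?_
        rw [cv_apply, map_sum, Finset.smul_sum]
        refine Finset.sum_congr rfl fun j _ => ?_
        rw [map_smul, smul_smul]
      rw [e1, e1, Finset.sum_comm, ← Finset.sum_neg_distrib]
      refine Finset.sum_congr rfl fun i _ => ?_
      rw [← Finset.sum_neg_distrib]
      refine Finset.sum_congr rfl fun j _ => ?_
      rw [hc.cc j i, smul_neg, mul_comm]
    rw [e, norm_neg]
  rw [h1, h2, hc.norm_cd, hc.norm_cd, h3]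
  ring

/-- `‖R_{uv} x‖ ≤ |u| |v| ‖x‖` for `u ⊥ v` -/
theorem CAR.norm_rot_le {u v : Fin m → ℝ} (huv : u ⬝ᵥ v = 0) (x : H) :
    ‖rot c cd u v x‖ ^ 2 ≤ (u ⬝ᵥ u) * (v ⬝ᵥ v) * ‖x‖ ^ 2 := by
  have h1 := hc.norm_rot huv x
  have h2 := hc.norm_cd u (cv cd v x)
  have h3 := hc.norm_cd v x
  have h4 : cv c u (cv cd v x) = - cv cd v (cv c u x) := by
    have h := hc.vcar u v x
    rw [huv, zero_smul] at h
    exact eq_neg_of_add_eq_zero_left h
  have h5 := hc.norm_cd v (cv c u x)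
  have h6 : ‖cv c v (cv c u x)‖ = ‖cv c u (cv c v x)‖ := by
    have h7 := hc.norm_rot huv x
    have h8 := hc.norm_rot (u := v) (v := u) (by rw [dotProduct_comm]; exact huv) x
    have h9 : ‖rot c cd v u x‖ = ‖rot c cd u v x‖ := by
      unfold rot
      rw [norm_sub_rev]
    rw [h9, h7] at h8
    have h10 : ‖cv c v (cv c u x)‖ ^ 2 = ‖cv c u (cv c v x)‖ ^ 2 := by linarith
    exact (pow_left_inj₀ (norm_nonneg _) (norm_nonneg _) two_ne_zero).1 h10
  rw [h4, norm_neg, h5, h6, h3] at h2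
  have h7 : 0 ≤ ‖cv cd u (cv cd v x)‖ ^ 2 := by positivity
  have h8 : 0 ≤ ‖cv c u (cv c v x)‖ ^ 2 := by positivity
  nlinarith

omit hc

/-- the operator `B̂ = ∑ B_ij c_i† c_j` -/
def hat (c cd : Fin m → H →ₗ[ℝ] H) (B : Matrix (Fin m) (Fin m) ℝ) (x : H) : H :=
  ∑ i, ∑ j, B i j • cd i (c j x)

theorem hat_addx (c cd : Fin m → H →ₗ[ℝ] H) (B : Matrix (Fin m) (Fin m) ℝ) (x y : H) :
    hat c cd B (x + y) = hat c cd B x + hat c cd B y := by
  simp only [hat, map_add, smul_add, Finset.sum_add_distrib]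

theorem hat_smulx (c cd : Fin m → H →ₗ[ℝ] H) (B : Matrix (Fin m) (Fin m) ℝ) (t : ℝ) (x : H) :
    hat c cd B (t • x) = t • hat c cd B x := by
  simp only [hat, map_smul, Finset.smul_sum]
  refine Finset.sum_congr rfl fun i _ => Finset.sum_congr rfl fun j _ => ?_
  rw [smul_comm]

theorem hat_negx (c cd : Fin m → H →ₗ[ℝ] H) (B : Matrix (Fin m) (Fin m) ℝ) (x : H) :
    hat c cd B (-x) = - hat c cd B x := by
  have := hat_smulx c cd B (-1) x
  simpa using this

theorem hat_subx (c cd : Fin m → H →ₗ[ℝ] H) (B : Matrix (Fin m) (Fin m) ℝ) (x y : H) :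
    hat c cd B (x - y) = hat c cd B x - hat c cd B y := by
  rw [sub_eq_add_neg, hat_addx, hat_negx, ← sub_eq_add_neg]

theorem hat_add (c cd : Fin m → H →ₗ[ℝ] H) (A B : Matrix (Fin m) (Fin m) ℝ) (x : H) :
    hat c cd (A + B) x = hat c cd A x + hat c cd B x := by
  simp only [hat, Matrix.add_apply, add_smul, Finset.sum_add_distrib]

theorem hat_smul (c cd : Fin m → H →ₗ[ℝ] H) (t : ℝ) (B : Matrix (Fin m) (Fin m) ℝ) (x : H) :
    hat c cd (t • B) x = t • hat c cd B x := by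
  simp only [hat, Matrix.smul_apply, smul_eq_mul, Finset.smul_sum, smul_smul]

theorem hat_sub (c cd : Fin m → H →ₗ[ℝ] H) (A B : Matrix (Fin m) (Fin m) ℝ) (x : H) :
    hat c cd (A - B) x = hat c cd A x - hat c cd B x := by
  have h : A - B = A + (-1 : ℝ) • B := by
    rw [neg_one_smul, sub_eq_add_neg]
  rw [h, hat_add, hat_smul, neg_one_smul, sub_eq_add_neg]

theorem hat_sum {κ : Type*} (c cd : Fin m → H →ₗ[ℝ] H) (s : Finset κ)
    (B : κ → Matrix (Fin m) (Fin m) ℝ) (x : H) :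
    hat c cd (∑ k ∈ s, B k) x = ∑ k ∈ s, hat c cd (B k) x := by
  classical
  induction s using Finset.induction_on with
  | empty =>
    simp only [Finset.sum_empty]
    have := hat_smul c cd 0 0 x
    simpa using this
  | insert a s ha ih => rw [Finset.sum_insert ha, Finset.sum_insert ha, hat_add, ih]

theorem rot_eq_hat (u v : Fin m → ℝ) (x : H) :
    rot c cd u v x = hat c cd (Matrix.vecMulVec u v - Matrix.vecMulVec v u) x := by
  rw [hat_sub]
  have h : ∀ a b : Fin m → ℝ, cv cd a (cv c b x) = hat c cd (Matrix.vecMulVec a b) x := by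
    intro a b
    rw [cv_apply, hat]
    refine Finset.sum_congr rfl fun i _ => ?_
    rw [cv_apply, map_sum, Finset.smul_sum]
    refine Finset.sum_congr rfl fun j _ => ?_
    rw [map_smul, smul_smul, Matrix.vecMulVec_apply]
  rw [rot, h, h]

include hc

/-- the adjoint of `B̂` is the operator of the transpose -/
theorem CAR.hat_adj (B : Matrix (Fin m) (Fin m) ℝ) (x y : H) :
    ⟪hat c cd B x, y⟫ = ⟪x, hat c cd Bᵀ y⟫ := by
  simp only [hat, sum_inner, inner_sum, Matrix.transpose_apply]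
  rw [Finset.sum_comm]
  refine Finset.sum_congr rfl fun i _ => Finset.sum_congr rfl fun j _ => ?_
  rw [real_inner_smul_left, real_inner_smul_right, hc.adj', hc.adj]

theorem CAR.hat_skew {B : Matrix (Fin m) (Fin m) ℝ} (hB : Bᵀ = -B) (x y : H) :
    ⟪hat c cd B x, y⟫ = - ⟪x, hat c cd B y⟫ := by
  rw [hc.hat_adj, hB]
  have : hat c cd (-B) y = - hat c cd B y := by
    have := hat_smul c cd (-1) B y
    simpa using this
  rw [this, inner_neg_right]

/-- `c_j` and `B̂` -/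
theorem CAR.c_hat (B : Matrix (Fin m) (Fin m) ℝ) (k : Fin m) (x : H) :
    c k (hat c cd B x) = hat c cd B (c k x) + ∑ j, B k j • c j x := by
  have h1 : c k (hat c cd B x) = ∑ i, ∑ j, B i j • c k (cd i (c j x)) := by
    simp only [hat, map_sum, map_smul]
  have h2 : ∀ i j, c k (cd i (c j x)) = (if k = i then c j x else 0) + cd i (c j (c k x)) := by
    intro i j
    have h3 := hc.car k i (c j x)
    rw [hc.cc k j, map_neg] at h3
    rw [← h3]
    abel
  rw [h1]
  simp only [h2, smul_add, Finset.sum_add_distrib]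
  rw [add_comm]
  congr 1
  have h4 : ∀ i, ∑ j, B i j • (if k = i then c j x else 0) = if k = i then ∑ j, B i j • c j x else 0 := by
    intro i
    split_ifs
    · rfl
    · simp
  rw [Finset.sum_congr rfl fun i _ => h4 i]
  simp

theorem CAR.cd_hat (B : Matrix (Fin m) (Fin m) ℝ) (k : Fin m) (x : H) :
    cd k (hat c cd B x) = hat c cd B (cd k x) - ∑ i, B i k • cd i x := by
  have h1 : cd k (hat c cd B x) = ∑ i, ∑ j, B i j • cd k (cd i (c j x)) := by
    simp only [hat, map_sum, map_smul]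
  have h2 : ∀ i j, cd k (cd i (c j x)) = cd i (c j (cd k x)) - if j = k then cd i x else 0 := by
    intro i j
    have h3 := hc.car j k x
    have h4 : cd k (c j x) = (if j = k then x else 0) - c j (cd k x) := by
      rw [← h3]; abel
    rw [hc.dd k i, h4, map_sub]
    split_ifs
    · abel
    · rw [map_zero]; abel
  rw [h1]
  simp only [h2, smul_sub, Finset.sum_sub_distrib]
  rw [hat]
  congr 1
  refine Finset.sum_congr rfl fun i _ => ?_
  have h4 : ∀ j, B i j • (if j = k then cd i x else 0) = if j = k then B i j • cd i x else 0 := by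
    intro j
    split_ifs
    · rfl
    · simp
  rw [Finset.sum_congr rfl fun j _ => h4 j]
  simp

/-- commutators -/
theorem CAR.hat_comm (A B : Matrix (Fin m) (Fin m) ℝ) (x : H) :
    hat c cd A (hat c cd B x) - hat c cd B (hat c cd A x) = hat c cd (A * B - B * A) x := by
  have h1 : hat c cd A (hat c cd B x) = hat c cd B (hat c cd A x)
      + (∑ i, ∑ j, A i j • cd i (∑ l, B j l • c l x))
      - ∑ i, ∑ j, A i j • ∑ l, B l i • cd l (c j x) := by
    conv_lhs => rw [hat]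
    have h2 : ∀ i j, A i j • cd i (c j (hat c cd B x)) = A i j • hat c cd B (cd i (c j x))
        + A i j • cd i (∑ l, B j l • c l x) - A i j • ∑ l, B l i • cd l (c j x) := by
      intro i j
      rw [hc.c_hat, map_add, hc.cd_hat]
      module
    simp only [h2, Finset.sum_sub_distrib, Finset.sum_add_distrib]
    congr 2
    have h3 : hat c cd A x = ∑ i, ∑ j, A i j • cd i (c j x) := rfl
    rw [h3]
    have h4 : ∀ {κ : Type} (s : Finset κ) (f : κ → H),
        hat c cd B (∑ k ∈ s, f k) = ∑ k ∈ s, hat c cd B (f k) := by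
      intro κ s f
      classical
      induction s using Finset.induction_on with
      | empty =>
        simp only [Finset.sum_empty]
        have := hat_smulx c cd B 0 0
        simpa using this
      | insert a s ha ih => rw [Finset.sum_insert ha, Finset.sum_insert ha, hat_addx, ih]
    rw [h4]
    refine Finset.sum_congr rfl fun i _ => ?_
    rw [h4]
    refine Finset.sum_congr rfl fun j _ => ?_
    rw [hat_smulx]
  rw [h1, hat_sub]
  have h5 : ∑ i, ∑ j, A i j • cd i (∑ l, B j l • c l x) = hat c cd (A * B) x := by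
    rw [hat]
    refine Finset.sum_congr rfl fun i _ => ?_
    simp only [map_sum, map_smul, Finset.smul_sum, smul_smul, Matrix.mul_apply, Finset.sum_smul]
    rw [Finset.sum_comm]
  have h6 : ∑ i, ∑ j, A i j • ∑ l, B l i • cd l (c j x) = hat c cd (B * A) x := by
    rw [hat]
    simp only [Finset.smul_sum, smul_smul, Matrix.mul_apply, Finset.sum_smul]
    have e1 : ∑ i, ∑ j, ∑ l, (A i j * B l i) • cd l (c j x) =
        ∑ i, ∑ l, ∑ j, (A i j * B l i) • cd l (c j x) :=
      Finset.sum_congr rfl fun i _ => Finset.sum_comm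
    rw [e1, Finset.sum_comm]
    refine Finset.sum_congr rfl fun l _ => ?_
    rw [Finset.sum_comm]
    refine Finset.sum_congr rfl fun j _ => Finset.sum_congr rfl fun i _ => ?_
    rw [mul_comm]
  rw [h5, h6]
  abel

omit hc

/-- squared norm of a skew matrix as a bivector -/
def nB (B : Matrix (Fin m) (Fin m) ℝ) : ℝ := (1 / 2) * ∑ i, ∑ j, B i j ^ 2

theorem nB_nonneg (B : Matrix (Fin m) (Fin m) ℝ) : 0 ≤ nB B := by
  unfold nB
  positivity

include hc

/-- the basic bound `‖B̂ x‖² ≤ (m/2) |B|² ‖x‖²` for skew `B` -/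
theorem CAR.hat_bound {B : Matrix (Fin m) (Fin m) ℝ} (hB : Bᵀ = -B) (x : H) :
    ‖hat c cd B x‖ ^ 2 ≤ (m / 2 : ℝ) * nB B * ‖x‖ ^ 2 := by
  set y := hat c cd B x with hy
  set Z : Fin m → Fin m → ℝ := fun i j => ⟪cd i (c j x) - cd j (c i x), y⟫ with hZ
  have hBs : ∀ i j, B j i = - B i j := by
    intro i j
    have := congrFun (congrFun hB i) j
    simpa using this
  have h1 : ‖y‖ ^ 2 = (1 / 2) * ∑ i, ∑ j, B i j * Z i j := by
    have e1 : ‖y‖ ^ 2 = ∑ i, ∑ j, B i j * ⟪cd i (c j x), y⟫ := by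
      rw [← real_inner_self_eq_norm_sq]
      have e0 : ⟪y, y⟫ = ⟪hat c cd B x, y⟫ := rfl
      rw [e0, hat, sum_inner]
      refine Finset.sum_congr rfl fun i _ => ?_
      rw [sum_inner]
      refine Finset.sum_congr rfl fun j _ => ?_
      rw [real_inner_smul_left]
    have e2 : ∑ i, ∑ j, B i j * ⟪cd j (c i x), y⟫ = - ∑ i, ∑ j, B i j * ⟪cd i (c j x), y⟫ := by
      rw [Finset.sum_comm, ← Finset.sum_neg_distrib]
      refine Finset.sum_congr rfl fun i _ => ?_
      rw [← Finset.sum_neg_distrib]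
      refine Finset.sum_congr rfl fun j _ => ?_
      rw [hBs i j]
      ring
    have e3 : ∑ i, ∑ j, B i j * Z i j = ∑ i, ∑ j, B i j * ⟪cd i (c j x), y⟫ -
        ∑ i, ∑ j, B i j * ⟪cd j (c i x), y⟫ := by
      rw [← Finset.sum_sub_distrib]
      refine Finset.sum_congr rfl fun i _ => ?_
      rw [← Finset.sum_sub_distrib]
      refine Finset.sum_congr rfl fun j _ => ?_
      rw [hZ]
      simp only [inner_sub_left]
      ring
    rw [e3, e2, e1]
    ring
  have h2 : ∀ i, ∑ j, Z i j ^ 2 ≤ ‖x‖ ^ 2 * ‖y‖ ^ 2 := by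
    intro i
    set e : Fin m → ℝ := Pi.single i 1
    have hez : e ⬝ᵥ (Z i) = 0 := by
      simp [e, hZ]
    have hee : e ⬝ᵥ e = 1 := by simp [e]
    have hce : ∀ (C : Fin m → H →ₗ[ℝ] H) (z : H), cv C e z = C i z := by
      intro C z
      rw [cv_apply]
      simp [e, Pi.single_apply]
    have h3 : ∑ j, Z i j ^ 2 = ⟪rot c cd e (Z i) x, y⟫ := by
      rw [rot, hce, hce, cv_apply, cv_apply, map_sum, ← Finset.sum_sub_distrib, sum_inner]
      refine Finset.sum_congr rfl fun j _ => ?_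
      rw [map_smul, ← smul_sub, real_inner_smul_left, pow_two]
    have h4 := hc.norm_rot_le hez x
    rw [hee, one_mul] at h4
    have h5 : Z i ⬝ᵥ Z i = ∑ j, Z i j ^ 2 := by
      simp [dotProduct, pow_two]
    rw [h5] at h4
    have h6 : (∑ j, Z i j ^ 2) ^ 2 ≤ ‖rot c cd e (Z i) x‖ ^ 2 * ‖y‖ ^ 2 := by
      rw [h3]
      have := abs_real_inner_le_norm (rot c cd e (Z i) x) y
      rw [← mul_pow, ← sq_abs]
      exact pow_le_pow_left₀ (abs_nonneg _) this 2
    set s := ∑ j, Z i j ^ 2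
    have hs : 0 ≤ s := Finset.sum_nonneg fun j _ => sq_nonneg _
    rcases hs.eq_or_lt with h0 | h0
    · rw [← h0]; positivity
    · have h7 : s ^ 2 ≤ s * (‖x‖ ^ 2 * ‖y‖ ^ 2) := by
        calc s ^ 2 ≤ ‖rot c cd e (Z i) x‖ ^ 2 * ‖y‖ ^ 2 := h6
          _ ≤ (s * ‖x‖ ^ 2) * ‖y‖ ^ 2 := by
              exact mul_le_mul_of_nonneg_right h4 (by positivity)
          _ = _ := by ring
      have h8 : s * s ≤ s * (‖x‖ ^ 2 * ‖y‖ ^ 2) := by rw [← pow_two]; exact h7
      exact le_of_mul_le_mul_left h8 h0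
  have h3 : ∑ i, ∑ j, Z i j ^ 2 ≤ m * (‖x‖ ^ 2 * ‖y‖ ^ 2) := by
    calc ∑ i, ∑ j, Z i j ^ 2 ≤ ∑ _i : Fin m, ‖x‖ ^ 2 * ‖y‖ ^ 2 :=
          Finset.sum_le_sum fun i _ => h2 i
      _ = _ := by simp
  have h4 : (∑ i, ∑ j, B i j * Z i j) ^ 2 ≤ (∑ i, ∑ j, B i j ^ 2) * ∑ i, ∑ j, Z i j ^ 2 := by
    have := Finset.sum_mul_sq_le_sq_mul_sq (Finset.univ : Finset (Fin m × Fin m))
      (fun p => B p.1 p.2) (fun p => Z p.1 p.2)
    simpa only [Fintype.sum_prod_type] using this
  have h5 : (‖y‖ ^ 2) ^ 2 ≤ ‖y‖ ^ 2 * ((m / 2 : ℝ) * nB B * ‖x‖ ^ 2) := by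
    have hBn : (0 : ℝ) ≤ ∑ i, ∑ j, B i j ^ 2 :=
      Finset.sum_nonneg fun i _ => Finset.sum_nonneg fun j _ => sq_nonneg _
    have h6 := mul_le_mul_of_nonneg_left h3 hBn
    rw [h1, mul_pow]
    have e : (1 / 2 : ℝ) * (∑ i, ∑ j, B i j * Z i j) * ((m / 2 : ℝ) * nB B * ‖x‖ ^ 2) =
        (1/4) * ((∑ i, ∑ j, B i j ^ 2) * (m * (‖x‖ ^ 2 * ‖y‖ ^ 2))) := by
      rw [← h1]
      unfold nB
      ring
    rw [e]
    nlinarith
  rcases (sq_nonneg ‖y‖).eq_or_lt with h0 | h0
  · rw [← h0]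
    have := nB_nonneg B
    positivity
  · rw [pow_two (‖y‖ ^ 2)] at h5
    exact le_of_mul_le_mul_left h5 h0

end Pool.Agent.H781.NG.Alg
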