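import Pool.Agent.H781.NG.AlgA

/-!
The fourth moment inequality and the lower bound for the Weitzenböck form.
-/

set_option autoImplicit false
set_option maxHeartbeats 1000000

noncomputable section

namespace Pool.Agent.H781.NG.Alg

open Finset
open scoped RealInnerProductSpace Matrix

variable {m : ℕ} {H : Type*} [NormedAddCommGroup H] [InnerProductSpace ℝ H]

/-- inner product of skew matrices as bivectors -/
def bi (A B : Matrix (Fin m) (Fin m) ℝ) : ℝ := (1 / 2) * ∑ i, ∑ j, A i j * B i j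

theorem bi_comm (A B : Matrix (Fin m) (Fin m) ℝ) : bi A B = bi B A := by
  unfold bi
  congr 1
  refine Finset.sum_congr rfl fun i _ => Finset.sum_congr rfl fun j _ => mul_comm _ _

theorem bi_self (A : Matrix (Fin m) (Fin m) ℝ) : bi A A = nB A := by
  unfold bi nB
  congr 1
  refine Finset.sum_congr rfl fun i _ => Finset.sum_congr rfl fun j _ => (pow_two _).symm

theorem bi_add_right (A B C : Matrix (Fin m) (Fin m) ℝ) : bi A (B + C) = bi A B + bi A C := by
  unfold bi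
  rw [← mul_add, ← Finset.sum_add_distrib]
  congr 1
  refine Finset.sum_congr rfl fun i _ => ?_
  rw [← Finset.sum_add_distrib]
  refine Finset.sum_congr rfl fun j _ => ?_
  rw [Matrix.add_apply]
  ring

theorem bi_smul_right (t : ℝ) (A B : Matrix (Fin m) (Fin m) ℝ) : bi A (t • B) = t * bi A B := by
  unfold bi
  have h : ∑ i, ∑ j, A i j * (t • B) i j = t * ∑ i, ∑ j, A i j * B i j := by
    rw [Finset.mul_sum]
    refine Finset.sum_congr rfl fun i _ => ?_
    rw [Finset.mul_sum]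
    refine Finset.sum_congr rfl fun j _ => ?_
    rw [Matrix.smul_apply, smul_eq_mul]
    ring
  rw [h]
  ring

theorem bi_sub_right (A B C : Matrix (Fin m) (Fin m) ℝ) : bi A (B - C) = bi A B - bi A C := by
  have h : B - C = B + (-1 : ℝ) • C := by rw [neg_one_smul, sub_eq_add_neg]
  rw [h, bi_add_right, bi_smul_right]
  ring

theorem bi_add_left (A B C : Matrix (Fin m) (Fin m) ℝ) : bi (A + B) C = bi A C + bi B C := by
  rw [bi_comm, bi_add_right, bi_comm C A, bi_comm C B]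

theorem bi_smul_left (t : ℝ) (A B : Matrix (Fin m) (Fin m) ℝ) : bi (t • A) B = t * bi A B := by
  rw [bi_comm, bi_smul_right, bi_comm]

theorem bi_sub_left (A B C : Matrix (Fin m) (Fin m) ℝ) : bi (A - B) C = bi A C - bi B C := by
  rw [bi_comm, bi_sub_right, bi_comm C A, bi_comm C B]

theorem bi_trace (A B : Matrix (Fin m) (Fin m) ℝ) : bi A B = (1 / 2) * (Aᵀ * B).trace := by
  unfold bi
  congr 1
  simp only [Matrix.trace, Matrix.diag, Matrix.mul_apply, Matrix.transpose_apply]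
  rw [Finset.sum_comm]

theorem bi_trace' {A : Matrix (Fin m) (Fin m) ℝ} (hA : Aᵀ = -A) (B : Matrix (Fin m) (Fin m) ℝ) :
    bi A B = -(1 / 2) * (A * B).trace := by
  rw [bi_trace, hA, Matrix.neg_mul, Matrix.trace_neg]
  ring

/-- `⟨A, [B, C]⟩ = ⟨[A, B], C⟩` -/
theorem bi_bracket {A B C : Matrix (Fin m) (Fin m) ℝ} (hA : Aᵀ = -A)
    (hAB : (A * B - B * A)ᵀ = -(A * B - B * A)) :
    bi A (B * C - C * B) = bi (A * B - B * A) C := by
  rw [bi_trace' hA, bi_trace' hAB, Matrix.mul_sub, Matrix.sub_mul, Matrix.trace_sub,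
    Matrix.trace_sub]
  have h1 : (A * (C * B)).trace = (B * A * C).trace := by
    rw [← Matrix.mul_assoc, Matrix.trace_mul_comm, Matrix.mul_assoc]
  rw [h1, Matrix.mul_assoc A B C]

theorem skew_bracket {A B : Matrix (Fin m) (Fin m) ℝ} (hA : Aᵀ = -A) (hB : Bᵀ = -B) :
    (A * B - B * A)ᵀ = -(A * B - B * A) := by
  rw [Matrix.transpose_sub, Matrix.transpose_mul, Matrix.transpose_mul, hA, hB]
  simp

theorem skew_add {A B : Matrix (Fin m) (Fin m) ℝ} (hA : Aᵀ = -A) (hB : Bᵀ = -B) :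
    (A + B)ᵀ = -(A + B) := by
  rw [Matrix.transpose_add, hA, hB]
  abel

theorem skew_sub {A B : Matrix (Fin m) (Fin m) ℝ} (hA : Aᵀ = -A) (hB : Bᵀ = -B) :
    (A - B)ᵀ = -(A - B) := by
  rw [Matrix.transpose_sub, hA, hB]
  abel

theorem skew_smul {A : Matrix (Fin m) (Fin m) ℝ} (t : ℝ) (hA : Aᵀ = -A) :
    (t • A)ᵀ = -(t • A) := by
  rw [Matrix.transpose_smul, hA, smul_neg]

theorem mulVec_dot (X : Matrix (Fin m) (Fin m) ℝ) (z y : Fin m → ℝ) :
    (X *ᵥ z) ⬝ᵥ y = z ⬝ᵥ (Xᵀ *ᵥ y) := by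
  simp only [dotProduct, Matrix.mulVec, Matrix.transpose_apply, Finset.sum_mul, Finset.mul_sum]
  rw [Finset.sum_comm]
  refine Finset.sum_congr rfl fun i _ => Finset.sum_congr rfl fun j _ => ?_
  ring

variable {c cd : Fin m → H →ₗ[ℝ] H} (hc : CAR c cd)

/-- the Weitzenböck form at the vector `w` -/
def Wf (c cd : Fin m → H →ₗ[ℝ] H) (w : H) (A B : Matrix (Fin m) (Fin m) ℝ) : ℝ :=
  ⟪hat c cd A w, hat c cd B w⟫

/-- `Ξ` is an eigenvector of the Weitzenböck form -/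
def IsEig (c cd : Fin m → H →ₗ[ℝ] H) (w : H) (X : Matrix (Fin m) (Fin m) ℝ) (l : ℝ) : Prop :=
  ∀ A : Matrix (Fin m) (Fin m) ℝ, Aᵀ = -A → Wf c cd w X A = l * bi X A

include hc

/-- the fourth moment inequality -/
theorem CAR.fourth {w : H} (hw : ‖w‖ = 1) {X g : Matrix (Fin m) (Fin m) ℝ} {l₁ l₂ : ℝ}
    (hX : Xᵀ = -X) (hg : gᵀ = -g) (hX1 : bi X X = 1) (hg1 : bi g g = 1) (hXg : bi X g = 0)
    (eX : IsEig c cd w X l₁) (eg : IsEig c cd w g l₂) :
    (l₁ + l₂) ^ 2 + Wf c cd w (X * g - g * X) (X * g - g * X)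
      - (2 / 3) * (l₁ + l₂) * nB (X * g - g * X) ≤ (4 / 3) * (m / 2 : ℝ) * (l₁ + l₂) := by
  set G := X * g - g * X with hG
  have hGs : Gᵀ = -G := skew_bracket hX hg
  set a := hat c cd X w with ha
  set b := hat c cd g w with hb
  set p := hat c cd X b with hp
  set q := hat c cd g a with hq
  set X2 := hat c cd X a with hX2
  set B2 := hat c cd g b with hB2
  set h := hat c cd G w with hh
  set z := hat c cd G a with hz
  have e1 : p - q = h := hc.hat_comm X g w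
  have e2 : ⟪p, q⟫ = ⟪B2, X2⟫ - ⟪b, z⟫ := by
    have k1 : ⟪p, q⟫ = - ⟪b, hat c cd X q⟫ := hc.hat_skew hX b q
    have k2 : hat c cd X q - hat c cd g X2 = z := hc.hat_comm X g a
    have k3 : ⟪B2, X2⟫ = - ⟪b, hat c cd g X2⟫ := hc.hat_skew hg b X2
    have k4 : hat c cd X q = hat c cd g X2 + z := by rw [← k2]; abel
    rw [k1, k4, inner_add_right, k3]
    ring
  have w11 : ⟪a, a⟫ = l₁ := by
    have := eX X hX
    rw [hX1, mul_one] at this
    exact this
  have w22 : ⟪b, b⟫ = l₂ := by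
    have := eg g hg
    rw [hg1, mul_one] at this
    exact this
  have w12 : ⟪a, b⟫ = 0 := by
    have := eX g hg
    rw [hXg, mul_zero] at this
    exact this
  -- (i)
  have i1 : - ⟪b, z⟫ + ⟪q, h⟫ = - l₁ * nB G := by
    have k1 := eX (G * g - g * G) (skew_bracket hGs hg)
    have k2 : bi X (G * g - g * G) = - nB G := by
      have t1 : bi X (g * G - G * g) = bi G G := bi_bracket hX hGs
      have t2 : G * g - g * G = (-1 : ℝ) • (g * G - G * g) := by
        rw [neg_one_smul]; abel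
      rw [t2, bi_smul_right, t1, bi_self]
      ring
    rw [k2] at k1
    have k3 : hat c cd (G * g - g * G) w = hat c cd G b - hat c cd g h := (hc.hat_comm G g w).symm
    have k4 : ⟪a, hat c cd G b - hat c cd g h⟫ = l₁ * - nB G := by
      rw [← k3]; exact k1
    rw [inner_sub_right] at k4
    have k5 : ⟪z, b⟫ = - ⟪a, hat c cd G b⟫ := hc.hat_skew hGs a b
    have k6 : ⟪q, h⟫ = - ⟪a, hat c cd g h⟫ := hc.hat_skew hg a h
    rw [real_inner_comm b z] at k5
    linarith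
  have i2 : ⟪b, z⟫ + ⟪p, h⟫ = l₂ * nB G := by
    have k1 := eg (G * X - X * G) (skew_bracket hGs hX)
    have k2 : bi g (G * X - X * G) = nB G := by
      have t0 : (g * X - X * g)ᵀ = -(g * X - X * g) := skew_bracket hg hX
      have t1 : bi g (X * G - G * X) = bi (g * X - X * g) G := bi_bracket hg t0
      have t2 : G * X - X * G = (-1 : ℝ) • (X * G - G * X) := by
        rw [neg_one_smul]; abel
      have t3 : g * X - X * g = (-1 : ℝ) • G := by
        rw [neg_one_smul, hG]; abel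
      rw [t2, bi_smul_right, t1, t3, bi_smul_left, bi_self]
      ring
    rw [k2] at k1
    have k3 : hat c cd (G * X - X * G) w = z - hat c cd X h := (hc.hat_comm G X w).symm
    have k4 : ⟪b, z - hat c cd X h⟫ = l₂ * nB G := by
      rw [← k3]; exact k1
    rw [inner_sub_right] at k4
    have k6 : ⟪p, h⟫ = - ⟪b, hat c cd X h⟫ := hc.hat_skew hX b h
    linarith
  have hWG : Wf c cd w G G = ⟪h, h⟫ := rfl
  have i3 : 2 * ⟪b, z⟫ = (l₁ + l₂) * nB G - ⟪h, h⟫ := by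
    have k : ⟪p, h⟫ - ⟪q, h⟫ = ⟪h, h⟫ := by
      rw [← inner_sub_left, e1]
    linarith
  have i4 : ‖p + q‖ ^ 2 = 4 * ⟪B2, X2⟫ + 3 * ⟪h, h⟫ - 2 * (l₁ + l₂) * nB G := by
    have k1 : ‖p - q‖ ^ 2 = ⟪h, h⟫ := by
      rw [e1, real_inner_self_eq_norm_sq]
    have k2 := norm_add_sq_real p q
    have k3 := norm_sub_sq_real p q
    linarith
  -- bounds
  have n1 : ‖X2‖ ^ 2 ≤ (m / 2 : ℝ) * l₁ := by
    have := hc.hat_bound hX a
    rw [← bi_self, hX1, mul_one, ← real_inner_self_eq_norm_sq a, w11] at this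
    exact this
  have n2 : ‖B2‖ ^ 2 ≤ (m / 2 : ℝ) * l₂ := by
    have := hc.hat_bound hg b
    rw [← bi_self, hg1, mul_one, ← real_inner_self_eq_norm_sq b, w22] at this
    exact this
  have n3 : ‖(X2 + B2) + (p + q)‖ ^ 2 ≤ (m / 2 : ℝ) * 2 * (l₁ + l₂) := by
    have := hc.hat_bound (skew_add hX hg) (a + b)
    have k1 : nB (X + g) = 2 := by
      rw [← bi_self, bi_add_right, bi_add_left, bi_add_left, hX1, hg1, bi_comm g X, hXg]
      norm_num
    have k2 : hat c cd (X + g) (a + b) = (X2 + B2) + (p + q) := by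
      rw [hat_add, hat_addx, hat_addx]
      abel
    have k3 : ‖a + b‖ ^ 2 = l₁ + l₂ := by
      rw [norm_add_sq_real, ← real_inner_self_eq_norm_sq, ← real_inner_self_eq_norm_sq, w11, w22,
        w12]
      ring
    rwa [k1, k2, k3] at this
  have n4 : ‖(X2 + B2) - (p + q)‖ ^ 2 ≤ (m / 2 : ℝ) * 2 * (l₁ + l₂) := by
    have := hc.hat_bound (skew_sub hX hg) (a - b)
    have k1 : nB (X - g) = 2 := by
      rw [← bi_self, bi_sub_right, bi_sub_left, bi_sub_left, hX1, hg1, bi_comm g X, hXg]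
      norm_num
    have k2 : hat c cd (X - g) (a - b) = (X2 + B2) - (p + q) := by
      rw [hat_sub, hat_subx, hat_subx]
      abel
    have k3 : ‖a - b‖ ^ 2 = l₁ + l₂ := by
      rw [norm_sub_sq_real, ← real_inner_self_eq_norm_sq, ← real_inner_self_eq_norm_sq, w11, w22,
        w12]
      ring
    rwa [k1, k2, k3] at this
  have n5 : (l₁ + l₂) ^ 2 ≤ ‖X2 + B2‖ ^ 2 := by
    have k1 : ⟪w, X2 + B2⟫ = -(l₁ + l₂) := by
      have t1 : ⟪a, a⟫ = - ⟪w, X2⟫ := hc.hat_skew hX w a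
      have t2 : ⟪b, b⟫ = - ⟪w, B2⟫ := hc.hat_skew hg w b
      rw [inner_add_right]
      linarith
    have k2 := abs_real_inner_le_norm w (X2 + B2)
    rw [hw, one_mul, k1] at k2
    rw [← sq_abs (l₁ + l₂), ← abs_neg]
    exact pow_le_pow_left₀ (abs_nonneg _) k2 2
  have s1 := norm_add_sq_real (X2 + B2) (p + q)
  have s2 := norm_sub_sq_real (X2 + B2) (p + q)
  have s3 := norm_add_sq_real X2 B2
  rw [real_inner_comm B2 X2] at s3
  rw [hWG]
  linarith

/-- lower bound of the Weitzenböck form -/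
theorem CAR.lower {w : H} (hw : ‖w‖ = 1) {X A : Matrix (Fin m) (Fin m) ℝ} {l l₂ : ℝ}
    (hX : Xᵀ = -X) (hA : Aᵀ = -A) (hX1 : bi X X = 1) (eX : IsEig c cd w X l)
    (hl : l₂ ≤ l)
    (h2 : ∀ B : Matrix (Fin m) (Fin m) ℝ, Bᵀ = -B → bi X B = 0 → Wf c cd w B B ≤ l₂ * nB B) :
    (l - l₂) ^ 2 * nB (X * A - A * X) ≤ (m / 2 : ℝ) ^ 2 * Wf c cd w A A := by
  set G := X * A - A * X with hG
  have hGs : Gᵀ = -G := skew_bracket hX hA
  have hXG : bi X G = 0 := by
    have t1 : bi X (X * A - A * X) = bi (X * X - X * X) A :=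
      bi_bracket hX (by simp)
    rw [hG, t1]
    simp [bi]
  set a := hat c cd X w with ha
  set α := hat c cd A w with hα
  set h := hat c cd G w with hh
  set D := hat c cd X h + hat c cd G a with hD
  set X2 := hat c cd X a with hX2
  set GG := hat c cd G h with hGG
  have hWA : Wf c cd w A A = ‖α‖ ^ 2 := real_inner_self_eq_norm_sq α
  have hWG : Wf c cd w G G = ‖h‖ ^ 2 := real_inner_self_eq_norm_sq h
  have w11 : ‖a‖ ^ 2 = l := by
    have := eX X hX
    rw [hX1, mul_one] at this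
    rw [← real_inner_self_eq_norm_sq]
    exact this
  have w12 : ⟪a, h⟫ = 0 := by
    have := eX G hGs
    rw [hXG, mul_zero] at this
    exact this
  have i1 : l * nB G = ‖h‖ ^ 2 + ⟪α, D⟫ := by
    have k1 := eX (A * G - G * A) (skew_bracket hA hGs)
    have k2 : bi X (A * G - G * A) = nB G := by
      rw [bi_bracket hX hGs, bi_self]
    rw [k2] at k1
    have k3 : hat c cd (A * G - G * A) w = hat c cd A h - hat c cd G α := (hc.hat_comm A G w).symm
    have k4 : ⟪a, hat c cd A h - hat c cd G α⟫ = l * nB G := by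
      rw [← k3]; exact k1
    rw [inner_sub_right] at k4
    have k5 : ⟪hat c cd A a, h⟫ = - ⟪a, hat c cd A h⟫ := hc.hat_skew hA a h
    have k6 : ⟪hat c cd G a, α⟫ = - ⟪a, hat c cd G α⟫ := hc.hat_skew hGs a α
    have k7 : hat c cd X α - hat c cd A a = h := hc.hat_comm X A w
    have k8 : hat c cd A a = hat c cd X α - h := by rw [← k7]; abel
    rw [k8, inner_sub_left] at k5
    have k9 : ⟪hat c cd X α, h⟫ = - ⟪α, hat c cd X h⟫ := hc.hat_skew hX α h
    have k10 : ⟪α, D⟫ = ⟪α, hat c cd X h⟫ + ⟪hat c cd G a, α⟫ := by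
      rw [hD, inner_add_right, real_inner_comm (hat c cd G a) α]
    rw [real_inner_self_eq_norm_sq] at k5
    linarith
  rcases (nB_nonneg G).eq_or_lt with h0 | h0
  · rw [← h0, mul_zero, hWA]
    positivity
  -- bound of D
  set s := Real.sqrt (nB G) with hs
  have hs2 : s ^ 2 = nB G := Real.sq_sqrt (nB_nonneg G)
  have hs0 : 0 < s := Real.sqrt_pos.2 h0
  set σ := s ^ 2 * l + ‖h‖ ^ 2 with hσ
  have n1 : ‖(s ^ 2 • X2 + GG) + s • D‖ ^ 2 ≤ (m / 2 : ℝ) * (2 * s ^ 2) * σ := by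
    have := hc.hat_bound (skew_add (skew_smul s hX) hGs) (s • a + h)
    have k1 : nB (s • X + G) = 2 * s ^ 2 := by
      rw [← bi_self, bi_add_right, bi_add_left, bi_add_left, bi_smul_left, bi_smul_right,
        bi_smul_left, bi_smul_right, hX1, bi_comm G X, hXG, bi_self, ← hs2]
      ring
    have k2 : hat c cd (s • X + G) (s • a + h) = (s ^ 2 • X2 + GG) + s • D := by
      rw [hat_add, hat_smul, hat_addx, hat_addx, hat_smulx, hat_smulx]
      module
    have k3 : ‖s • a + h‖ ^ 2 = σ := by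
      rw [norm_add_sq_real, norm_smul, mul_pow, Real.norm_eq_abs, sq_abs, real_inner_smul_left,
        w12, w11]
      ring
    rwa [k1, k2, k3] at this
  have n2 : ‖(s ^ 2 • X2 + GG) - s • D‖ ^ 2 ≤ (m / 2 : ℝ) * (2 * s ^ 2) * σ := by
    have := hc.hat_bound (skew_sub (skew_smul s hX) hGs) (s • a - h)
    have k1 : nB (s • X - G) = 2 * s ^ 2 := by
      rw [← bi_self, bi_sub_right (s • X - G) (s • X) G, bi_sub_left (s • X) G (s • X),
        bi_sub_left (s • X) G G, bi_smul_left, bi_smul_right,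
        bi_smul_left, bi_smul_right, hX1, bi_comm G X, hXG, bi_self G, ← hs2]
      ring
    have k2 : hat c cd (s • X - G) (s • a - h) = (s ^ 2 • X2 + GG) - s • D := by
      rw [hat_sub, hat_smul, hat_subx, hat_subx, hat_smulx, hat_smulx]
      module
    have k3 : ‖s • a - h‖ ^ 2 = σ := by
      rw [norm_sub_sq_real, norm_smul, mul_pow, Real.norm_eq_abs, sq_abs, real_inner_smul_left,
        w12, w11]
      ring
    rwa [k1, k2, k3] at this
  have n3 : σ ^ 2 ≤ ‖s ^ 2 • X2 + GG‖ ^ 2 := by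
    have k1 : ⟪w, s ^ 2 • X2 + GG⟫ = - σ := by
      have t1 : ⟪a, a⟫ = - ⟪w, X2⟫ := hc.hat_skew hX w a
      have t2 : ⟪h, h⟫ = - ⟪w, GG⟫ := hc.hat_skew hGs w h
      rw [real_inner_self_eq_norm_sq, w11] at t1
      rw [real_inner_self_eq_norm_sq] at t2
      rw [inner_add_right, real_inner_smul_right]
      rw [hσ, t2]
      have : ⟪w, X2⟫ = -l := by linarith
      rw [this]
      ring
    have k2 := abs_real_inner_le_norm w (s ^ 2 • X2 + GG)
    rw [hw, one_mul, k1] at k2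
    rw [← sq_abs σ, ← abs_neg]
    exact pow_le_pow_left₀ (abs_nonneg _) k2 2
  have s1 := norm_add_sq_real (s ^ 2 • X2 + GG) (s • D)
  have s2 := norm_sub_sq_real (s ^ 2 • X2 + GG) (s • D)
  have s3 : ‖s • D‖ ^ 2 = s ^ 2 * ‖D‖ ^ 2 := by
    rw [norm_smul, mul_pow, Real.norm_eq_abs, sq_abs]
  have n4 : s ^ 2 * ‖D‖ ^ 2 ≤ s ^ 2 * ((m / 2 : ℝ) ^ 2 * s ^ 2) := by
    have k := sq_nonneg (σ - (m / 2 : ℝ) * s ^ 2)
    nlinarith
  have n5 : ‖D‖ ^ 2 ≤ (m / 2 : ℝ) ^ 2 * nB G := by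
    rw [← hs2]
    exact le_of_mul_le_mul_left n4 (by positivity)
  have hWG2 := h2 G hGs hXG
  rw [hWG] at hWG2
  have n6 : (l - l₂) * nB G ≤ ⟪α, D⟫ := by linarith
  have n7 : ((l - l₂) * nB G) ^ 2 ≤ ‖α‖ ^ 2 * ‖D‖ ^ 2 := by
    have k1 : 0 ≤ (l - l₂) * nB G := mul_nonneg (by linarith) (nB_nonneg G)
    have k2 := real_inner_le_norm α D
    calc ((l - l₂) * nB G) ^ 2 ≤ (‖α‖ * ‖D‖) ^ 2 := pow_le_pow_left₀ k1 (n6.trans k2) 2
      _ = _ := by ring
  have n8 : nB G * ((l - l₂) ^ 2 * nB G) ≤ nB G * ((m / 2 : ℝ) ^ 2 * Wf c cd w A A) := by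
    rw [hWA]
    have k1 : ‖α‖ ^ 2 * ‖D‖ ^ 2 ≤ ‖α‖ ^ 2 * ((m / 2 : ℝ) ^ 2 * nB G) :=
      mul_le_mul_of_nonneg_left n5 (sq_nonneg _)
    nlinarith
  exact le_of_mul_le_mul_left n8 h0

/-- `λ |Ξ z|² ≤ |z|²` for an eigenvector `Ξ` -/
theorem CAR.op_bound {w : H} (hw : ‖w‖ = 1) {X : Matrix (Fin m) (Fin m) ℝ} {l : ℝ}
    (hX : Xᵀ = -X) (hX1 : bi X X = 1) (eX : IsEig c cd w X l) (z : Fin m → ℝ) :
    l * ((X *ᵥ z) ⬝ᵥ (X *ᵥ z)) ≤ z ⬝ᵥ z := by
  set y := X *ᵥ z with hy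
  have w11 : ‖hat c cd X w‖ ^ 2 = l := by
    have := eX X hX
    rw [hX1, mul_one] at this
    rw [← real_inner_self_eq_norm_sq]
    exact this
  have hl : 0 ≤ l := by rw [← w11]; positivity
  have hyz : y ⬝ᵥ z = 0 := by
    have h1 : (X *ᵥ z) ⬝ᵥ z = - (z ⬝ᵥ (X *ᵥ z)) := by
      have h2 : (X *ᵥ z) ⬝ᵥ z = z ⬝ᵥ (Xᵀ *ᵥ z) := mulVec_dot X z z
      rw [h2, hX, Matrix.neg_mulVec, dotProduct_neg]
    rw [dotProduct_comm z] at h1
    have : (X *ᵥ z) ⬝ᵥ z = 0 := by linarith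
    exact this
  have hA : (Matrix.vecMulVec y z - Matrix.vecMulVec z y)ᵀ =
      -(Matrix.vecMulVec y z - Matrix.vecMulVec z y) := by
    rw [Matrix.transpose_sub, Matrix.transpose_vecMulVec, Matrix.transpose_vecMulVec]
    abel
  have hbi : bi X (Matrix.vecMulVec y z - Matrix.vecMulVec z y) = y ⬝ᵥ y := by
    have h1 : ∀ a b : Fin m → ℝ, ∑ i, ∑ j, X i j * (Matrix.vecMulVec a b) i j = a ⬝ᵥ (X *ᵥ b) := by
      intro a b
      simp only [Matrix.vecMulVec_apply, dotProduct, Matrix.mulVec]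
      refine Finset.sum_congr rfl fun i _ => ?_
      rw [Finset.mul_sum]
      refine Finset.sum_congr rfl fun j _ => ?_
      ring
    rw [bi_sub_right]
    unfold bi
    rw [h1, h1]
    have h2 : z ⬝ᵥ (X *ᵥ y) = - ((X *ᵥ z) ⬝ᵥ y) := by
      have h3 : (X *ᵥ z) ⬝ᵥ y = z ⬝ᵥ (Xᵀ *ᵥ y) := mulVec_dot X z y
      rw [h3, hX, Matrix.neg_mulVec, dotProduct_neg]
      ring
    rw [h2]
    ring
  have h1 := eX _ hA
  rw [hbi] at h1
  have h2 := hc.norm_rot_le hyz w
  rw [rot_eq_hat, hw, one_pow, mul_one] at h2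
  have h3 : (l * (y ⬝ᵥ y)) ^ 2 ≤ l * ((y ⬝ᵥ y) * (z ⬝ᵥ z)) := by
    rw [← h1]
    have k1 := abs_real_inner_le_norm (hat c cd X w)
      (hat c cd (Matrix.vecMulVec y z - Matrix.vecMulVec z y) w)
    have k2 : (Wf c cd w X (Matrix.vecMulVec y z - Matrix.vecMulVec z y)) ^ 2 ≤
        ‖hat c cd X w‖ ^ 2 * ‖hat c cd (Matrix.vecMulVec y z - Matrix.vecMulVec z y) w‖ ^ 2 := by
      rw [← mul_pow, ← sq_abs]
      exact pow_le_pow_left₀ (abs_nonneg _) k1 2
    rw [w11] at k2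
    exact k2.trans (mul_le_mul_of_nonneg_left h2 hl)
  have hyy : 0 ≤ y ⬝ᵥ y := by
    rw [dotProduct]; exact Finset.sum_nonneg fun i _ => mul_self_nonneg _
  have hzz : 0 ≤ z ⬝ᵥ z := by
    rw [dotProduct]; exact Finset.sum_nonneg fun i _ => mul_self_nonneg _
  rcases (mul_nonneg hl hyy).eq_or_lt with h0 | h0
  · rw [← h0]; exact hzz
  · have h4 : (l * (y ⬝ᵥ y)) * (l * (y ⬝ᵥ y)) ≤ (l * (y ⬝ᵥ y)) * (z ⬝ᵥ z) := by
      rw [← pow_two]
      linarith
    exact le_of_mul_le_mul_left h4 h0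

end Pool.Agent.H781.NG.Alg
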