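import Pool.Agent.H781.NG.AlgB

/-!
Matrix facts: the form `T(A, B) = ⟨Ξ, A⟩⟨Ξ, B⟩ - ½ tr(Ξ A Ξ B)`.
-/

set_option autoImplicit false
set_option maxHeartbeats 1000000

noncomputable section

namespace Pool.Agent.H781.NG.Alg

open Finset
open scoped RealInnerProductSpace Matrix

variable {m : ℕ}

theorem nB_add (A B : Matrix (Fin m) (Fin m) ℝ) : nB (A + B) = nB A + nB B + 2 * bi A B := by
  rw [← bi_self, bi_add_right, bi_add_left, bi_add_left, bi_self, bi_self, bi_comm B A]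
  ring

theorem nB_sub (A B : Matrix (Fin m) (Fin m) ℝ) : nB (A - B) = nB A + nB B - 2 * bi A B := by
  rw [← bi_self, bi_sub_right (A - B) A B, bi_sub_left A B A, bi_sub_left A B B, bi_self, bi_self,
    bi_comm B A]
  ring

theorem nB_smul (t : ℝ) (A : Matrix (Fin m) (Fin m) ℝ) : nB (t • A) = t ^ 2 * nB A := by
  rw [← bi_self, bi_smul_right, bi_smul_left, bi_self]
  ring

theorem nB_transpose (A : Matrix (Fin m) (Fin m) ℝ) : nB Aᵀ = nB A := by
  unfold nB
  congr 1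
  rw [Finset.sum_comm]
  rfl

theorem nB_neg (A : Matrix (Fin m) (Fin m) ℝ) : nB (-A) = nB A := by
  unfold nB
  simp

/-- Cauchy–Schwarz -/
theorem bi_sq_le (A B : Matrix (Fin m) (Fin m) ℝ) : bi A B ^ 2 ≤ nB A * nB B := by
  have h := Finset.sum_mul_sq_le_sq_mul_sq (Finset.univ : Finset (Fin m × Fin m))
      (fun p => A p.1 p.2) (fun p => B p.1 p.2)
  simp only [Fintype.sum_prod_type] at h
  unfold bi nB
  nlinarith

/-- `nB A` as a sum over columns -/
theorem nB_cols (A : Matrix (Fin m) (Fin m) ℝ) :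
    nB A = (1 / 2) * ∑ j, (fun i => A i j) ⬝ᵥ (fun i => A i j) := by
  unfold nB
  rw [Finset.sum_comm]
  simp only [dotProduct, pow_two]

theorem nB_mul_le {X : Matrix (Fin m) (Fin m) ℝ} {l k : ℝ}
    (h : ∀ z : Fin m → ℝ, l * ((X *ᵥ z) ⬝ᵥ (X *ᵥ z)) ≤ k * (z ⬝ᵥ z))
    (A : Matrix (Fin m) (Fin m) ℝ) : l * nB (X * A) ≤ k * nB A := by
  rw [nB_cols, nB_cols]
  have h1 : ∀ j, l * ((fun i => (X * A) i j) ⬝ᵥ (fun i => (X * A) i j)) ≤
      k * ((fun i => A i j) ⬝ᵥ (fun i => A i j)) := by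
    intro j
    have h2 := h (fun i => A i j)
    have h3 : (fun i => (X * A) i j) = X *ᵥ (fun i => A i j) := by
      funext i
      rw [Matrix.mul_apply]
      rfl
    rw [h3]
    exact h2
  have h2 := Finset.sum_le_sum (s := Finset.univ) fun j _ => h1 j
  rw [← Finset.mul_sum, ← Finset.mul_sum] at h2
  linarith

section

variable {X : Matrix (Fin m) (Fin m) ℝ} {l : ℝ} (hX : Xᵀ = -X)
  (hop : ∀ z : Fin m → ℝ, l * ((X *ᵥ z) ⬝ᵥ (X *ᵥ z)) ≤ z ⬝ᵥ z)

include hop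

theorem nB_mul_left (A : Matrix (Fin m) (Fin m) ℝ) : l * nB (X * A) ≤ nB A := by
  have := nB_mul_le (X := X) (l := l) (k := 1) (by simpa using hop) A
  simpa using this

include hX

theorem nB_mul_right (A : Matrix (Fin m) (Fin m) ℝ) : l * nB (A * X) ≤ nB A := by
  have h := nB_mul_left hop Aᵀ
  rw [nB_transpose] at h
  have h1 : nB (A * X) = nB (X * Aᵀ) := by
    rw [← nB_transpose (A * X), Matrix.transpose_mul, hX, Matrix.neg_mul, nB_neg]
  rw [h1]
  exact h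

end

/-- the form `T` -/
def Tf (X A B : Matrix (Fin m) (Fin m) ℝ) : ℝ := bi X A * bi X B - (1 / 2) * (X * A * (X * B)).trace

theorem Tf_comm (X A B : Matrix (Fin m) (Fin m) ℝ) : Tf X A B = Tf X B A := by
  unfold Tf
  rw [mul_comm (bi X A), Matrix.trace_mul_comm]

theorem Tf_add_right (X A B C : Matrix (Fin m) (Fin m) ℝ) :
    Tf X A (B + C) = Tf X A B + Tf X A C := by
  unfold Tf
  rw [bi_add_right, Matrix.mul_add, Matrix.mul_add, Matrix.trace_add]
  ring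

theorem Tf_smul_right (t : ℝ) (X A B : Matrix (Fin m) (Fin m) ℝ) :
    Tf X A (t • B) = t * Tf X A B := by
  unfold Tf
  rw [bi_smul_right, Matrix.mul_smul, Matrix.mul_smul, Matrix.trace_smul, smul_eq_mul]
  ring

theorem bi_sym_trace {A : Matrix (Fin m) (Fin m) ℝ} (hA : Aᵀ = A) (B : Matrix (Fin m) (Fin m) ℝ) :
    bi A B = (1 / 2) * (A * B).trace := by
  rw [bi_trace, hA]

section

variable {X : Matrix (Fin m) (Fin m) ℝ} {l : ℝ} (hX : Xᵀ = -X) (hX1 : bi X X = 1) (hl : 0 < l)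
  (hop : ∀ z : Fin m → ℝ, l * ((X *ᵥ z) ⬝ᵥ (X *ᵥ z)) ≤ z ⬝ᵥ z)

include hX in
theorem sq_sym : (X * X)ᵀ = X * X := by
  rw [Matrix.transpose_mul, hX]
  simp

include hX hX1 in
theorem kappa_eq : Tf X X X = 1 - nB (X * X) := by
  unfold Tf
  rw [hX1, ← bi_self (X * X), bi_sym_trace (sq_sym hX)]
  ring

include hX hX1 hl hop in
theorem nB_sq_le : l * nB (X * X) ≤ 1 := by
  have := nB_mul_left hop X
  rw [← bi_self X, hX1] at this
  exact this

include hX in
theorem Tf_self {A : Matrix (Fin m) (Fin m) ℝ} (hA : Aᵀ = -A) (hXA : bi X A = 0) :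
    Tf X A A = (1 / 4) * nB (X * A - A * X) - (1 / 4) * nB (X * A + A * X) := by
  rw [nB_sub, nB_add]
  have h1 : bi (X * A) (A * X) = (1 / 2) * (X * A * (X * A)).trace := by
    rw [bi_trace, Matrix.transpose_mul, hX, hA, Matrix.neg_mul, Matrix.mul_neg, neg_neg]
    have e : (A * X * (A * X)).trace = (X * A * (X * A)).trace := by
      rw [Matrix.mul_assoc, Matrix.trace_mul_comm, ← Matrix.mul_assoc, Matrix.mul_assoc]
    rw [e]
  unfold Tf
  rw [hXA, h1]
  ring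

include hX in
theorem Tf_mixed {A : Matrix (Fin m) (Fin m) ℝ} (hXA : bi X A = 0) :
    Tf X X A = - (1 / 2) * bi (X * X) (X * A + A * X) := by
  rw [bi_add_right, bi_sym_trace (sq_sym hX), bi_sym_trace (sq_sym hX)]
  have e : (X * X * (A * X)).trace = (X * X * (X * A)).trace := by
    rw [← Matrix.mul_assoc, Matrix.trace_mul_comm]
    simp only [Matrix.mul_assoc]
  rw [e]
  unfold Tf
  rw [hXA]
  ring

include hX hX1 in
theorem Tf_mixed_sq {A : Matrix (Fin m) (Fin m) ℝ} (hXA : bi X A = 0) :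
    Tf X X A ^ 2 ≤ (1 / 4) * (1 - Tf X X X) * nB (X * A + A * X) := by
  rw [Tf_mixed hX hXA, kappa_eq hX hX1]
  have := bi_sq_le (X * X) (X * A + A * X)
  nlinarith

include hX hl hop in
theorem Tf_self_lower {A : Matrix (Fin m) (Fin m) ℝ} (hA : Aᵀ = -A) (hXA : bi X A = 0) :
    - nB A ≤ l * Tf X A A := by
  have h1 := nB_mul_left hop A
  have h2 := nB_mul_right hX hop A
  have h3 := nB_add (X * A) (A * X)
  have h4 := nB_sub (X * A) (A * X)
  have h5 := Tf_self hX hA hXA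
  have h6 := nB_nonneg (X * A - A * X)
  have h7 : Tf X A A = - bi (X * A) (A * X) := by
    rw [h5]; linarith
  rw [h7]
  have h8 : 0 ≤ l * nB (X * A - A * X) := mul_nonneg hl.le h6
  rw [h4] at h8
  linarith

include hX hX1 hl hop in
theorem Tf_mixed_sq' {A : Matrix (Fin m) (Fin m) ℝ} (hXA : bi X A = 0) :
    Tf X X A ^ 2 ≤ (1 / (2 * l)) ^ 2 * nB A := by
  set c : ℝ := 1 / (2 * l) with hc
  have hcl : 2 * l * c = 1 := by rw [hc]; field_simp
  set M : Matrix (Fin m) (Fin m) ℝ := X * X + c • (1 : Matrix (Fin m) (Fin m) ℝ) with hM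
  have hMs : Mᵀ = M := by
    rw [hM, Matrix.transpose_add, sq_sym hX, Matrix.transpose_smul, Matrix.transpose_one]
  have h1 : bi (M * X) A = Tf X X A := by
    rw [bi_trace, Matrix.transpose_mul, hMs, hX, Matrix.neg_mul, Matrix.neg_mul, Matrix.trace_neg]
    have e : X * M * A = X * X * (X * A) + c • (X * A) := by
      rw [hM, Matrix.mul_add, Matrix.add_mul]
      simp only [Matrix.mul_smul, Matrix.mul_one, Matrix.smul_mul, Matrix.mul_assoc]
    rw [e, Matrix.trace_add, Matrix.trace_smul]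
    have e2 : (X * A).trace = 0 := by
      have := bi_trace' hX A
      rw [hXA] at this
      linarith
    unfold Tf
    rw [e2, hXA, smul_zero]
    ring
  have h2 : ∀ z : Fin m → ℝ, 1 * ((M *ᵥ z) ⬝ᵥ (M *ᵥ z)) ≤ c ^ 2 * (z ⬝ᵥ z) := by
    intro z
    have e1 : M *ᵥ z = X *ᵥ (X *ᵥ z) + c • z := by
      rw [hM, Matrix.add_mulVec, Matrix.smul_mulVec, Matrix.one_mulVec, Matrix.mulVec_mulVec]
    have e2 : (X *ᵥ (X *ᵥ z)) ⬝ᵥ z = - ((X *ᵥ z) ⬝ᵥ (X *ᵥ z)) := by
      rw [mulVec_dot, hX, Matrix.neg_mulVec, dotProduct_neg]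
    have e3 := hop (X *ᵥ z)
    rw [one_mul, e1, add_dotProduct, dotProduct_add, dotProduct_add, dotProduct_smul,
      smul_dotProduct, smul_dotProduct, dotProduct_smul, dotProduct_comm z (X *ᵥ (X *ᵥ z)), e2]
    simp only [smul_eq_mul]
    have e4 : 0 < c := by rw [hc]; positivity
    have e5 := mul_le_mul_of_nonneg_left e3 e4.le
    have e6 : c * (l * ((X *ᵥ (X *ᵥ z)) ⬝ᵥ (X *ᵥ (X *ᵥ z)))) =
        (1 / 2) * ((X *ᵥ (X *ᵥ z)) ⬝ᵥ (X *ᵥ (X *ᵥ z))) := by
      linear_combination (1 / 2) * ((X *ᵥ (X *ᵥ z)) ⬝ᵥ (X *ᵥ (X *ᵥ z))) * hcl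
    rw [e6] at e5
    linarith
  have h3 := nB_mul_le h2 X
  rw [one_mul, ← bi_self X, hX1, mul_one] at h3
  have h4 := bi_sq_le (M * X) A
  rw [h1] at h4
  exact h4.trans (mul_le_mul_of_nonneg_right h3 (nB_nonneg A))

include hX hl hop in
theorem nB_bracket_le (A : Matrix (Fin m) (Fin m) ℝ) : l * nB (X * A - A * X) ≤ 4 * nB A := by
  have h1 := nB_mul_left hop A
  have h2 := nB_mul_right hX hop A
  have h3 := nB_add (X * A) (A * X)
  have h4 := nB_sub (X * A) (A * X)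
  have h6 : 0 ≤ l * nB (X * A + A * X) := mul_nonneg hl.le (nB_nonneg _)
  rw [h3] at h6
  rw [h4]
  linarith

end

end Pool.Agent.H781.NG.Alg
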