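import Pool.Agent.H781.NG.AlgC

/-!
Numerical inequalities.
-/

set_option autoImplicit false
set_option maxHeartbeats 4000000

noncomputable section

namespace Pool.Agent.H781.NG.Alg

theorem c2_poly (k s r : ℝ) (hk : 0 ≤ k) (hs : 0 ≤ s) (hr : 0 ≤ r) (hsr : s + r = 1) :
    0 ≤ 4 * (6 * ((5+k)*((5+k)+s))^2 - 4*(5+k)*((5+k)*((5+k)+s))*(5+k+1) - 8*(5+k+1)^2)^2 *
      ((5+k)*((5+k)+s) - (5+k+1)) -
      9 * (51/50) * ((5+k)*s) * (5+k)^2 * ((5+k)*((5+k)+s))^3 * (5+k+1) := by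
  have hr' : r = 1 - s := by linarith
  have e : 4 * (6 * ((5+k)*((5+k)+s))^2 - 4*(5+k)*((5+k)*((5+k)+s))*(5+k+1) - 8*(5+k+1)^2)^2 *
      ((5+k)*((5+k)+s) - (5+k+1)) -
      9 * (51/50) * ((5+k)*s) * (5+k)^2 * ((5+k)*((5+k)+s))^3 * (5+k+1) =
      ((16221744)*k^0 + (50099280)*k^1 + (64963216)*k^2 + (46910528)*k^3 + (21139616)*k^4 + (6276960)*k^5 + (1253984)*k^6 + (167488)*k^7 + (14384)*k^8 + (720)*k^9 + (16)*k^10)*s^0*r^5
      + ((41001075)*k^0 + (405664047/2)*k^1 + (607671421/2)*k^2 + (230576750)*k^3 + (105164684)*k^4 + (31054097)*k^5 + (6113231)*k^6 + (800342)*k^7 + (335737/5)*k^8 + (163791/50)*k^9 + (3541/50)*k^10)*s^1*r^4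
      + ((25965585)*k^0 + (720927843/2)*k^1 + (606172786)*k^2 + (470039458)*k^3 + (213067330)*k^4 + (61838225)*k^5 + (11900828)*k^6 + (7593402/5)*k^7 + (3099069/25)*k^8 + (293787/50)*k^9 + (3082/25)*k^10)*s^2*r^3
      + ((20690370)*k^0 + (404550936)*k^1 + (1338496065/2)*k^2 + (1007482625/2)*k^3 + (442214615/2)*k^4 + (124215245/2)*k^5 + (115674321/10)*k^6 + (71423803/50)*k^7 + (5640817/50)*k^8 + (51723/10)*k^9 + (2623/25)*k^10)*s^3*r^2
      + ((52628940)*k^0 + (296143614)*k^1 + (414324369)*k^2 + (572255937/2)*k^3 + (118119132)*k^4 + (315425671/10)*k^5 + (140389543/25)*k^6 + (33241487/50)*k^7 + (50414)*k^8 + (111033/50)*k^9 + (1082/25)*k^10)*s^4*r^1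
      + ((33574824)*k^0 + (99773856)*k^1 + (112556628)*k^2 + (68795892)*k^3 + (52115373/2)*k^4 + (32480883/5)*k^5 + (54486531/50)*k^6 + (3054502/25)*k^7 + (439851/50)*k^8 + (9207/25)*k^9 + (341/50)*k^10)*s^5*r^0 := by
    rw [hr']; ring
  rw [e]
  positivity

theorem c3_poly (k s r : ℝ) (hk : 0 ≤ k) (hs : 0 ≤ s) (hr : 0 ≤ r) (hsr : s + r = 1) :
    0 ≤ (1/50) * (12 * ((5+k)*((5+k)+s)) * ((5+k)*((5+k)+s) - (5+k+1))^2 *
        ((5+k)^2 + (5+k)*((5+k)+s) - (4/3)*(5+k)*(5+k+1)) -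
        32 * ((5+k)*((5+k)+s) - (5+k+1))^2 * (5+k+1)^2 -
        12 * (51/50) * ((5+k)*s) * ((5+k)*((5+k)+s)) * ((5+k)*((5+k)+s) - (5+k+1)) * (5+k+1)) -
      3 * (51/50)^2 * ((5+k)*s) * ((5+k)*((5+k)+s)) * (5+k+1)^2 := by
  have hr' : r = 1 - s := by linarith
  have e : (1/50) * (12 * ((5+k)*((5+k)+s)) * ((5+k)*((5+k)+s) - (5+k+1))^2 *
        ((5+k)^2 + (5+k)*((5+k)+s) - (4/3)*(5+k)*(5+k+1)) -
        32 * ((5+k)*((5+k)+s) - (5+k+1))^2 * (5+k+1)^2 -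
        12 * (51/50) * ((5+k)*s) * ((5+k)*((5+k)+s)) * ((5+k)*((5+k)+s) - (5+k+1)) * (5+k+1)) -
      3 * (51/50)^2 * ((5+k)*s) * ((5+k)*((5+k)+s)) * (5+k+1)^2 =
      ((333564/25)*k^0 + (752096/25)*k^1 + (690596/25)*k^2 + (345064/25)*k^3 + (103952/25)*k^4 + (19496/25)*k^5 + (2236/25)*k^6 + (144/25)*k^7 + (4/25)*k^8)*s^0*r^4
      + ((1450521/25)*k^0 + (3521249/25)*k^1 + (65176557/500)*k^2 + (160204819/2500)*k^3 + (47023043/2500)*k^4 + (8559437/2500)*k^5 + (237897/625)*k^6 + (594/25)*k^7 + (16/25)*k^8)*s^1*r^3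
      + ((503262/5)*k^0 + (31667202/125)*k^1 + (145250896/625)*k^2 + (11165399/100)*k^3 + (39820657/1250)*k^4 + (14063887/2500)*k^5 + (379041/625)*k^6 + (918/25)*k^7 + (24/25)*k^8)*s^2*r^2
      + ((2065473/25)*k^0 + (25829244/125)*k^1 + (462928233/2500)*k^2 + (216177041/2500)*k^3 + (59846687/2500)*k^4 + (10250063/2500)*k^5 + (267991/625)*k^6 + (126/5)*k^7 + (16/25)*k^8)*s^3*r^1
      + ((133974/5)*k^0 + (8022807/125)*k^1 + (69418917/1250)*k^2 + (12550497/500)*k^3 + (4208454/625)*k^4 + (2796013/2500)*k^5 + (70947/625)*k^6 + (162/25)*k^7 + (4/25)*k^8)*s^4*r^0 := by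
    rw [hr']; ring
  rw [e]
  positivity

/-- the choice of `t` -/
theorem num {n l l₂ κ : ℝ} (hn : 5 ≤ n) (h0 : n ^ 2 / (n + 1) < l) (h1 : l ≤ n)
    (hκ1 : 1 - 1 / l ≤ κ) (hκ2 : κ ≤ 1) (hL : l + l₂ ≤ (4 * n + 8 / l) / 3) :
    ∃ t : ℝ, 0 < t ∧ t ≤ l ∧ t * n ^ 2 ≤ 4 * (l - l₂) ^ 2 ∧ l₂ ≤ l ∧
      0 ≤ n ^ 2 / (n + 1) - l + t * κ ∧ 0 ≤ n ^ 2 / (n + 1) - l₂ - t / l ∧
      t ^ 2 * (1 / (2 * l)) ^ 2 ≤ (n ^ 2 / (n + 1) - l + t * κ) * (n ^ 2 / (n + 1) - l₂ - t / l) := by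
  set l₀ := n ^ 2 / (n + 1) with hl0
  have hN : 0 < n + 1 := by linarith
  have hl0N : l₀ * (n + 1) = n ^ 2 := by rw [hl0]; field_simp
  set d := l - l₀ with hd
  have hd0 : 0 < d := by rw [hd]; linarith
  set s := d * (n + 1) / n with hs
  have hn0 : 0 < n := by linarith
  have hs0 : 0 ≤ s := by positivity
  have hsn : n * s = d * (n + 1) := by rw [hs]; field_simp
  have hs1 : s ≤ 1 := by
    rw [hs, div_le_one hn0]
    have : d * (n + 1) ≤ (n - l₀) * (n + 1) := by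
      apply mul_le_mul_of_nonneg_right _ hN.le
      rw [hd]; linarith
    have e : (n - l₀) * (n + 1) = n := by rw [sub_mul, hl0N]; ring
    linarith
  have hX : n * (n + s) = l * (n + 1) := by
    rw [mul_add, hsn, hd, sub_mul, hl0N]; ring
  have hl4 : 4 < l := by
    have : 4 ≤ l₀ := by
      rw [hl0, le_div_iff₀ hN]
      nlinarith
    linarith
  have hd1 : d < 1 := by
    have : n * s ≤ n * 1 := mul_le_mul_of_nonneg_left hs1 hn0.le
    rw [hsn] at this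
    by_contra h
    have : (1 : ℝ) * (n + 1) ≤ d * (n + 1) := mul_le_mul_of_nonneg_right (not_lt.1 h) hN.le
    linarith
  have hk : 5 + (n - 5) = n := by ring
  have c2 := c2_poly (n - 5) s (1 - s) (by linarith) hs0 (by linarith) (by ring)
  have c3 := c3_poly (n - 5) s (1 - s) (by linarith) hs0 (by linarith) (by ring)
  rw [hk] at c2 c3
  rw [hX, hsn] at c2 c3
  have hl1 : 0 < l - 1 := by linarith
  have hlp : 0 < l := by linarith
  have hκp : 0 < κ := by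
    have : 1 / l < 1 := by rw [div_lt_one hlp]; linarith
    linarith
  have hκl : l - 1 ≤ κ * l := by
    have := mul_le_mul_of_nonneg_right hκ1 hlp.le
    rw [sub_mul, one_mul, one_div, inv_mul_cancel₀ hlp.ne'] at this
    exact this
  -- in terms of `l`
  have P2 : 0 ≤ 4 * (6 * l ^ 2 - 4 * n * l - 8) ^ 2 * (l - 1) -
      9 * (51 / 50) * d * n ^ 2 * l ^ 3 := by
    have e : 4 * (6 * (l * (n + 1)) ^ 2 - 4 * n * (l * (n + 1)) * (n + 1) - 8 * (n + 1) ^ 2) ^ 2 *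
        (l * (n + 1) - (n + 1)) -
        9 * (51 / 50) * (d * (n + 1)) * n ^ 2 * (l * (n + 1)) ^ 3 * (n + 1) =
        (n + 1) ^ 5 * (4 * (6 * l ^ 2 - 4 * n * l - 8) ^ 2 * (l - 1) -
          9 * (51 / 50) * d * n ^ 2 * l ^ 3) := by ring
    rw [e] at c2
    exact (mul_nonneg_iff_of_pos_left (by positivity)).1 c2
  have P3 : 0 ≤ (1 / 50) * (12 * l * (l - 1) ^ 2 * (l₀ + l - (4 / 3) * n) - 32 * (l - 1) ^ 2 -
      12 * (51 / 50) * d * l * (l - 1)) - 3 * (51 / 50) ^ 2 * d * l := by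
    rw [← hl0N] at c3
    have e : 1 / 50 *
          (12 * (l * (n + 1)) * (l * (n + 1) - (n + 1)) ^ 2 *
          (l₀ * (n + 1) + l * (n + 1) - 4 / 3 * n * (n + 1)) -
            32 * (l * (n + 1) - (n + 1)) ^ 2 * (n + 1) ^ 2 -
          12 * (51 / 50) * (d * (n + 1)) * (l * (n + 1)) * (l * (n + 1) - (n + 1)) * (n + 1)) -
        3 * (51 / 50) ^ 2 * (d * (n + 1)) * (l * (n + 1)) * (n + 1) ^ 2 =
        (n + 1) ^ 4 * ((1 / 50) * (12 * l * (l - 1) ^ 2 * (l₀ + l - (4 / 3) * n) -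
          32 * (l - 1) ^ 2 - 12 * (51 / 50) * d * l * (l - 1)) - 3 * (51 / 50) ^ 2 * d * l) := by
      ring
    rw [e] at c3
    exact (mul_nonneg_iff_of_pos_left (by positivity)).1 c3
  set t := (51 / 50) * d / κ with ht
  have htκ : t * κ = (51 / 50) * d := by rw [ht]; field_simp
  have ht0 : 0 < t := by positivity
  set u := t / l with hu
  have hul : u * l = t := by rw [hu]; field_simp
  have hu0 : 0 < u := by positivity
  set u1 := (51 / 50) * d / (l - 1) with hu1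
  have hu1l : u1 * (l - 1) = (51 / 50) * d := by rw [hu1]; field_simp
  have huu1 : u ≤ u1 := by
    rw [hu1, le_div_iff₀ hl1, ← htκ, ← hul]
    have := mul_le_mul_of_nonneg_left hκl hu0.le
    linarith
  have hu10 : 0 < u1 := by positivity
  have htl : t ≤ l := by
    have h2 : u1 ≤ 1 := by
      rw [hu1, div_le_one hl1]
      linarith
    rw [← hul]
    exact mul_le_of_le_one_left hlp.le (huu1.trans h2)
  have h8 : (8 / l) * l = 8 := by field_simp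
  have e3 : l * (l + l₂) ≤ (4 * n * l + 8) / 3 := by
    have h11 := mul_le_mul_of_nonneg_right hL hlp.le
    have h12 : (4 * n + 8 / l) / 3 * l = (4 * n * l + 8) / 3 := by linear_combination h8 / 3
    rw [h12] at h11
    linarith
  have e4 : 12 * (l - 1) ^ 2 * (l * (l + l₂)) ≤ 12 * (l - 1) ^ 2 * ((4 * n * l + 8) / 3) :=
    mul_le_mul_of_nonneg_left e3 (by positivity)
  have e2 : 12 * l * (l - 1) ^ 2 * u1 = 12 * (51 / 50) * d * l * (l - 1) := by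
    linear_combination 12 * l * (l - 1) * hu1l
  have e1 : 12 * l * (l - 1) ^ 2 * (l₀ + l - (4 / 3) * n) - 32 * (l - 1) ^ 2 -
      12 * (51 / 50) * d * l * (l - 1) ≤ (12 * l * (l - 1) ^ 2) * (l₀ - l₂ - u1) := by
    rw [← e2]
    have k1 : (12 * l * (l - 1) ^ 2) * (l₀ - l₂ - u1) -
        (12 * l * (l - 1) ^ 2 * (l₀ + l - (4 / 3) * n) - 32 * (l - 1) ^ 2 -
          12 * l * (l - 1) ^ 2 * u1) =
        12 * (l - 1) ^ 2 * ((4 * n * l + 8) / 3) - 12 * (l - 1) ^ 2 * (l * (l + l₂)) := by ring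
    exact sub_nonneg.1 (k1 ▸ sub_nonneg.2 e4)
  -- lower bound for `l - l₂`
  have hA : 6 * l ^ 2 - 4 * n * l - 8 ≤ 3 * l * (l - l₂) := by
    have k1 : 3 * l * (l - l₂) = 6 * l ^ 2 - 3 * (l * (l + l₂)) := by ring
    rw [k1]
    linarith
  have hA0 : 0 ≤ 6 * l ^ 2 - 4 * n * l - 8 := by
    have h3 : 5 / 6 * n ≤ l₀ := by
      rw [hl0, le_div_iff₀ hN]
      nlinarith
    have h4 : 5 / 6 * n ≤ l := by linarith
    have h5 : 0 ≤ l * (6 * l - 4 * n - 2) := mul_nonneg hlp.le (by linarith)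
    have h6 : 6 * l ^ 2 - 4 * n * l - 8 = l * (6 * l - 4 * n - 2) + (2 * l - 8) := by ring
    rw [h6]
    linarith
  have hll2 : l₂ ≤ l := by
    by_contra hc
    have h4 : l - l₂ < 0 := by linarith [not_le.1 hc]
    have : 3 * l * (l - l₂) < 0 := mul_neg_of_pos_of_neg (by linarith) h4
    linarith
  have h9 : 0 ≤ l₀ - l₂ - u1 := by
    have e5 : 0 ≤ (12 * l * (l - 1) ^ 2) * (l₀ - l₂ - u1) := by
      have h12 : 0 ≤ 3 * (51 / 50) ^ 2 * d * l := by positivity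
      refine le_trans ?_ e1
      linarith
    exact (mul_nonneg_iff_of_pos_left (by positivity)).1 e5
  refine ⟨t, ht0, htl, ?_, hll2, ?_, ?_, ?_⟩
  · have h4 : (6 * l ^ 2 - 4 * n * l - 8) ^ 2 ≤ (3 * l * (l - l₂)) ^ 2 :=
      pow_le_pow_left₀ hA0 hA 2
    have h5 : 0 ≤ (l - 1) * (9 * l ^ 2) * (4 * (l - l₂) ^ 2 - t * n ^ 2) := by
      have h6 : t * (l - 1) ≤ (51 / 50) * d * l := by
        rw [← hul]
        have := mul_le_mul_of_nonneg_right huu1 hl1.le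
        rw [hu1l] at this
        have h10 := mul_le_mul_of_nonneg_right this hlp.le
        calc u * l * (l - 1) = u * (l - 1) * l := by ring
          _ ≤ _ := h10
      have h7 : t * (l - 1) * (9 * l ^ 2 * n ^ 2) ≤ (51 / 50) * d * l * (9 * l ^ 2 * n ^ 2) :=
        mul_le_mul_of_nonneg_right h6 (by positivity)
      have h9 : 4 * (6 * l ^ 2 - 4 * n * l - 8) ^ 2 * (l - 1) ≤
          4 * (3 * l * (l - l₂)) ^ 2 * (l - 1) :=
        mul_le_mul_of_nonneg_right (mul_le_mul_of_nonneg_left h4 (by norm_num)) hl1.le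
      have e0 : (l - 1) * (9 * l ^ 2) * (4 * (l - l₂) ^ 2 - t * n ^ 2) =
          4 * (3 * l * (l - l₂)) ^ 2 * (l - 1) - t * (l - 1) * (9 * l ^ 2 * n ^ 2) := by ring
      have e1 : 9 * (51 / 50) * d * n ^ 2 * l ^ 3 = (51 / 50) * d * l * (9 * l ^ 2 * n ^ 2) := by
        ring
      rw [e0]
      rw [e1] at P2
      exact sub_nonneg.2 (h7.trans ((sub_nonneg.1 P2).trans h9))
    have h6 := (mul_nonneg_iff_of_pos_left (by positivity : 0 < (l - 1) * (9 * l ^ 2))).1 h5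
    linarith
  · rw [htκ]
    linarith
  · linarith
  · have e6 : 0 ≤ (12 * l * (l - 1) ^ 2) * ((d / 50) * (l₀ - l₂ - u1) - u1 ^ 2 / 4) := by
      have e7 : (12 * l * (l - 1) ^ 2) * (u1 ^ 2 / 4) = 3 * (51 / 50) ^ 2 * d ^ 2 * l := by
        have : (u1 * (l - 1)) ^ 2 = ((51 / 50) * d) ^ 2 := by rw [hu1l]
        linear_combination 3 * l * this
      have e8 := mul_nonneg hd0.le P3
      have e9 := mul_le_mul_of_nonneg_left e1 hd0.le
      have k1 : (12 * l * (l - 1) ^ 2) * ((d / 50) * (l₀ - l₂ - u1) - u1 ^ 2 / 4) =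
        (1 / 50) * (d * (12 * l * (l - 1) ^ 2 * (l₀ - l₂ - u1))) -
          (12 * l * (l - 1) ^ 2) * (u1 ^ 2 / 4) := by ring
      rw [k1, e7]
      have k2 : d * (1 / 50 * (12 * l * (l - 1) ^ 2 * (l₀ + l - 4 / 3 * n) - 32 * (l - 1) ^ 2 -
          12 * (51 / 50) * d * l * (l - 1)) - 3 * (51 / 50) ^ 2 * d * l) =
          (1 / 50) * (d * (12 * l * (l - 1) ^ 2 * (l₀ + l - 4 / 3 * n) - 32 * (l - 1) ^ 2 -
          12 * (51 / 50) * d * l * (l - 1))) - 3 * (51 / 50) ^ 2 * d ^ 2 * l := by ring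
      rw [k2] at e8
      refine e8.trans (sub_le_sub_right (mul_le_mul_of_nonneg_left e9 (by norm_num)) _)
    have e7 := (mul_nonneg_iff_of_pos_left (by positivity : 0 < 12 * l * (l - 1) ^ 2)).1 e6
    have e8 : t ^ 2 * (1 / (2 * l)) ^ 2 = u ^ 2 / 4 := by
      rw [← hul]
      field_simp
      ring
    have e9 : l₀ - l + t * κ = d / 50 := by
      rw [htκ, hd]; ring
    rw [e8, e9]
    have e10 : u ^ 2 ≤ u1 ^ 2 := pow_le_pow_left₀ hu0.le huu1 2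
    have e11 : (d / 50) * (l₀ - l₂ - u1) ≤ (d / 50) * (l₀ - l₂ - u) :=
      mul_le_mul_of_nonneg_left (by linarith) (by positivity)
    linarith

end Pool.Agent.H781.NG.Alg
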