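import Mathlib

/-!
Spectral decomposition of a real symmetric matrix, and a Ky Fan type inequality.
-/

set_option autoImplicit false
set_option maxHeartbeats 1000000

noncomputable section

namespace Pool.Agent.H781.NG.Alg

open Finset
open scoped RealInnerProductSpace Matrix

variable {ι : Type*} [Fintype ι] [DecidableEq ι]

/-- an orthonormal basis of eigenvectors -/
theorem spec_exists (K : Matrix ι ι ℝ) (hK : K.IsHermitian) :
    ∃ v : ι → ι → ℝ, (∀ r s, v r ⬝ᵥ v s = if r = s then 1 else 0) ∧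
      (∀ p q, ∑ r, v r p * v r q = if p = q then 1 else 0) ∧
      (∀ r, K *ᵥ v r = hK.eigenvalues r • v r) ∧
      ∀ p q, K p q = ∑ r, hK.eigenvalues r * (v r p * v r q) := by
  set v : ι → ι → ℝ := fun r => ⇑(hK.eigenvectorBasis r) with hv
  have h1 : ∀ r s, v r ⬝ᵥ v s = if r = s then 1 else 0 := by
    intro r s
    have h := orthonormal_iff_ite.1 hK.eigenvectorBasis.orthonormal r s
    rw [EuclideanSpace.inner_eq_star_dotProduct] at h
    rw [← h, dotProduct_comm]
    rfl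
  have h2 : ∀ p q, ∑ r, v r p * v r q = if p = q then 1 else 0 := by
    intro p q
    have hU : (Matrix.of v) * (Matrix.of v)ᵀ = 1 := by
      ext r s
      rw [Matrix.mul_apply, Matrix.one_apply]
      exact h1 r s
    have hU2 : (Matrix.of v)ᵀ * (Matrix.of v) = 1 := mul_eq_one_comm.1 hU
    have := congrFun (congrFun hU2 p) q
    rw [Matrix.mul_apply, Matrix.one_apply] at this
    exact this
  have h3 : ∀ r, K *ᵥ v r = hK.eigenvalues r • v r := fun r => hK.mulVec_eigenvectorBasis r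
  refine ⟨v, h1, h2, h3, ?_⟩
  intro p q
  have h4 : ∀ r, ∑ s, K p s * v r s = hK.eigenvalues r * v r p := by
    intro r
    have := congrFun (h3 r) p
    exact this
  calc K p q = ∑ s, K p s * (if s = q then 1 else 0) := by simp
    _ = ∑ s, K p s * ∑ r, v r s * v r q := by simp only [h2]
    _ = ∑ r, (∑ s, K p s * v r s) * v r q := by
        simp only [Finset.mul_sum, Finset.sum_mul]
        rw [Finset.sum_comm]
        refine Finset.sum_congr rfl fun r _ => Finset.sum_congr rfl fun s _ => ?_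
        ring
    _ = _ := by
        refine Finset.sum_congr rfl fun r _ => ?_
        rw [h4]
        ring

/-- a set of `k` indices with the smallest values -/
theorem exists_smallest (f : ι → ℝ) (k : ℕ) (hk : k ≤ Fintype.card ι) :
    ∃ t : Finset ι, t.card = k ∧ ∀ i ∈ t, ∀ j ∉ t, f i ≤ f j := by
  have hne : ((Finset.univ : Finset ι).powersetCard k).Nonempty :=
    Finset.powersetCard_nonempty.2 (by simpa using hk)
  obtain ⟨t, ht, hmin⟩ := Finset.exists_min_image _ (fun t => ∑ i ∈ t, f i) hne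
  rw [Finset.mem_powersetCard] at ht
  refine ⟨t, ht.2, ?_⟩
  intro i hi j hj
  by_contra hc
  rw [not_le] at hc
  have hj' : j ∉ t.erase i := fun h => hj (Finset.mem_of_mem_erase h)
  have h1 : insert j (t.erase i) ∈ (Finset.univ : Finset ι).powersetCard k := by
    rw [Finset.mem_powersetCard]
    refine ⟨Finset.subset_univ _, ?_⟩
    rw [Finset.card_insert_of_notMem hj', Finset.card_erase_of_mem hi, ht.2]
    have : 0 < t.card := Finset.card_pos.2 ⟨i, hi⟩
    omega
  have h2 := hmin _ h1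

  rw [Finset.sum_insert hj', ← Finset.add_sum_erase t f hi] at h2
  linarith

/-- weights `0 ≤ p ≤ L` of total mass `k L` against values with positive `k`-sums -/
theorem weights_pos (f p : ι → ℝ) (k : ℕ) (hk0 : 0 < k) (hk : k ≤ Fintype.card ι)
    (hpos : ∀ t : Finset ι, t.card = k → 0 < ∑ i ∈ t, f i) {L : ℝ} (hL : 0 < L)
    (h0 : ∀ i, 0 ≤ p i) (h1 : ∀ i, p i ≤ L) (hs : ∑ i, p i = k * L) :
    0 < ∑ i, f i * p i := by
  obtain ⟨t, ht, hmin⟩ := exists_smallest f k hk
  have hne : t.Nonempty := by rw [← Finset.card_pos, ht]; exact hk0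
  obtain ⟨i0, hi0, hmax⟩ := Finset.exists_max_image t f hne
  set θ := f i0 with hθ
  have e1 : ∑ i, f i * p i = ∑ i, (f i - θ) * p i + θ * (k * L) := by
    rw [← hs, Finset.mul_sum, ← Finset.sum_add_distrib]
    refine Finset.sum_congr rfl fun i _ => ?_
    ring
  have e2 : ∑ i ∈ t, (f i - θ) * L ≤ ∑ i, (f i - θ) * p i := by
    rw [← Finset.sum_add_sum_compl t (fun i => (f i - θ) * p i)]
    have k1 : ∑ i ∈ t, (f i - θ) * L ≤ ∑ i ∈ t, (f i - θ) * p i := by
      refine Finset.sum_le_sum fun i hi => ?_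
      have := hmax i hi
      have h3 := h1 i
      nlinarith
    have k2 : 0 ≤ ∑ i ∈ tᶜ, (f i - θ) * p i := by
      refine Finset.sum_nonneg fun i hi => ?_
      rw [Finset.mem_compl] at hi
      have := hmin i0 hi0 i hi
      exact mul_nonneg (by linarith) (h0 i)
    linarith
  have e3 : ∑ i ∈ t, (f i - θ) * L = L * ∑ i ∈ t, f i - θ * (k * L) := by
    rw [← Finset.sum_mul, Finset.sum_sub_distrib, Finset.sum_const, ht, nsmul_eq_mul]
    ring
  have e4 := mul_pos hL (hpos t ht)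
  rw [e1]
  linarith

/-- Ky Fan type inequality -/
theorem kyfan (K P : Matrix ι ι ℝ) (hK : K.IsHermitian) (k : ℕ) (hk0 : 0 < k)
    (hk : k ≤ Fintype.card ι)
    (hpos : ∀ t : Finset ι, t.card = k → 0 < ∑ i ∈ t, hK.eigenvalues i) {L : ℝ} (hL : 0 < L)
    (h0 : ∀ a : ι → ℝ, 0 ≤ a ⬝ᵥ (P *ᵥ a)) (h1 : ∀ a : ι → ℝ, a ⬝ᵥ (P *ᵥ a) ≤ L * (a ⬝ᵥ a))
    (htr : P.trace = k * L) : 0 < ∑ p, ∑ q, K p q * P p q := by
  obtain ⟨v, v1, v2, v3, v4⟩ := spec_exists K hK
  have hq : ∀ a : ι → ℝ, a ⬝ᵥ (P *ᵥ a) = ∑ p, ∑ q, P p q * (a p * a q) := by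
    intro a
    simp only [dotProduct, Matrix.mulVec, Finset.mul_sum]
    refine Finset.sum_congr rfl fun p _ => Finset.sum_congr rfl fun q _ => ?_
    ring
  have e1 : ∑ p, ∑ q, K p q * P p q = ∑ r, hK.eigenvalues r * (v r ⬝ᵥ (P *ᵥ v r)) := by
    simp only [hq, v4, Finset.sum_mul, Finset.mul_sum]
    have : ∀ p, ∑ q, ∑ r, hK.eigenvalues r * (v r p * v r q) * P p q =
        ∑ r, ∑ q, hK.eigenvalues r * (v r p * v r q) * P p q := fun p => Finset.sum_comm
    simp only [this]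
    rw [Finset.sum_comm]
    refine Finset.sum_congr rfl fun r _ => Finset.sum_congr rfl fun p _ =>
      Finset.sum_congr rfl fun q _ => ?_
    ring
  have e2 : ∑ r, v r ⬝ᵥ (P *ᵥ v r) = k * L := by
    rw [← htr]
    simp only [hq]
    have : ∀ r, ∑ p, ∑ q, P p q * (v r p * v r q) = ∑ x : ι × ι, P x.1 x.2 * (v r x.1 * v r x.2) :=
      fun r => (Fintype.sum_prod_type (fun x : ι × ι => P x.1 x.2 * (v r x.1 * v r x.2))).symm
    simp only [this]
    rw [Finset.sum_comm]
    simp only [← Finset.mul_sum, v2]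
    rw [Fintype.sum_prod_type]
    simp [Matrix.trace]
  rw [e1]
  refine weights_pos hK.eigenvalues (fun r => v r ⬝ᵥ (P *ᵥ v r)) k hk0 hk hpos hL
    (fun r => h0 _) (fun r => ?_) e2
  have := h1 (v r)
  rw [v1 r r, if_pos rfl, mul_one] at this
  exact this

/-- the top two eigenvectors of a symmetric matrix -/
theorem top_two (W : Matrix ι ι ℝ) (hW : W.IsHermitian) (hcard : 2 ≤ Fintype.card ι) :
    ∃ (x y : ι → ℝ) (l l₂ : ℝ), x ⬝ᵥ x = 1 ∧ y ⬝ᵥ y = 1 ∧ x ⬝ᵥ y = 0 ∧ W *ᵥ x = l • x ∧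
      W *ᵥ y = l₂ • y ∧ (∀ a : ι → ℝ, a ⬝ᵥ (W *ᵥ a) ≤ l * (a ⬝ᵥ a)) ∧
      ∀ a : ι → ℝ, x ⬝ᵥ a = 0 → a ⬝ᵥ (W *ᵥ a) ≤ l₂ * (a ⬝ᵥ a) := by
  obtain ⟨v, v1, v2, v3, v4⟩ := spec_exists W hW
  have : Nonempty ι := Fintype.card_pos_iff.1 (by omega)
  obtain ⟨r1, -, hr1⟩ := Finset.exists_max_image Finset.univ hW.eigenvalues Finset.univ_nonempty
  have hne : (Finset.univ.erase r1).Nonempty := by
    rw [← Finset.card_pos, Finset.card_erase_of_mem (Finset.mem_univ _), Finset.card_univ]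
    omega
  obtain ⟨r2, hr2m, hr2⟩ := Finset.exists_max_image (Finset.univ.erase r1) hW.eigenvalues hne
  have hr12 : r1 ≠ r2 := fun h => by simp [h] at hr2m
  have hexp : ∀ a : ι → ℝ, a ⬝ᵥ (W *ᵥ a) = ∑ r, hW.eigenvalues r * (v r ⬝ᵥ a) ^ 2 := by
    intro a
    simp only [dotProduct, Matrix.mulVec, v4, Finset.mul_sum, Finset.sum_mul]
    have e1 : ∀ p, ∑ q, ∑ r, a p * (hW.eigenvalues r * (v r p * v r q) * a q) =
        ∑ r, ∑ q, a p * (hW.eigenvalues r * (v r p * v r q) * a q) := fun p => Finset.sum_comm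
    simp only [e1]
    rw [Finset.sum_comm]
    refine Finset.sum_congr rfl fun r _ => ?_
    rw [pow_two, Finset.sum_mul_sum, Finset.mul_sum]
    refine Finset.sum_congr rfl fun p _ => ?_
    rw [Finset.mul_sum]
    refine Finset.sum_congr rfl fun q _ => ?_
    ring
  have hpar : ∀ a : ι → ℝ, a ⬝ᵥ a = ∑ r, (v r ⬝ᵥ a) ^ 2 := by
    intro a
    have e0 : a ⬝ᵥ a = ∑ p, ∑ q, a p * a q * (if p = q then 1 else 0) := by
      simp [dotProduct]
    rw [e0]
    simp only [← v2, Finset.mul_sum]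
    have e1 : ∀ p, ∑ q, ∑ r, a p * a q * (v r p * v r q) =
        ∑ r, ∑ q, a p * a q * (v r p * v r q) := fun p => Finset.sum_comm
    simp only [e1]
    rw [Finset.sum_comm]
    refine Finset.sum_congr rfl fun r _ => ?_
    rw [pow_two, dotProduct, Finset.sum_mul_sum]
    refine Finset.sum_congr rfl fun p _ => Finset.sum_congr rfl fun q _ => ?_
    ring
  refine ⟨v r1, v r2, hW.eigenvalues r1, hW.eigenvalues r2, ?_, ?_, ?_, v3 r1, v3 r2, ?_, ?_⟩
  · rw [v1, if_pos rfl]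
  · rw [v1, if_pos rfl]
  · rw [v1, if_neg hr12]
  · intro a
    rw [hexp, hpar, Finset.mul_sum]
    refine Finset.sum_le_sum fun r _ => ?_
    exact mul_le_mul_of_nonneg_right (hr1 r (Finset.mem_univ _)) (sq_nonneg _)
  · intro a ha
    rw [hexp, hpar, Finset.mul_sum]
    refine Finset.sum_le_sum fun r _ => ?_
    by_cases hr : r = r1
    · rw [hr, ha]; simp
    · exact mul_le_mul_of_nonneg_right
        (hr2 r (Finset.mem_erase.2 ⟨hr, Finset.mem_univ _⟩)) (sq_nonneg _)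

end Pool.Agent.H781.NG.Alg
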