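import Pool.Agent.H781.NG.AlgD
import Pool.Agent.H781.NG.AlgE
import Pool.Agent.H781.S22.Defs

/-!
The basis `E_p` (`p = (i < j)`) of the skew matrices.
-/

set_option autoImplicit false
set_option maxHeartbeats 1000000

noncomputable section

namespace Pool.Agent.H781.NG.Alg

open Finset
open scoped RealInnerProductSpace Matrix
open Pool.Agent.H781.S22 (Pr)

variable {m : ℕ}

/-- sums over all pairs and over `i < j` -/
theorem sum_pr (f : Fin m → Fin m → ℝ) (hs : ∀ i j, f i j = f j i) (h0 : ∀ i, f i i = 0) :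
    ∑ i, ∑ j, f i j = 2 * ∑ p : Pr m, f p.1.1 p.1.2 := by
  have h1 : ∑ p : Pr m, f p.1.1 p.1.2 = ∑ i, ∑ j, if i < j then f i j else 0 := by
    rw [← Fintype.sum_prod_type' (fun i j => if i < j then f i j else 0), ← Finset.sum_filter]
    exact (Finset.sum_subtype (Finset.univ.filter (fun x : Fin m × Fin m => x.1 < x.2))
      (fun x => by simp) (fun x : Fin m × Fin m => f x.1 x.2)).symm
  have h2 : ∑ i, ∑ j, f i j = (∑ i, ∑ j, if i < j then f i j else 0) +
      ∑ i, ∑ j, if j < i then f i j else 0 := by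
    rw [← Finset.sum_add_distrib]
    refine Finset.sum_congr rfl fun i _ => ?_
    rw [← Finset.sum_add_distrib]
    refine Finset.sum_congr rfl fun j _ => ?_
    rcases lt_trichotomy i j with h | h | h
    · rw [if_pos h, if_neg (not_lt.2 h.le), add_zero]
    · rw [h, h0]; simp
    · rw [if_neg (not_lt.2 h.le), if_pos h, zero_add]
  have h3 : (∑ i, ∑ j, if j < i then f i j else 0) = ∑ i, ∑ j, if i < j then f i j else 0 := by
    rw [Finset.sum_comm]
    refine Finset.sum_congr rfl fun i _ => Finset.sum_congr rfl fun j _ => ?_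
    rw [hs j i]
  rw [h1, h2, h3]
  ring

/-- the basis element `e_i ∧ e_j` -/
def EE (i j : Fin m) : Matrix (Fin m) (Fin m) ℝ := Matrix.single i j 1 - Matrix.single j i 1

theorem EE_apply (i j a b : Fin m) : EE i j a b =
    (if i = a ∧ j = b then 1 else 0) - (if j = a ∧ i = b then 1 else 0) := by
  simp [EE, Matrix.single_apply]

theorem EE_skew (i j : Fin m) : (EE i j)ᵀ = - EE i j := by
  ext a b
  rw [Matrix.transpose_apply, Matrix.neg_apply, EE_apply, EE_apply]
  simp only [and_comm (a := i = b), and_comm (a := j = b)]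
  ring

theorem bi_EE {A : Matrix (Fin m) (Fin m) ℝ} (hA : Aᵀ = -A) (i j : Fin m) :
    bi A (EE i j) = A i j := by
  have h : A j i = - A i j := by
    have := congrFun (congrFun hA i) j
    simpa using this
  have h1 : ∀ a b : Fin m, ∑ x, ∑ y, A x y * (if a = x ∧ b = y then (1 : ℝ) else 0) = A a b := by
    intro a b
    have : ∀ x y, A x y * (if a = x ∧ b = y then (1 : ℝ) else 0) =
        if a = x then (if b = y then A x y else 0) else 0 := by
      intro x y
      by_cases hx : a = x <;> by_cases hy : b = y <;> simp [hx, hy]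
    simp only [this]
    simp
  unfold bi
  simp only [EE_apply, mul_sub, Finset.sum_sub_distrib, h1, h]
  ring

/-- the skew matrix with coordinates `a` -/
def sk (a : Pr m → ℝ) : Matrix (Fin m) (Fin m) ℝ := ∑ p : Pr m, a p • EE p.1.1 p.1.2

theorem sk_skew (a : Pr m → ℝ) : (sk a)ᵀ = - sk a := by
  unfold sk
  rw [Matrix.transpose_sum, ← Finset.sum_neg_distrib]
  refine Finset.sum_congr rfl fun p _ => ?_
  rw [Matrix.transpose_smul, EE_skew, smul_neg]

theorem bi_sum_right {κ : Type*} (s : Finset κ) (A : Matrix (Fin m) (Fin m) ℝ)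
    (B : κ → Matrix (Fin m) (Fin m) ℝ) : bi A (∑ k ∈ s, B k) = ∑ k ∈ s, bi A (B k) := by
  classical
  induction s using Finset.induction_on with
  | empty => simp [bi]
  | insert a s ha ih => rw [Finset.sum_insert ha, Finset.sum_insert ha, bi_add_right, ih]

theorem bi_sk {A : Matrix (Fin m) (Fin m) ℝ} (hA : Aᵀ = -A) (a : Pr m → ℝ) :
    bi A (sk a) = ∑ p : Pr m, A p.1.1 p.1.2 * a p := by
  unfold sk
  rw [bi_sum_right]
  refine Finset.sum_congr rfl fun p _ => ?_
  rw [bi_smul_right, bi_EE hA, mul_comm]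

theorem sk_pr (a : Pr m → ℝ) (q : Pr m) : sk a q.1.1 q.1.2 = a q := by
  rw [← bi_EE (sk_skew a), bi_comm, bi_sk (EE_skew _ _)]
  rw [Finset.sum_eq_single q]
  · rw [EE_apply, if_pos ⟨rfl, rfl⟩, if_neg, sub_zero, one_mul]
    rintro ⟨h1, -⟩
    exact absurd h1 q.2.ne'
  · intro p _ hpq
    rw [EE_apply, if_neg, if_neg, sub_zero, zero_mul]
    · rintro ⟨h1, h2⟩
      have h3 := p.2
      have h4 := q.2
      rw [← h1, ← h2] at h3
      exact absurd (h3.trans h4) (lt_irrefl _)
    · rintro ⟨h1, h2⟩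
      exact hpq (Subtype.ext (Prod.ext h1.symm h2.symm))
  · intro h; exact absurd (Finset.mem_univ _) h

theorem eq_sk {A : Matrix (Fin m) (Fin m) ℝ} (hA : Aᵀ = -A) :
    A = sk (fun p => A p.1.1 p.1.2) := by
  have hA' : ∀ i j, A j i = - A i j := by
    intro i j
    have := congrFun (congrFun hA i) j
    simpa using this
  have hS' : ∀ i j, sk (fun p : Pr m => A p.1.1 p.1.2) j i =
      - sk (fun p : Pr m => A p.1.1 p.1.2) i j := by
    intro i j
    have := congrFun (congrFun (sk_skew (fun p : Pr m => A p.1.1 p.1.2)) i) j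
    simpa using this
  ext i j
  rcases lt_trichotomy i j with h | h | h
  · exact (sk_pr (fun p : Pr m => A p.1.1 p.1.2) ⟨(i, j), h⟩).symm
  · subst h
    have h1 := hA' i i
    have h2 := hS' i i
    linarith
  · rw [hA' j i, hS' j i]
    congr 1
    exact (sk_pr (fun p : Pr m => A p.1.1 p.1.2) ⟨(j, i), h⟩).symm

theorem bi_sk_sk (a b : Pr m → ℝ) : bi (sk a) (sk b) = a ⬝ᵥ b := by
  rw [bi_sk (sk_skew a)]
  simp only [sk_pr]
  rfl

theorem sk_add (a b : Pr m → ℝ) : sk (a + b) = sk a + sk b := by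
  unfold sk
  rw [← Finset.sum_add_distrib]
  refine Finset.sum_congr rfl fun p _ => ?_
  rw [Pi.add_apply, add_smul]

theorem sk_smul (t : ℝ) (a : Pr m → ℝ) : sk (t • a) = t • sk a := by
  unfold sk
  rw [Finset.smul_sum]
  refine Finset.sum_congr rfl fun p _ => ?_
  rw [Pi.smul_apply, smul_eq_mul, smul_smul]

/-- the matrix of the form `T` -/
def TM (X : Matrix (Fin m) (Fin m) ℝ) : Matrix (Pr m) (Pr m) ℝ :=
  Matrix.of fun p q => X p.1.1 p.1.2 * X q.1.1 q.1.2 - X p.1.1 q.1.1 * X p.1.2 q.1.2 +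
    X p.1.1 q.1.2 * X p.1.2 q.1.1

theorem Tf_EE {X : Matrix (Fin m) (Fin m) ℝ} (hX : Xᵀ = -X) (i j k l : Fin m) :
    Tf X (EE i j) (EE k l) = X i j * X k l - X i k * X j l + X i l * X j k := by
  have h : ∀ a b, X a b = - X b a := by
    intro a b
    have := congrFun (congrFun hX b) a
    simpa using this
  have h1 : (X * EE i j * (X * EE k l)).trace = 2 * X i k * X j l - 2 * X i l * X j k := by
    have e1 : ∀ (M : Matrix (Fin m) (Fin m) ℝ) (a b : Fin m),
        (M * Matrix.single a b (1 : ℝ)).trace = M b a := by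
      intro M a b
      simp [Matrix.trace_mul_single]
    have e2 : X * EE i j * (X * EE k l) = (X * EE i j * X) * Matrix.single k l 1 -
        (X * EE i j * X) * Matrix.single l k 1 := by
      rw [← Matrix.mul_sub, ← Matrix.mul_assoc]
      rfl
    have e3 : ∀ a b, (X * EE i j * X) a b = X a i * X j b - X a j * X i b := by
      intro a b
      rw [EE, Matrix.mul_sub, Matrix.sub_mul, Matrix.sub_apply]
      have e4 : ∀ c d : Fin m, (X * Matrix.single c d (1 : ℝ) * X) a b = X a c * X d b := by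
        intro c d
        rw [Matrix.mul_apply]
        rw [Finset.sum_eq_single d]
        · simp
        · intro x _ hx
          rw [Matrix.mul_single_apply_of_ne _ _ _ _ _ hx]
          simp
        · intro h; exact absurd (Finset.mem_univ _) h
      rw [e4, e4]
    rw [e2, Matrix.trace_sub, e1, e1, e3, e3]
    rw [h l i, h l j, h k i, h k j]
    ring
  unfold Tf
  rw [bi_EE hX, bi_EE hX, h1]
  ring

theorem Tf_add_left (X A B C : Matrix (Fin m) (Fin m) ℝ) :
    Tf X (A + B) C = Tf X A C + Tf X B C := by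
  rw [Tf_comm, Tf_add_right, Tf_comm X C A, Tf_comm X C B]

theorem Tf_smul_left (t : ℝ) (X A B : Matrix (Fin m) (Fin m) ℝ) :
    Tf X (t • A) B = t * Tf X A B := by
  rw [Tf_comm, Tf_smul_right, Tf_comm]

theorem Tf_sum_right {κ : Type*} (s : Finset κ) (X A : Matrix (Fin m) (Fin m) ℝ)
    (B : κ → Matrix (Fin m) (Fin m) ℝ) : Tf X A (∑ k ∈ s, B k) = ∑ k ∈ s, Tf X A (B k) := by
  classical
  induction s using Finset.induction_on with
  | empty =>
    have := Tf_smul_right 0 X A 0
    simpa using this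
  | insert a s ha ih => rw [Finset.sum_insert ha, Finset.sum_insert ha, Tf_add_right, ih]

theorem Tf_sum_left {κ : Type*} (s : Finset κ) (X A : Matrix (Fin m) (Fin m) ℝ)
    (B : κ → Matrix (Fin m) (Fin m) ℝ) : Tf X (∑ k ∈ s, B k) A = ∑ k ∈ s, Tf X (B k) A := by
  rw [Tf_comm, Tf_sum_right]
  exact Finset.sum_congr rfl fun k _ => Tf_comm _ _ _

theorem Tf_sk {X : Matrix (Fin m) (Fin m) ℝ} (hX : Xᵀ = -X) (a b : Pr m → ℝ) :
    Tf X (sk a) (sk b) = a ⬝ᵥ (TM X *ᵥ b) := by
  unfold sk
  rw [Tf_sum_left]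
  simp only [dotProduct, Matrix.mulVec]
  refine Finset.sum_congr rfl fun p _ => ?_
  rw [Tf_smul_left, Tf_sum_right]
  congr 1
  refine Finset.sum_congr rfl fun q _ => ?_
  rw [Tf_smul_right, Tf_EE hX, mul_comm]
  rfl

theorem TM_trace {X : Matrix (Fin m) (Fin m) ℝ} (hX : Xᵀ = -X) : (TM X).trace = 0 := by
  have h : ∀ a b, X a b = - X b a := by
    intro a b
    have := congrFun (congrFun hX b) a
    simpa using this
  rw [Matrix.trace]
  refine Finset.sum_eq_zero fun p _ => ?_
  have h1 := h p.1.1 p.1.1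
  have h2 : X p.1.1 p.1.1 = 0 := by linarith
  have h3 := h p.1.2 p.1.1
  simp only [Matrix.diag_apply, TM, Matrix.of_apply]
  rw [h2, h3]
  ring

variable {H : Type*} [NormedAddCommGroup H] [InnerProductSpace ℝ H]

/-- the matrix of the Weitzenböck form -/
def WM (c cd : Fin m → H →ₗ[ℝ] H) (w : H) : Matrix (Pr m) (Pr m) ℝ :=
  Matrix.of fun p q => Wf c cd w (EE p.1.1 p.1.2) (EE q.1.1 q.1.2)

theorem hat_EE (c cd : Fin m → H →ₗ[ℝ] H) (i j : Fin m) (x : H) :
    hat c cd (EE i j) x = cd i (c j x) - cd j (c i x) := by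
  have h : ∀ a b : Fin m, hat c cd (Matrix.single a b 1) x = cd a (c b x) := by
    intro a b
    rw [hat, Finset.sum_eq_single a]
    · rw [Finset.sum_eq_single b]
      · simp
      · intro y _ hy
        rw [Matrix.single_apply_of_ne, zero_smul]
        rintro ⟨-, h⟩
        exact hy h.symm
      · intro h; exact absurd (Finset.mem_univ _) h
    · intro y _ hy
      refine Finset.sum_eq_zero fun z _ => ?_
      rw [Matrix.single_apply_of_ne, zero_smul]
      rintro ⟨h, -⟩
      exact hy h.symm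
    · intro h; exact absurd (Finset.mem_univ _) h
  rw [EE, hat_sub, h, h]

theorem hat_sk (c cd : Fin m → H →ₗ[ℝ] H) (a : Pr m → ℝ) (x : H) :
    hat c cd (sk a) x = ∑ p : Pr m, a p • hat c cd (EE p.1.1 p.1.2) x := by
  unfold sk
  rw [hat_sum]
  exact Finset.sum_congr rfl fun p _ => hat_smul _ _ _ _ _

theorem Wf_sk (c cd : Fin m → H →ₗ[ℝ] H) (w : H) (a b : Pr m → ℝ) :
    Wf c cd w (sk a) (sk b) = a ⬝ᵥ (WM c cd w *ᵥ b) := by
  unfold Wf
  rw [hat_sk, hat_sk, sum_inner]
  simp only [dotProduct, Matrix.mulVec]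
  refine Finset.sum_congr rfl fun p _ => ?_
  rw [real_inner_smul_left, inner_sum]
  congr 1
  refine Finset.sum_congr rfl fun q _ => ?_
  rw [real_inner_smul_right, mul_comm]
  rfl

theorem WM_herm (c cd : Fin m → H →ₗ[ℝ] H) (w : H) : (WM c cd w).IsHermitian := by
  ext p q
  simp only [Matrix.conjTranspose_apply, star_trivial, WM, Matrix.of_apply, Wf]
  rw [real_inner_comm]

end Pool.Agent.H781.NG.Alg
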