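import Pool.Agent.H781.NG.Dat

/-!
Specification of the lemmas of the project (the statements `S_*`), with paper proofs.

Goal: for `n ≥ 5`, `Sⁿ × Sⁿ` has no Riemannian metric with `(n+1)`-positive curvature operator
(MP_b50944_gt).
-/

open Bundle Manifold ContDiff VectorField Metric MeasureTheory Filter
open scoped Topology RealInnerProductSpace

set_option autoImplicit false
set_option synthInstance.maxHeartbeats 400000
set_option maxHeartbeats 4000000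

noncomputable section

namespace Pool.Agent.H781.NG

open Pool.Agent.H821R2 Pool.Agent.H821R3 Pool.Agent.H893R5.HO Pool.Agent.H781.S22

/-! ### Bochner formula -/

/-- integrated Bochner formula -/
def S_BOCHNER : Prop := ∀ (N : ℕ) (A : Type) [CommRing A] [Algebra ℝ A] (F : Fr N A)
  (I : A →ₗ[ℝ] ℝ), IsInt F I → ∀ u : Fk N A,
    I (ip (dd F u) (dd F u)) + I (ip (de F u) (de F u)) =
      I (∑ a, ip (nab F a u) (nab F a u)) + I (ric F u)

/-- `dd` and `de` are adjoint -/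
def S_ADJ : Prop := ∀ (N : ℕ) (A : Type) [CommRing A] [Algebra ℝ A] (F : Fr N A)
  (I : A →ₗ[ℝ] ℝ), IsInt F I → ∀ u v : Fk N A, I (ip (dd F u) v) = I (ip u (de F v))

/-- `d² = 0` -/
def S_DD : Prop := ∀ (N : ℕ) (A : Type) [CommRing A] [Algebra ℝ A] (F : Fr N A),
  Bianchi F → ∀ u : Fk N A, dd F (dd F u) = 0

/-! ### Algebraic lemma -/

/-- the algebraic lemma in dimension `2n` -/
def AlgLemma (n : ℕ) : Prop :=
  ∀ (H : Type) [NormedAddCommGroup H] [InnerProductSpace ℝ H] (c cd : Fin (2 * n) → H →ₗ[ℝ] H),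
    (∀ i x y, ⟪c i x, y⟫ = ⟪x, cd i y⟫) →
    (∀ i j x, c i (cd j x) + cd j (c i x) = if i = j then x else 0) →
    (∀ i j x, c i (c j x) = - c j (c i x)) →
    ∀ K : Fin (2 * n) → Fin (2 * n) → Fin (2 * n) → Fin (2 * n) → ℝ, CurvT K → KPos (n + 1) K →
    ∀ u : H, u ≠ 0 → ∑ i, cd i (c i u) = (n : ℝ) • u →
      0 < ∑ i, ∑ j, ∑ k, ∑ l, K i j k l * ⟪cd j (c i u), cd l (c k u)⟫

def S_ALG : Prop := ∀ n : ℕ, 5 ≤ n → AlgLemma n

/-! ### Measure and mollifier -/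

variable {n : ℕ}

/-- integral -/
def ig (μ : Measure (MM n)) (f : SmA n) : ℝ := ∫ p, ev p f ∂μ

/-- existence of the round measure -/
def S_MEAS : Prop := ∀ n : ℕ, 1 ≤ n → ∃ μ : Measure (MM n), IsRound μ

/-- the kernels -/
def kk (a b : ℕ) (p q : MM n) : ℝ :=
  (1 + ⟪(p.1 : V n), (q.1 : V n)⟫) ^ a * (1 + ⟪(p.2 : V n), (q.2 : V n)⟫) ^ b

/-- normalising constants -/
def cm (n m : ℕ) : ℝ := ∏ k ∈ Finset.range m, ((2 * k + n : ℝ) / (k + n))

/-- the moments of the kernels -/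
def S_MOM : Prop := ∀ (n : ℕ) (μ : Measure (MM n)), 1 ≤ n → IsRound μ →
  ∀ (a b : ℕ) (p : MM n), ∫ q, kk a b p q ∂μ = cm n a * cm n b

/-- `J m` is the normalised integral operator with kernel `kk m m` -/
def IsMol (μ : Measure (MM n)) (J : ℕ → SmA n →ₗ[ℝ] SmA n) : Prop :=
  ∀ m f p, ev p (J m f) = ((cm n m) ^ 2)⁻¹ * ∫ q, kk m m p q * ev q f ∂μ

/-- existence of the mollifier, finite rank -/
def S_JEX : Prop := ∀ (n : ℕ) (μ : Measure (MM n)), 1 ≤ n → IsRound μ →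
  ∃ J : ℕ → SmA n →ₗ[ℝ] SmA n, IsMol μ J ∧
    ∀ m, ∃ (k : ℕ) (φ ψ : Fin k → SmA n), ∀ f, J m f = ∑ j, cs (ig μ (ψ j * f)) * φ j

/-- boundedness and convergence -/
def S_JBD : Prop := ∀ (n : ℕ) (μ : Measure (MM n)), 1 ≤ n → IsRound μ →
  ∀ J : ℕ → SmA n →ₗ[ℝ] SmA n, IsMol μ J →
    (∀ m f, ig μ (J m f * J m f) ≤ ig μ (f * f)) ∧
    ∀ f, Tendsto (fun m => ig μ ((J m f - f) * (J m f - f))) atTop (𝓝 0)

/-- commutators with first order operators -/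
def S_JCM : Prop := ∀ (n : ℕ) (μ : Measure (MM n)), 1 ≤ n → IsRound μ →
  ∀ J : ℕ → SmA n →ₗ[ℝ] SmA n, IsMol μ J →
    (∀ (a : SmA n) (i : Ix n), ∃ C : ℝ, ∀ m, 1 ≤ m → ∀ f,
      ig μ ((a * ED i (J m f) - J m (a * ED i f)) ^ 2) ≤ C * ig μ (f * f)) ∧
    ∀ (a : SmA n) (i : Ix n) (f : SmA n),
      Tendsto (fun m => ig μ ((a * ED i (J m f) - J m (a * ED i f)) ^ 2)) atTop (𝓝 0)

/-! ### Geometry -/

/-- smooth metrics on `Sⁿ × Sⁿ` -/
abbrev Met (n : ℕ) : Type :=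
  ContMDiffRiemannianMetric (IM n) ∞ (EuclideanSpace ℝ (Fin n) × EuclideanSpace ℝ (Fin n))
    (fun p : MM n => TangentSpace (IM n) p)

/-- connections -/
abbrev Cov (n : ℕ) : Type :=
  CovariantDerivative (IM n) (EuclideanSpace ℝ (Fin n) × EuclideanSpace ℝ (Fin n))
    (TangentSpace (IM n) : MM n → Type _)

/-- smooth Cholesky decomposition -/
def S_CHOL : Prop := ∀ (n N : ℕ) (G : Fin N → Fin N → SmA n), (∀ i j, G i j = G j i) →
  (∀ p, (Matrix.of fun i j => ev p (G i j)).PosDef) →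
  ∃ S : Fin N → Fin N → SmA n,
    (∀ a b, ∑ i, ∑ j, S a i * G i j * S b j = if a = b then 1 else 0) ∧
    ∀ p, 0 < (Matrix.of fun i j => ev p (S i j)).det

/-- the vector field `∑ S i E_i` -/
def fld (s : Ix n → SmA n) : Π p : MM n, TangentSpace (IM n) p := fun p => ∑ i, ev p (s i) • EE i p

/-- the normal components -/
def nuS (S : Fin (2 * n + 2) → Ix n → SmA n) (a : Fin 2) (b : Fin (2 * n + 2)) : SmA n :=
  ∑ i, S b i * nn n a i

/-- A tight frame: `ẽ_b = (e_b, ν_b)`, `e_b = ∑ S b i E_i`, `ν_b = ∑ S b i n_i`, is an orthonormal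
frame of `TM ⊕ ℝ²`. -/
structure TF (g : Met n) where
  S : Fin (2 * n + 2) → Ix n → SmA n
  det_pos : ∀ p, 0 < ev p (Matrix.of fun a b => S a (ix n b)).det
  on : ∀ (p : MM n) (a b : Fin (2 * n + 2)), g.inner p (fld (S a) p) (fld (S b) p)
    + ∑ c, ev p (nuS S c a) * ev p (nuS S c b) = if a = b then 1 else 0
  /-- `∑ ẽ_b ⊗ ẽ_b = id` -/
  tight : ∀ (p : MM n) (v : TangentSpace (IM n) p),
    ∑ b, g.inner p v (fld (S b) p) • fld (S b) p = v
  nu_fld : ∀ (p : MM n) (c : Fin 2), ∑ b, ev p (nuS S c b) • fld (S b) p = 0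
  nu_on : ∀ c c', ∑ b, nuS S c b * nuS S c' b = if c = c' then 1 else 0
  /-- components of `Ẽ_k` in the frame `ẽ` are the inverse matrix of `S` -/
  inv : ∀ (p : MM n) (j k : Ix n), ∑ b, ev p (S b j) * (g.inner p (EE k p) (fld (S b) p)
    + ∑ c, ev p (nn n c k) * ev p (nuS S c b)) = if j = k then 1 else 0

/-- existence of tight frames -/
def S_TF : Prop := ∀ (n : ℕ), 1 ≤ n → ∀ g : Met n, Nonempty (TF g)

/-- brackets of coordinate fields -/
def S_BR : Prop := ∀ (n : ℕ), 1 ≤ n → ∀ (i j : Ix n) (p : MM n),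
  mlieBracket (IM n) (EE i) (EE j) p = blk i j • (cx i p • EE j p - cx j p • EE i p)

/-- positivity assumption: for every orthonormal frame at every point, the sum of any `k`
eigenvalues of the matrix of the curvature operator is positive -/
def CPos (k : ℕ) (g : Met n) (R : CurvField (IM n) (MM n)) : Prop :=
  ∀ (p : MM n) (f : Fin (2 * n) → TangentSpace (IM n) p), IsOrthonormalFrame g p f →
    ∀ h : (curvMatrix g R p f).IsHermitian, ∀ t : Finset (Pr (2 * n)), t.card = k →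
      0 < ∑ i ∈ t, h.eigenvalues i

/-- the geometric input -/
def S_GEO : Prop := ∀ (n : ℕ), 1 ≤ n → ∀ (g : Met n) (cov : Cov n) (R : CurvField (IM n) (MM n)),
  IsLeviCivita g cov → IsRiemannTensor cov R → ∀ k, CPos k g R →
    ∀ μ : Measure (MM n), IsRound μ → Nonempty (GeoDat n k μ)

/-! ### Forms -/

section forms

variable {k : ℕ} {μ : Measure (MM n)} (D : GeoDat n k μ)

/-- contraction with the normal section `nu a` -/
def anu (a : Fin 2) (u : Fk (2 * n + 2) (SmA n)) : Fk (2 * n + 2) (SmA n) :=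
  ∑ b, D.nu a b • an b u

/-- exterior multiplication with the normal section `nu a` -/
def cnu (a : Fin 2) (u : Fk (2 * n + 2) (SmA n)) : Fk (2 * n + 2) (SmA n) :=
  ∑ b, D.nu a b • cr b u

/-- differential forms of degree `r` on `Sⁿ × Sⁿ` -/
def IsForm (r : ℕ) (u : Fk (2 * n + 2) (SmA n)) : Prop :=
  (∀ S, S.card ≠ r → u S = 0) ∧ ∀ a, anu D a u = 0

/-- horizontal projection -/
def Ph (u : Fk (2 * n + 2) (SmA n)) : Fk (2 * n + 2) (SmA n) :=
  anu D 0 (cnu D 0 (anu D 1 (cnu D 1 u)))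

/-- the `L²` product -/
def BB (u v : Fk (2 * n + 2) (SmA n)) : ℝ := ig μ (D.rho * ip u v)

end forms

/-- topology: a closed form with non-zero period -/
def S_TOP : Prop := ∀ (n k : ℕ) (μ : Measure (MM n)), 1 ≤ n → IsRound μ → ∀ D : GeoDat n k μ,
  ∃ (α : Fk (2 * n + 2) (SmA n)) (L : Fk (2 * n + 2) (SmA n) →ₗ[SmA n] SmA n),
    IsForm D n α ∧ dd D.F α = 0 ∧ (∀ w, ig μ (D.rho * L (dd D.F w)) = 0) ∧
    ig μ (D.rho * L α) ≠ 0

/-- uniform positivity of the Weitzenböck term -/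
def S_RIC : Prop := ∀ (n : ℕ) (μ : Measure (MM n)), 1 ≤ n → AlgLemma n →
  ∀ D : GeoDat n (n + 1) μ, ∃ c : ℝ, 0 < c ∧ ∀ u, IsForm D n u → ∀ p,
    c * ev p (ip u u) ≤ ev p (ric D.F u)

/-- properties of the horizontal projection -/
def S_PH : Prop := ∀ (n k : ℕ) (μ : Measure (MM n)) (D : GeoDat n k μ),
  (∀ u a, anu D a (Ph D u) = 0) ∧
  (∀ u, (∀ a, anu D a u = 0) → Ph D u = u) ∧
  (∀ u, dd D.F (Ph D u) = Ph D (dd D.F u)) ∧
  (∀ u, de D.F (Ph D u) = Ph D (de D.F u)) ∧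
  (∀ u v, ip (Ph D u) v = ip u (Ph D v)) ∧
  (∀ r u, (∀ S, S.card ≠ r → u S = 0) → ∀ S, S.card ≠ r → Ph D u S = 0) ∧
  (∀ u p, ev p (ip (Ph D u) (Ph D u)) ≤ ev p (ip u u)) ∧
  (∀ r u, IsForm D r u → IsForm D (r + 1) (dd D.F u)) ∧
  (∀ r u, IsForm D (r + 1) u → IsForm D r (de D.F u))

/-- componentwise mollification -/
def JF (J : ℕ → SmA n →ₗ[ℝ] SmA n) (m : ℕ) (u : Fk (2 * n + 2) (SmA n)) :
    Fk (2 * n + 2) (SmA n) := fun S => J m (u S)

/-- squared `L²`-norm with respect to `μ` -/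
def q2 (μ : Measure (MM n)) (u : Fk (2 * n + 2) (SmA n)) : ℝ := ig μ (ip u u)

/-- commutators of the mollifier with `d` and `δ` -/
def S_COM : Prop := ∀ (n k : ℕ) (μ : Measure (MM n)), 1 ≤ n → IsRound μ → ∀ D : GeoDat n k μ,
  ∀ J : ℕ → SmA n →ₗ[ℝ] SmA n,
    (∀ m f, ig μ (J m f * J m f) ≤ ig μ (f * f)) →
    (∀ f, Tendsto (fun m => ig μ ((J m f - f) * (J m f - f))) atTop (𝓝 0)) →
    (∀ (a : SmA n) (i : Ix n), ∃ C : ℝ, ∀ m, 1 ≤ m → ∀ f,
      ig μ ((a * ED i (J m f) - J m (a * ED i f)) ^ 2) ≤ C * ig μ (f * f)) →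
    (∀ (a : SmA n) (i : Ix n) (f : SmA n),
      Tendsto (fun m => ig μ ((a * ED i (J m f) - J m (a * ED i f)) ^ 2)) atTop (𝓝 0)) →
    (∃ C : ℝ, ∀ m, 1 ≤ m → ∀ u, q2 μ (dd D.F (JF J m u) - JF J m (dd D.F u)) ≤ C * q2 μ u) ∧
    (∃ C : ℝ, ∀ m, 1 ≤ m → ∀ u, q2 μ (de D.F (JF J m u) - JF J m (de D.F u)) ≤ C * q2 μ u) ∧
    (∀ u, Tendsto (fun m => q2 μ (dd D.F (JF J m u) - JF J m (dd D.F u))) atTop (𝓝 0)) ∧
    (∀ u, Tendsto (fun m => q2 μ (de D.F (JF J m u) - JF J m (de D.F u))) atTop (𝓝 0))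

end Pool.Agent.H781.NG
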