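import Pool.Agent.H781.NG.AlgF
import Pool.Agent.H781.NG.Spec

/-!
The algebraic lemma.
-/

set_option autoImplicit false
set_option maxHeartbeats 4000000

noncomputable section

namespace Pool.Agent.H781.NG.Alg

open Finset
open scoped RealInnerProductSpace Matrix
open Pool.Agent.H781.S22 (Pr)

variable {m : ℕ}

/-- four-fold sums and sums over pairs of pairs -/
theorem sum_pr_pr (F : Fin m → Fin m → Fin m → Fin m → ℝ)
    (h1 : ∀ i j k l, F i j k l = F j i k l) (h2 : ∀ i j k l, F i j k l = F i j l k)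
    (h3 : ∀ i k l, F i i k l = 0) (h4 : ∀ i j k, F i j k k = 0) :
    ∑ i, ∑ j, ∑ k, ∑ l, F i j k l =
      4 * ∑ p : Pr m, ∑ q : Pr m, F p.1.1 p.1.2 q.1.1 q.1.2 := by
  rw [sum_pr (fun i j => ∑ k, ∑ l, F i j k l)
    (fun i j => Finset.sum_congr rfl fun k _ => Finset.sum_congr rfl fun l _ => h1 i j k l)
    (fun i => by simp [h3])]
  have : ∀ p : Pr m, ∑ k, ∑ l, F p.1.1 p.1.2 k l =
      2 * ∑ q : Pr m, F p.1.1 p.1.2 q.1.1 q.1.2 := fun p =>
    sum_pr (fun k l => F p.1.1 p.1.2 k l) (fun k l => h2 _ _ k l) (fun k => h4 _ _ k)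
  simp only [this]
  rw [← Finset.mul_sum]
  ring

section

variable {K : Fin m → Fin m → Fin m → Fin m → ℝ} (hK : CurvT K)

include hK

theorem K_zero1 (i k l : Fin m) : K i i k l = 0 := by
  have := hK.anti1 i i k l
  linarith

theorem K_zero2 (i j k : Fin m) : K i j k k = 0 := by
  have := hK.anti2 i j k k
  linarith

theorem K_cyc (i j k l : Fin m) : K i j k l + K i k l j + K i l j k = 0 := by
  have h := hK.bianchi k l j i
  have e1 : K k l j i = - K i j k l := by rw [hK.anti2, hK.pair i j k l]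
  have e2 : K l j k i = - K i k l j := by rw [hK.anti2, hK.pair i k l j]
  have e3 : K j k l i = - K i l j k := by rw [hK.anti2, hK.pair i l j k]
  rw [e1, e2, e3] at h
  linarith

theorem pairs_T {X : Matrix (Fin m) (Fin m) ℝ} (hX : Xᵀ = -X) :
    ∑ p : Pr m, ∑ q : Pr m, KM K p q * TM X p q = 0 := by
  have hx : ∀ a b, X a b = - X b a := by
    intro a b
    have := congrFun (congrFun hX b) a
    simpa using this
  set F : Fin m → Fin m → Fin m → Fin m → ℝ := fun i j k l =>
    K i j k l * (X i j * X k l - X i k * X j l + X i l * X j k) with hF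
  have h := sum_pr_pr F
    (fun i j k l => by
      simp only [hF]
      rw [hK.anti1 i j k l, hx j i]
      ring)
    (fun i j k l => by
      simp only [hF]
      rw [hK.anti2 i j k l, hx l k]
      ring)
    (fun i k l => by simp only [hF]; rw [K_zero1 hK, zero_mul])
    (fun i j k => by simp only [hF]; rw [K_zero2 hK, zero_mul])
  have e1 : ∑ p : Pr m, ∑ q : Pr m, KM K p q * TM X p q =
      ∑ p : Pr m, ∑ q : Pr m, F p.1.1 p.1.2 q.1.1 q.1.2 := rfl
  rw [e1]
  have e2 : ∑ i, ∑ j, ∑ k, ∑ l, F i j k l = 0 := by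
    have s2 : ∀ i, ∑ j, ∑ k, ∑ l, K i j k l * (X i k * X j l) =
        ∑ j, ∑ k, ∑ l, K i k j l * (X i j * X k l) := fun i => Finset.sum_comm
    have s3 : ∀ i, ∑ j, ∑ k, ∑ l, K i j k l * (X i l * X j k) =
        ∑ j, ∑ k, ∑ l, K i k l j * (X i j * X k l) := by
      intro i
      have t1 : ∀ j, ∑ k, ∑ l, K i j k l * (X i l * X j k) =
          ∑ l, ∑ k, K i j k l * (X i l * X j k) := fun j => Finset.sum_comm
      rw [Finset.sum_congr rfl fun j _ => t1 j, Finset.sum_comm]
    have s4 : ∀ i j, ∑ k, ∑ l, K i k l j * (X i j * X k l) =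
        ∑ k, ∑ l, K i l j k * (X i j * X k l) := by
      intro i j
      rw [Finset.sum_comm]
      refine Finset.sum_congr rfl fun k _ => Finset.sum_congr rfl fun l _ => ?_
      rw [hK.anti2 i l k j, hx l k]
      ring
    have s5 : ∑ i, ∑ j, ∑ k, ∑ l, F i j k l =
        ∑ i, (∑ j, ∑ k, ∑ l, K i j k l * (X i j * X k l) -
          ∑ j, ∑ k, ∑ l, K i j k l * (X i k * X j l) +
          ∑ j, ∑ k, ∑ l, K i j k l * (X i l * X j k)) := by
      refine Finset.sum_congr rfl fun i _ => ?_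
      rw [← Finset.sum_sub_distrib, ← Finset.sum_add_distrib]
      refine Finset.sum_congr rfl fun j _ => ?_
      rw [← Finset.sum_sub_distrib, ← Finset.sum_add_distrib]
      refine Finset.sum_congr rfl fun k _ => ?_
      rw [← Finset.sum_sub_distrib, ← Finset.sum_add_distrib]
      refine Finset.sum_congr rfl fun l _ => ?_
      simp only [hF]
      ring
    rw [s5]
    refine Finset.sum_eq_zero fun i _ => ?_
    rw [s2, s3]
    have s6 : ∑ j, ∑ k, ∑ l, K i k j l * (X i j * X k l) =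
        - ∑ j, ∑ k, ∑ l, K i k l j * (X i j * X k l) := by
      rw [← Finset.sum_neg_distrib]
      refine Finset.sum_congr rfl fun j _ => ?_
      rw [← Finset.sum_neg_distrib]
      refine Finset.sum_congr rfl fun k _ => ?_
      rw [← Finset.sum_neg_distrib]
      refine Finset.sum_congr rfl fun l _ => ?_
      rw [hK.anti2 i k j l]
      ring
    rw [s6, sub_neg_eq_add]
    have s7 : ∑ j, ∑ k, ∑ l, K i j k l * (X i j * X k l) +
        ∑ j, ∑ k, ∑ l, K i k l j * (X i j * X k l) +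
        ∑ j, ∑ k, ∑ l, K i l j k * (X i j * X k l) = 0 := by
      rw [← Finset.sum_add_distrib, ← Finset.sum_add_distrib]
      refine Finset.sum_eq_zero fun j _ => ?_
      rw [← Finset.sum_add_distrib, ← Finset.sum_add_distrib]
      refine Finset.sum_eq_zero fun k _ => ?_
      rw [← Finset.sum_add_distrib, ← Finset.sum_add_distrib]
      refine Finset.sum_eq_zero fun l _ => ?_
      rw [← add_mul, ← add_mul, K_cyc hK, zero_mul]
    have s8 : ∑ j, ∑ k, ∑ l, K i l j k * (X i j * X k l) =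
        ∑ j, ∑ k, ∑ l, K i k l j * (X i j * X k l) :=
      Finset.sum_congr rfl fun j _ => (s4 i j).symm
    rw [s8] at s7
    exact s7
  rw [e2] at h
  linarith

variable {H : Type*} [NormedAddCommGroup H] [InnerProductSpace ℝ H]

theorem pairs_W (c cd : Fin m → H →ₗ[ℝ] H) (w : H) :
    ∑ i, ∑ j, ∑ k, ∑ l, K i j k l * ⟪cd j (c i w), cd l (c k w)⟫ =
      ∑ p : Pr m, ∑ q : Pr m, KM K p q * WM c cd w p q := by
  set a : Fin m → Fin m → Fin m → Fin m → ℝ := fun i j k l =>
    ⟪cd j (c i w), cd l (c k w)⟫ with ha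
  set F : Fin m → Fin m → Fin m → Fin m → ℝ := fun i j k l =>
    K i j k l * (a i j k l - a j i k l - a i j l k + a j i l k) with hF
  have h := sum_pr_pr F
    (fun i j k l => by
      simp only [hF]
      rw [hK.anti1 i j k l]
      ring)
    (fun i j k l => by
      simp only [hF]
      rw [hK.anti2 i j k l]
      ring)
    (fun i k l => by simp only [hF]; rw [K_zero1 hK, zero_mul])
    (fun i j k => by simp only [hF]; rw [K_zero2 hK, zero_mul])
  have e1 : ∑ p : Pr m, ∑ q : Pr m, KM K p q * WM c cd w p q =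
      ∑ p : Pr m, ∑ q : Pr m, F p.1.1 p.1.2 q.1.1 q.1.2 := by
    refine Finset.sum_congr rfl fun p _ => Finset.sum_congr rfl fun q _ => ?_
    simp only [KM, WM, Matrix.of_apply, Wf, hat_EE, hF, ha, inner_sub_left, inner_sub_right]
    ring
  have r1 : ∑ i, ∑ j, ∑ k, ∑ l, K i j k l * a j i k l = - ∑ i, ∑ j, ∑ k, ∑ l, K i j k l * a i j k l := by
    rw [Finset.sum_comm]
    simp only [← Finset.sum_neg_distrib]
    refine Finset.sum_congr rfl fun i _ => Finset.sum_congr rfl fun j _ =>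
      Finset.sum_congr rfl fun k _ => Finset.sum_congr rfl fun l _ => ?_
    rw [hK.anti1 j i]
    ring
  have r2 : ∑ i, ∑ j, ∑ k, ∑ l, K i j k l * a i j l k = - ∑ i, ∑ j, ∑ k, ∑ l, K i j k l * a i j k l := by
    simp only [← Finset.sum_neg_distrib]
    refine Finset.sum_congr rfl fun i _ => Finset.sum_congr rfl fun j _ => ?_
    rw [Finset.sum_comm]
    refine Finset.sum_congr rfl fun k _ => Finset.sum_congr rfl fun l _ => ?_
    rw [hK.anti2 i j l k]
    ring
  have r3 : ∑ i, ∑ j, ∑ k, ∑ l, K i j k l * a j i l k = ∑ i, ∑ j, ∑ k, ∑ l, K i j k l * a i j k l := by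
    rw [Finset.sum_comm]
    refine Finset.sum_congr rfl fun i _ => Finset.sum_congr rfl fun j _ => ?_
    rw [Finset.sum_comm]
    refine Finset.sum_congr rfl fun k _ => Finset.sum_congr rfl fun l _ => ?_
    rw [hK.anti2 j i, hK.anti1 j i]
    ring
  have e2 : ∑ i, ∑ j, ∑ k, ∑ l, F i j k l = 4 * ∑ i, ∑ j, ∑ k, ∑ l, K i j k l * a i j k l := by
    have : ∑ i, ∑ j, ∑ k, ∑ l, F i j k l = ∑ i, ∑ j, ∑ k, ∑ l, K i j k l * a i j k l -
        ∑ i, ∑ j, ∑ k, ∑ l, K i j k l * a j i k l - ∑ i, ∑ j, ∑ k, ∑ l, K i j k l * a i j l k +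
        ∑ i, ∑ j, ∑ k, ∑ l, K i j k l * a j i l k := by
      simp only [← Finset.sum_sub_distrib, ← Finset.sum_add_distrib]
      refine Finset.sum_congr rfl fun i _ => Finset.sum_congr rfl fun j _ =>
        Finset.sum_congr rfl fun k _ => Finset.sum_congr rfl fun l _ => ?_
      simp only [hF]
      ring
    rw [this, r1, r2, r3]
    ring
  rw [e2] at h
  rw [e1]
  linarith

end

section

variable {H : Type*} [NormedAddCommGroup H] [InnerProductSpace ℝ H]
  {c cd : Fin m → H →ₗ[ℝ] H} (hc : CAR c cd)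

include hc

theorem CAR.number {w : H} {N : ℝ} (hN : ∑ i, cd i (c i w) = N • w) :
    ∑ i, ‖c i w‖ ^ 2 = N * ‖w‖ ^ 2 := by
  have : ∀ i, ‖c i w‖ ^ 2 = ⟪w, cd i (c i w)⟫ := by
    intro i
    rw [← real_inner_self_eq_norm_sq, hc.adj]
  simp only [this]
  rw [← inner_sum, hN, real_inner_smul_right, real_inner_self_eq_norm_sq]

theorem CAR.number_c {w : H} {N : ℝ} (hN : ∑ i, cd i (c i w) = N • w) (j : Fin m) :
    ∑ i, cd i (c i (c j w)) = (N - 1) • c j w := by
  have h1 : ∀ i, cd i (c i (c j w)) = c j (cd i (c i w)) - if j = i then c j w else 0 := by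
    intro i
    rw [hc.cc i j, map_neg]
    have := hc.car j i (c i w)
    have e : (if j = i then c i w else 0) = if j = i then c j w else 0 := by
      split_ifs with h
      · rw [h]
      · rfl
    rw [e] at this
    rw [← this]
    abel
  simp only [h1, Finset.sum_sub_distrib]
  rw [← map_sum, hN, map_smul, sub_smul, one_smul]
  simp

theorem CAR.number2 {w : H} {N : ℝ} (hN : ∑ i, cd i (c i w) = N • w) :
    ∑ i, ∑ j, ‖c i (c j w)‖ ^ 2 = (N - 1) * N * ‖w‖ ^ 2 := by
  rw [Finset.sum_comm]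
  have : ∀ j, ∑ i, ‖c i (c j w)‖ ^ 2 = (N - 1) * ‖c j w‖ ^ 2 := fun j =>
    hc.number (hc.number_c hN j)
  simp only [this]
  rw [← Finset.mul_sum, hc.number hN]
  ring

theorem CAR.trace {w : H} {N : ℝ} (hw : ‖w‖ = 1) (hN : ∑ i, cd i (c i w) = N • w) :
    (WM c cd w).trace = m * N - N ^ 2 := by
  have h0 : (WM c cd w).trace = ∑ p : Pr m, ‖cd p.1.1 (c p.1.2 w) - cd p.1.2 (c p.1.1 w)‖ ^ 2 := by
    rw [Matrix.trace]
    refine Finset.sum_congr rfl fun p _ => ?_
    simp only [Matrix.diag_apply, WM, Matrix.of_apply, Wf, hat_EE, real_inner_self_eq_norm_sq]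
  have h1 := sum_pr (m := m) (fun i j => ‖cd i (c j w) - cd j (c i w)‖ ^ 2)
    (fun i j => by simp only [norm_sub_rev]) (fun i => by simp)
  have h2 : ∀ i j, ‖cd i (c j w)‖ ^ 2 = ‖c j w‖ ^ 2 - ‖c i (c j w)‖ ^ 2 := by
    intro i j
    generalize c j w = z
    have h := hc.car i i z
    rw [if_pos rfl] at h
    have h' : c i (cd i z) = z - cd i (c i z) := by
      rw [eq_sub_iff_add_eq]; exact h
    rw [← real_inner_self_eq_norm_sq, ← real_inner_self_eq_norm_sq, ← real_inner_self_eq_norm_sq,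
      hc.adj', h', inner_sub_right, hc.adj]
  have h3 : ∀ i j, ⟪cd i (c j w), cd j (c i w)⟫ = if i = j then ‖c i w‖ ^ 2 else 0 := by
    intro i j
    rw [hc.adj']
    have h4 := hc.car i j (c i w)
    have h5 : c i (c i w) = 0 := by
      have := hc.cc i i w
      have h6 : (2 : ℝ) • c i (c i w) = 0 := by
        rw [two_smul]
        nth_rewrite 1 [this]
        abel
      exact (smul_eq_zero.1 h6).resolve_left two_ne_zero
    rw [h5, map_zero, add_zero] at h4
    rw [h4]
    split_ifs with h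
    · rw [← h, real_inner_self_eq_norm_sq]
    · rw [inner_zero_right]
  have h4 : ∑ i, ∑ j, ‖cd i (c j w) - cd j (c i w)‖ ^ 2 = 2 * (m * N - N ^ 2) := by
    have e1 : ∀ i j, ‖cd i (c j w) - cd j (c i w)‖ ^ 2 =
        ‖c j w‖ ^ 2 + ‖c i w‖ ^ 2 - ‖c i (c j w)‖ ^ 2 - ‖c j (c i w)‖ ^ 2 -
          2 * (if i = j then ‖c i w‖ ^ 2 else 0) := by
      intro i j
      rw [norm_sub_sq_real, h2, h2, h3]
      ring
    simp only [e1, Finset.sum_sub_distrib, Finset.sum_add_distrib]
    have e2 : ∑ i : Fin m, ∑ j : Fin m, ‖c j (c i w)‖ ^ 2 = (N - 1) * N * ‖w‖ ^ 2 := by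
      rw [Finset.sum_comm]
      exact hc.number2 hN
    rw [hc.number2 hN, e2]
    have e3 : ∑ i : Fin m, ∑ j : Fin m, 2 * (if i = j then ‖c i w‖ ^ 2 else 0) =
        2 * (N * ‖w‖ ^ 2) := by
      rw [← hc.number hN, Finset.mul_sum]
      refine Finset.sum_congr rfl fun i _ => ?_
      rw [← Finset.mul_sum]
      simp
    rw [e3]
    simp only [Finset.sum_const, Finset.card_univ, Fintype.card_fin,
      nsmul_eq_mul, hc.number hN, hw, ← Finset.mul_sum]
    ring
  rw [h4] at h1
  rw [h0]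
  linarith

end

theorem quad_nonneg {p r c : ℝ} (a : ℝ) (hp : 0 ≤ p) (hr : 0 ≤ r) (h : c ^ 2 ≤ p * r) :
    0 ≤ a ^ 2 * p + 2 * a * c + r := by
  rcases hp.eq_or_lt with h0 | h0
  · rw [← h0, zero_mul] at h
    have hc : c = 0 := by
      have := sq_nonneg c
      exact pow_eq_zero_iff two_ne_zero |>.1 (le_antisymm h this)
    rw [← h0, hc]
    linarith
  · have e : p * (a ^ 2 * p + 2 * a * c + r) = (a * p + c) ^ 2 + (p * r - c ^ 2) := by ring
    have h1 : 0 ≤ p * (a ^ 2 * p + 2 * a * c + r) := by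
      rw [e]
      have := sq_nonneg (a * p + c)
      linarith
    exact (mul_nonneg_iff_of_pos_left h0).1 h1

theorem card_Pr (n : ℕ) (hn : 2 ≤ n) : n + 1 ≤ Fintype.card (Pr (2 * n)) := by
  have h : Function.Injective (fun i : Fin (n + 1) =>
      (⟨(⟨i.1, by omega⟩, ⟨n + 1, by omega⟩), by
        rw [Fin.lt_def]; exact i.2⟩ : Pr (2 * n))) := by
    intro i j hij
    have := congrArg (fun p : Pr (2 * n) => p.1.1.1) hij
    exact Fin.ext this
  have := Fintype.card_le_of_injective _ h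
  simpa using this

end Pool.Agent.H781.NG.Alg
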