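import Pool.Agent.H781.NG.Spec

/-! `d² = 0` on the Fock space (S_DD), helper154 -/

set_option autoImplicit false

noncomputable section

namespace Pool.Agent.H781.NG

open Finset

namespace DDz

variable {N : ℕ} {A : Type} [CommRing A] [Algebra ℝ A] (F : Fr N A)

/-- componentwise derivative -/
def EC (a : Fin N) (u : Fk N A) : Fk N A := fun S => F.e a (u S)

theorem EC_add (a : Fin N) (u v : Fk N A) : EC F a (u + v) = EC F a u + EC F a v := by
  funext S
  simp [EC]

theorem EC_zero (a : Fin N) : EC F a (0 : Fk N A) = 0 := by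
  funext S
  simp [EC]

theorem EC_sum {κ : Type*} (s : Finset κ) (a : Fin N) (f : κ → Fk N A) :
    EC F a (∑ k ∈ s, f k) = ∑ k ∈ s, EC F a (f k) := by
  classical
  induction s using Finset.induction_on with
  | empty => simp [EC_zero]
  | insert x s hx ih => rw [Finset.sum_insert hx, Finset.sum_insert hx, EC_add, ih]

theorem EC_smul (a : Fin N) (f : A) (u : Fk N A) :
    EC F a (f • u) = F.e a f • u + f • EC F a u := by
  funext S
  simp only [EC, Pi.smul_apply, Pi.add_apply, smul_eq_mul, Derivation.leibniz]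
  ring

theorem e_int (a : Fin N) (z : ℤ) (f : A) : F.e a ((z : A) * f) = (z : A) * F.e a f := by
  rw [Derivation.leibniz, smul_eq_mul, smul_eq_mul, Derivation.map_intCast, mul_zero, add_zero]

theorem EC_cr (a b : Fin N) (u : Fk N A) : EC F a (cr b u) = cr b (EC F a u) := by
  funext S
  simp only [EC, cr_apply]
  split_ifs with h
  · exact e_int F a _ _
  · exact map_zero _

theorem EC_an (a b : Fin N) (u : Fk N A) : EC F a (an b u) = an b (EC F a u) := by
  funext S
  simp only [EC, an_apply]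
  split_ifs with h
  · exact map_zero _
  · exact e_int F a _ _

/-- `gam` as a sum over pairs -/
theorem gam_pair (a : Fin N) (u : Fk N A) :
    gam F a u = ∑ p : Fin N × Fin N, F.Γ a p.1 p.2 • cr p.2 (an p.1 u) := by
  unfold gam
  rw [Fintype.sum_prod_type]

theorem gam_add (a : Fin N) (u v : Fk N A) : gam F a (u + v) = gam F a u + gam F a v := by
  simp only [gam_pair, map_add, smul_add, Finset.sum_add_distrib]

theorem gam_sum {κ : Type*} (s : Finset κ) (a : Fin N) (f : κ → Fk N A) :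
    gam F a (∑ k ∈ s, f k) = ∑ k ∈ s, gam F a (f k) := by
  simp only [gam_pair, map_sum, Finset.smul_sum]
  rw [Finset.sum_comm]

theorem gam_smul (a : Fin N) (f : A) (u : Fk N A) : gam F a (f • u) = f • gam F a u := by
  simp only [gam_pair, map_smul, Finset.smul_sum]
  refine Finset.sum_congr rfl fun p _ => ?_
  rw [smul_comm]

theorem nab_eq (a : Fin N) (u : Fk N A) : nab F a u = EC F a u + gam F a u := rfl

theorem nab_add (a : Fin N) (u v : Fk N A) : nab F a (u + v) = nab F a u + nab F a v := by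
  rw [nab_eq, nab_eq, nab_eq, EC_add, gam_add]
  abel

theorem nab_sum {κ : Type*} (s : Finset κ) (a : Fin N) (f : κ → Fk N A) :
    nab F a (∑ k ∈ s, f k) = ∑ k ∈ s, nab F a (f k) := by
  simp only [nab_eq, EC_sum, gam_sum, Finset.sum_add_distrib]

theorem gam_cr (a b : Fin N) (u : Fk N A) :
    gam F a (cr b u) = cr b (gam F a u) + ∑ c, F.Γ a b c • cr c u := by
  unfold gam
  have h : ∀ b' c : Fin N, F.Γ a b' c • cr c (an b' (cr b u)) =
      (if b' = b then F.Γ a b' c • cr c u else 0) + F.Γ a b' c • cr b (cr c (an b' u)) := by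
    intro b' c
    rw [an_cr, map_sub, cr_cr c b (an b' u), sub_neg_eq_add, smul_add]
    split_ifs with h
    · rfl
    · rw [map_zero, smul_zero]
  simp only [h, Finset.sum_add_distrib, map_sum, map_smul]
  rw [add_comm]
  congr 1
  rw [Finset.sum_comm]
  refine Finset.sum_congr rfl fun c _ => ?_
  rw [Finset.sum_ite_eq' Finset.univ b (fun b' => F.Γ a b' c • cr c u)]
  simp

theorem nab_cr (a b : Fin N) (u : Fk N A) :
    nab F a (cr b u) = cr b (nab F a u) + ∑ c, F.Γ a b c • cr c u := by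
  rw [nab_eq, nab_eq, EC_cr, gam_cr, map_add]
  abel

/-- commutator of the connection matrices -/
theorem gam_gam (a b : Fin N) (u : Fk N A) :
    gam F a (gam F b u) =
      (∑ c, ∑ d, (∑ f, F.Γ b c f * F.Γ a f d) • cr d (an c u)) -
      ∑ p : Fin N × Fin N, ∑ q : Fin N × Fin N, (F.Γ a p.1 p.2 * F.Γ b q.1 q.2) •
        cr p.2 (cr q.2 (an p.1 (an q.1 u))) := by
  rw [gam_pair F b, gam_sum]
  simp only [gam_smul]
  have h : ∀ q : Fin N × Fin N, F.Γ b q.1 q.2 • gam F a (cr q.2 (an q.1 u)) =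
      (∑ d, (F.Γ b q.1 q.2 * F.Γ a q.2 d) • cr d (an q.1 u)) -
      ∑ p : Fin N × Fin N, (F.Γ a p.1 p.2 * F.Γ b q.1 q.2) •
        cr p.2 (cr q.2 (an p.1 (an q.1 u))) := by
    intro q
    rw [gam_cr, smul_add, Finset.smul_sum, add_comm, sub_eq_add_neg]
    congr 1
    · refine Finset.sum_congr rfl fun d _ => ?_
      rw [smul_smul]
    · rw [gam_pair, map_sum, Finset.smul_sum, ← Finset.sum_neg_distrib]
      refine Finset.sum_congr rfl fun p _ => ?_
      rw [map_smul, smul_smul, cr_cr q.2 p.2, smul_neg, mul_comm]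
  rw [Finset.sum_congr rfl fun q _ => h q, Finset.sum_sub_distrib, Fintype.sum_prod_type]
  congr 1
  · refine Finset.sum_congr rfl fun c _ => ?_
    rw [Finset.sum_comm]
    refine Finset.sum_congr rfl fun d _ => ?_
    rw [Finset.sum_smul]
  · rw [Finset.sum_comm]

theorem gam_comm (a b : Fin N) (u : Fk N A) :
    gam F a (gam F b u) - gam F b (gam F a u) =
      ∑ c, ∑ d, (∑ f, (F.Γ b c f * F.Γ a f d - F.Γ a c f * F.Γ b f d)) • cr d (an c u) := by
  rw [gam_gam F a b u, gam_gam F b a u]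
  have h : (∑ p : Fin N × Fin N, ∑ q : Fin N × Fin N, (F.Γ a p.1 p.2 * F.Γ b q.1 q.2) •
        cr p.2 (cr q.2 (an p.1 (an q.1 u)))) =
      ∑ p : Fin N × Fin N, ∑ q : Fin N × Fin N, (F.Γ b p.1 p.2 * F.Γ a q.1 q.2) •
        cr p.2 (cr q.2 (an p.1 (an q.1 u))) := by
    rw [Finset.sum_comm]
    refine Finset.sum_congr rfl fun q _ => Finset.sum_congr rfl fun p _ => ?_
    rw [mul_comm, cr_cr p.2 q.2, an_an p.1 q.1, map_neg, map_neg, neg_neg]
  rw [h]
  simp only [Finset.sum_sub_distrib, sub_smul]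
  abel

theorem EC_gam (a b : Fin N) (u : Fk N A) :
    EC F a (gam F b u) = (∑ c, ∑ d, F.e a (F.Γ b c d) • cr d (an c u)) + gam F b (EC F a u) := by
  rw [gam_pair, EC_sum, gam_pair, ← Fintype.sum_prod_type
    (f := fun p : Fin N × Fin N => F.e a (F.Γ b p.1 p.2) • cr p.2 (an p.1 u)),
    ← Finset.sum_add_distrib]
  refine Finset.sum_congr rfl fun p _ => ?_
  rw [EC_smul, EC_cr, EC_an]

theorem EC_EC (a b : Fin N) (u : Fk N A) :
    EC F a (EC F b u) - EC F b (EC F a u) = ∑ c, (F.Γ a b c - F.Γ b a c) • EC F c u := by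
  funext S
  rw [Pi.sub_apply, Finset.sum_apply]
  simp only [EC, Pi.smul_apply, smul_eq_mul]
  exact F.tors a b (u S)

/-- Ricci identity -/
theorem curv (a b : Fin N) (u : Fk N A) :
    (nab F a (nab F b u) - nab F b (nab F a u)) - ∑ c, (F.Γ a b c - F.Γ b a c) • nab F c u =
      ∑ c, ∑ d, Rm F a b c d • cr d (an c u) := by
  have h1 : nab F a (nab F b u) - nab F b (nab F a u) =
      (EC F a (EC F b u) - EC F b (EC F a u)) +
      ((∑ c, ∑ d, F.e a (F.Γ b c d) • cr d (an c u)) -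
        (∑ c, ∑ d, F.e b (F.Γ a c d) • cr d (an c u))) +
      (gam F a (gam F b u) - gam F b (gam F a u)) := by
    simp only [nab_eq, EC_add, gam_add, EC_gam]
    abel
  have h2 : ∑ f, (F.Γ a b f - F.Γ b a f) • nab F f u =
      (∑ f, (F.Γ a b f - F.Γ b a f) • EC F f u) +
      ∑ c, ∑ d, (∑ f, (F.Γ a b f - F.Γ b a f) * F.Γ f c d) • cr d (an c u) := by
    simp only [nab_eq, smul_add, Finset.sum_add_distrib]
    congr 1
    unfold gam
    simp only [Finset.smul_sum, Finset.sum_smul, smul_smul]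
    rw [Finset.sum_comm]
    refine Finset.sum_congr rfl fun c _ => ?_
    rw [Finset.sum_comm]
  rw [h1, h2, EC_EC, gam_comm]
  unfold Rm
  simp only [add_smul, sub_smul, Finset.sum_add_distrib, Finset.sum_sub_distrib]
  abel

theorem Rm_anti (a b c d : Fin N) : Rm F a b c d = - Rm F a b d c := by
  unfold Rm
  have h1 : F.e a (F.Γ b c d) = - F.e a (F.Γ b d c) := by
    rw [F.anti b c d, map_neg]
  have h2 : F.e b (F.Γ a c d) = - F.e b (F.Γ a d c) := by
    rw [F.anti a c d, map_neg]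
  have h3 : ∑ f, (F.Γ b c f * F.Γ a f d - F.Γ a c f * F.Γ b f d) =
      - ∑ f, (F.Γ b d f * F.Γ a f c - F.Γ a d f * F.Γ b f c) := by
    rw [← Finset.sum_neg_distrib]
    refine Finset.sum_congr rfl fun f _ => ?_
    rw [F.anti b c f, F.anti a f d, F.anti a c f, F.anti b f d]
    ring
  have h4 : ∑ f, (F.Γ a b f - F.Γ b a f) * F.Γ f c d =
      - ∑ f, (F.Γ a b f - F.Γ b a f) * F.Γ f d c := by
    rw [← Finset.sum_neg_distrib]
    refine Finset.sum_congr rfl fun f _ => ?_
    rw [F.anti f c d]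
    ring
  rw [h1, h2, h3, h4]
  ring

/-- reindexing for the second term -/
theorem second (u : Fk N A) :
    ∑ a, ∑ b, ∑ c, F.Γ a b c • cr a (cr c (nab F b u)) =
      - ∑ a, ∑ b, cr a (cr b (∑ c, F.Γ a b c • nab F c u)) := by
  rw [← Finset.sum_neg_distrib]
  refine Finset.sum_congr rfl fun a _ => ?_
  rw [← Finset.sum_neg_distrib, Finset.sum_comm]
  refine Finset.sum_congr rfl fun b _ => ?_
  rw [map_sum, map_sum, ← Finset.sum_neg_distrib]
  refine Finset.sum_congr rfl fun c _ => ?_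
  rw [map_smul, map_smul, F.anti a c b, neg_smul]

/-- `d²` in terms of second covariant derivatives -/
theorem dd_dd (u : Fk N A) :
    dd F (dd F u) = ∑ a, ∑ b, cr a (cr b (nab F a (nab F b u) - ∑ c, F.Γ a b c • nab F c u)) := by
  have h : dd F (dd F u) = (∑ a, ∑ b, cr a (cr b (nab F a (nab F b u)))) +
      ∑ a, ∑ b, ∑ c, F.Γ a b c • cr a (cr c (nab F b u)) := by
    unfold dd
    rw [← Finset.sum_add_distrib]
    refine Finset.sum_congr rfl fun a _ => ?_
    rw [nab_sum, map_sum, ← Finset.sum_add_distrib]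
    refine Finset.sum_congr rfl fun b _ => ?_
    rw [nab_cr, map_add, map_sum]
    simp only [map_smul]
  rw [h, second]
  simp only [map_sub, Finset.sum_sub_distrib]
  abel

theorem two_dd (u : Fk N A) :
    dd F (dd F u) + dd F (dd F u) =
      ∑ a, ∑ b, ∑ c, ∑ d, Rm F a b c d • cr a (cr b (cr d (an c u))) := by
  have h1 := dd_dd F u
  have h2 : dd F (dd F u) =
      - ∑ a, ∑ b, cr a (cr b (nab F b (nab F a u) - ∑ c, F.Γ b a c • nab F c u)) := by
    rw [h1, Finset.sum_comm, ← Finset.sum_neg_distrib]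
    refine Finset.sum_congr rfl fun a _ => ?_
    rw [← Finset.sum_neg_distrib]
    refine Finset.sum_congr rfl fun b _ => ?_
    rw [cr_cr b a]
  have h3 : dd F (dd F u) + dd F (dd F u) =
      (∑ a, ∑ b, cr a (cr b (nab F a (nab F b u) - ∑ c, F.Γ a b c • nab F c u))) -
      ∑ a, ∑ b, cr a (cr b (nab F b (nab F a u) - ∑ c, F.Γ b a c • nab F c u)) := by
    rw [sub_eq_add_neg, ← h2, ← h1]
  rw [h3, ← Finset.sum_sub_distrib]
  refine Finset.sum_congr rfl fun a _ => ?_
  rw [← Finset.sum_sub_distrib]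
  refine Finset.sum_congr rfl fun b _ => ?_
  have h4 : (nab F a (nab F b u) - ∑ c, F.Γ a b c • nab F c u) -
      (nab F b (nab F a u) - ∑ c, F.Γ b a c • nab F c u) =
      ∑ c, ∑ d, Rm F a b c d • cr d (an c u) := by
    rw [← curv F a b u]
    simp only [sub_smul, Finset.sum_sub_distrib]
    abel
  rw [← map_sub, ← map_sub, h4]
  simp only [map_sum, map_smul]

theorem cyc (hB : Bianchi F) (u : Fk N A) :
    3 • ∑ a, ∑ b, ∑ c, ∑ d, Rm F a b c d • cr a (cr b (cr d (an c u))) = 0 := by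
  -- `W a b d` is invariant under cyclic permutations
  have hW : ∀ a b d c : Fin N, cr a (cr b (cr d (an c u))) = cr b (cr d (cr a (an c u))) := by
    intro a b d c
    rw [cr_cr a b, cr_cr a d, map_neg, neg_neg]
  have e0 : ∑ a, ∑ b, ∑ c, ∑ d, Rm F a b c d • cr a (cr b (cr d (an c u))) =
      ∑ c, ∑ a, ∑ b, ∑ d, Rm F a b c d • cr a (cr b (cr d (an c u))) := by
    rw [Finset.sum_congr rfl fun a _ => Finset.sum_comm, Finset.sum_comm]
  have e1 : ∀ c : Fin N, ∑ a, ∑ b, ∑ d, Rm F a b c d • cr a (cr b (cr d (an c u))) =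
      ∑ a, ∑ b, ∑ d, Rm F b d c a • cr a (cr b (cr d (an c u))) := by
    intro c
    -- rename (a,b,d) -> (b,d,a)
    calc ∑ a, ∑ b, ∑ d, Rm F a b c d • cr a (cr b (cr d (an c u)))
        = ∑ b, ∑ d, ∑ a, Rm F b d c a • cr b (cr d (cr a (an c u))) := rfl
      _ = ∑ b, ∑ a, ∑ d, Rm F b d c a • cr b (cr d (cr a (an c u))) :=
          Finset.sum_congr rfl fun b _ => Finset.sum_comm
      _ = ∑ a, ∑ b, ∑ d, Rm F b d c a • cr b (cr d (cr a (an c u))) := Finset.sum_comm
      _ = _ := by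
          refine Finset.sum_congr rfl fun a _ => Finset.sum_congr rfl fun b _ =>
            Finset.sum_congr rfl fun d _ => ?_
          rw [hW a b d c]
  have e2 : ∀ c : Fin N, ∑ a, ∑ b, ∑ d, Rm F a b c d • cr a (cr b (cr d (an c u))) =
      ∑ a, ∑ b, ∑ d, Rm F d a c b • cr a (cr b (cr d (an c u))) := by
    intro c
    calc ∑ a, ∑ b, ∑ d, Rm F a b c d • cr a (cr b (cr d (an c u)))
        = ∑ d, ∑ a, ∑ b, Rm F d a c b • cr d (cr a (cr b (an c u))) := rfl
      _ = ∑ a, ∑ d, ∑ b, Rm F d a c b • cr d (cr a (cr b (an c u))) := Finset.sum_comm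
      _ = ∑ a, ∑ b, ∑ d, Rm F d a c b • cr d (cr a (cr b (an c u))) :=
          Finset.sum_congr rfl fun a _ => Finset.sum_comm
      _ = _ := by
          refine Finset.sum_congr rfl fun a _ => Finset.sum_congr rfl fun b _ =>
            Finset.sum_congr rfl fun d _ => ?_
          rw [hW d a b c]
  have e3 : (3 : ℕ) • ∑ a, ∑ b, ∑ c, ∑ d, Rm F a b c d • cr a (cr b (cr d (an c u))) =
      (∑ c, ∑ a, ∑ b, ∑ d, Rm F a b c d • cr a (cr b (cr d (an c u)))) +
      (∑ c, ∑ a, ∑ b, ∑ d, Rm F b d c a • cr a (cr b (cr d (an c u)))) +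
      (∑ c, ∑ a, ∑ b, ∑ d, Rm F d a c b • cr a (cr b (cr d (an c u)))) := by
    rw [e0, ← Finset.sum_congr rfl fun c _ => e1 c, ← Finset.sum_congr rfl fun c _ => e2 c]
    abel
  rw [e3]
  simp only [← Finset.sum_add_distrib]
  refine Finset.sum_eq_zero fun c _ => Finset.sum_eq_zero fun a _ => Finset.sum_eq_zero fun b _ =>
    Finset.sum_eq_zero fun d _ => ?_
  rw [← add_smul, ← add_smul]
  have : Rm F a b c d + Rm F b d c a + Rm F d a c b = 0 := by
    rw [Rm_anti F a b c d, Rm_anti F b d c a, Rm_anti F d a c b]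
    have := hB a b d c
    linear_combination (-1 : A) * this
  rw [this, zero_smul]

end DDz

theorem s_dd : S_DD := by
  intro N A _ _ F hB u
  have h1 := DDz.two_dd F u
  have h2 := DDz.cyc F hB u
  rw [← h1] at h2
  have h3 : (6 : ℝ) • dd F (dd F u) = 0 := by
    have : (6 : ℝ) • dd F (dd F u) = (6 : ℕ) • dd F (dd F u) := by
      rw [← Nat.cast_smul_eq_nsmul ℝ]
      norm_num
    rw [this, ← h2]
    abel
  have h4 : dd F (dd F u) = (1 / 6 : ℝ) • ((6 : ℝ) • dd F (dd F u)) := by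
    rw [smul_smul]
    norm_num
  rw [h4, h3, smul_zero]

end Pool.Agent.H781.NG
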