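import Pool.Agent.H781.NG.GeoSpec

/-!
The connection of a tight frame (helper44): proof of `S_GEO_A`.
-/

open Bundle Manifold ContDiff VectorField Metric MeasureTheory Filter
open scoped Topology RealInnerProductSpace

set_option autoImplicit false
set_option synthInstance.maxHeartbeats 400000
set_option maxHeartbeats 4000000

noncomputable section

namespace Pool.Agent.H781.NG.GeoA

open Pool.Agent.H821R2 Pool.Agent.H821R3 Pool.Agent.H893R5.HO Pool.Agent.H781.S22
open Pool.Agent.H781.NG

variable {n : ℕ} {g : Met n} {cov : Cov n}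

/-- inner product of two fields as an element of the algebra -/
def gA (g : Met n) {A B : Π p : MM n, TangentSpace (IM n) p} (hA : SmV A) (hB : SmV B) : SmA n :=
  ⟨gi g A B, gi_smooth hA hB⟩

theorem ev_gA {A B : Π p : MM n, TangentSpace (IM n) p} (hA : SmV A) (hB : SmV B) (p : MM n) :
    ev p (gA g hA hB) = g.inner p (A p) (B p) := rfl

theorem ev_fD (s : Ix n → SmA n) (f : SmA n) (p : MM n) :
    ev p (fD s f) = mvfderiv (IM n) f.1 p (fld s p) := rfl

theorem ev_fD_gA (h : IsLeviCivita g cov) (s : Ix n → SmA n)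
    {A B : Π p : MM n, TangentSpace (IM n) p} (hA : SmV A) (hB : SmV B) (p : MM n) :
    ev p (fD s (gA g hA hB)) = g.inner p (cov A p (fld s p)) (B p) +
      g.inner p (A p) (cov B p (fld s p)) := by
  have h1 := congrFun (der_gi h (fld_smooth s) hA hB) p
  exact h1

theorem GamT_eq (h : IsLeviCivita g cov) (T : TF g) (b c d : Fin (2 * n + 2)) :
    GamT h T b c d = gA g (nabla_smooth h (fld_smooth (T.S b)) (fld_smooth (T.S c)))
      (fld_smooth (T.S d)) + ∑ a, nuS T.S a d * fD (T.S b) (nuS T.S a c) := rfl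

theorem ev_GamT (h : IsLeviCivita g cov) (T : TF g) (b c d : Fin (2 * n + 2)) (p : MM n) :
    ev p (GamT h T b c d) = g.inner p (cov (fld (T.S c)) p (fld (T.S b) p)) (fld (T.S d) p) +
      ∑ a, ev p (nuS T.S a d) * ev p (fD (T.S b) (nuS T.S a c)) := by
  rw [GamT_eq, map_add, map_sum, ev_gA]
  simp only [map_mul]
  rfl

theorem on_A (T : TF g) (c d : Fin (2 * n + 2)) :
    gA g (fld_smooth (T.S c)) (fld_smooth (T.S d)) + ∑ a, nuS T.S a c * nuS T.S a d =
      algebraMap ℝ (SmA n) (if c = d then 1 else 0) := by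
  apply ext_ev
  intro p
  rw [map_add, map_sum, ev_gA]
  simp only [map_mul]
  rw [T.on p c d]
  rfl

theorem anti (h : IsLeviCivita g cov) (T : TF g) (b c d : Fin (2 * n + 2)) :
    GamT h T b c d = - GamT h T b d c := by
  apply ext_ev
  intro p
  have h1 := congrArg (fun f => ev p (fD (T.S b) f)) (on_A T c d)
  simp only [map_add, map_sum, Derivation.map_algebraMap, map_zero, Derivation.leibniz,
    smul_eq_mul, map_mul] at h1
  rw [ev_fD_gA h] at h1
  rw [map_neg, ev_GamT, ev_GamT]
  have h2 : ∑ a, (ev p (nuS T.S a c) * ev p (fD (T.S b) (nuS T.S a d)) +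
      ev p (nuS T.S a d) * ev p (fD (T.S b) (nuS T.S a c))) =
      ∑ a, ev p (nuS T.S a d) * ev p (fD (T.S b) (nuS T.S a c)) +
      ∑ a, ev p (nuS T.S a c) * ev p (fD (T.S b) (nuS T.S a d)) := by
    rw [← Finset.sum_add_distrib]
    exact Finset.sum_congr rfl fun a _ => add_comm _ _
  have h3 := g.symm p (fld (T.S c) p) (cov (fld (T.S d)) p (fld (T.S b) p))
  rw [h2] at h1
  linarith

/-- expansion of a tangent vector with a normal part which does not contribute -/
theorem expand (T : TF g) (p : MM n) (v : TangentSpace (IM n) p) (x : Fin 2 → ℝ) :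
    ∑ c, (g.inner p v (fld (T.S c) p) + ∑ a, ev p (nuS T.S a c) * x a) • fld (T.S c) p = v := by
  have h1 : ∀ c, (g.inner p v (fld (T.S c) p) + ∑ a, ev p (nuS T.S a c) * x a) • fld (T.S c) p =
      g.inner p v (fld (T.S c) p) • fld (T.S c) p +
        ∑ a, x a • (ev p (nuS T.S a c) • fld (T.S c) p) := by
    intro c
    rw [add_smul, Finset.sum_smul]
    congr 1
    refine Finset.sum_congr rfl fun a _ => ?_
    rw [smul_smul, mul_comm]
  rw [Finset.sum_congr rfl fun c _ => h1 c, Finset.sum_add_distrib, T.tight, Finset.sum_comm]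
  have h2 : ∀ a, ∑ c, x a • (ev p (nuS T.S a c) • fld (T.S c) p) =
      (0 : TangentSpace (IM n) p) := by
    intro a
    rw [← Finset.smul_sum, T.nu_fld, smul_zero]
  rw [Finset.sum_congr rfl fun a _ => h2 a, Finset.sum_const_zero, add_zero]

/-- the covariant derivative of the frame -/
theorem cov_fld (h : IsLeviCivita g cov) (T : TF g) (b c : Fin (2 * n + 2)) (p : MM n) :
    cov (fld (T.S c)) p (fld (T.S b) p) = ∑ d, ev p (GamT h T b c d) • fld (T.S d) p := by
  have h1 := expand T p (cov (fld (T.S c)) p (fld (T.S b) p))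
    (fun a => ev p (fD (T.S b) (nuS T.S a c)))
  rw [← h1]
  refine Finset.sum_congr rfl fun d _ => ?_
  rw [ev_GamT]

theorem bracket (h : IsLeviCivita g cov) (T : TF g) (a b : Fin (2 * n + 2)) (p : MM n) :
    mlieBracket (IM n) (fld (T.S a)) (fld (T.S b)) p =
      ∑ c, (ev p (GamT h T a b c) - ev p (GamT h T b a c)) • fld (T.S c) p := by
  rw [← h.torsionFree (fld_smooth (T.S a)) (fld_smooth (T.S b)) p, cov_fld h T a b, cov_fld h T b a,
    ← Finset.sum_sub_distrib]
  refine Finset.sum_congr rfl fun c _ => ?_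
  rw [sub_smul]

theorem tors (hn : 1 ≤ n) (h : IsLeviCivita g cov) (T : TF g) (a b : Fin (2 * n + 2))
    (f : SmA n) : fD (T.S a) (fD (T.S b) f) - fD (T.S b) (fD (T.S a) f) =
      ∑ c, (GamT h T a b c - GamT h T b a c) * fD (T.S c) f := by
  have : Nonempty (Fin n) := ⟨⟨0, hn⟩⟩
  have : Nontrivial (EuclideanSpace ℝ (Fin n)) := inferInstance
  have : Nontrivial (EuclideanSpace ℝ (Fin n) × EuclideanSpace ℝ (Fin n)) := inferInstance
  apply ext_ev
  intro p
  have h1 := comm_fun f.2 (fld_smooth (T.S a)) (fld_smooth (T.S b)) (Sm.der (fld_smooth _) f.2)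
    (Sm.der (fld_smooth _) f.2) p
  have h2 : ev p (fD (T.S a) (fD (T.S b) f) - fD (T.S b) (fD (T.S a) f)) =
      mvfderiv (IM n) f.1 p (mlieBracket (IM n) (fld (T.S a)) (fld (T.S b)) p) := by
    rw [map_sub]
    exact h1
  rw [h2, bracket h T, map_sum, map_sum]
  refine Finset.sum_congr rfl fun c _ => ?_
  rw [map_smul, map_mul, map_sub, smul_eq_mul]
  rfl

/-- Parseval -/
theorem parseval (T : TF g) (p : MM n) (u v : TangentSpace (IM n) p) (x y : Fin 2 → ℝ) :
    ∑ f, (g.inner p u (fld (T.S f) p) + ∑ a, ev p (nuS T.S a f) * x a) *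
      (g.inner p v (fld (T.S f) p) + ∑ a, ev p (nuS T.S a f) * y a) =
      g.inner p u v + ∑ a, x a * y a := by
  have h1 : g.inner p u v = ∑ f, g.inner p u (fld (T.S f) p) *
      (g.inner p v (fld (T.S f) p) + ∑ a, ev p (nuS T.S a f) * y a) := by
    conv_lhs => rw [← expand T p v y]
    rw [map_sum]
    refine Finset.sum_congr rfl fun f _ => ?_
    rw [map_smul, smul_eq_mul, mul_comm]
  have h2 : ∀ a, ∑ f, ev p (nuS T.S a f) * g.inner p v (fld (T.S f) p) = 0 := by
    intro a
    have := congrArg (g.inner p v) (T.nu_fld p a)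
    rw [map_sum, map_zero] at this
    rw [← this]
    refine Finset.sum_congr rfl fun f _ => ?_
    rw [map_smul, smul_eq_mul]
  have h3 : ∀ a b, ∑ f, ev p (nuS T.S a f) * ev p (nuS T.S b f) = if a = b then 1 else 0 := by
    intro a b
    have := congrArg (ev p) (T.nu_on a b)
    rw [map_sum] at this
    simp only [map_mul] at this
    rw [this]
    split_ifs <;> simp
  have h4 : ∑ f, (∑ a, ev p (nuS T.S a f) * x a) *
      (g.inner p v (fld (T.S f) p) + ∑ a, ev p (nuS T.S a f) * y a) = ∑ a, x a * y a := by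
    simp only [mul_add, Finset.sum_add_distrib]
    have e1 : ∑ f, (∑ a, ev p (nuS T.S a f) * x a) * g.inner p v (fld (T.S f) p) = 0 := by
      simp only [Finset.sum_mul]
      rw [Finset.sum_comm]
      refine Finset.sum_eq_zero fun a _ => ?_
      have : ∀ f, ev p (nuS T.S a f) * x a * g.inner p v (fld (T.S f) p) =
          x a * (ev p (nuS T.S a f) * g.inner p v (fld (T.S f) p)) := fun f => by ring
      rw [Finset.sum_congr rfl fun f _ => this f, ← Finset.mul_sum, h2, mul_zero]
    have e2 : ∑ f, (∑ a, ev p (nuS T.S a f) * x a) * (∑ b, ev p (nuS T.S b f) * y b) =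
        ∑ a, x a * y a := by
      simp only [Finset.sum_mul_sum]
      rw [Finset.sum_comm]
      refine Finset.sum_congr rfl fun a _ => ?_
      rw [Finset.sum_comm]
      have : ∀ b, ∑ f, ev p (nuS T.S a f) * x a * (ev p (nuS T.S b f) * y b) =
          x a * y b * (if a = b then 1 else 0) := by
        intro b
        rw [← h3 a b, Finset.mul_sum]
        exact Finset.sum_congr rfl fun f _ => by ring
      rw [Finset.sum_congr rfl fun b _ => this b]
      simp
    rw [e1, e2, zero_add]
  rw [h1, ← h4, ← Finset.sum_add_distrib]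
  exact Finset.sum_congr rfl fun f _ => by ring

/-- the second covariant derivatives of the frame -/
theorem second (h : IsLeviCivita g cov) (T : TF g) (a b c d : Fin (2 * n + 2)) (p : MM n) :
    g.inner p (cov (nabla cov (fld (T.S b)) (fld (T.S c))) p (fld (T.S a) p)) (fld (T.S d) p) =
      ev p (fD (T.S a) (GamT h T b c d)) -
        ∑ f, ev p (GamT h T b c f) * ev p (GamT h T a d f) -
        ∑ α, ev p (nuS T.S α d) * ev p (fD (T.S a) (fD (T.S b) (nuS T.S α c))) := by
  have h1 : ev p (fD (T.S a) (GamT h T b c d)) =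
      g.inner p (cov (nabla cov (fld (T.S b)) (fld (T.S c))) p (fld (T.S a) p)) (fld (T.S d) p) +
      g.inner p (cov (fld (T.S c)) p (fld (T.S b) p)) (cov (fld (T.S d)) p (fld (T.S a) p)) +
      (∑ α, ev p (nuS T.S α d) * ev p (fD (T.S a) (fD (T.S b) (nuS T.S α c))) +
        ∑ α, ev p (fD (T.S b) (nuS T.S α c)) * ev p (fD (T.S a) (nuS T.S α d))) := by
    rw [GamT_eq, map_add, map_add, ev_fD_gA h, map_sum, map_sum, ← Finset.sum_add_distrib]
    congr 1
    refine Finset.sum_congr rfl fun α _ => ?_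
    rw [Derivation.leibniz, map_add, smul_eq_mul, smul_eq_mul, map_mul, map_mul]
  have h2 := parseval T p (cov (fld (T.S c)) p (fld (T.S b) p))
    (cov (fld (T.S d)) p (fld (T.S a) p)) (fun α => ev p (fD (T.S b) (nuS T.S α c)))
    (fun α => ev p (fD (T.S a) (nuS T.S α d)))
  simp only [← ev_GamT h T] at h2
  rw [h1, h2]
  ring

theorem curvature (hn : 1 ≤ n) (h : IsLeviCivita g cov) {R : CurvField (IM n) (MM n)}
    (hR : IsRiemannTensor cov R) (T : TF g) (F : Fr (2 * n + 2) (SmA n))
    (he : ∀ a, F.e a = fD (T.S a)) (hΓ : ∀ b c d, F.Γ b c d = GamT h T b c d)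
    (a b c d : Fin (2 * n + 2)) (p : MM n) : ev p (Rm F a b c d) =
      g.inner p (R p (fld (T.S a) p) (fld (T.S b) p) (fld (T.S c) p)) (fld (T.S d) p) := by
  have h1 : g.inner p (R p (fld (T.S a) p) (fld (T.S b) p) (fld (T.S c) p)) (fld (T.S d) p) =
      g.inner p (cov (nabla cov (fld (T.S b)) (fld (T.S c))) p (fld (T.S a) p)) (fld (T.S d) p) -
      g.inner p (cov (nabla cov (fld (T.S a)) (fld (T.S c))) p (fld (T.S b) p)) (fld (T.S d) p) -
      ∑ f, (ev p (GamT h T a b f) - ev p (GamT h T b a f)) *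
        g.inner p (cov (fld (T.S c)) p (fld (T.S f) p)) (fld (T.S d) p) := by
    rw [hR (fld_smooth (T.S a)) (fld_smooth (T.S b)) (fld_smooth (T.S c)) p]
    unfold curv
    rw [bracket h T, map_sum, map_sub, map_sub, map_sum, sub_apply, sub_apply]
    congr 1
    rw [sum_apply]
    refine Finset.sum_congr rfl fun f _ => ?_
    rw [map_smul, map_smul, smul_apply, smul_eq_mul]
  have h2 : ∀ f, g.inner p (cov (fld (T.S c)) p (fld (T.S f) p)) (fld (T.S d) p) =
      ev p (GamT h T f c d) - ∑ α, ev p (nuS T.S α d) * ev p (fD (T.S f) (nuS T.S α c)) := by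
    intro f
    rw [ev_GamT]
    ring
  have h3 : ∀ α, ev p (fD (T.S a) (fD (T.S b) (nuS T.S α c))) -
      ev p (fD (T.S b) (fD (T.S a) (nuS T.S α c))) =
      ∑ f, (ev p (GamT h T a b f) - ev p (GamT h T b a f)) * ev p (fD (T.S f) (nuS T.S α c)) := by
    intro α
    have := congrArg (ev p) (tors hn h T a b (nuS T.S α c))
    rw [map_sub, map_sum] at this
    rw [this]
    refine Finset.sum_congr rfl fun f _ => ?_
    rw [map_mul, map_sub]
  have h4 : ∀ a b f, ev p (GamT h T a b f) = - ev p (GamT h T a f b) := by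
    intro a b f
    rw [anti h T a b f, map_neg]
  have h5 : ∑ α, ev p (nuS T.S α d) * ev p (fD (T.S a) (fD (T.S b) (nuS T.S α c))) -
      ∑ α, ev p (nuS T.S α d) * ev p (fD (T.S b) (fD (T.S a) (nuS T.S α c))) =
      ∑ f, (ev p (GamT h T a b f) - ev p (GamT h T b a f)) *
        ∑ α, ev p (nuS T.S α d) * ev p (fD (T.S f) (nuS T.S α c)) := by
    rw [← Finset.sum_sub_distrib]
    simp only [← mul_sub, h3, Finset.mul_sum]
    rw [Finset.sum_comm]
    refine Finset.sum_congr rfl fun f _ => Finset.sum_congr rfl fun α _ => ?_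
    ring
  have h6 : ∑ f, (ev p (GamT h T a b f) - ev p (GamT h T b a f)) *
        g.inner p (cov (fld (T.S c)) p (fld (T.S f) p)) (fld (T.S d) p) =
      ∑ f, (ev p (GamT h T a b f) - ev p (GamT h T b a f)) * ev p (GamT h T f c d) -
      ∑ f, (ev p (GamT h T a b f) - ev p (GamT h T b a f)) *
        ∑ α, ev p (nuS T.S α d) * ev p (fD (T.S f) (nuS T.S α c)) := by
    rw [← Finset.sum_sub_distrib]
    refine Finset.sum_congr rfl fun f _ => ?_
    rw [h2 f, mul_sub]
  have h7 : ∑ f, (ev p (GamT h T b c f) * ev p (GamT h T a f d) -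
      ev p (GamT h T a c f) * ev p (GamT h T b f d)) =
      - ∑ f, ev p (GamT h T b c f) * ev p (GamT h T a d f) +
        ∑ f, ev p (GamT h T a c f) * ev p (GamT h T b d f) := by
    rw [← Finset.sum_neg_distrib, ← Finset.sum_add_distrib]
    refine Finset.sum_congr rfl fun f _ => ?_
    rw [h4 a f d, h4 b f d]
    ring
  rw [h1, second h T a b c d p, second h T b a c d p, h6]
  have h8 : ev p (Rm F a b c d) = ev p (fD (T.S a) (GamT h T b c d)) -
      ev p (fD (T.S b) (GamT h T a c d)) +
      ∑ f, (ev p (GamT h T b c f) * ev p (GamT h T a f d) -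
        ev p (GamT h T a c f) * ev p (GamT h T b f d)) -
      ∑ f, (ev p (GamT h T a b f) - ev p (GamT h T b a f)) * ev p (GamT h T f c d) := by
    unfold Rm
    simp only [he, hΓ, map_sub, map_add, map_sum, map_mul]
  rw [h8, h7]
  linarith

end Pool.Agent.H781.NG.GeoA

namespace Pool.Agent.H781.NG

open Pool.Agent.H821R2 Pool.Agent.H821R3 Pool.Agent.H893R5.HO Pool.Agent.H781.S22

theorem s_geo_a' : S_GEO_A := by
  intro n hn g cov R h hR T
  refine ⟨⟨fun a => fD (T.S a), GamT h T, GeoA.anti h T, GeoA.tors hn h T⟩, fun a => rfl,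
    fun b c d => rfl, ?_⟩
  intro a b c d p
  exact GeoA.curvature hn h hR T _ (fun a => rfl) (fun b c d => rfl) a b c d p

theorem s_geo_a (_hbr : S_BR) : S_GEO_A := s_geo_a'

end Pool.Agent.H781.NG
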