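import Pool.Agent.H781.NG.GeoSpec

/-!
The divergence theorem for the Riemannian density (`S_GEO_B`).
-/

open Bundle Manifold ContDiff VectorField Metric MeasureTheory Filter
open scoped Topology RealInnerProductSpace

set_option autoImplicit false
set_option linter.unusedSectionVars false
set_option synthInstance.maxHeartbeats 400000
set_option maxHeartbeats 1000000

noncomputable section

namespace Pool.Agent.H781.NG.GeoB

/-! ### Jacobi's formula -/

theorem det_deriv_aux_prod {A : Type*} [CommRing A] [Algebra ℝ A] (D : Derivation ℝ A A)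
    {ι : Type*} [DecidableEq ι] (s : Finset ι) (f : ι → A) :
    D (∏ i ∈ s, f i) = ∑ i ∈ s, ∏ j ∈ s, (Function.update f i (D (f i))) j := by
  induction s using Finset.induction_on with
  | empty => simp
  | insert a s ha ih =>
    rw [Finset.prod_insert ha, D.leibniz, ih, Finset.sum_insert ha, Finset.prod_insert ha,
      Function.update_self]
    have e1 : ∏ j ∈ s, (Function.update f a (D (f a))) j = ∏ j ∈ s, f j := by
      apply Finset.prod_congr rfl
      intro j hj
      rw [Function.update_of_ne]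
      rintro rfl
      exact ha hj
    have e2 : ∀ i ∈ s, ∏ j ∈ insert a s, (Function.update f i (D (f i))) j
        = f a * ∏ j ∈ s, (Function.update f i (D (f i))) j := by
      intro i hi
      rw [Finset.prod_insert ha, Function.update_of_ne]
      rintro rfl
      exact ha hi
    rw [e1, Finset.sum_congr rfl e2, ← Finset.mul_sum, smul_eq_mul, smul_eq_mul]
    ring

/-- Jacobi's formula for derivations -/
theorem det_deriv {A : Type*} [CommRing A] [Algebra ℝ A] (D : Derivation ℝ A A)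
    {ι : Type*} [Fintype ι] [DecidableEq ι] (N : Matrix ι ι A) :
    D N.det = ∑ i, ∑ j, N.adjugate j i * D (N i j) := by
  have h1 : ∀ i : ι, ∑ k, N.adjugate i k * D (N k i)
      = (N.updateCol i (fun k => D (N k i))).det := by
    intro i
    rw [← Matrix.cramer_apply, Matrix.cramer_eq_adjugate_mulVec]
    rfl
  rw [Finset.sum_comm, Finset.sum_congr rfl (fun i _ => h1 i), Matrix.det_apply, map_sum]
  have h2 : ∀ σ : Equiv.Perm ι,
      D (Equiv.Perm.sign σ • ∏ i, N (σ i) i)
      = ∑ i, Equiv.Perm.sign σ • ∏ j, (N.updateCol i (fun k => D (N k i))) (σ j) j := by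
    intro σ
    rw [Units.smul_def, D.map_smul_of_tower, det_deriv_aux_prod, Finset.smul_sum]
    apply Finset.sum_congr rfl
    intro i _
    congr 1
    apply Finset.prod_congr rfl
    intro j _
    by_cases hj : j = i
    · subst hj
      rw [Function.update_self, Matrix.updateCol_self]
    · rw [Function.update_of_ne hj, Matrix.updateCol_ne hj]
  rw [Finset.sum_congr rfl (fun σ _ => h2 σ), Finset.sum_comm]
  apply Finset.sum_congr rfl
  intro i _
  rw [Matrix.det_apply]

/-- the logarithmic derivative of the inverse of a determinant -/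
theorem deriv_inv_det {A : Type*} [CommRing A] [Algebra ℝ A] (D : Derivation ℝ A A)
    {ι : Type*} [Fintype ι] [DecidableEq ι] (N B : Matrix ι ι A) (hB : B * N = 1)
    (rho : A) (hr : rho * N.det = 1) :
    D rho = - rho * ∑ i, ∑ j, B j i * D (N i j) := by
  have hadj : ∀ i j, N.adjugate i j = N.det * B i j := by
    have h1 : N.adjugate = N.det • B := by
      calc N.adjugate = (B * N) * N.adjugate := by rw [hB, one_mul]
        _ = B * (N * N.adjugate) := by rw [mul_assoc]
        _ = N.det • B := by rw [Matrix.mul_adjugate, Matrix.mul_smul, mul_one]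
    intro i j
    rw [h1, Matrix.smul_apply, smul_eq_mul]
  have h2 := congrArg D hr
  rw [D.leibniz, D.map_one_eq_zero, smul_eq_mul, smul_eq_mul, det_deriv D N] at h2
  have h3 : ∑ i, ∑ j, N.adjugate j i * D (N i j) = N.det * ∑ i, ∑ j, B j i * D (N i j) := by
    rw [Finset.mul_sum]
    refine Finset.sum_congr rfl fun i _ => ?_
    rw [Finset.mul_sum]
    refine Finset.sum_congr rfl fun j _ => ?_
    rw [hadj]
    ring
  rw [h3] at h2
  set t := ∑ i, ∑ j, B j i * D (N i j) with ht
  -- h2 : rho * (det * t) + det * D rho = 0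
  have h4 : rho * (rho * (N.det * t) + N.det * D rho) = 0 := by rw [h2, mul_zero]
  have h5 : rho * (rho * (N.det * t) + N.det * D rho) = (rho * N.det) * (rho * t + D rho) := by
    ring
  rw [h5, hr, one_mul] at h4
  linear_combination h4

/-! ### The algebraic identity -/

section alg

variable {A : Type*} [CommRing A] [Algebra ℝ A] {ι κ γ : Type*} [Fintype ι] [Fintype κ] [Fintype γ]
  [DecidableEq ι] [DecidableEq γ]
  (E : ι → Derivation ℝ A A) (e : κ → Derivation ℝ A A) (S : κ → ι → A) (nv : γ → ι → A)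
  (nu : γ → κ → A) (G : ι → κ → A)


theorem alg_S
    (h_inv : ∀ j k, ∑ b, S b j * (G k b + ∑ c, nv c k * nu c b) = if j = k then 1 else 0)
    (h_nG : ∀ c b, ∑ k, nv c k * G k b = 0)
    (h_nn : ∀ c c', ∑ k, nv c k * nv c' k = if c = c' then 1 else 0)
    (c : γ) (i : ι) : ∑ b, S b i * nu c b = nv c i := by
  have h1 : ∀ b, nu c b = ∑ k, nv c k * (G k b + ∑ c', nv c' k * nu c' b) := by
    intro b
    have h2 : ∀ k, nv c k * (G k b + ∑ c', nv c' k * nu c' b) =
        nv c k * G k b + ∑ c', (nv c k * nv c' k) * nu c' b := by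
      intro k
      rw [mul_add, Finset.mul_sum]
      congr 1
      exact Finset.sum_congr rfl fun c' _ => by ring
    rw [Finset.sum_congr rfl fun k _ => h2 k, Finset.sum_add_distrib, h_nG, zero_add,
      Finset.sum_comm]
    have h3 : ∀ c', ∑ k, (nv c k * nv c' k) * nu c' b = if c = c' then nu c' b else 0 := by
      intro c'
      rw [← Finset.sum_mul, h_nn]
      split_ifs <;> simp
    rw [Finset.sum_congr rfl fun c' _ => h3 c']
    simp
  have h4 : ∀ b, S b i * nu c b = ∑ k, nv c k * (S b i * (G k b + ∑ c', nv c' k * nu c' b)) := by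
    intro b
    conv_lhs => rw [h1 b]
    rw [Finset.mul_sum]
    exact Finset.sum_congr rfl fun k _ => by ring
  rw [Finset.sum_congr rfl fun b _ => h4 b, Finset.sum_comm]
  have h5 : ∀ k, ∑ b, nv c k * (S b i * (G k b + ∑ c', nv c' k * nu c' b)) =
      if i = k then nv c k else 0 := by
    intro k
    rw [← Finset.mul_sum, h_inv]
    split_ifs <;> simp
  rw [Finset.sum_congr rfl fun k _ => h5 k]
  simp

theorem alg_SG
    (h_inv : ∀ j k, ∑ b, S b j * (G k b + ∑ c, nv c k * nu c b) = if j = k then 1 else 0)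
    (hS : ∀ c i, ∑ b, S b i * nu c b = nv c i) (i k : ι) :
    ∑ b, S b i * G k b = (if i = k then 1 else 0) - ∑ c, nv c k * nv c i := by
  rw [← h_inv i k]
  have h1 : ∀ b, S b i * (G k b + ∑ c, nv c k * nu c b) =
      S b i * G k b + ∑ c, nv c k * (S b i * nu c b) := by
    intro b
    rw [mul_add, Finset.mul_sum]
    congr 1
    exact Finset.sum_congr rfl fun c' _ => by ring
  have h3 : ∑ b, ∑ c, nv c k * (S b i * nu c b) = ∑ c, nv c k * nv c i := by
    rw [Finset.sum_comm]
    refine Finset.sum_congr rfl fun c _ => ?_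
    rw [← Finset.mul_sum, hS]
  rw [Finset.sum_congr rfl fun b _ => h1 b, Finset.sum_add_distrib, h3]
  ring



theorem alg_first
    (he : ∀ a f, e a f = ∑ i, S a i * E i f)
    (h_nE : ∀ c f, ∑ k, nv c k * E k f = 0)
    (hSG : ∀ i k, ∑ b, S b i * G k b = (if i = k then 1 else 0) - ∑ c, nv c k * nv c i)
    (w : ι → A) : ∑ b, ∑ k, e b (w k) * G k b = ∑ k, E k (w k) := by
  rw [Finset.sum_comm]
  refine Finset.sum_congr rfl fun k _ => ?_
  have h1 : ∀ b, e b (w k) * G k b = ∑ i, E i (w k) * (S b i * G k b) := by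
    intro b
    rw [he, Finset.sum_mul]
    exact Finset.sum_congr rfl fun i _ => by ring
  rw [Finset.sum_congr rfl fun b _ => h1 b, Finset.sum_comm]
  have h3 : ∀ i, ∑ b, E i (w k) * (S b i * G k b) =
      (if i = k then E i (w k) else 0) - ∑ c, nv c k * (nv c i * E i (w k)) := by
    intro i
    rw [← Finset.mul_sum, hSG, mul_sub, Finset.mul_sum]
    congr 1
    · split_ifs <;> simp
    · exact Finset.sum_congr rfl fun c _ => by ring
  have h4 : ∑ i, ∑ c, nv c k * (nv c i * E i (w k)) = 0 := by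
    rw [Finset.sum_comm]
    refine Finset.sum_eq_zero fun c _ => ?_
    rw [← Finset.mul_sum, h_nE, mul_zero]
  rw [Finset.sum_congr rfl fun i _ => h3 i, Finset.sum_sub_distrib, h4]
  simp

theorem alg_first' (N : A)
    (he : ∀ a f, e a f = ∑ i, S a i * E i f)
    (h_nE : ∀ c f, ∑ k, nv c k * E k f = 0)
    (h_div : ∀ c, ∑ k, E k (nv c k) = N)
    (hSG : ∀ i k, ∑ b, S b i * G k b = (if i = k then 1 else 0) - ∑ c, nv c k * nv c i)
    (a : κ) : ∑ b, ∑ k, e b (S a k - ∑ c, nv c k * nu c a) * G k b =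
      ∑ k, E k (S a k) - N * ∑ c, nu c a := by
  rw [alg_first E e S nv G he h_nE hSG (fun k => S a k - ∑ c, nv c k * nu c a)]
  have h2 : ∀ k, E k (S a k - ∑ c, nv c k * nu c a) =
      E k (S a k) - ∑ c, (nv c k * E k (nu c a) + nu c a * E k (nv c k)) := by
    intro k
    rw [map_sub, map_sum]
    congr 1
    refine Finset.sum_congr rfl fun c _ => ?_
    rw [(E k).leibniz, smul_eq_mul, smul_eq_mul]
  have h3 : ∑ k, ∑ c, (nv c k * E k (nu c a) + nu c a * E k (nv c k)) = N * ∑ c, nu c a := by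
    rw [Finset.sum_comm, Finset.mul_sum]
    refine Finset.sum_congr rfl fun c _ => ?_
    rw [Finset.sum_add_distrib, h_nE, zero_add, ← Finset.mul_sum, h_div]
    ring
  rw [Finset.sum_congr rfl fun k _ => h2 k, Finset.sum_sub_distrib, h3]

theorem half_zero {α : Type*} [Fintype α] (D : Derivation ℝ A A) (v : α → A) (d : A)
    (hv : ∑ b, v b * v b = d) (hd : D d = 0) : ∑ b, v b * D (v b) = 0 := by
  have t := congrArg D hv
  rw [map_sum, hd] at t
  have t1 : ∀ b, D (v b * v b) = (2 : ℝ) • (v b * D (v b)) := by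
    intro b
    rw [D.leibniz, smul_eq_mul, two_smul]
  rw [Finset.sum_congr rfl fun b _ => t1 b, ← Finset.smul_sum] at t
  have t2 : (2⁻¹ : ℝ) • ((2 : ℝ) • ∑ b, v b * D (v b)) = 0 := by rw [t, smul_zero]
  rwa [smul_smul, inv_mul_cancel₀ (by norm_num), one_smul] at t2



theorem alg_g2 (D : Derivation ℝ A A)
    (h_nG : ∀ c b, ∑ k, nv c k * G k b = 0)
    (h_nuG : ∀ c k, ∑ b, nu c b * G k b = 0) :
    ∑ b, ∑ k, ∑ c, (D (nu c b) * (nv c k * G k b) + D (nv c k) * (nu c b * G k b)) = 0 := by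
  have t1 : ∑ b, ∑ k, ∑ c, D (nu c b) * (nv c k * G k b) = 0 := by
    refine Finset.sum_eq_zero fun b _ => ?_
    rw [Finset.sum_comm]
    refine Finset.sum_eq_zero fun c _ => ?_
    rw [← Finset.mul_sum, h_nG, mul_zero]
  have t2 : ∑ b, ∑ k, ∑ c, D (nv c k) * (nu c b * G k b) = 0 := by
    rw [Finset.sum_comm]
    refine Finset.sum_eq_zero fun k _ => ?_
    rw [Finset.sum_comm]
    refine Finset.sum_eq_zero fun c _ => ?_
    rw [← Finset.mul_sum, h_nuG, mul_zero]
  have t3 : ∑ b, ∑ k, ∑ c, (D (nu c b) * (nv c k * G k b) + D (nv c k) * (nu c b * G k b)) =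
      ∑ b, ∑ k, ∑ c, D (nu c b) * (nv c k * G k b) +
      ∑ b, ∑ k, ∑ c, D (nv c k) * (nu c b * G k b) := by
    rw [← Finset.sum_add_distrib]
    refine Finset.sum_congr rfl fun b _ => ?_
    rw [← Finset.sum_add_distrib]
    refine Finset.sum_congr rfl fun k _ => ?_
    rw [← Finset.sum_add_distrib]
  rw [t3, t1, t2, add_zero]

theorem alg_g3 (D : Derivation ℝ A A)
    (hnu : ∀ c b, nu c b = ∑ i, S b i * nv c i)
    (h_nn : ∀ c c', ∑ k, nv c k * nv c' k = if c = c' then 1 else 0)
    (h_nunu : ∀ c c', ∑ b, nu c b * nu c' b = if c = c' then 1 else 0)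
    (hS : ∀ c i, ∑ b, S b i * nu c b = nv c i) :
    ∑ b, ∑ k, ∑ c, nu c b * (nv c k * D (S b k)) = 0 := by
  have t1 : ∀ b, ∑ k, ∑ c, nu c b * (nv c k * D (S b k)) =
      ∑ c, (nu c b * D (nu c b) - ∑ k, (S b k * nu c b) * D (nv c k)) := by
    intro b
    rw [Finset.sum_comm]
    refine Finset.sum_congr rfl fun c _ => ?_
    have t2 : D (nu c b) = ∑ k, (S b k * D (nv c k) + nv c k * D (S b k)) := by
      rw [hnu, map_sum]
      refine Finset.sum_congr rfl fun k _ => ?_
      rw [D.leibniz, smul_eq_mul, smul_eq_mul]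
    rw [t2, Finset.mul_sum, ← Finset.sum_sub_distrib]
    exact Finset.sum_congr rfl fun k _ => by ring
  rw [Finset.sum_congr rfl fun b _ => t1 b, Finset.sum_comm]
  refine Finset.sum_eq_zero fun c _ => ?_
  rw [Finset.sum_sub_distrib, half_zero D (fun b => nu c b) 1 (by simpa using h_nunu c c) (by simp),
    Finset.sum_comm]
  have t3 : ∀ k, ∑ b, S b k * nu c b * D (nv c k) = nv c k * D (nv c k) := by
    intro k
    rw [← Finset.sum_mul, hS]
  rw [Finset.sum_congr rfl fun k _ => t3 k,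
    half_zero D (fun k => nv c k) 1 (by simpa using h_nn c c) (by simp), sub_zero]

theorem alg_second (D : Derivation ℝ A A) (rho : A)
    (hnu : ∀ c b, nu c b = ∑ i, S b i * nv c i)
    (h_nG : ∀ c b, ∑ k, nv c k * G k b = 0)
    (h_nn : ∀ c c', ∑ k, nv c k * nv c' k = if c = c' then 1 else 0)
    (h_nuG : ∀ c k, ∑ b, nu c b * G k b = 0)
    (h_nunu : ∀ c c', ∑ b, nu c b * nu c' b = if c = c' then 1 else 0)
    (hS : ∀ c i, ∑ b, S b i * nu c b = nv c i)
    (hrho : D rho = - rho * ∑ b, ∑ k, (G k b + ∑ c, nv c k * nu c b) * D (S b k)) :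
    rho * ∑ b, ∑ k, D (S b k - ∑ c, nv c k * nu c b) * G k b = - D rho := by
  have g1 : ∀ b k, D (S b k - ∑ c, nv c k * nu c b) * G k b =
      (G k b + ∑ c, nv c k * nu c b) * D (S b k) - ∑ c, nu c b * (nv c k * D (S b k))
        - ∑ c, (D (nu c b) * (nv c k * G k b) + D (nv c k) * (nu c b * G k b)) := by
    intro b k
    rw [map_sub, map_sum, sub_mul, Finset.sum_mul, add_mul, Finset.sum_mul]
    have t1 : ∀ c, D (nv c k * nu c b) * G k b =
        D (nu c b) * (nv c k * G k b) + D (nv c k) * (nu c b * G k b) := by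
      intro c
      rw [D.leibniz, smul_eq_mul, smul_eq_mul]
      ring
    have t2 : ∀ c, nv c k * nu c b * D (S b k) = nu c b * (nv c k * D (S b k)) := by
      intro c
      ring
    rw [Finset.sum_congr rfl fun c _ => t1 c, Finset.sum_congr rfl fun c _ => t2 c,
      mul_comm (G k b)]
    abel
  have g4 : ∑ b, ∑ k, D (S b k - ∑ c, nv c k * nu c b) * G k b =
      ∑ b, ∑ k, (G k b + ∑ c, nv c k * nu c b) * D (S b k)
      - ∑ b, ∑ k, ∑ c, nu c b * (nv c k * D (S b k))
      - ∑ b, ∑ k, ∑ c, (D (nu c b) * (nv c k * G k b) + D (nv c k) * (nu c b * G k b)) := by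
    rw [← Finset.sum_sub_distrib, ← Finset.sum_sub_distrib]
    refine Finset.sum_congr rfl fun b _ => ?_
    rw [← Finset.sum_sub_distrib, ← Finset.sum_sub_distrib]
    exact Finset.sum_congr rfl fun k _ => g1 b k
  rw [g4, alg_g2 nv nu G D h_nG h_nuG, alg_g3 S nv nu D hnu h_nn h_nunu hS, hrho, sub_zero,
    sub_zero, neg_mul, neg_neg]

theorem alg_key (N rho : A)
    (he : ∀ a f, e a f = ∑ i, S a i * E i f)
    (hnu : ∀ c b, nu c b = ∑ i, S b i * nv c i)
    (h_inv : ∀ j k, ∑ b, S b j * (G k b + ∑ c, nv c k * nu c b) = if j = k then 1 else 0)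
    (h_nE : ∀ c f, ∑ k, nv c k * E k f = 0)
    (h_nG : ∀ c b, ∑ k, nv c k * G k b = 0)
    (h_nn : ∀ c c', ∑ k, nv c k * nv c' k = if c = c' then 1 else 0)
    (h_nuG : ∀ c k, ∑ b, nu c b * G k b = 0)
    (h_nunu : ∀ c c', ∑ b, nu c b * nu c' b = if c = c' then 1 else 0)
    (h_div : ∀ c, ∑ k, E k (nv c k) = N)
    (hrho : ∀ a, e a rho = - rho * ∑ b, ∑ k, (G k b + ∑ c, nv c k * nu c b) * e a (S b k))
    (a : κ) :
    rho * ∑ b, ∑ k, (e b (S a k - ∑ c, nv c k * nu c a) - e a (S b k - ∑ c, nv c k * nu c b))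
      * G k b = ∑ i, E i (rho * S a i) - N * rho * ∑ c, nu c a := by
  have hS := alg_S S nv nu G h_inv h_nG h_nn
  have hSG := alg_SG S nv nu G h_inv hS
  have h1 := alg_first' E e S nv nu G N he h_nE h_div hSG a
  have h2 := alg_second S nv nu G (e a) rho hnu h_nG h_nn h_nuG h_nunu hS (hrho a)
  have h3 : ∑ b, ∑ k, (e b (S a k - ∑ c, nv c k * nu c a) - e a (S b k - ∑ c, nv c k * nu c b))
      * G k b = ∑ b, ∑ k, e b (S a k - ∑ c, nv c k * nu c a) * G k b -
        ∑ b, ∑ k, e a (S b k - ∑ c, nv c k * nu c b) * G k b := by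
    rw [← Finset.sum_sub_distrib]
    refine Finset.sum_congr rfl fun b _ => ?_
    rw [← Finset.sum_sub_distrib]
    exact Finset.sum_congr rfl fun k _ => sub_mul _ _ _
  have h4 : ∑ i, E i (rho * S a i) = rho * ∑ i, E i (S a i) + e a rho := by
    rw [he, Finset.mul_sum, ← Finset.sum_add_distrib]
    refine Finset.sum_congr rfl fun i _ => ?_
    rw [(E i).leibniz, smul_eq_mul, smul_eq_mul]
  rw [h3, mul_sub, h2, h1, h4]
  ring

/-- the divergence of a field, integrated -/
theorem alg_div (N rho : A) (x : ι → A) (Gam : κ → A) (f : κ → A)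
    (he : ∀ a f, e a f = ∑ i, S a i * E i f)
    (hG : ∀ a, rho * Gam a = ∑ i, E i (rho * S a i) - N * rho * ∑ i, x i * S a i) :
    rho * (∑ b, e b (f b) + ∑ a, Gam a * f a) =
      ∑ i, (E i (∑ b, rho * S b i * f b) - N * (x i * ∑ b, rho * S b i * f b)) := by
  have h1 : ∀ b, rho * e b (f b) + rho * Gam b * f b =
      ∑ i, (E i (rho * S b i * f b) - N * (x i * (rho * S b i * f b))) := by
    intro b
    rw [he, hG, sub_mul, Finset.sum_mul, Finset.mul_sum, Finset.mul_sum, Finset.sum_mul,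
      ← Finset.sum_sub_distrib, ← Finset.sum_add_distrib]
    refine Finset.sum_congr rfl fun i _ => ?_
    rw [(E i).leibniz (rho * S b i) (f b), smul_eq_mul, smul_eq_mul]
    ring
  have h2 : rho * (∑ b, e b (f b) + ∑ a, Gam a * f a) =
      ∑ b, (rho * e b (f b) + rho * Gam b * f b) := by
    rw [mul_add, Finset.mul_sum, Finset.mul_sum, Finset.sum_add_distrib]
    congr 1
    exact Finset.sum_congr rfl fun b _ => by ring
  rw [h2, Finset.sum_congr rfl fun b _ => h1 b, Finset.sum_comm]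
  refine Finset.sum_congr rfl fun i _ => ?_
  rw [Finset.sum_sub_distrib, map_sum, Finset.mul_sum, Finset.mul_sum]

end alg

/-! ### Geometric facts -/

section geo

open Pool.Agent.H821R2 Pool.Agent.H821R3 Pool.Agent.H893R5.HO Pool.Agent.H781.S22

variable {n : ℕ}

theorem sq_l (p : MM n) : ∑ j, cx (n := n) (.inl j) p * cx (.inl j) p = 1 := by
  have h := inner_self_sph p.1
  rw [PiLp.inner_apply] at h
  rw [← h]
  refine Finset.sum_congr rfl fun j _ => ?_
  simp only [cx, crd, sj, RCLike.inner_apply, conj_trivial]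

theorem sq_r (p : MM n) : ∑ j, cx (n := n) (.inr j) p * cx (.inr j) p = 1 := by
  have h := inner_self_sph p.2
  rw [PiLp.inner_apply] at h
  rw [← h]
  refine Finset.sum_congr rfl fun j _ => ?_
  simp only [cx, crd, sj, RCLike.inner_apply, conj_trivial]

theorem nn_0l (j : Fin (n + 1)) : nn n 0 (.inl j) = cxA (.inl j) := rfl
theorem nn_0r (j : Fin (n + 1)) : nn n 0 (.inr j) = 0 := rfl
theorem nn_1l (j : Fin (n + 1)) : nn n 1 (.inl j) = 0 := rfl
theorem nn_1r (j : Fin (n + 1)) : nn n 1 (.inr j) = cxA (.inr j) := rfl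

theorem ev_zero (p : MM n) : ev p (0 : SmA n) = 0 := map_zero _

theorem nn_coef (c : Fin 2) (i : Ix n) (p : MM n) :
    ∑ k, ev p (nn n c k) * (dl k i - blk k i * cx k p * cx i p) = 0 := by
  have hl := sq_l p
  have hr := sq_r p
  rw [Fintype.sum_sum_type]
  fin_cases c <;> rcases i with i | i
  · simp only [Fin.zero_eta, nn_0l, nn_0r, ev_zero, zero_mul, Finset.sum_const_zero, add_zero,
      ev_cxA, blk, one_mul, dl, Sum.inl.injEq]
    have h1 : ∀ j, cx (n := n) (.inl j) p * ((if j = i then 1 else 0) -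
        cx (n := n) (.inl j) p * cx (n := n) (.inl i) p) =
        (if j = i then cx (n := n) (.inl j) p else 0) -
        (cx (n := n) (.inl j) p * cx (n := n) (.inl j) p) * cx (n := n) (.inl i) p := by
      intro j
      split_ifs <;> ring
    rw [Finset.sum_congr rfl fun j _ => h1 j, Finset.sum_sub_distrib, ← Finset.sum_mul, hl]
    simp
  · simp only [Fin.zero_eta, nn_0l, nn_0r, ev_zero, zero_mul, Finset.sum_const_zero, add_zero,
      ev_cxA, blk, dl]
    simp
  · simp only [Fin.mk_one, nn_1l, nn_1r, ev_zero, zero_mul, Finset.sum_const_zero, zero_add,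
      ev_cxA, blk, dl]
    simp
  · simp only [Fin.mk_one, nn_1l, nn_1r, ev_zero, zero_mul, Finset.sum_const_zero, zero_add,
      ev_cxA, blk, one_mul, dl, Sum.inr.injEq]
    have h1 : ∀ j, cx (n := n) (.inr j) p * ((if j = i then 1 else 0) -
        cx (n := n) (.inr j) p * cx (n := n) (.inr i) p) =
        (if j = i then cx (n := n) (.inr j) p else 0) -
        (cx (n := n) (.inr j) p * cx (n := n) (.inr j) p) * cx (n := n) (.inr i) p := by
      intro j
      split_ifs <;> ring
    rw [Finset.sum_congr rfl fun j _ => h1 j, Finset.sum_sub_distrib, ← Finset.sum_mul, hr]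
    simp

theorem nn_E (c : Fin 2) (p : MM n) : ∑ k, ev p (nn n c k) • EE k p = 0 := by
  rw [← repr_EE p (∑ k, ev p (nn n c k) • EE k p)]
  refine Finset.sum_eq_zero fun i _ => ?_
  have h : mvfderiv (IM n) (cx i) p (∑ k, ev p (nn n c k) • EE k p) = 0 := by
    rw [map_sum, ← nn_coef c i p]
    refine Finset.sum_congr rfl fun k _ => ?_
    rw [map_smul, smul_eq_mul, ← der_EE_cx k i p]
    rfl
  rw [h, zero_smul]

theorem nn_ED (c : Fin 2) (f : SmA n) : ∑ k, nn n c k * ED k f = 0 := by
  apply ext_ev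
  intro p
  rw [map_sum, map_zero]
  have h := congrArg (mvfderiv (IM n) f.1 p) (nn_E c p)
  rw [map_sum, map_zero] at h
  refine Eq.trans (Finset.sum_congr rfl fun k _ => ?_) h
  rw [map_smul, map_mul]
  rfl

theorem nn_nn (c c' : Fin 2) : ∑ k, nn n c k * nn n c' k = if c = c' then 1 else 0 := by
  apply ext_ev
  intro p
  have hl := sq_l p
  have hr := sq_r p
  rw [map_sum, Fintype.sum_sum_type]
  fin_cases c <;> fin_cases c'
  · simp only [Fin.zero_eta, nn_0l, nn_0r, map_mul, ev_cxA, map_zero, mul_zero,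
      Finset.sum_const_zero, add_zero, if_true, map_one]
    exact hl
  · simp [nn_0l, nn_0r, nn_1l, nn_1r]
  · simp [nn_0l, nn_0r, nn_1l, nn_1r]
  · simp only [Fin.mk_one, nn_1l, nn_1r, map_mul, ev_cxA, map_zero, mul_zero,
      Finset.sum_const_zero, zero_add, if_true, map_one]
    exact hr

theorem nn_div (c : Fin 2) : ∑ k, ED k (nn n c k) = cs (n : ℝ) := by
  apply ext_ev
  intro p
  have hl := sq_l p
  have hr := sq_r p
  rw [map_sum, Fintype.sum_sum_type, ev_cs]
  fin_cases c
  · simp only [Fin.zero_eta, nn_0l, nn_0r, map_zero, Finset.sum_const_zero, add_zero, ED_cxA,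
      map_sub, map_mul, ev_cs, ev_cxA, dl, blk_self, if_true, one_mul]
    rw [Finset.sum_sub_distrib, hl]
    simp
  · simp only [Fin.mk_one, nn_1l, nn_1r, map_zero, Finset.sum_const_zero, zero_add, ED_cxA,
      map_sub, map_mul, ev_cs, ev_cxA, dl, blk_self, if_true, one_mul]
    rw [Finset.sum_sub_distrib, hr]
    simp

theorem nn_out (i k : Ix n) (p : MM n) :
    ∑ c, ev p (nn n c i) * ev p (nn n c k) = blk i k * cx i p * cx k p := by
  rw [Fin.sum_univ_two]
  rcases i with i | i <;> rcases k with k | k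
  · simp only [nn_0l, nn_1l, ev_cxA, ev_zero, mul_zero, add_zero, blk, one_mul]
  · simp only [nn_0l, nn_0r, nn_1l, nn_1r, ev_cxA, ev_zero, mul_zero, zero_mul, add_zero, blk]
  · simp only [nn_0l, nn_0r, nn_1l, nn_1r, ev_cxA, ev_zero, mul_zero, zero_mul, add_zero, blk]
  · simp only [nn_0r, nn_1r, ev_cxA, ev_zero, mul_zero, zero_add, blk, one_mul]

theorem nn_sum (i : Ix n) : ∑ c, nn n c i = cxA i := by
  rw [Fin.sum_univ_two]
  rcases i with i | i
  · rw [nn_0l, nn_1l, add_zero]
  · rw [nn_0r, nn_1r, zero_add]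

variable {g : Met n} {cov : Cov n}

/-- derivative of a coordinate along a frame field -/
theorem fD_cx (S : Fin (2 * n + 2) → Ix n → SmA n) (a : Fin (2 * n + 2)) (k : Ix n) :
    fD (S a) (cxA k) = S a k - ∑ c, nn n c k * nuS S c a := by
  apply ext_ev
  intro p
  rw [fD_eq, map_sum, map_sub, map_sum]
  have h1 : ∀ i, ev p (S a i * ED i (cxA k)) = (if i = k then ev p (S a i) else 0) -
      ∑ c, ev p (nn n c k) * (ev p (S a i) * ev p (nn n c i)) := by
    intro i
    rw [ED_cxA, map_mul, map_sub, map_mul, map_mul, ev_cs, ev_cs, ev_cxA, ev_cxA, mul_sub,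
      ← nn_out, Finset.mul_sum]
    congr 1
    · rw [dl]
      split_ifs <;> simp
    · exact Finset.sum_congr rfl fun c _ => by ring
  rw [Finset.sum_congr rfl fun i _ => h1 i, Finset.sum_sub_distrib, Finset.sum_comm]
  congr 1
  · simp
  · refine Finset.sum_congr rfl fun c _ => ?_
    rw [nuS, map_mul, map_sum, Finset.mul_sum]
    exact Finset.sum_congr rfl fun i _ => by rw [map_mul]

/-- the inner products of coordinate fields and frame fields -/
def GG (T : TF g) (k : Ix n) (b : Fin (2 * n + 2)) : SmA n :=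
  ⟨gi g (EE k) (fld (T.S b)), gi_smooth (EE_smooth k) (fld_smooth _)⟩

theorem ev_GG (T : TF g) (k : Ix n) (b : Fin (2 * n + 2)) (p : MM n) :
    ev p (GG T k b) = g.inner p (EE k p) (fld (T.S b) p) := rfl

theorem nn_GG (T : TF g) (c : Fin 2) (b : Fin (2 * n + 2)) : ∑ k, nn n c k * GG T k b = 0 := by
  apply ext_ev
  intro p
  rw [map_sum, map_zero]
  have h := congrArg (fun v => g.inner p v (fld (T.S b) p)) (nn_E c p)
  simp only [map_sum, map_zero, sum_apply, zero_apply] at h
  refine Eq.trans (Finset.sum_congr rfl fun k _ => ?_) h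
  rw [map_mul, ev_GG, map_smul]
  rfl

theorem nu_GG (T : TF g) (c : Fin 2) (k : Ix n) : ∑ b, nuS T.S c b * GG T k b = 0 := by
  apply ext_ev
  intro p
  rw [map_sum, map_zero]
  have h := congrArg (fun v => g.inner p (EE k p) v) (T.nu_fld p c)
  simp only [map_sum, map_zero] at h
  refine Eq.trans (Finset.sum_congr rfl fun b _ => ?_) h
  rw [map_mul, ev_GG, map_smul]
  rfl

theorem inv_GG (T : TF g) (j k : Ix n) :
    ∑ b, T.S b j * (GG T k b + ∑ c, nn n c k * nuS T.S c b) = if j = k then 1 else 0 := by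
  apply ext_ev
  intro p
  have h := T.inv p j k
  rw [map_sum]
  have h2 : ev p (if j = k then (1 : SmA n) else 0) = if j = k then 1 else 0 := by
    split_ifs
    · exact map_one _
    · exact map_zero _
  rw [h2, ← h]
  refine Finset.sum_congr rfl fun b _ => ?_
  rw [map_mul, map_add, map_sum, ev_GG]
  congr 2

theorem rho_GG (T : TF g) (rho : SmA n)
    (hr : rho * (Matrix.of fun a b => T.S a (ix n b)).det = 1)
    (D : Derivation ℝ (SmA n) (SmA n)) :
    D rho = - rho * ∑ b, ∑ k, (GG T k b + ∑ c, nn n c k * nuS T.S c b) * D (T.S b k) := by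
  have h1 := deriv_inv_det D (Matrix.of fun a b => T.S a (ix n b))
    (Matrix.of fun k b => GG T (ix n k) b + ∑ c, nn n c (ix n k) * nuS T.S c b) (by
      ext k j : 2
      rw [Matrix.mul_apply, Matrix.one_apply]
      have h2 := inv_GG T (ix n j) (ix n k)
      simp only [Matrix.of_apply]
      rw [Finset.sum_congr rfl fun b _ => mul_comm _ (T.S b (ix n j)), h2]
      simp only [EmbeddingLike.apply_eq_iff_eq, eq_comm]) rho hr
  rw [h1]
  congr 1
  refine Finset.sum_congr rfl fun b _ => ?_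
  simp only [Matrix.of_apply]
  exact Equiv.sum_comp (ix n) (fun k => (GG T k b + ∑ c, nn n c k * nuS T.S c b) * D (T.S b k))

end geo

section geo2

open Pool.Agent.H821R2 Pool.Agent.H821R3 Pool.Agent.H893R5.HO Pool.Agent.H781.S22

variable {n : ℕ} {g : Met n} {cov : Cov n}

theorem ev_fD (s : Ix n → SmA n) (f : SmA n) (p : MM n) :
    ev p (fD s f) = mvfderiv (IM n) f.1 p (fld s p) := rfl

/-- the bracket of two fields applied to a coordinate function -/
theorem br_cx (hn : 1 ≤ n) (s t : Ix n → SmA n) (k : Ix n) (p : MM n) :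
    mvfderiv (IM n) (cx k) p (mlieBracket (IM n) (fld s) (fld t) p) =
      ev p (fD s (fD t (cxA k)) - fD t (fD s (cxA k))) := by
  have : Nonempty (Fin n) := ⟨⟨0, hn⟩⟩
  have : Nontrivial (EuclideanSpace ℝ (Fin n) × EuclideanSpace ℝ (Fin n)) := inferInstance
  have h := comm_fun (smooth_cx k) (fld_smooth s) (fld_smooth t)
    (Sm.der (fld_smooth s) (smooth_cx k)) (Sm.der (fld_smooth t) (smooth_cx k)) p
  rw [← h, map_sub]
  rfl

theorem g_br (hn : 1 ≤ n) (T : TF g) (s t : Ix n → SmA n) (b : Fin (2 * n + 2)) (p : MM n) :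
    g.inner p (mlieBracket (IM n) (fld s) (fld t) p) (fld (T.S b) p) =
      ev p (∑ k, (fD s (fD t (cxA k)) - fD t (fD s (cxA k))) * GG T k b) := by
  rw [map_sum]
  have h := congrArg (fun v => g.inner p v (fld (T.S b) p))
    (repr_EE p (mlieBracket (IM n) (fld s) (fld t) p))
  simp only [map_sum, sum_apply] at h
  rw [← h]
  refine Finset.sum_congr rfl fun k _ => ?_
  rw [map_smul, map_mul, ev_GG, ← br_cx hn]
  rfl

/-- `∑ g(e_b, e_b)` is constant -/
theorem tr_const (T : TF g) (p : MM n) :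
    ∑ b, gi g (fld (T.S b)) (fld (T.S b)) p = 2 * n := by
  have h1 : ∀ b, gi g (fld (T.S b)) (fld (T.S b)) p =
      1 - ∑ c, ev p (nuS T.S c b) * ev p (nuS T.S c b) := by
    intro b
    have h := T.on p b b
    rw [if_pos rfl] at h
    exact eq_sub_of_add_eq h
  rw [Finset.sum_congr rfl fun b _ => h1 b, Finset.sum_sub_distrib, Finset.sum_comm]
  have h2 : ∀ c, ∑ b, ev p (nuS T.S c b) * ev p (nuS T.S c b) = 1 := by
    intro c
    have h := congrArg (ev p) (T.nu_on c c)
    rw [if_pos rfl, map_sum, map_one] at h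
    rw [← h]
    exact Finset.sum_congr rfl fun b _ => by rw [map_mul]
  rw [Finset.sum_congr rfl fun c _ => h2 c]
  simp

theorem sum_nabla (h : IsLeviCivita g cov) (T : TF g) (s : Ix n → SmA n) (p : MM n) :
    ∑ b, gi g (nabla cov (fld s) (fld (T.S b))) (fld (T.S b)) p = 0 := by
  have h1 : ∀ b, der (fld s) (gi g (fld (T.S b)) (fld (T.S b))) p =
      2 * gi g (nabla cov (fld s) (fld (T.S b))) (fld (T.S b)) p := by
    intro b
    rw [der_gi h (fld_smooth s) (fld_smooth (T.S b)) (fld_smooth (T.S b))]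
    simp only
    rw [gi_comm (fld (T.S b)) (nabla cov (fld s) (fld (T.S b)))]
    ring
  have h2 : (∑ b, (⟨gi g (fld (T.S b)) (fld (T.S b)), gi_smooth (fld_smooth _) (fld_smooth _)⟩
      : SmA n)) = cs (2 * n : ℝ) := by
    apply ext_ev
    intro q
    rw [map_sum, ev_cs]
    exact tr_const T q
  have h3 := congrArg (fun f => ev p (fD s f)) h2
  simp only [map_sum] at h3
  have h4 : ev p (fD s (cs (2 * n : ℝ))) = 0 := by
    rw [cs, Derivation.map_algebraMap, map_zero]
  rw [h4] at h3
  have h5 : ∑ b, der (fld s) (gi g (fld (T.S b)) (fld (T.S b))) p = 0 := h3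
  rw [Finset.sum_congr rfl fun b _ => h1 b, ← Finset.mul_sum] at h5
  linarith

theorem sum_nu_fD (T : TF g) (a : Fin (2 * n + 2)) (p : MM n) :
    ∑ b, ev p (∑ c, nuS T.S c b * fD (T.S b) (nuS T.S c a)) = 0 := by
  have h1 : ∀ b, ev p (∑ c, nuS T.S c b * fD (T.S b) (nuS T.S c a)) =
      ∑ c, ev p (nuS T.S c b) * mvfderiv (IM n) (nuS T.S c a).1 p (fld (T.S b) p) := by
    intro b
    rw [map_sum]
    refine Finset.sum_congr rfl fun c _ => ?_
    rw [map_mul, ev_fD]
  rw [Finset.sum_congr rfl fun b _ => h1 b, Finset.sum_comm]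
  refine Finset.sum_eq_zero fun c _ => ?_
  have h := congrArg (mvfderiv (IM n) (nuS T.S c a).1 p) (T.nu_fld p c)
  rw [map_sum, map_zero] at h
  refine Eq.trans (Finset.sum_congr rfl fun b _ => ?_) h
  rw [map_smul, smul_eq_mul]

theorem sum_Gam (hn : 1 ≤ n) (h : IsLeviCivita g cov) (T : TF g) (a : Fin (2 * n + 2)) :
    ∑ b, GamT h T b a b = ∑ b, ∑ k, (fD (T.S b) (T.S a k - ∑ c, nn n c k * nuS T.S c a) -
      fD (T.S a) (T.S b k - ∑ c, nn n c k * nuS T.S c b)) * GG T k b := by
  apply ext_ev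
  intro p
  rw [map_sum, map_sum]
  have h1 : ∀ b, ev p (GamT h T b a b) =
      gi g (nabla cov (fld (T.S a)) (fld (T.S b))) (fld (T.S b)) p +
      ev p (∑ k, (fD (T.S b) (T.S a k - ∑ c, nn n c k * nuS T.S c a) -
        fD (T.S a) (T.S b k - ∑ c, nn n c k * nuS T.S c b)) * GG T k b) +
      ev p (∑ c, nuS T.S c b * fD (T.S b) (nuS T.S c a)) := by
    intro b
    rw [GamT, map_add]
    congr 1
    have h2 := g_br hn T (T.S b) (T.S a) b p
    have h3 : ∑ k, (fD (T.S b) (fD (T.S a) (cxA k)) - fD (T.S a) (fD (T.S b) (cxA k))) * GG T k b =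
        ∑ k, (fD (T.S b) (T.S a k - ∑ c, nn n c k * nuS T.S c a) -
        fD (T.S a) (T.S b k - ∑ c, nn n c k * nuS T.S c b)) * GG T k b := by
      refine Finset.sum_congr rfl fun k _ => ?_
      rw [fD_cx, fD_cx]
    rw [h3] at h2
    rw [← h2, ← h.torsionFree (fld_smooth (T.S b)) (fld_smooth (T.S a)) p, map_sub]
    change g.inner p (cov (fld (T.S a)) p (fld (T.S b) p)) (fld (T.S b) p) =
      g.inner p (cov (fld (T.S b)) p (fld (T.S a) p)) (fld (T.S b) p) +
      (g.inner p (cov (fld (T.S a)) p (fld (T.S b) p)) (fld (T.S b) p) -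
       g.inner p (cov (fld (T.S b)) p (fld (T.S a) p)) (fld (T.S b) p))
    ring
  rw [Finset.sum_congr rfl fun b _ => h1 b, Finset.sum_add_distrib, Finset.sum_add_distrib,
    sum_nabla h T, sum_nu_fD T, zero_add, add_zero]

theorem rho_Gam (hn : 1 ≤ n) (h : IsLeviCivita g cov) (T : TF g) (rho : SmA n)
    (hr : rho * (Matrix.of fun a b => T.S a (ix n b)).det = 1) (a : Fin (2 * n + 2)) :
    rho * ∑ b, GamT h T b a b =
      ∑ i, ED i (rho * T.S a i) - cs (n : ℝ) * rho * ∑ i, cxA i * T.S a i := by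
  rw [sum_Gam hn h T a]
  have h1 := alg_key (A := SmA n) (fun i => ED i) (fun b => fD (T.S b)) T.S (nn n) (nuS T.S)
    (GG T) (cs (n : ℝ)) rho (fun a f => fD_eq _ f) (fun c b => rfl)
    (fun j k => inv_GG T j k) (fun c f => nn_ED c f) (fun c b => nn_GG T c b)
    (fun c c' => nn_nn c c') (fun c k => nu_GG T c k) (fun c c' => T.nu_on c c')
    (fun c => nn_div c) (fun a => rho_GG T rho hr (fD (T.S a))) a
  refine h1.trans ?_
  congr 2
  have h2 : ∀ c, nuS T.S c a = ∑ i, T.S a i * nn n c i := fun c => rfl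
  rw [Finset.sum_congr rfl fun c _ => h2 c, Finset.sum_comm]
  refine Finset.sum_congr rfl fun i _ => ?_
  rw [← Finset.mul_sum, nn_sum, mul_comm]

theorem integrable_ev (μ : Measure (MM n)) [IsProbabilityMeasure μ] (f : SmA n) :
    Integrable (fun p => ev p f) μ := by
  have hc : Continuous (fun p => ev p f) := ContMDiff.continuous (n := ∞) f.2
  exact hc.integrable_of_hasCompactSupport (HasCompactSupport.of_compactSpace _)

theorem geo_b_aux (hn : 1 ≤ n) (h : IsLeviCivita g cov) (T : TF g)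
    (F : Fr (2 * n + 2) (SmA n)) (he : ∀ a, F.e a = fD (T.S a))
    (hG : ∀ b c d, F.Γ b c d = GamT h T b c d) (μ : Measure (MM n)) (hμ : IsRound μ)
    (rho : SmA n) (hr : rho * (Matrix.of fun a b => T.S a (ix n b)).det = 1)
    (f : Fin (2 * n + 2) → SmA n) : ∫ p, ev p (rho * dv F f) ∂μ = 0 := by
  have := hμ.prob
  have h1 : rho * dv F f = ∑ i, (ED i (∑ b, rho * T.S b i * f b) -
      cs (n : ℝ) * (cxA i * ∑ b, rho * T.S b i * f b)) := by
    have h2 := alg_div (A := SmA n) (fun i => ED i) (fun b => F.e b) T.S (cs (n : ℝ)) rho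
      (fun i => cxA i) (fun a => ∑ b, F.Γ b a b) f
      (fun a f => by rw [he]; exact fD_eq _ f)
      (fun a => by
        rw [Finset.sum_congr rfl fun b _ => hG b a b]
        exact rho_Gam hn h T rho hr a)
    rw [← h2, dv]
    congr 2
    refine Finset.sum_congr rfl fun a _ => ?_
    rw [Finset.sum_mul]
  rw [h1]
  have h3 : ∀ p, ev p (∑ i, (ED i (∑ b, rho * T.S b i * f b) -
      cs (n : ℝ) * (cxA i * ∑ b, rho * T.S b i * f b))) =
      ∑ i, (ev p (ED i (∑ b, rho * T.S b i * f b)) -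
        n * ev p (cxA i * ∑ b, rho * T.S b i * f b)) := by
    intro p
    rw [map_sum]
    refine Finset.sum_congr rfl fun i _ => ?_
    rw [map_sub, map_mul (ev p) (cs (n : ℝ)), ev_cs]
  simp only [h3]
  rw [integral_finsetSum]
  · refine Finset.sum_eq_zero fun i _ => ?_
    rw [integral_sub (integrable_ev μ _) ((integrable_ev μ _).const_mul _), hμ.div,
      integral_const_mul, sub_self]
  · intro i _
    exact (integrable_ev μ _).sub ((integrable_ev μ _).const_mul _)

end geo2

end Pool.Agent.H781.NG.GeoB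

namespace Pool.Agent.H781.NG

/-- divergence theorem for the Riemannian density (the hypothesis on brackets is not needed) -/
theorem s_geo_b' : S_GEO_B := fun _ hn _ _ h T F he hG μ hμ rho hr f =>
  GeoB.geo_b_aux hn h T F he hG μ hμ rho hr f

theorem s_geo_b (_ : S_BR) : S_GEO_B := s_geo_b'

end Pool.Agent.H781.NG
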