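import Pool.Agent.H781.NG.GeoSpec
import Pool.Graph.R_seed8.H821R2.PinchAlg

/-!
Assembly of the geometric data.
-/

open Bundle Manifold ContDiff VectorField Metric MeasureTheory Filter
open scoped Topology RealInnerProductSpace

set_option autoImplicit false
set_option synthInstance.maxHeartbeats 400000
set_option maxHeartbeats 4000000

noncomputable section

namespace Pool.Agent.H781.NG.GeoC

open Pool.Agent.H821R2 Pool.Agent.H821R3 Pool.Agent.H893R5.HO Pool.Agent.H781.S22
open Pool.Agent.H781.NG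

variable {n : ℕ}

/-- the algebraic symmetries of the curvature tensor, unbundled -/
theorem curv_sym (hn : 1 ≤ n) {g : Met n} {cov : Cov n} {R : CurvField (IM n) (MM n)}
    (h : IsLeviCivita g cov) (hR : IsRiemannTensor cov R) (p : MM n) :
    (∀ X Y Z, R p X Y Z = - R p Y X Z) ∧
    (∀ X Y Z W, g.inner p (R p X Y Z) W = - g.inner p Z (R p X Y W)) ∧
    (∀ X Y Z, R p X Y Z + R p Y Z X + R p Z X Y = 0) ∧
    (∀ X Y Z W, g.inner p (R p X Y Z) W = g.inner p (R p Z W X) Y) := by
  let _ : RiemannianBundle (fun x : MM n => TangentSpace (IM n) x) := ⟨g.toRiemannianMetric⟩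
  have : Nontrivial (EuclideanSpace ℝ (Fin n) × EuclideanSpace ℝ (Fin n)) := by
    have : Nonempty (Fin n) := ⟨⟨0, hn⟩⟩
    infer_instance
  have h' : IsLeviCivitaB cov := ⟨h.smooth, h.metric, h.torsionFree⟩
  have hc := isCurvatureTensor h' hR p
  exact ⟨hc.antisymm, hc.skew, hc.bianchi, hc.pair_symm⟩

/-- an orthonormal frame of the tangent space at `p` -/
theorem exists_on (g : Met n) (p : MM n) : ∃ f : Fin (2 * n) → TangentSpace (IM n) p,
    IsOrthonormalFrame g p f ∧ ∀ v : TangentSpace (IM n) p, ∑ i, g.inner p (f i) v • f i = v := by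
  let _ : RiemannianBundle (fun x : MM n => TangentSpace (IM n) x) := ⟨g.toRiemannianMetric⟩
  have hfd : FiniteDimensional ℝ (TangentSpace (IM n) p) :=
    inferInstanceAs (FiniteDimensional ℝ (EuclideanSpace ℝ (Fin n) × EuclideanSpace ℝ (Fin n)))
  have hfr : Module.finrank ℝ (TangentSpace (IM n) p) = 2 * n := by
    have : Module.finrank ℝ (EuclideanSpace ℝ (Fin n) × EuclideanSpace ℝ (Fin n)) = 2 * n := by
      simp; ring
    exact this
  let b := (stdOrthonormalBasis ℝ (TangentSpace (IM n) p)).reindex (finCongr hfr)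
  refine ⟨fun i => b i, fun i j => ?_, fun v => ?_⟩
  · have := (orthonormal_iff_ite.1 b.orthonormal) i j
    exact this
  · exact b.sum_repr' v

/-- inverse of a positive smooth function -/
def inv (f : SmA n) (hf : ∀ p, 0 < ev p f) : SmA n :=
  ⟨fun p => (f.1 p)⁻¹, by
    have h : Sm (IM n) f.1 := f.2
    exact ContMDiff.inv₀ h fun p => (hf p).ne'⟩

theorem inv_mul (f : SmA n) (hf : ∀ p, 0 < ev p f) : inv f hf * f = 1 := by
  apply ext_ev
  intro p
  rw [map_mul, map_one]
  exact inv_mul_cancel₀ (hf p).ne'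

theorem inv_pos' (f : SmA n) (hf : ∀ p, 0 < ev p f) (p : MM n) : 0 < ev p (inv f hf) :=
  _root_.inv_pos.2 (hf p)

section fields

variable {g : Met n} {cov : Cov n}

theorem ev_fD (s : Ix n → SmA n) (f : SmA n) (p : MM n) :
    ev p (fD s f) = mvfderiv (IM n) f.1 p (fld s p) := rfl

theorem nu_e (T : TF g) (a : Fin 2) (f : SmA n) : ∑ b, nuS T.S a b * fD (T.S b) f = 0 := by
  apply ext_ev
  intro p
  rw [map_sum, map_zero]
  have h1 : ∀ b, ev p (nuS T.S a b * fD (T.S b) f) =
      mvfderiv (IM n) f.1 p (ev p (nuS T.S a b) • fld (T.S b) p) := by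
    intro b
    rw [map_mul, ev_fD, map_smul, smul_eq_mul]
  simp only [h1]
  rw [← map_sum, T.nu_fld, map_zero]

theorem nu_G (h : IsLeviCivita g cov) (T : TF g) (a : Fin 2) (c d : Fin (2 * n + 2)) :
    ∑ b, nuS T.S a b * GamT h T b c d = 0 := by
  unfold GamT
  simp only [mul_add, Finset.sum_add_distrib]
  have h1 : ∑ b, nuS T.S a b * (⟨gi g (nabla cov (fld (T.S b)) (fld (T.S c))) (fld (T.S d)),
      gi_smooth (nabla_smooth h (fld_smooth _) (fld_smooth _)) (fld_smooth _)⟩ : SmA n) = 0 := by
    apply ext_ev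
    intro p
    rw [map_sum, map_zero]
    have h2 : ∀ b, ev p (nuS T.S a b *
        (⟨gi g (nabla cov (fld (T.S b)) (fld (T.S c))) (fld (T.S d)),
        gi_smooth (nabla_smooth h (fld_smooth _) (fld_smooth _)) (fld_smooth _)⟩ : SmA n)) =
        g.inner p (cov (fld (T.S c)) p (ev p (nuS T.S a b) • fld (T.S b) p)) (fld (T.S d) p) := by
      intro b
      rw [map_mul, map_smul, map_smul, smul_apply, smul_eq_mul]
      rfl
    simp only [h2]
    rw [← sum_apply, ← map_sum, ← map_sum, T.nu_fld, map_zero, map_zero,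
      zero_apply]
  have h2 : ∑ b, nuS T.S a b * ∑ a', nuS T.S a' d * fD (T.S b) (nuS T.S a' c) = 0 := by
    simp only [Finset.mul_sum]
    rw [Finset.sum_comm]
    refine Finset.sum_eq_zero fun a' _ => ?_
    have := nu_e T a (nuS T.S a' c)
    calc ∑ b, nuS T.S a b * (nuS T.S a' d * fD (T.S b) (nuS T.S a' c))
        = nuS T.S a' d * ∑ b, nuS T.S a b * fD (T.S b) (nuS T.S a' c) := by
          rw [Finset.mul_sum]
          exact Finset.sum_congr rfl fun b _ => by ring
      _ = 0 := by rw [this, mul_zero]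
  rw [h1, h2, add_zero]

theorem nu_par (h : IsLeviCivita g cov) (T : TF g) (a : Fin 2) (b c : Fin (2 * n + 2)) :
    fD (T.S b) (nuS T.S a c) = ∑ d, GamT h T b c d * nuS T.S a d := by
  unfold GamT
  simp only [add_mul, Finset.sum_add_distrib]
  have h1 : ∑ d, (⟨gi g (nabla cov (fld (T.S b)) (fld (T.S c))) (fld (T.S d)),
      gi_smooth (nabla_smooth h (fld_smooth _) (fld_smooth _)) (fld_smooth _)⟩ : SmA n) *
      nuS T.S a d = 0 := by
    apply ext_ev
    intro p
    rw [map_sum, map_zero]
    have h2 : ∀ d, ev p ((⟨gi g (nabla cov (fld (T.S b)) (fld (T.S c))) (fld (T.S d)),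
        gi_smooth (nabla_smooth h (fld_smooth _) (fld_smooth _)) (fld_smooth _)⟩ : SmA n) *
        nuS T.S a d) =
        g.inner p (nabla cov (fld (T.S b)) (fld (T.S c)) p)
          (ev p (nuS T.S a d) • fld (T.S d) p) := by
      intro d
      rw [map_mul, map_smul, smul_eq_mul, mul_comm]
      rfl
    simp only [h2]
    rw [← map_sum, T.nu_fld, map_zero]
  have h2 : ∑ d, (∑ a', nuS T.S a' d * fD (T.S b) (nuS T.S a' c)) * nuS T.S a d =
      fD (T.S b) (nuS T.S a c) := by
    simp only [Finset.sum_mul]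
    rw [Finset.sum_comm]
    have h3 : ∀ a', ∑ d, nuS T.S a' d * fD (T.S b) (nuS T.S a' c) * nuS T.S a d =
        if a = a' then fD (T.S b) (nuS T.S a' c) else 0 := by
      intro a'
      calc ∑ d, nuS T.S a' d * fD (T.S b) (nuS T.S a' c) * nuS T.S a d
          = (∑ d, nuS T.S a d * nuS T.S a' d) * fD (T.S b) (nuS T.S a' c) := by
            rw [Finset.sum_mul]
            exact Finset.sum_congr rfl fun d _ => by ring
        _ = _ := by
            rw [T.nu_on]
            split_ifs <;> simp
    simp only [h3]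
    rw [Finset.sum_ite_eq, if_pos (Finset.mem_univ a)]
  rw [h1, h2, zero_add]

end fields

/-- the pointwise data -/
theorem pos_at (hn : 1 ≤ n) {g : Met n} {cov : Cov n} {R : CurvField (IM n) (MM n)}
    (h : IsLeviCivita g cov) (hR : IsRiemannTensor cov R) {k : ℕ} (hpos : CPos k g R) (T : TF g)
    (p : MM n) : ∃ (f : Fin (2 * n) → Fin (2 * n + 2) → ℝ)
    (K : Fin (2 * n) → Fin (2 * n) → Fin (2 * n) → Fin (2 * n) → ℝ),
    (∀ i j, ∑ a, f i a * f j a = if i = j then 1 else 0) ∧
    (∀ i b, ∑ a, f i a * ev p (nuS T.S b a) = 0) ∧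
    CurvT K ∧ KPos k K ∧
    ∀ a b c d, - g.inner p (R p (fld (T.S a) p) (fld (T.S b) p) (fld (T.S c) p)) (fld (T.S d) p) =
      ∑ i, ∑ j, ∑ l, ∑ m, f i a * f j b * f l c * f m d * K i j l m := by
  obtain ⟨f, hf, hrep⟩ := exists_on g p
  obtain ⟨hanti, hskew, hbia, hpair⟩ := curv_sym hn h hR p
  have hskew' : ∀ X Y Z W, g.inner p (R p X Y Z) W = - g.inner p (R p X Y W) Z := by
    intro X Y Z W
    rw [hskew, g.symm p Z]
  have hanti' : ∀ X Y Z W, g.inner p (R p X Y Z) W = - g.inner p (R p Y X Z) W := by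
    intro X Y Z W
    rw [hanti X Y Z, map_neg, neg_apply]
  refine ⟨fun i a => g.inner p (f i) (fld (T.S a) p),
    fun i j l m => g.inner p (R p (f i) (f j) (f m)) (f l), ?_, ?_, ?_, ?_, ?_⟩
  · intro i j
    rw [← hf i j]
    conv_rhs => rw [← T.tight p (f j)]
    rw [map_sum]
    refine Finset.sum_congr rfl fun a _ => ?_
    rw [map_smul, smul_eq_mul, mul_comm]
  · intro i b
    have h1 : ∀ a, g.inner p (f i) (fld (T.S a) p) * ev p (nuS T.S b a) =
        g.inner p (f i) (ev p (nuS T.S b a) • fld (T.S a) p) := by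
      intro a
      rw [map_smul, smul_eq_mul, mul_comm]
    simp only [h1]
    rw [← map_sum, T.nu_fld, map_zero]
  · refine ⟨?_, ?_, ?_, ?_⟩
    · intro i j l m
      exact hanti' _ _ _ _
    · intro i j l m
      exact hskew' _ _ _ _
    · intro i j l m
      show g.inner p (R p (f i) (f j) (f m)) (f l) = g.inner p (R p (f l) (f m) (f j)) (f i)
      rw [hpair, hanti', hskew', neg_neg]
    · intro i j l m
      show g.inner p (R p (f i) (f j) (f m)) (f l) + g.inner p (R p (f j) (f l) (f m)) (f i) +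
        g.inner p (R p (f l) (f i) (f m)) (f j) = 0
      have h1 := congrArg (fun v => g.inner p v (f m)) (hbia (f i) (f j) (f l))
      simp only [map_add, add_apply, map_zero,
        zero_apply] at h1
      rw [hskew' (f i) (f j) (f m) (f l), hskew' (f j) (f l) (f m) (f i),
        hskew' (f l) (f i) (f m) (f j)]
      linarith
  · intro hH t ht
    exact hpos p f hf hH t ht
  · intro a b c d
    rw [← hskew' _ _ (fld (T.S d) p) (fld (T.S c) p)]
    have hr : ∀ e : Fin (2 * n + 2), fld (T.S e) p =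
        ∑ i, g.inner p (f i) (fld (T.S e) p) • f i := fun e => (hrep _).symm
    have e1 : ∀ X Y Z W : TangentSpace (IM n) p, ∀ (x y z w : Fin (2 * n) → ℝ),
        X = ∑ i, x i • f i → Y = ∑ i, y i • f i → Z = ∑ i, z i • f i → W = ∑ i, w i • f i →
        g.inner p (R p X Y Z) W = ∑ i, ∑ j, ∑ l, ∑ m, x i * y j * w l * z m *
          g.inner p (R p (f i) (f j) (f m)) (f l) := by
      intro X Y Z W x y z w hX hY hZ hW
      rw [hX, map_sum, LinearMap.sum_apply, LinearMap.sum_apply, map_sum,
        sum_apply]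
      refine Finset.sum_congr rfl fun i _ => ?_
      rw [map_smul, LinearMap.smul_apply, LinearMap.smul_apply, map_smul,
        smul_apply, hY, map_sum, LinearMap.sum_apply, map_sum,
        sum_apply, Finset.smul_sum]
      refine Finset.sum_congr rfl fun j _ => ?_
      rw [map_smul, LinearMap.smul_apply, map_smul, smul_apply, hW, map_sum,
        Finset.smul_sum, Finset.smul_sum]
      refine Finset.sum_congr rfl fun l _ => ?_
      rw [map_smul, hZ, map_sum, map_sum, sum_apply, Finset.smul_sum,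
        Finset.smul_sum, Finset.smul_sum]
      refine Finset.sum_congr rfl fun m _ => ?_
      rw [map_smul, map_smul, smul_apply]
      simp only [smul_eq_mul]
      ring
    exact e1 _ _ _ _ _ _ _ _ (hr a) (hr b) (hr d) (hr c)

end Pool.Agent.H781.NG.GeoC

namespace Pool.Agent.H781.NG

open Pool.Agent.H821R2 Pool.Agent.H821R3 Pool.Agent.H893R5.HO Pool.Agent.H781.S22

theorem s_geo (htf : S_TF) (ha : S_GEO_A) (hb : S_GEO_B) : S_GEO := by
  intro n hn g cov R h hR k hpos μ hμ
  obtain ⟨T⟩ := htf n hn g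
  obtain ⟨F, hFe, hFΓ, hFR⟩ := ha n hn g cov R h hR T
  have hrho := GeoC.inv_mul _ T.det_pos
  refine ⟨{ F := F
            S := T.S
            nu := nuS T.S
            rho := GeoC.inv _ T.det_pos
            he := ?_
            bianchi := ?_
            hnu := fun a b => rfl
            nu_on := T.nu_on
            nu_e := ?_
            nu_G := ?_
            nu_par := ?_
            rho_pos := GeoC.inv_pos' _ _
            rho_det := hrho
            div := hb n hn g cov h T F hFe hFΓ μ hμ _ hrho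
            pos := ?_ }⟩
  · intro a f
    rw [hFe, fD_eq]
  · intro a b c d
    apply ext_ev
    intro p
    rw [map_add, map_add, map_zero, hFR, hFR, hFR]
    have h1 := congrArg (fun v => g.inner p v (fld (T.S d) p))
      ((GeoC.curv_sym hn h hR p).2.2.1 (fld (T.S a) p) (fld (T.S b) p) (fld (T.S c) p))
    simp only [map_add, add_apply, map_zero,
      zero_apply] at h1
    exact h1
  · intro a f
    simp only [hFe]
    exact GeoC.nu_e T a f
  · intro a c d
    simp only [hFΓ]
    exact GeoC.nu_G h T a c d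
  · intro a b c
    simp only [hFe, hFΓ]
    exact GeoC.nu_par h T a b c
  · intro p
    obtain ⟨f, K, h1, h2, h3, h4, h5⟩ := GeoC.pos_at hn h hR hpos T p
    refine ⟨f, K, h1, h2, h3, h4, fun a b c d => ?_⟩
    rw [hFR]
    exact h5 a b c d

end Pool.Agent.H781.NG
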