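import Pool.Agent.H781.NG.Spec

/-!
Boundedness and convergence of the mollifier.
-/

open Bundle Manifold ContDiff VectorField Metric MeasureTheory Filter
open scoped Topology RealInnerProductSpace

set_option autoImplicit false
set_option synthInstance.maxHeartbeats 400000
set_option maxHeartbeats 4000000

noncomputable section

namespace Pool.Agent.H781.NG

open Pool.Agent.H821R2 Pool.Agent.H821R3 Pool.Agent.H893R5.HO Pool.Agent.H781.S22

namespace Jbd

variable {n : ℕ}

theorem cont_ev (f : SmA n) : Continuous fun p => ev p f := by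
  have h : Sm (IM n) f.1 := f.2
  exact h.continuous

theorem cont_kk (a b : ℕ) : Continuous fun z : MM n × MM n => kk a b z.1 z.2 := by
  unfold kk
  refine Continuous.mul (Continuous.pow ?_ _) (Continuous.pow ?_ _)
  · refine continuous_const.add (Continuous.inner ?_ ?_)
    · exact continuous_subtype_val.comp (continuous_fst.comp continuous_fst)
    · exact continuous_subtype_val.comp (continuous_fst.comp continuous_snd)
  · refine continuous_const.add (Continuous.inner ?_ ?_)
    · exact continuous_subtype_val.comp (continuous_snd.comp continuous_fst)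
    · exact continuous_subtype_val.comp (continuous_snd.comp continuous_snd)

theorem cont_kk' (a b : ℕ) (p : MM n) : Continuous fun q : MM n => kk a b p q :=
  (cont_kk a b).comp (Continuous.prodMk_right p)

theorem kk_symm (a b : ℕ) (p q : MM n) : kk a b p q = kk a b q p := by
  rw [kk, kk, real_inner_comm, real_inner_comm (q.2 : V n)]

theorem one_add_nonneg (x y : sphere (0 : V n) 1) : 0 ≤ 1 + ⟪(x : V n), (y : V n)⟫ := by
  have h1 : |⟪(x : V n), (y : V n)⟫| ≤ ‖(x : V n)‖ * ‖(y : V n)‖ := abs_real_inner_le_norm _ _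
  have hx : ‖(x : V n)‖ = 1 := by simp
  have hy : ‖(y : V n)‖ = 1 := by simp
  rw [hx, hy, mul_one] at h1
  linarith [neg_abs_le ⟪(x : V n), (y : V n)⟫]

theorem kk_nonneg (a b : ℕ) (p q : MM n) : 0 ≤ kk a b p q := by
  unfold kk
  exact mul_nonneg (pow_nonneg (one_add_nonneg _ _) _) (pow_nonneg (one_add_nonneg _ _) _)

theorem cm_pos (hn : 1 ≤ n) (m : ℕ) : 0 < cm n m := by
  unfold cm
  refine Finset.prod_pos fun k _ => ?_
  have : (1 : ℝ) ≤ n := by exact_mod_cast hn
  positivity

theorem int_cont {X : Type*} [TopologicalSpace X] [CompactSpace X] [MeasurableSpace X]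
    [OpensMeasurableSpace X] (μ : Measure X) [IsFiniteMeasure μ] {g : X → ℝ} (hg : Continuous g) :
    Integrable g μ :=
  hg.integrable_of_hasCompactSupport (HasCompactSupport.of_compactSpace g)

section mu

variable (μ : Measure (MM n)) [IsProbabilityMeasure μ]

/-- the normalised kernel -/
def KK (n m : ℕ) (p q : MM n) : ℝ := ((cm n m) ^ 2)⁻¹ * kk m m p q

theorem KK_nonneg (m : ℕ) (p q : MM n) : 0 ≤ KK n m p q :=
  mul_nonneg (by positivity) (kk_nonneg _ _ _ _)

theorem KK_symm (m : ℕ) (p q : MM n) : KK n m p q = KK n m q p := by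
  rw [KK, KK, kk_symm]

theorem KK_cont (m : ℕ) : Continuous fun z : MM n × MM n => KK n m z.1 z.2 :=
  continuous_const.mul (cont_kk m m)

theorem KK_cont' (m : ℕ) (p : MM n) : Continuous fun q : MM n => KK n m p q :=
  continuous_const.mul (cont_kk' m m p)

theorem KK_one (hmom : S_MOM) (hn : 1 ≤ n) (hr : IsRound μ) (m : ℕ) (p : MM n) :
    ∫ q, KK n m p q ∂μ = 1 := by
  simp only [KK]
  rw [integral_const_mul, hmom n μ hn hr m m p]
  have := (cm_pos hn m).ne'
  field_simp

/-- the second moment -/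
theorem KK_mom (hmom : S_MOM) (hn : 1 ≤ n) (hr : IsRound μ) (m : ℕ) (p : MM n) :
    ∫ q, KK n m p q * (‖(p.1 : V n) - q.1‖ ^ 2 + ‖(p.2 : V n) - q.2‖ ^ 2) ∂μ =
      4 * (n / (m + n)) := by
  have h0 : ∀ x y : sphere (0 : V n) 1, ‖(x : V n) - y‖ ^ 2 =
      2 * (2 - (1 + ⟪(x : V n), (y : V n)⟫)) := by
    intro x y
    have hx : ‖(x : V n)‖ = 1 := by simp
    have hy : ‖(y : V n)‖ = 1 := by simp
    rw [@norm_sub_sq_real, hx, hy]
    ring
  have h1 : ∀ q : MM n, KK n m p q * (‖(p.1 : V n) - q.1‖ ^ 2 + ‖(p.2 : V n) - q.2‖ ^ 2) =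
      ((cm n m) ^ 2)⁻¹ * (8 * kk m m p q - (2 * kk (m + 1) m p q + 2 * kk m (m + 1) p q)) := by
    intro q
    rw [h0, h0, KK]
    simp only [kk]
    ring
  simp only [h1]
  have i1 : Integrable (fun q => 8 * kk m m p q) μ := (int_cont μ (cont_kk' m m p)).const_mul _
  have i2 : Integrable (fun q => 2 * kk (m + 1) m p q) μ :=
    (int_cont μ (cont_kk' (m + 1) m p)).const_mul _
  have i3 : Integrable (fun q => 2 * kk m (m + 1) p q) μ :=
    (int_cont μ (cont_kk' m (m + 1) p)).const_mul _
  have i4 : Integrable (fun q => 2 * kk (m + 1) m p q + 2 * kk m (m + 1) p q) μ := i2.add i3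
  rw [integral_const_mul, integral_sub i1 i4, integral_add i2 i3, integral_const_mul,
    integral_const_mul, integral_const_mul, hmom n μ hn hr, hmom n μ hn hr, hmom n μ hn hr]
  have hc := (cm_pos hn m).ne'
  have hcm : cm n (m + 1) = cm n m * ((2 * m + n : ℝ) / (m + n)) := by
    rw [cm, cm, Finset.prod_range_succ]
  rw [hcm]
  have hn' : (0 : ℝ) < n := by exact_mod_cast hn
  have hmn : (m + n : ℝ) ≠ 0 := by positivity
  field_simp
  ring

theorem J_eq {J : ℕ → SmA n →ₗ[ℝ] SmA n} (hJ : IsMol μ J) (m : ℕ) (f : SmA n) (p : MM n) :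
    ev p (J m f) = ∫ q, KK n m p q * ev q f ∂μ := by
  rw [hJ m f p, ← integral_const_mul]
  refine integral_congr_ae (Eventually.of_forall fun q => ?_)
  simp only [KK]
  ring

theorem bdd (hmom : S_MOM) (hn : 1 ≤ n) (hr : IsRound μ) {J : ℕ → SmA n →ₗ[ℝ] SmA n}
    (hJ : IsMol μ J) (m : ℕ) (f : SmA n) : ig μ (J m f * J m f) ≤ ig μ (f * f) := by
  have hf := cont_ev f
  have hJf := cont_ev (J m f)
  -- pointwise bound
  have h1 : ∀ p, ev p (J m f * J m f) ≤ ∫ q, KK n m p q * ev q (f * f) ∂μ := by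
    intro p
    set c := ev p (J m f) with hc
    have i1 : Integrable (fun q => KK n m p q * (ev q f * ev q f)) μ :=
      int_cont μ ((KK_cont' m p).mul (hf.mul hf))
    have i2 : Integrable (fun q => (2 * c) * (KK n m p q * ev q f)) μ :=
      (int_cont μ ((KK_cont' m p).mul hf)).const_mul _
    have i3 : Integrable (fun q => (c * c) * KK n m p q) μ :=
      (int_cont μ (KK_cont' m p)).const_mul _
    have i4 : Integrable (fun q => KK n m p q * (ev q f * ev q f) -
        (2 * c) * (KK n m p q * ev q f)) μ := i1.sub i2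
    have h2 : 0 ≤ ∫ q, KK n m p q * (ev q f - c) ^ 2 ∂μ :=
      integral_nonneg fun q => mul_nonneg (KK_nonneg _ _ _) (sq_nonneg _)
    have h3 : ∫ q, KK n m p q * (ev q f - c) ^ 2 ∂μ =
        (∫ q, KK n m p q * (ev q f * ev q f) ∂μ) - c * c := by
      have h4 : ∀ q, KK n m p q * (ev q f - c) ^ 2 = KK n m p q * (ev q f * ev q f) -
          (2 * c) * (KK n m p q * ev q f) + (c * c) * KK n m p q := fun q => by ring
      simp only [h4]
      rw [integral_add i4 i3, integral_sub i1 i2, integral_const_mul, integral_const_mul,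
        KK_one μ hmom hn hr m p, ← J_eq μ hJ m f p, ← hc]
      ring
    rw [h3] at h2
    rw [map_mul]
    simp only [map_mul]
    linarith
  have hint : Integrable (fun z : MM n × MM n => KK n m z.1 z.2 * ev z.2 (f * f))
      (μ.prod μ) :=
    int_cont _ ((KK_cont m).mul ((cont_ev (f * f)).comp continuous_snd))
  calc ig μ (J m f * J m f) ≤ ∫ p, ∫ q, KK n m p q * ev q (f * f) ∂μ ∂μ := by
        refine integral_mono (int_cont μ (cont_ev _)) hint.integral_prod_left h1
    _ = ∫ q, ∫ p, KK n m p q * ev q (f * f) ∂μ ∂μ := integral_integral_swap hint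
    _ = ∫ q, ev q (f * f) ∂μ := by
        refine integral_congr_ae (Eventually.of_forall fun q => ?_)
        simp only
        rw [integral_mul_const]
        have h8 : ∫ p, KK n m p q ∂μ = ∫ p, KK n m q p ∂μ :=
          integral_congr_ae (Eventually.of_forall fun p => KK_symm m p q)
        rw [h8, KK_one μ hmom hn hr m q, one_mul]
    _ = ig μ (f * f) := rfl

theorem conv (hmom : S_MOM) (hn : 1 ≤ n) (hr : IsRound μ) {J : ℕ → SmA n →ₗ[ℝ] SmA n}
    (hJ : IsMol μ J) (f : SmA n) :
    Tendsto (fun m => ig μ ((J m f - f) * (J m f - f))) atTop (𝓝 0) := by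
  have hf := cont_ev f
  have hn' : (0 : ℝ) < n := by exact_mod_cast hn
  -- bound
  obtain ⟨B, hB⟩ : ∃ B : ℝ, ∀ p, |ev p f| ≤ B := by
    obtain ⟨B, hB⟩ := isCompact_univ.exists_bound_of_continuousOn (f := fun p => ev p f)
      hf.continuousOn
    exact ⟨B, fun p => hB p (Set.mem_univ p)⟩
  have huc : UniformContinuous fun p => ev p f := CompactSpace.uniformContinuous_of_continuous hf
  have key : ∀ ε : ℝ, 0 < ε → ∃ D : ℝ, 0 ≤ D ∧ ∀ m p, |ev p (J m f) - ev p f| ≤
      ε + D * (n / (m + n)) := by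
    intro ε hε
    obtain ⟨δ, hδ, hδ2⟩ := Metric.uniformContinuous_iff.1 huc ε hε
    have hB0 : 0 ≤ B := (abs_nonneg _).trans (hB (Classical.choice
      (μ.nonempty_of_neZero)))
    refine ⟨2 * B / δ ^ 2 * 4, by positivity, fun m p => ?_⟩
    have hpt : ∀ q, |ev q f - ev p f| ≤ ε + 2 * B / δ ^ 2 *
        (‖(p.1 : V n) - q.1‖ ^ 2 + ‖(p.2 : V n) - q.2‖ ^ 2) := by
      intro q
      by_cases hd : dist q p < δ
      · have h1 := (hδ2 hd).le
        rw [Real.dist_eq] at h1
        have h2 : 0 ≤ 2 * B / δ ^ 2 *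
          (‖(p.1 : V n) - q.1‖ ^ 2 + ‖(p.2 : V n) - q.2‖ ^ 2) := by positivity
        linarith
      · have h1 : δ ≤ dist q p := not_lt.1 hd
        have h3 : δ ^ 2 ≤ ‖(p.1 : V n) - q.1‖ ^ 2 + ‖(p.2 : V n) - q.2‖ ^ 2 := by
          have h4 : dist q p = max ‖(p.1 : V n) - q.1‖ ‖(p.2 : V n) - q.2‖ := by
            rw [dist_comm, Prod.dist_eq, Subtype.dist_eq, Subtype.dist_eq, dist_eq_norm,
              dist_eq_norm]
          rw [h4] at h1
          rcases le_max_iff.1 h1 with h | h
          · have := pow_le_pow_left₀ hδ.le h 2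
            nlinarith [sq_nonneg ‖(p.2 : V n) - q.2‖]
          · have := pow_le_pow_left₀ hδ.le h 2
            nlinarith [sq_nonneg ‖(p.1 : V n) - q.1‖]
        have h5 : |ev q f - ev p f| ≤ 2 * B :=
          (abs_sub _ _).trans (by linarith [hB q, hB p])
        have h6 : 2 * B ≤ 2 * B / δ ^ 2 *
            (‖(p.1 : V n) - q.1‖ ^ 2 + ‖(p.2 : V n) - q.2‖ ^ 2) := by
          rw [div_mul_eq_mul_div, le_div_iff₀ (by positivity)]
          exact mul_le_mul_of_nonneg_left h3 (by positivity)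
        linarith
    have c1 : Continuous fun q : MM n => ‖(p.1 : V n) - q.1‖ ^ 2 + ‖(p.2 : V n) - q.2‖ ^ 2 := by
      have a1 : Continuous fun q : MM n => (q.1 : V n) :=
        continuous_subtype_val.comp continuous_fst
      have a2 : Continuous fun q : MM n => (q.2 : V n) :=
        continuous_subtype_val.comp continuous_snd
      exact ((continuous_const.sub a1).norm.pow 2).add ((continuous_const.sub a2).norm.pow 2)
    have e1 : ev p (J m f) - ev p f = ∫ q, KK n m p q * (ev q f - ev p f) ∂μ := by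
      have i1 : Integrable (fun q => KK n m p q * ev q f) μ :=
        int_cont μ ((KK_cont' m p).mul hf)
      have i2 : Integrable (fun q => KK n m p q * ev p f) μ :=
        (int_cont μ (KK_cont' m p)).mul_const _
      have : ∀ q, KK n m p q * (ev q f - ev p f) = KK n m p q * ev q f - KK n m p q * ev p f :=
        fun q => by ring
      simp only [this]
      rw [integral_sub i1 i2, integral_mul_const, KK_one μ hmom hn hr, one_mul, J_eq μ hJ]
    rw [e1]
    have i4 : Integrable (fun q => ε * KK n m p q) μ := (int_cont μ (KK_cont' m p)).const_mul _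
    have i5 : Integrable (fun q => KK n m p q *
        (‖(p.1 : V n) - q.1‖ ^ 2 + ‖(p.2 : V n) - q.2‖ ^ 2)) μ :=
      int_cont μ ((KK_cont' m p).mul c1)
    have i6 : Integrable (fun q => 2 * B / δ ^ 2 * (KK n m p q *
        (‖(p.1 : V n) - q.1‖ ^ 2 + ‖(p.2 : V n) - q.2‖ ^ 2))) μ := i5.const_mul _
    have i3 : Integrable (fun q => ε * KK n m p q + 2 * B / δ ^ 2 * (KK n m p q *
        (‖(p.1 : V n) - q.1‖ ^ 2 + ‖(p.2 : V n) - q.2‖ ^ 2))) μ := i4.add i6
    calc |∫ q, KK n m p q * (ev q f - ev p f) ∂μ| ≤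
        ∫ q, |KK n m p q * (ev q f - ev p f)| ∂μ := abs_integral_le_integral_abs
      _ ≤ ∫ q, (ε * KK n m p q + 2 * B / δ ^ 2 * (KK n m p q *
            (‖(p.1 : V n) - q.1‖ ^ 2 + ‖(p.2 : V n) - q.2‖ ^ 2))) ∂μ := by
          refine integral_mono
            (int_cont μ ((KK_cont' m p).mul (hf.sub continuous_const)).abs) i3 fun q => ?_
          simp only
          rw [abs_mul, abs_of_nonneg (KK_nonneg m p q)]
          have := mul_le_mul_of_nonneg_left (hpt q) (KK_nonneg m p q)
          linarith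
      _ = ε + 2 * B / δ ^ 2 * 4 * (n / (m + n)) := by
          rw [integral_add i4 i6, integral_const_mul,
            integral_const_mul, KK_one μ hmom hn hr, KK_mom μ hmom hn hr]
          ring
  -- conclusion
  have hz : Tendsto (fun m : ℕ => (n : ℝ) / (m + n)) atTop (𝓝 0) := by
    have : Tendsto (fun m : ℕ => (m : ℝ) + n) atTop atTop :=
      tendsto_atTop_add_const_right _ _ tendsto_natCast_atTop_atTop
    exact tendsto_const_nhds.div_atTop this
  rw [Metric.tendsto_atTop]
  intro ε hε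
  obtain ⟨η, hη, hηε⟩ : ∃ η : ℝ, 0 < η ∧ (2 * η) ^ 2 < ε :=
    ⟨√ε / 4, by positivity, by
      have : (2 * (√ε / 4)) ^ 2 = ε / 4 := by
        rw [mul_pow, div_pow, Real.sq_sqrt hε.le]; ring
      rw [this]; linarith⟩
  obtain ⟨D, hD0, hD⟩ := key η hη
  have hz2 : Tendsto (fun m : ℕ => D * ((n : ℝ) / (m + n))) atTop (𝓝 0) := by
    simpa using hz.const_mul D
  obtain ⟨N, hN⟩ := (hz2.eventually (gt_mem_nhds hη)).exists_forall_of_atTop
  refine ⟨N, fun m hm => ?_⟩
  have h1 : ∀ p, |ev p (J m f) - ev p f| ≤ 2 * η := fun p => by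
    have := hD m p
    have := hN m hm
    linarith
  have h2 : ∀ p, ev p ((J m f - f) * (J m f - f)) ≤ (2 * η) ^ 2 := by
    intro p
    rw [map_mul, map_sub, ← sq, ← sq_abs]
    exact pow_le_pow_left₀ (abs_nonneg _) (h1 p) 2
  have h3 : 0 ≤ ig μ ((J m f - f) * (J m f - f)) := integral_nonneg fun p => by
    simp only [Pi.zero_apply]
    rw [map_mul]
    exact mul_self_nonneg _
  have h4 : ig μ ((J m f - f) * (J m f - f)) ≤ (2 * η) ^ 2 := by
    calc ig μ ((J m f - f) * (J m f - f)) ≤ ∫ _p : MM n, (2 * η) ^ 2 ∂μ :=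
          integral_mono (int_cont μ (cont_ev _)) (integrable_const _) h2
      _ = (2 * η) ^ 2 := by simp
  rw [Real.dist_eq, sub_zero, abs_of_nonneg h3]
  linarith

end mu

end Jbd

theorem s_jbd (hmom : S_MOM) : S_JBD := by
  intro n μ hn hr J hJ
  have := hr.prob
  exact ⟨fun m f => Jbd.bdd μ hmom hn hr hJ m f, fun f => Jbd.conv μ hmom hn hr hJ f⟩

end Pool.Agent.H781.NG
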