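import Pool.Agent.H781.NG.Jcm2

/-!
Commutators of the mollifier with first order operators: `S_JCM`.
-/

open Bundle Manifold ContDiff VectorField Metric MeasureTheory Filter
open scoped Topology RealInnerProductSpace

set_option autoImplicit false
set_option synthInstance.maxHeartbeats 400000
set_option maxHeartbeats 4000000

noncomputable section

namespace Pool.Agent.H781.NG.Jcm

open Pool.Agent.H821R2 Pool.Agent.H821R3 Pool.Agent.H893R5.HO Pool.Agent.H781.NG

variable {n : ℕ}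

theorem cm_succ (n m : ℕ) : cm n (m + 1) = cm n m * ((2 * m + n : ℝ) / (m + n)) := by
  unfold cm
  rw [Finset.prod_range_succ]

theorem cm_pos (hn : 1 ≤ n) (m : ℕ) : 0 < cm n m := by
  unfold cm
  refine Finset.prod_pos fun k _ => ?_
  have : (1 : ℝ) ≤ n := by exact_mod_cast hn
  positivity

/-- the weight `(1 - ⟨x, x'⟩) + (1 - ⟨y, y'⟩)` -/
def wt (p q : MM n) : ℝ := (1 - ⟪(p.1 : V n), (q.1 : V n)⟫) + (1 - ⟪(p.2 : V n), (q.2 : V n)⟫)

theorem cont_wt : Continuous (fun z : MM n × MM n => wt z.1 z.2) := by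
  unfold wt
  fun_prop

theorem wt_comm (p q : MM n) : wt p q = wt q p := by
  unfold wt
  rw [real_inner_comm (p.1 : V n), real_inner_comm (p.2 : V n)]

theorem one_sub_inner (x y : sphere (0 : V n) 1) :
    ‖(x : V n) - (y : V n)‖ ^ 2 = 2 * (1 - ⟪(x : V n), (y : V n)⟫) := by
  rw [norm_sub_sq_real, norm_eq_of_mem_sphere, norm_eq_of_mem_sphere]
  ring

theorem wt_eq (p q : MM n) : 2 * wt p q =
    ‖(p.1 : V n) - (q.1 : V n)‖ ^ 2 + ‖(p.2 : V n) - (q.2 : V n)‖ ^ 2 := by
  rw [one_sub_inner, one_sub_inner]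
  unfold wt
  ring

theorem wt_nonneg (p q : MM n) : 0 ≤ wt p q := by
  have := wt_eq p q
  nlinarith [sq_nonneg ‖(p.1 : V n) - (q.1 : V n)‖, sq_nonneg ‖(p.2 : V n) - (q.2 : V n)‖]

theorem moment (hmom : S_MOM) (hn : 1 ≤ n) {μ : Measure (MM n)} (hμ : IsRound μ) (i : Ix n) (r : ℕ)
    (p : MM n) : ∫ q, kd i (r + 1) p q * wt p q ∂μ =
      4 * (cm n r * cm n (r + 1)) - cm n (r + 1) * cm n (r + 1) - cm n r * cm n (r + 2) := by
  have := hμ.prob
  have ik : ∀ a b, Integrable (fun q => kk a b p q) μ := fun a b =>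
    int_cont ((cont_kk a b).comp (Continuous.prodMk_right p))
  rcases i with i | i
  · have h1 : ∀ q, kd (.inl i) (r + 1) p q * wt p q =
        4 * kk r (r + 1) p q - kk (r + 1) (r + 1) p q - kk r (r + 2) p q := by
      intro q
      simp only [kd, wt, kk, Nat.add_sub_cancel]
      ring
    simp_rw [h1]
    have e : ∫ q, (4 * kk r (r + 1) p q - kk (r + 1) (r + 1) p q - kk r (r + 2) p q) ∂μ =
        4 * (∫ q, kk r (r + 1) p q ∂μ) - (∫ q, kk (r + 1) (r + 1) p q ∂μ)
          - ∫ q, kk r (r + 2) p q ∂μ := by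
      rw [← integral_const_mul, ← integral_sub ((ik _ _).const_mul 4) (ik _ _)]
      exact integral_sub (((ik _ _).const_mul 4).sub (ik _ _)) (ik _ _)
    rw [e, hmom n μ hn hμ, hmom n μ hn hμ, hmom n μ hn hμ]
  · have h1 : ∀ q, kd (.inr i) (r + 1) p q * wt p q =
        4 * kk (r + 1) r p q - kk (r + 1) (r + 1) p q - kk (r + 2) r p q := by
      intro q
      simp only [kd, wt, kk, Nat.add_sub_cancel]
      ring
    simp_rw [h1]
    have e : ∫ q, (4 * kk (r + 1) r p q - kk (r + 1) (r + 1) p q - kk (r + 2) r p q) ∂μ =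
        4 * (∫ q, kk (r + 1) r p q ∂μ) - (∫ q, kk (r + 1) (r + 1) p q ∂μ)
          - ∫ q, kk (r + 2) r p q ∂μ := by
      rw [← integral_const_mul, ← integral_sub ((ik _ _).const_mul 4) (ik _ _)]
      exact integral_sub (((ik _ _).const_mul 4).sub (ik _ _)) (ik _ _)
    rw [e, hmom n μ hn hμ, hmom n μ hn hμ, hmom n μ hn hμ]
    ring

theorem moment_le (hmom : S_MOM) (hn : 1 ≤ n) {μ : Measure (MM n)} (hμ : IsRound μ) (i : Ix n)
    (m : ℕ) (hm : 1 ≤ m) (p : MM n) :
    ((cm n m) ^ 2)⁻¹ * (m * ∫ q, kd i m p q * wt p q ∂μ) ≤ 2 * n := by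
  obtain ⟨r, rfl⟩ : ∃ r, m = r + 1 := ⟨m - 1, by omega⟩
  rw [moment hmom hn hμ]
  have hx := cm_pos hn r
  have hn' : (1 : ℝ) ≤ n := by exact_mod_cast hn
  have hr : (0 : ℝ) ≤ r := Nat.cast_nonneg r
  have e2 : cm n (r + 2) = cm n (r + 1) * ((2 * (r + 1) + n : ℝ) / (r + 1 + n)) := by
    have := cm_succ n (r + 1)
    push_cast at this
    exact this
  rw [e2, cm_succ n r]
  set x := cm n r with hxd
  set u : ℝ := (2 * r + n : ℝ) / (r + n) with hu
  set w : ℝ := (2 * (r + 1) + n : ℝ) / (r + 1 + n) with hw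
  have hu0 : 0 < u := by positivity
  rw [inv_mul_le_iff₀ (by positivity)]
  have h1 : 4 * (x * (x * u)) - x * u * (x * u) - x * (x * u * w) = (x ^ 2 * u) * (4 - u - w) := by
    ring
  rw [h1]
  have h2 : ((r : ℝ) + 1) * (4 - u - w) ≤ 2 * n * u := by
    have h3 : 4 - u - w = n / (r + n) + n / (r + 1 + n) := by
      rw [hu, hw]
      field_simp
      ring
    have h4 : (n : ℝ) / (r + 1 + n) ≤ n / (r + n) := by
      apply div_le_div_of_nonneg_left <;> linarith
    have h5 : 2 * n * u = 2 * (2 * r + n) * (n / (r + n)) := by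
      rw [hu]
      ring
    rw [h3, h5]
    have h6 : (0 : ℝ) ≤ n / (r + n) := by positivity
    nlinarith
  push_cast
  have h7 : 0 ≤ x ^ 2 * u := by positivity
  calc ((r : ℝ) + 1) * (x ^ 2 * u * (4 - u - w)) = (x ^ 2 * u) * ((r + 1) * (4 - u - w)) := by ring
    _ ≤ (x ^ 2 * u) * (2 * n * u) := mul_le_mul_of_nonneg_left h2 h7
    _ = _ := by ring

theorem abs_coord_le (x : V n) (k : Fin (n + 1)) : |x k| ≤ ‖x‖ := by
  have := PiLp.norm_apply_le x k
  rwa [Real.norm_eq_abs] at this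

theorem wedge_le (x y : sphere (0 : V n) 1) (i j : Fin (n + 1)) :
    |(y : V n) i * (x : V n) j - (y : V n) j * (x : V n) i| ≤ 2 * ‖(x : V n) - (y : V n)‖ := by
  have h1 : (y : V n) i * (x : V n) j - (y : V n) j * (x : V n) i =
      (y : V n) i * (((x : V n) - (y : V n)) j) - (y : V n) j * (((x : V n) - (y : V n)) i) := by
    simp only [PiLp.sub_apply]
    ring
  have hy := norm_eq_of_mem_sphere y
  have a1 := abs_coord_le (y : V n) i
  have a2 := abs_coord_le (y : V n) j
  have b1 := abs_coord_le ((x : V n) - (y : V n)) i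
  have b2 := abs_coord_le ((x : V n) - (y : V n)) j
  rw [hy] at a1 a2
  rw [h1]
  refine (abs_sub _ _).trans ?_
  rw [abs_mul, abs_mul]
  have c1 := mul_le_mul a1 b2 (abs_nonneg _) zero_le_one
  have c2 := mul_le_mul a2 b1 (abs_nonneg _) zero_le_one
  linarith

theorem point_le (i j : Ix n) (h : blk i j = 1) (p q : MM n) :
    (‖(p.1 : V n) - (q.1 : V n)‖ + ‖(p.2 : V n) - (q.2 : V n)‖) *
      |cx i q * cx j p - cx j q * cx i p| ≤ 6 * wt p q := by
  have hw := wt_eq p q
  set a := ‖(p.1 : V n) - (q.1 : V n)‖ with ha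
  set b := ‖(p.2 : V n) - (q.2 : V n)‖ with hb
  have ha0 : 0 ≤ a := norm_nonneg _
  have hb0 : 0 ≤ b := norm_nonneg _
  rcases i with i | i <;> rcases j with j | j
  · have h1 : |cx (.inl i) q * cx (.inl j) p - cx (.inl j) q * cx (.inl i) p| ≤ 2 * a :=
      wedge_le p.1 q.1 i j
    have h2 := mul_le_mul_of_nonneg_left h1 (add_nonneg ha0 hb0)
    nlinarith [sq_nonneg (a - b)]
  · simp [blk] at h
  · simp [blk] at h
  · have h1 : |cx (.inr i) q * cx (.inr j) p - cx (.inr j) q * cx (.inr i) p| ≤ 2 * b :=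
      wedge_le p.2 q.2 i j
    have h2 := mul_le_mul_of_nonneg_left h1 (add_nonneg ha0 hb0)
    nlinarith [sq_nonneg (a - b)]

theorem ig_nonneg_sq (μ : Measure (MM n)) (f : SmA n) : 0 ≤ ig μ (f * f) := by
  unfold ig
  refine integral_nonneg fun p => ?_
  simp only [map_mul]
  exact mul_self_nonneg _

theorem ig_mono {μ : Measure (MM n)} [IsProbabilityMeasure μ] {f g : SmA n}
    (h : ∀ p, ev p f ≤ ev p g) : ig μ f ≤ ig μ g :=
  integral_mono (int_ev f) (int_ev g) h

theorem bdd (f : SmA n) : ∃ C : ℝ, 0 ≤ C ∧ ∀ p, (ev p f) ^ 2 ≤ C := by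
  obtain ⟨C, hC⟩ := (isCompact_range ((cont_ev f).pow 2)).bddAbove
  exact ⟨max C 0, le_max_right _ _, fun p => (hC ⟨p, rfl⟩).trans (le_max_left _ _)⟩

/-- bound of the remainder -/
theorem rem_le (hmom : S_MOM) (hn : 1 ≤ n) {μ : Measure (MM n)} (hμ : IsRound μ)
    {J : ℕ → SmA n →ₗ[ℝ] SmA n} (hJ : IsMol μ J) (i j : Ix n) (h : blk i j = 1) (b : SmA n) :
    ∃ A : ℝ, ∀ m, 1 ≤ m → ∀ f, ∀ R : SmA n,
      R = J m (Lr i j b * f) - (b * J m (Lr i j f) - J m (b * Lr i j f)) →
      ig μ (R * R) ≤ A ^ 2 * ig μ (f * f) := by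
  have := hμ.prob
  obtain ⟨C, hC0, hC⟩ := lip b
  refine ⟨6 * C * (2 * n), fun m hm f R hR => ?_⟩
  have hc : 0 < ((cm n m) ^ 2)⁻¹ := by
    have := cm_pos hn m
    positivity
  refine schur (fun p q => (((cm n m) ^ 2)⁻¹ * (6 * C * m)) * (kd i m p q * wt p q)) ?_ ?_ ?_ _ ?_
    f R ?_
  · exact continuous_const.mul ((cont_kd i m).mul cont_wt)
  · intro p q
    have := kd_nonneg i m p q
    have := wt_nonneg p q
    positivity
  · intro p q
    rw [kd_comm, wt_comm]
  · intro p
    rw [integral_const_mul]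
    have h1 := mul_le_mul_of_nonneg_left (moment_le hmom hn hμ i m hm p)
      (mul_nonneg (by norm_num : (0 : ℝ) ≤ 6) hC0)
    refine le_trans (le_of_eq ?_) h1
    ring
  · intro p
    rw [hR, comm_eq hμ hJ, abs_mul, abs_of_pos hc]
    refine le_trans (mul_le_mul_of_nonneg_left (abs_integral_le_integral_abs) hc.le) ?_
    rw [← integral_const_mul]
    refine integral_mono ?_ ?_ fun q => ?_
    · refine int_cont ?_
      exact continuous_const.mul ((((continuous_const.sub (cont_ev _)).mul (cont_ev _)).mul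
        (cont_ev _)).abs)
    · refine int_cont ?_
      exact (continuous_const.mul (((cont_kd i m).comp (Continuous.prodMk_right p)).mul
        (cont_wt.comp (Continuous.prodMk_right p)))).mul (cont_ev f).abs
    · simp only
      rw [abs_mul, abs_mul, ev_Lr_KA i j h, abs_mul, abs_mul, abs_of_nonneg (kd_nonneg i m p q),
        abs_of_nonneg (Nat.cast_nonneg m : (0 : ℝ) ≤ m)]
      have h1 := hC p q
      have h2 := point_le i j h p q
      have h3 := mul_le_mul_of_nonneg_right h1 (abs_nonneg (cx i q * cx j p - cx j q * cx i p))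
      have h4 := mul_le_mul_of_nonneg_left h2 hC0
      have h5 : |ev p b - ev q b| * |cx i q * cx j p - cx j q * cx i p| ≤ C * (6 * wt p q) :=
        h3.trans (by rw [mul_assoc]; exact h4)
      have h6 : 0 ≤ ((cm n m) ^ 2)⁻¹ * (m * kd i m p q * |ev q f|) := by
        have := kd_nonneg i m p q
        positivity
      have h7 := mul_le_mul_of_nonneg_left h5 h6
      refine le_trans (le_of_eq ?_) (h7.trans (le_of_eq ?_)) <;> ring

/-- bound of the elementary commutators -/
theorem comm_le (hmom : S_MOM) (hjbd : S_JBD) (hn : 1 ≤ n) {μ : Measure (MM n)} (hμ : IsRound μ)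
    {J : ℕ → SmA n →ₗ[ℝ] SmA n} (hJ : IsMol μ J) (i j : Ix n) (h : blk i j = 1) (b : SmA n) :
    ∃ A : ℝ, ∀ m, 1 ≤ m → ∀ f,
      ig μ ((b * J m (Lr i j f) - J m (b * Lr i j f)) ^ 2) ≤ A * ig μ (f * f) := by
  have := hμ.prob
  obtain ⟨A, hA⟩ := rem_le hmom hn hμ hJ i j h b
  obtain ⟨B, hB0, hB⟩ := bdd (Lr i j b)
  refine ⟨2 * B + 2 * A ^ 2, fun m hm f => ?_⟩
  set u := b * J m (Lr i j f) - J m (b * Lr i j f) with hu
  set G := J m (Lr i j b * f) with hG
  have h1 := hA m hm f (G - u) rfl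
  have h2 : ig μ (G * G) ≤ B * ig μ (f * f) := by
    refine ((hjbd n μ hn hμ J hJ).1 m _).trans ?_
    rw [← ig_cs]
    refine ig_mono fun p => ?_
    simp only [map_mul, ev_cs]
    have h3 := mul_le_mul_of_nonneg_right (hB p) (mul_self_nonneg (ev p f))
    refine le_trans (le_of_eq ?_) h3
    ring
  have h3 : ig μ (u ^ 2) ≤ ig μ (cs 2 * (G * G) + cs 2 * ((G - u) * (G - u))) := by
    refine ig_mono fun p => ?_
    simp only [map_mul, map_pow, map_add, map_sub, ev_cs]
    nlinarith [sq_nonneg (2 * ev p G - ev p u)]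
  rw [ig_add, ig_cs, ig_cs] at h3
  linarith

/-- convergence of the elementary commutators -/
theorem comm_tendsto (hjbd : S_JBD) (hn : 1 ≤ n) {μ : Measure (MM n)} (hμ : IsRound μ)
    {J : ℕ → SmA n →ₗ[ℝ] SmA n} (hJ : IsMol μ J) (b g : SmA n) :
    Tendsto (fun m => ig μ ((b * J m g - J m (b * g)) ^ 2)) atTop (𝓝 0) := by
  have := hμ.prob
  obtain ⟨B, hB0, hB⟩ := bdd b
  have t1 := (hjbd n μ hn hμ J hJ).2 g
  have t2 := (hjbd n μ hn hμ J hJ).2 (b * g)
  have t3 : Tendsto (fun m => 2 * B * ig μ ((J m g - g) * (J m g - g)) +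
      2 * ig μ ((J m (b * g) - b * g) * (J m (b * g) - b * g))) atTop (𝓝 0) := by
    have := (t1.const_mul (2 * B)).add (t2.const_mul 2)
    simpa using this
  refine squeeze_zero (fun m => ?_) (fun m => ?_) t3
  · rw [sq]
    exact ig_nonneg_sq μ _
  · rw [← ig_cs, ← ig_cs, ← ig_add]
    refine ig_mono fun p => ?_
    simp only [map_mul, map_pow, map_add, map_sub, ev_cs]
    have h1 := mul_le_mul_of_nonneg_right (hB p) (sq_nonneg (ev p (J m g) - ev p g))
    nlinarith [sq_nonneg (ev p b * (ev p (J m g) - ev p g) +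
      (ev p (J m (b * g)) - ev p b * ev p g))]

/-- decomposition of the commutators -/
theorem comm_sum {μ : Measure (MM n)} (hμ : IsRound μ) {J : ℕ → SmA n →ₗ[ℝ] SmA n}
    (hJ : IsMol μ J) (i : Ix n) (a f : SmA n) (m : ℕ) :
    a * ED i (J m f) - J m (a * ED i f) =
      ∑ j, cs (blk i j) * ((a * cxA j) * J m (Lr j i f) - J m ((a * cxA j) * Lr j i f)) := by
  have hcs : ∀ (c : ℝ) (g : SmA n), J m (cs c * g) = cs c * J m g := by
    intro c g
    unfold cs
    rw [← Algebra.smul_def, ← Algebra.smul_def, map_smul]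
  have h1 : a * ED i (J m f) = ∑ j, cs (blk i j) * ((a * cxA j) * J m (Lr j i f)) := by
    rw [ED_eq, Finset.mul_sum]
    refine Finset.sum_congr rfl fun j _ => ?_
    by_cases hb : blk i j = 1
    · rw [Lr_J hμ hJ j i ((blk_comm j i).trans hb)]
      ring
    · have : blk i j = 0 := by
        rcases i with i | i <;> rcases j with j | j <;> simp [blk] at *
      rw [this]
      unfold cs
      simp
  have h2 : J m (a * ED i f) = ∑ j, cs (blk i j) * J m ((a * cxA j) * Lr j i f) := by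
    rw [ED_eq i f, Finset.mul_sum, map_sum]
    refine Finset.sum_congr rfl fun j _ => ?_
    rw [← hcs]
    congr 1
    ring
  rw [h1, h2, ← Finset.sum_sub_distrib]
  refine Finset.sum_congr rfl fun j _ => ?_
  ring

theorem sum_sq_le {μ : Measure (MM n)} [IsProbabilityMeasure μ] (i : Ix n) (u : Ix n → SmA n) :
    ig μ ((∑ j, cs (blk i j) * u j) ^ 2) ≤
      (Fintype.card (Ix n) : ℝ) * ∑ j, blk i j * ig μ (u j ^ 2) := by
  have h1 : ig μ ((∑ j, cs (blk i j) * u j) ^ 2) ≤
      ig μ (cs (Fintype.card (Ix n) : ℝ) * ∑ j, cs (blk i j) * u j ^ 2) := by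
    refine ig_mono fun p => ?_
    simp only [map_mul, map_pow, map_sum, ev_cs]
    have h2 := sq_sum_le_card_mul_sum_sq (s := (Finset.univ : Finset (Ix n)))
      (f := fun j => blk i j * ev p (u j))
    rw [Finset.card_univ] at h2
    refine h2.trans (le_of_eq ?_)
    congr 1
    refine Finset.sum_congr rfl fun j _ => ?_
    have := blk_sq i j
    linear_combination (ev p (u j)) ^ 2 * this
  refine h1.trans (le_of_eq ?_)
  rw [ig_cs]
  congr 1
  unfold ig
  simp only [map_sum, map_mul, ev_cs]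
  rw [integral_finsetSum _ fun j _ => (int_ev (u j ^ 2)).const_mul _]
  refine Finset.sum_congr rfl fun j _ => ?_
  rw [integral_const_mul]

end Pool.Agent.H781.NG.Jcm

namespace Pool.Agent.H781.NG

open Jcm in
/-- commutators with first order operators -/
theorem s_jcm (hmom : S_MOM) (hjbd : S_JBD) : S_JCM := by
  intro n μ hn hμ J hJ
  have := hμ.prob
  refine ⟨fun a i => ?_, fun a i f => ?_⟩
  · have h1 : ∀ j : Ix n, ∃ A : ℝ, ∀ m, 1 ≤ m → ∀ f,
        blk i j * ig μ (((a * cxA j) * J m (Lr j i f) - J m ((a * cxA j) * Lr j i f)) ^ 2) ≤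
          A * ig μ (f * f) := by
      intro j
      by_cases hb : blk i j = 1
      · obtain ⟨A, hA⟩ := comm_le hmom hjbd hn hμ hJ j i ((blk_comm j i).trans hb) (a * cxA j)
        refine ⟨A, fun m hm f => ?_⟩
        rw [hb, one_mul]
        exact hA m hm f
      · have : blk i j = 0 := by
          rcases i with i | i <;> rcases j with j | j <;> simp [blk] at *
        refine ⟨0, fun m hm f => ?_⟩
        rw [this]
        simp
    choose A hA using h1
    refine ⟨(Fintype.card (Ix n) : ℝ) * ∑ j, A j, fun m hm f => ?_⟩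
    rw [comm_sum hμ hJ]
    refine (sum_sq_le i _).trans ?_
    rw [mul_assoc]
    refine mul_le_mul_of_nonneg_left ?_ (Nat.cast_nonneg _)
    rw [Finset.sum_mul]
    exact Finset.sum_le_sum fun j _ => hA j m hm f
  · have h1 : Tendsto (fun m => (Fintype.card (Ix n) : ℝ) * ∑ j, blk i j *
        ig μ (((a * cxA j) * J m (Lr j i f) - J m ((a * cxA j) * Lr j i f)) ^ 2)) atTop (𝓝 0) := by
      have h2 := (tendsto_finsetSum (Finset.univ : Finset (Ix n)) fun j _ =>
        (comm_tendsto hjbd hn hμ hJ (a * cxA j) (Lr j i f)).const_mul (blk i j)).const_mul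
          (Fintype.card (Ix n) : ℝ)
      simpa using h2
    refine squeeze_zero (fun m => ?_) (fun m => ?_) h1
    · rw [sq]
      exact ig_nonneg_sq μ _
    · rw [comm_sum hμ hJ]
      exact sum_sq_le i _

end Pool.Agent.H781.NG
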