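import Pool.Agent.H781.NG.Spec

/-!
Existence of the round measure on `Sⁿ × Sⁿ` with the divergence theorem.
-/

open Bundle Manifold ContDiff VectorField Metric MeasureTheory Filter
open scoped Topology RealInnerProductSpace

set_option autoImplicit false
set_option synthInstance.maxHeartbeats 400000
set_option maxHeartbeats 4000000

noncomputable section

namespace Pool.Agent.H781.NG

open Pool.Agent.H821R2 Pool.Agent.H821R3 Pool.Agent.H893R5.HO Pool.Agent.H781.S22

namespace Meas

variable {n : ℕ}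

open Classical in
/-- radial projection, with a junk value at `0` -/
def nz (x : V n) : sphere (0 : V n) 1 :=
  ⟨if x = 0 then EuclideanSpace.single 0 1 else ‖x‖⁻¹ • x, by
    rw [mem_sphere_zero_iff_norm]
    split_ifs with h
    · simp
    · rw [norm_smul, norm_inv, norm_norm, inv_mul_cancel₀ (norm_ne_zero_iff.mpr h)]⟩

theorem nz_coe {x : V n} (h : x ≠ 0) : (nz x : V n) = ‖x‖⁻¹ • x := by
  unfold nz
  simp [h]

/-- radial projection of both factors -/
def nrm (z : V n × V n) : MM n := (nz z.1, nz z.2)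

/-- the open set where the radial projection is smooth -/
def U (n : ℕ) : Set (V n × V n) := {z | z.1 ≠ 0 ∧ z.2 ≠ 0}

theorem isOpen_U : IsOpen (U n) :=
  (isOpen_ne_fun continuous_fst continuous_const).inter
    (isOpen_ne_fun continuous_snd continuous_const)

theorem nz_measurable : Measurable (nz (n := n)) := by
  classical
  apply Measurable.subtype_mk
  exact Measurable.ite (measurableSet_singleton 0) measurable_const
    (measurable_norm.inv.smul measurable_id)

theorem nrm_measurable : Measurable (nrm (n := n)) :=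
  (nz_measurable.comp measurable_fst).prodMk (nz_measurable.comp measurable_snd)

theorem nz_smooth {x : V n} (h : x ≠ 0) : ContMDiffAt 𝓘(ℝ, V n) (𝓡 n) ∞ (nz (n := n)) x := by
  let O : TopologicalSpace.Opens (V n) := ⟨{x | x ≠ 0}, isOpen_ne⟩
  have h1 : ContMDiff 𝓘(ℝ, V n) 𝓘(ℝ, V n) ∞ (fun y : O => ‖(y : V n)‖⁻¹ • (y : V n)) := by
    intro y
    have : ContMDiffAt 𝓘(ℝ, V n) 𝓘(ℝ, V n) ∞ (fun y : V n => ‖y‖⁻¹ • y) (y : V n) := by
      apply ContDiffAt.contMDiffAt
      exact ((contDiffAt_norm ℝ y.2).inv (norm_ne_zero_iff.2 y.2)).smul contDiffAt_id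
    exact contMDiffAt_subtype_iff.2 this
  have h2 : ∀ y : O, ‖(y : V n)‖⁻¹ • (y : V n) ∈ sphere (0 : V n) 1 := by
    intro y
    rw [mem_sphere_zero_iff_norm, norm_smul, norm_inv, norm_norm,
      inv_mul_cancel₀ (norm_ne_zero_iff.mpr y.2)]
  have h3 := ContMDiff.codRestrict_sphere (n := n) h1 h2
  have h4 : (fun y : O => nz (y : V n)) = Set.codRestrict _ _ h2 := by
    funext y
    exact Subtype.ext (nz_coe y.2)
  have h5 : ContMDiffAt 𝓘(ℝ, V n) (𝓡 n) ∞ (fun y : O => nz (y : V n)) (⟨x, h⟩ : O) := by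
    rw [h4]
    exact h3 _
  exact contMDiffAt_subtype_iff.1 h5

theorem nrm_smooth {z : V n × V n} (h : z ∈ U n) :
    ContMDiffAt 𝓘(ℝ, V n × V n) (IM n) ∞ (nrm (n := n)) z := by
  have h1 : ContMDiffAt 𝓘(ℝ, V n × V n) (𝓡 n) ∞ (fun z : V n × V n => nz z.1) z :=
    ContMDiffAt.comp z (nz_smooth h.1) contDiff_fst.contMDiff.contMDiffAt
  have h2 : ContMDiffAt 𝓘(ℝ, V n × V n) (𝓡 n) ∞ (fun z : V n × V n => nz z.2) z :=
    ContMDiffAt.comp z (nz_smooth h.2) contDiff_snd.contMDiff.contMDiffAt
  exact h1.prodMk h2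

theorem nz_hasFDerivAt {x : V n} (h : x ≠ 0) : ∃ L : V n →L[ℝ] V n,
    HasFDerivAt (fun x => (nz x : V n)) L x ∧ ∀ v, ⟪x, v⟫ = 0 → L v = ‖x‖⁻¹ • v := by
  have hn : ‖x‖ ≠ 0 := norm_ne_zero_iff.2 h
  have hd : DifferentiableAt ℝ (fun y : V n => ‖y‖) x :=
    (contDiffAt_norm (n := 1) ℝ h).differentiableAt (by simp)
  have h1 : HasFDerivAt (fun y : V n => ‖y‖) (fderiv ℝ (fun y : V n => ‖y‖) x) x :=
    hd.hasFDerivAt
  have h2 := ((hasDerivAt_inv hn).comp_hasFDerivAt x h1).smul (hasFDerivAt_id x)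
  refine ⟨_, h2.congr_of_eventuallyEq ?_, ?_⟩
  · filter_upwards [isOpen_ne.mem_nhds h] with y hy
    exact nz_coe hy
  · intro v hv
    have h3 : fderiv ℝ (fun y : V n => ‖y‖) x v = 0 := by
      have h4 : HasFDerivAt (fun y : V n => ‖y‖ ^ 2) _ x := (hasStrictFDerivAt_norm_sq x).hasFDerivAt
      have h5 := h4.unique (h1.pow 2)
      have h6 := congrArg (fun T => T v) h5
      simp only [hv, smul_apply, innerSL_apply_apply] at h6
      simp at h6
      rcases h6 with h6 | h6
      · exact absurd h6 h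
      · exact h6
    simp [h3]

/-- directions tangent to the products of spheres -/
def Tan (z v : V n × V n) : Prop := ⟪z.1, v.1⟫ = 0 ∧ ⟪z.2, v.2⟫ = 0

theorem sj_hasFDerivAt {z : V n × V n} (h : z ∈ U n) : ∃ L : V n × V n →L[ℝ] V n × V n,
    HasFDerivAt (fun z => sj (V n) (V n) (nrm z)) L z ∧
      ∀ v, Tan z v → L v = (‖z.1‖⁻¹ • v.1, ‖z.2‖⁻¹ • v.2) := by
  obtain ⟨L1, h1, h1'⟩ := nz_hasFDerivAt h.1
  obtain ⟨L2, h2, h2'⟩ := nz_hasFDerivAt h.2
  refine ⟨_, (h1.comp z hasFDerivAt_fst).prodMk (h2.comp z hasFDerivAt_snd), ?_⟩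
  intro v hv
  refine Prod.ext ?_ ?_
  · exact h1' v.1 hv.1
  · exact h2' v.2 hv.2

/-- norm of the block of `z` containing the index -/
def rn : Ix n → V n × V n → ℝ
  | .inl _ => fun z => ‖z.1‖
  | .inr _ => fun z => ‖z.2‖

theorem rn_pos (i : Ix n) {z : V n × V n} (h : z ∈ U n) : 0 < rn i z := by
  rcases i with i | i
  · exact norm_pos_iff.2 h.1
  · exact norm_pos_iff.2 h.2

/-- the vector field `|x|² e_i - x_i x` -/
def Y : Ix n → V n × V n → V n × V n
  | .inl j => fun z => (‖z.1‖ ^ 2 • EuclideanSpace.single j 1 - z.1 j • z.1, 0)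
  | .inr j => fun z => (0, ‖z.2‖ ^ 2 • EuclideanSpace.single j 1 - z.2 j • z.2)

theorem tan_Y (i : Ix n) (z : V n × V n) : Tan z (Y i z) := by
  rcases i with i | i
  · constructor
    · change ⟪z.1, ‖z.1‖ ^ 2 • EuclideanSpace.single i 1 - z.1 i • z.1⟫ = 0
      rw [inner_sub_right, real_inner_smul_right, real_inner_smul_right,
        EuclideanSpace.inner_single_right, real_inner_self_eq_norm_sq]
      simp
      ring
    · exact inner_zero_right _
  · constructor
    · exact inner_zero_right _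
    · change ⟪z.2, ‖z.2‖ ^ 2 • EuclideanSpace.single i 1 - z.2 i • z.2⟫ = 0
      rw [inner_sub_right, real_inner_smul_right, real_inner_smul_right,
        EuclideanSpace.inner_single_right, real_inner_self_eq_norm_sq]
      simp
      ring

theorem key1 (i : Ix n) {z : V n × V n} (h : z ∈ U n) :
    mfderiv 𝓘(ℝ, V n × V n) (IM n) nrm z (Y i z) = rn i z • EE i (nrm z) := by
  apply (emb n).d_inj (nrm z)
  rw [map_smul, d_EE]
  obtain ⟨L, hL, hL'⟩ := sj_hasFDerivAt h
  have h1 : (emb n).d (nrm z) (mfderiv 𝓘(ℝ, V n × V n) (IM n) nrm z (Y i z)) = L (Y i z) := by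
    have h2 := mfderiv_comp_apply (I := 𝓘(ℝ, V n × V n)) (I' := IM n)
      (I'' := 𝓘(ℝ, V n × V n)) z (g := sj (V n) (V n)) (f := nrm (n := n))
      ((smooth_sj (V₁ := V n) (V₂ := V n) n n).mdifferentiableAt (by simp))
      ((nrm_smooth h).mdifferentiableAt (by simp)) (Y i z)
    have h3 : mfderiv 𝓘(ℝ, V n × V n) 𝓘(ℝ, V n × V n) (sj (V n) (V n) ∘ nrm) z = L := by
      rw [mfderiv_eq_fderiv]
      exact hL.fderiv
    rw [h3] at h2
    exact h2.symm
  rw [h1, hL' _ (tan_Y i z)]
  have h4 : (emb n).P ((emb n).j (nrm z)) (bas i) =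
      bas i - sN (sj (V n) (V n) (nrm z)) (bas i) := rfl
  have hz1 : ‖z.1‖ ≠ 0 := norm_ne_zero_iff.2 h.1
  have hz2 : ‖z.2‖ ≠ 0 := norm_ne_zero_iff.2 h.2
  rw [h4, sN_apply]
  rcases i with i | i
  · refine Prod.ext ?_ ?_
    · change ‖z.1‖⁻¹ • (‖z.1‖ ^ 2 • EuclideanSpace.single i 1 - z.1 i • z.1) =
        ‖z.1‖ • (EuclideanSpace.single i 1 -
          ⟪(nz z.1 : V n), EuclideanSpace.single i 1⟫ • (nz z.1 : V n))
      rw [nz_coe h.1, EuclideanSpace.inner_single_right]
      simp only [smul_sub, smul_smul]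
      congr 1
      · congr 1
        field_simp
      · congr 1
        simp
        field_simp
    · change ‖z.2‖⁻¹ • (0 : V n) = ‖z.1‖ • ((0 : V n) - ⟪(nz z.2 : V n), (0 : V n)⟫ • (nz z.2 : V n))
      simp
  · refine Prod.ext ?_ ?_
    · change ‖z.1‖⁻¹ • (0 : V n) = ‖z.2‖ • ((0 : V n) - ⟪(nz z.1 : V n), (0 : V n)⟫ • (nz z.1 : V n))
      simp
    · change ‖z.2‖⁻¹ • (‖z.2‖ ^ 2 • EuclideanSpace.single i 1 - z.2 i • z.2) =
        ‖z.2‖ • (EuclideanSpace.single i 1 -
          ⟪(nz z.2 : V n), EuclideanSpace.single i 1⟫ • (nz z.2 : V n))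
      rw [nz_coe h.2, EuclideanSpace.inner_single_right]
      simp only [smul_sub, smul_smul]
      congr 1
      · congr 1
        field_simp
      · congr 1
        simp
        field_simp

theorem F_smooth (f : SmA n) {z : V n × V n} (h : z ∈ U n) :
    ContDiffAt ℝ ∞ (fun z => f.1 (nrm z)) z :=
  contMDiffAt_iff_contDiffAt.1 (ContMDiffAt.comp z (f.2 (nrm z)) (nrm_smooth h))

theorem key2 (i : Ix n) (f : SmA n) {z : V n × V n} (h : z ∈ U n) :
    fderiv ℝ (fun z => f.1 (nrm z)) z (Y i z) = rn i z * ev (nrm z) (ED i f) := by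
  have h2 := mfderiv_comp_apply (I := 𝓘(ℝ, V n × V n)) (I' := IM n)
      (I'' := 𝓘(ℝ, ℝ)) z (g := f.1) (f := nrm (n := n))
      ((f.2 (nrm z)).mdifferentiableAt (by simp))
      ((nrm_smooth h).mdifferentiableAt (by simp)) (Y i z)
  rw [mfderiv_eq_fderiv, key1 i h] at h2
  refine h2.trans ?_
  exact (mvfderiv (IM n) f.1 (nrm z)).map_smul (rn i z) (EE i (nrm z))

/-- the bump function -/
def bmp : ContDiffBump (2 : ℝ) := ⟨1 / 4, 1 / 2, by norm_num, by norm_num⟩

/-- the weight -/
def W (z : V n × V n) : ℝ := bmp (‖z.1‖ ^ 2) * bmp (‖z.2‖ ^ 2)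

theorem W_smooth : ContDiff ℝ ∞ (W (n := n)) :=
  (bmp.contDiff.comp (contDiff_fst.norm_sq ℝ)).mul (bmp.contDiff.comp (contDiff_snd.norm_sq ℝ))

theorem W_nonneg (z : V n × V n) : 0 ≤ W z := mul_nonneg bmp.nonneg bmp.nonneg

theorem bmp_zero {t : ℝ} (h : t ≤ 1) : bmp t = 0 := by
  apply bmp.zero_of_le_dist
  rw [Real.dist_eq, abs_sub_comm, abs_of_nonneg (by linarith)]
  change 1 / 2 ≤ 2 - t
  linarith

theorem bmp_zero' {t : ℝ} (h : 3 ≤ t) : bmp t = 0 := by
  apply bmp.zero_of_le_dist
  rw [Real.dist_eq, abs_of_nonneg (by linarith)]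
  change 1 / 2 ≤ t - 2
  linarith

theorem W_eventually {z : V n × V n} (h : z ∉ U n) : ∀ᶠ y in 𝓝 z, W y = 0 := by
  have h0 : ‖z.1‖ = 0 ∨ ‖z.2‖ = 0 := by
    by_contra hc
    push Not at hc
    exact h ⟨norm_ne_zero_iff.1 hc.1, norm_ne_zero_iff.1 hc.2⟩
  rcases h0 with h0 | h0
  · have hc : Continuous fun y : V n × V n => ‖y.1‖ ^ 2 := by fun_prop
    have := (hc.tendsto z).eventually (gt_mem_nhds (show ‖z.1‖ ^ 2 < 1 by rw [h0]; norm_num))
    filter_upwards [this] with y hy
    unfold W
    rw [bmp_zero hy.le, zero_mul]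
  · have hc : Continuous fun y : V n × V n => ‖y.2‖ ^ 2 := by fun_prop
    have := (hc.tendsto z).eventually (gt_mem_nhds (show ‖z.2‖ ^ 2 < 1 by rw [h0]; norm_num))
    filter_upwards [this] with y hy
    unfold W
    rw [bmp_zero (t := ‖y.2‖ ^ 2) hy.le, mul_zero]

theorem W_supp {z : V n × V n} (h : W z ≠ 0) : z ∈ Metric.closedBall (0 : V n × V n) 2 := by
  rw [mem_closedBall_zero_iff]
  by_contra hc
  push Not at hc
  apply h
  rw [Prod.norm_def] at hc
  rcases lt_max_iff.1 hc with hc | hc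
  · unfold W
    rw [bmp_zero' (by nlinarith), zero_mul]
  · unfold W
    rw [bmp_zero' (t := ‖z.2‖ ^ 2) (by nlinarith), mul_zero]

/-- radial weights -/
def Wi (i : Ix n) (z : V n × V n) : ℝ := W z * (rn i z)⁻¹

theorem rn_diff (i : Ix n) {z : V n × V n} (h : z ∈ U n) : ContDiffAt ℝ ∞ (rn i) z := by
  rcases i with i | i
  · exact (contDiffAt_norm ℝ h.1).comp z contDiffAt_fst
  · exact (contDiffAt_norm ℝ h.2).comp z contDiffAt_snd

theorem Wi_diff (i : Ix n) {z : V n × V n} (h : z ∈ U n) : ContDiffAt ℝ ∞ (Wi i) z :=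
  W_smooth.contDiffAt.mul ((rn_diff i h).inv (rn_pos i h).ne')

theorem fderiv_norm_fst {z v : V n × V n} (hv : Tan z v) :
    fderiv ℝ (fun z : V n × V n => ‖z.1‖ ^ 2) z v = 0 := by
  have h1 := (hasStrictFDerivAt_norm_sq z.1).hasFDerivAt.comp z
    (hasFDerivAt_fst (𝕜 := ℝ) (E := V n) (F := V n) (p := z))
  have h2 := h1.fderiv
  have h3 := congrArg (fun T => T v) h2
  refine h3.trans ?_
  simp [hv.1]

theorem fderiv_norm_snd {z v : V n × V n} (hv : Tan z v) :
    fderiv ℝ (fun z : V n × V n => ‖z.2‖ ^ 2) z v = 0 := by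
  have h1 := (hasStrictFDerivAt_norm_sq z.2).hasFDerivAt.comp z
    (hasFDerivAt_snd (𝕜 := ℝ) (E := V n) (F := V n) (p := z))
  have h2 := h1.fderiv
  have h3 := congrArg (fun T => T v) h2
  refine h3.trans ?_
  simp [hv.2]

theorem fderiv_W {z v : V n × V n} (hv : Tan z v) : fderiv ℝ W z v = 0 := by
  have a1 : DifferentiableAt ℝ (fun z : V n × V n => ‖z.1‖ ^ 2) z :=
    ((contDiff_fst.norm_sq ℝ).contDiffAt (n := 1)).differentiableAt (by simp)
  have a2 : DifferentiableAt ℝ (fun z : V n × V n => ‖z.2‖ ^ 2) z :=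
    ((contDiff_snd.norm_sq ℝ).contDiffAt (n := 1)).differentiableAt (by simp)
  have b : ∀ t : ℝ, DifferentiableAt ℝ bmp t := fun t =>
    (bmp.contDiffAt (n := 1)).differentiableAt (by simp)
  have c1 := (b (‖z.1‖ ^ 2)).hasDerivAt.comp_hasFDerivAt z a1.hasFDerivAt
  have c2 := (b (‖z.2‖ ^ 2)).hasDerivAt.comp_hasFDerivAt z a2.hasFDerivAt
  have c3 := (c1.mul c2).fderiv
  have c4 := congrArg (fun T => T v) c3
  refine c4.trans ?_
  simp [fderiv_norm_fst hv, fderiv_norm_snd hv]

theorem fderiv_rn (i : Ix n) {z v : V n × V n} (h : z ∈ U n) (hv : Tan z v) :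
    fderiv ℝ (rn i) z v = 0 := by
  have h1 : DifferentiableAt ℝ (rn i) z := (rn_diff i h).differentiableAt (by simp)
  have h2 := (h1.hasFDerivAt.pow 2).fderiv
  have h3 := congrArg (fun T => T v) h2
  have hp := (rn_pos i h).ne'
  have h4 : fderiv ℝ (fun z => rn i z ^ 2) z v = 0 := by
    rcases i with i | i
    · exact fderiv_norm_fst hv
    · exact fderiv_norm_snd hv
  have h5 := h4.symm.trans h3
  simp at h5
  rcases h5 with h5 | h5
  · exact absurd h5 hp
  · exact h5

theorem fderiv_Wi (i : Ix n) {z v : V n × V n} (h : z ∈ U n) (hv : Tan z v) :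
    fderiv ℝ (Wi i) z v = 0 := by
  have h1 : DifferentiableAt ℝ (rn i) z := (rn_diff i h).differentiableAt (by simp)
  have h2 : DifferentiableAt ℝ (W (n := n)) z := W_smooth.contDiffAt.differentiableAt (by simp)
  have h3 := (hasDerivAt_inv (rn_pos i h).ne').comp_hasFDerivAt z h1.hasFDerivAt
  have h4 := congrArg (fun T => T v) (h2.hasFDerivAt.mul h3).fderiv
  refine h4.trans ?_
  simp [fderiv_W hv, fderiv_rn i h hv]

/-- squared norm of the block of `z` -/
def qn : Ix n → V n × V n → ℝ
  | .inl _ => fun z => ‖z.1‖ ^ 2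
  | .inr _ => fun z => ‖z.2‖ ^ 2

theorem qn_smooth (i : Ix n) : ContDiff ℝ ∞ (qn i) := by
  rcases i with i | i
  · exact contDiff_fst.norm_sq ℝ
  · exact contDiff_snd.norm_sq ℝ

theorem qn_fderiv (i j : Ix n) (z : V n × V n) :
    fderiv ℝ (qn i) z (bas j) = 2 * (blk i j * crd j z) := by
  rcases i with i | i
  · have h1 := (hasStrictFDerivAt_norm_sq z.1).hasFDerivAt.comp z
      (hasFDerivAt_fst (𝕜 := ℝ) (E := V n) (F := V n) (p := z))
    have h3 := congrArg (fun T => T (bas j)) h1.fderiv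
    refine h3.trans ?_
    rcases j with j | j
    · simp [bas, blk, crd, EuclideanSpace.inner_single_right]
    · simp [bas, blk, crd]
  · have h1 := (hasStrictFDerivAt_norm_sq z.2).hasFDerivAt.comp z
      (hasFDerivAt_snd (𝕜 := ℝ) (E := V n) (F := V n) (p := z))
    have h3 := congrArg (fun T => T (bas j)) h1.fderiv
    refine h3.trans ?_
    rcases j with j | j
    · simp [bas, blk, crd]
    · simp [bas, blk, crd, EuclideanSpace.inner_single_right]

theorem crd_Y (i j : Ix n) (z : V n × V n) :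
    crd j (Y i z) = qn i z * dl i j - blk i j * crdL i z * crdL j z := by
  rcases i with i | i <;> rcases j with j | j
  · simp [crd, Y, qn, dl, blk, crdL_apply, eq_comm]
  · simp [crd, Y, qn, dl, blk]
  · simp [crd, Y, qn, dl, blk]
  · simp [crd, Y, qn, dl, blk, crdL_apply, eq_comm]

theorem crd_Y_smooth (i j : Ix n) : ContDiff ℝ ∞ (fun z => crd j (Y i z)) := by
  have h : (fun z => crd j (Y i z)) =
      fun z => qn i z * dl i j - blk i j * crdL i z * crdL j z := funext fun z => crd_Y i j z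
  rw [h]
  exact ((qn_smooth i).mul contDiff_const).sub
    ((contDiff_const.mul (crdL i).contDiff).mul (crdL j).contDiff)

theorem crd_Y_fderiv (i j : Ix n) (z : V n × V n) :
    fderiv ℝ (fun z => crd j (Y i z)) z (bas j) =
      2 * (blk i j * crd j z) * dl i j - blk i j * (dl i j * crd j z + crd i z) := by
  have h : (fun z => crd j (Y i z)) =
      fun z => qn i z * dl i j - blk i j * crdL i z * crdL j z := funext fun z => crd_Y i j z
  rw [h]
  have h1 : HasFDerivAt (qn i) (fderiv ℝ (qn i) z) z :=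
    ((qn_smooth i).contDiffAt.differentiableAt (by simp)).hasFDerivAt
  have h2 := (h1.mul_const (dl i j)).sub
    ((((crdL i).hasFDerivAt (x := z)).const_mul (blk i j)).mul ((crdL j).hasFDerivAt (x := z)))
  have h3 := congrArg (fun T => T (bas j)) h2.fderiv
  refine h3.trans ?_
  simp only [sub_apply, smul_apply, add_apply, smul_eq_mul, qn_fderiv, crdL_apply, crd_bas]
  have h4 : (if j = i then (1 : ℝ) else 0) = dl i j := by
    unfold dl
    simp only [eq_comm]
  rw [h4]
  simp
  ring

theorem div_Y (i : Ix n) (z : V n × V n) :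
    ∑ j, fderiv ℝ (fun z => crd j (Y i z)) z (bas j) = - (n * crd i z) := by
  simp only [crd_Y_fderiv]
  have e : ∀ j : Ix n, 2 * (blk i j * crd j z) * dl i j - blk i j * (dl i j * crd j z + crd i z)
      = (if i = j then crd i z else 0) - blk i j * crd i z := by
    intro j
    unfold dl
    split_ifs with h
    · subst h
      rw [blk_self]
      ring
    · ring
  rw [Finset.sum_congr rfl fun j _ => e j, Finset.sum_sub_distrib, Finset.sum_ite_eq,
    if_pos (Finset.mem_univ _), ← Finset.sum_mul]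
  have h2 : ∑ j, blk i j = (n : ℝ) + 1 := by
    rw [Fintype.sum_sum_type]
    rcases i with i | i
    · simp [blk]
    · simp [blk]
  rw [h2]
  ring

/-- the components of the compactly supported vector field -/
def G (f : SmA n) (i j : Ix n) (z : V n × V n) : ℝ :=
  (f.1 (nrm z) * Wi i z) * crd j (Y i z)

theorem G_eventually (f : SmA n) (i j : Ix n) {z : V n × V n} (h : z ∉ U n) :
    G f i j =ᶠ[𝓝 z] fun _ => 0 := by
  filter_upwards [W_eventually h] with y hy
  unfold G Wi
  rw [hy]
  ring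

theorem G_smooth (f : SmA n) (i j : Ix n) : ContDiff ℝ ∞ (G f i j) := by
  rw [contDiff_iff_contDiffAt]
  intro z
  by_cases h : z ∈ U n
  · exact ((F_smooth f h).mul (Wi_diff i h)).mul (crd_Y_smooth i j).contDiffAt
  · exact contDiffAt_const.congr_of_eventuallyEq (G_eventually f i j h)

theorem G_supp (f : SmA n) (i j : Ix n) : HasCompactSupport (G f i j) := by
  apply HasCompactSupport.of_support_subset_isCompact (isCompact_closedBall (0 : V n × V n) 2)
  intro z hz
  apply W_supp
  intro h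
  apply hz
  unfold G Wi
  rw [h]
  ring

theorem int_fderiv {g : V n × V n → ℝ} (hg : ContDiff ℝ ∞ g) (hs : HasCompactSupport g)
    (v : V n × V n) : ∫ z, fderiv ℝ g z v = 0 := by
  have hd : Integrable (fun z => fderiv ℝ g z v) := by
    apply Continuous.integrable_of_hasCompactSupport
    · exact (hg.continuous_fderiv (by simp)).clm_apply continuous_const
    · exact hs.fderiv_apply ℝ v
  haveI : (volume : Measure (V n × V n)).IsAddHaarMeasure :=
    inferInstanceAs (((volume : Measure (V n)).prod (volume : Measure (V n))).IsAddHaarMeasure)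
  have h := integral_mul_fderiv_eq_neg_fderiv_mul_of_integrable (μ := (volume : Measure (V n × V n)))
    (f := g) (g := fun _ => (1 : ℝ)) (v := v) (by simpa using hd) (by simp)
    (by simpa using hg.continuous.integrable_of_hasCompactSupport hs)
    (fun x _ => hg.contDiffAt.differentiableAt (by simp)) (fun x _ => differentiableAt_const _)
  simpa using h

theorem div_G (f : SmA n) (i : Ix n) (z : V n × V n) :
    ∑ j, fderiv ℝ (G f i j) z (bas j) =
      W z * (ev (nrm z) (ED i f) - n * ev (nrm z) (cxA i * f)) := by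
  by_cases h : z ∈ U n
  · have hF : HasFDerivAt (fun z => f.1 (nrm z)) (fderiv ℝ (fun z => f.1 (nrm z)) z) z :=
      ((F_smooth f h).differentiableAt (by simp)).hasFDerivAt
    have hW : HasFDerivAt (Wi i) (fderiv ℝ (Wi i) z) z :=
      ((Wi_diff i h).differentiableAt (by simp)).hasFDerivAt
    have hY : ∀ j, HasFDerivAt (fun z => crd j (Y i z)) (fderiv ℝ (fun z => crd j (Y i z)) z) z :=
      fun j => ((crd_Y_smooth i j).contDiffAt.differentiableAt (by simp)).hasFDerivAt
    have e : ∀ j, fderiv ℝ (G f i j) z (bas j) =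
        f.1 (nrm z) * Wi i z * fderiv ℝ (fun z => crd j (Y i z)) z (bas j) +
        (f.1 (nrm z) * fderiv ℝ (Wi i) z (crd j (Y i z) • bas j) +
          Wi i z * fderiv ℝ (fun z => f.1 (nrm z)) z (crd j (Y i z) • bas j)) := by
      intro j
      have h3 := congrArg (fun T => T (bas j)) ((hF.mul hW).mul (hY j)).fderiv
      refine h3.trans ?_
      simp only [map_smul, smul_apply, add_apply, smul_eq_mul, Pi.mul_apply]
      ring
    rw [Finset.sum_congr rfl fun j _ => e j, Finset.sum_add_distrib, Finset.sum_add_distrib,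
      ← Finset.mul_sum, ← Finset.mul_sum, ← Finset.mul_sum, div_Y, ← map_sum, ← map_sum,
      sum_crd_bas, fderiv_Wi i h (tan_Y i z), key2 i f h]
    have hx : ev (nrm z) (cxA i) = (rn i z)⁻¹ * crd i z := by
      rw [ev_cxA]
      rcases i with i | i
      · change (nz z.1 : V n) i = ‖z.1‖⁻¹ * z.1 i
        rw [nz_coe h.1]
        rfl
      · change (nz z.2 : V n) i = ‖z.2‖⁻¹ * z.2 i
        rw [nz_coe h.2]
        rfl
    have hf : ev (nrm z) f = f.1 (nrm z) := rfl
    rw [map_mul, hx, hf]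
    unfold Wi
    have hr := (rn_pos i h).ne'
    field_simp
    ring
  · have e : ∀ j, fderiv ℝ (G f i j) z (bas j) = 0 := by
      intro j
      rw [(G_eventually f i j h).fderiv_eq]
      simp
    rw [Finset.sum_congr rfl fun j _ => e j, (W_eventually h).self_of_nhds]
    simp

theorem int_main (f : SmA n) (i : Ix n) :
    ∫ z, W z * (ev (nrm z) (ED i f) - n * ev (nrm z) (cxA i * f)) = 0 := by
  simp only [← div_G]
  rw [integral_finsetSum]
  · exact Finset.sum_eq_zero fun j _ => int_fderiv (G_smooth f i j) (G_supp f i j) (bas j)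
  · intro j _
    apply Continuous.integrable_of_hasCompactSupport
    · exact ((G_smooth f i j).continuous_fderiv (by simp)).clm_apply continuous_const
    · exact (G_supp f i j).fderiv_apply ℝ _

theorem W_compact : HasCompactSupport (W (n := n)) := by
  apply HasCompactSupport.of_support_subset_isCompact (isCompact_closedBall (0 : V n × V n) 2)
  intro z hz
  exact W_supp hz

theorem W_pos : 0 < ∫ z, W (n := n) z := by
  haveI : (volume : Measure (V n × V n)).IsAddHaarMeasure :=
    inferInstanceAs (((volume : Measure (V n)).prod (volume : Measure (V n))).IsAddHaarMeasure)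
  let e : V n := EuclideanSpace.single 0 (Real.sqrt 2)
  have he : ‖e‖ ^ 2 = 2 := by
    change ‖EuclideanSpace.single (0 : Fin (n + 1)) (Real.sqrt 2)‖ ^ 2 = 2
    rw [EuclideanSpace.norm_single, Real.norm_eq_abs, sq_abs, Real.sq_sqrt (by norm_num)]
  apply W_smooth.continuous.integral_pos_of_hasCompactSupport_nonneg_nonzero W_compact
    (fun z => W_nonneg z) (x := (e, e))
  unfold W
  have hb : bmp (2 : ℝ) = 1 := bmp.one_of_mem_closedBall (by simp [bmp])
  simp only [he, hb]
  norm_num

/-- the measure `W dz` -/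
def nu0 (n : ℕ) : Measure (V n × V n) := volume.withDensity fun z => ENNReal.ofReal (W z)

theorem nu0_univ : nu0 n Set.univ = ENNReal.ofReal (∫ z, W (n := n) z) := by
  unfold nu0
  rw [withDensity_apply _ MeasurableSet.univ, Measure.restrict_univ,
    ofReal_integral_eq_lintegral_ofReal
      (W_smooth.continuous.integrable_of_hasCompactSupport W_compact)
      (Filter.Eventually.of_forall W_nonneg)]

/-- the round measure -/
def mu (n : ℕ) : Measure (MM n) := (nu0 n Set.univ)⁻¹ • Measure.map nrm (nu0 n)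

theorem mu_int (g : MM n → ℝ) (hg : Continuous g) :
    ∫ p, g p ∂(mu n) = ((nu0 n Set.univ)⁻¹).toReal * ∫ z, W z * g (nrm z) := by
  unfold mu
  rw [integral_smul_measure, smul_eq_mul]
  congr 1
  rw [integral_map nrm_measurable.aemeasurable hg.aestronglyMeasurable]
  unfold nu0
  rw [integral_withDensity_eq_integral_toReal_smul
    (W_smooth.continuous.measurable.ennreal_ofReal)
    (Filter.Eventually.of_forall fun z => ENNReal.ofReal_lt_top)]
  refine integral_congr_ae (Filter.Eventually.of_forall fun z => ?_)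
  simp only [smul_eq_mul]
  rw [ENNReal.toReal_ofReal (W_nonneg z)]

theorem ev_cont (f : SmA n) : Continuous fun p => ev p f := f.2.continuous

theorem W_int (g : MM n → ℝ) (hg : Continuous g) : Integrable fun z : V n × V n =>
    W z * g (nrm z) := by
  obtain ⟨C, hC⟩ := (isCompact_univ (X := MM n)).exists_bound_of_continuousOn hg.continuousOn
  exact (W_smooth.continuous.integrable_of_hasCompactSupport W_compact).mul_bdd (c := C)
    (hg.measurable.comp nrm_measurable).aestronglyMeasurable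
    (Filter.Eventually.of_forall fun z => hC _ (Set.mem_univ _))

end Meas

open Meas in
theorem s_meas : S_MEAS := by
  intro n hn
  refine ⟨mu n, ?_, ?_⟩
  · constructor
    unfold mu
    rw [Measure.smul_apply, Measure.map_apply nrm_measurable MeasurableSet.univ,
      Set.preimage_univ, smul_eq_mul]
    apply ENNReal.inv_mul_cancel
    · rw [nu0_univ]
      exact (ENNReal.ofReal_pos.2 W_pos).ne'
    · rw [nu0_univ]
      exact ENNReal.ofReal_ne_top
  · intro i f
    rw [mu_int _ (ev_cont _), mu_int _ (ev_cont _)]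
    have h := int_main f i
    have e : ∀ z : V n × V n, W z * (ev (nrm z) (ED i f) - n * ev (nrm z) (cxA i * f)) =
        W z * ev (nrm z) (ED i f) - n * (W z * ev (nrm z) (cxA i * f)) := fun z => by ring
    simp only [e] at h
    rw [integral_sub (W_int _ (ev_cont _)) ((W_int _ (ev_cont _)).const_mul _),
      integral_const_mul] at h
    rw [sub_eq_zero.1 h]
    ring

end Pool.Agent.H781.NG
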