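import Pool.Agent.H781.NG.Spec

/-!
Moments of the kernels and existence of the mollifier.
-/

open Bundle Manifold ContDiff VectorField Metric MeasureTheory Filter
open scoped Topology RealInnerProductSpace

set_option autoImplicit false
set_option synthInstance.maxHeartbeats 400000
set_option maxHeartbeats 4000000

noncomputable section

namespace Pool.Agent.H781.NG

open Pool.Agent.H821R2 Pool.Agent.H821R3 Pool.Agent.H893R5.HO Pool.Agent.H781.S22

namespace Mom

variable {n : ℕ}

/-! ### integration -/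

lemma cont (f : SmA n) : Continuous fun p : MM n => ev p f := by
  have h : Sm (IM n) f.1 := f.2
  exact ContMDiff.continuous h

lemma int (μ : Measure (MM n)) [IsFiniteMeasure μ] (f : SmA n) :
    Integrable (fun p : MM n => ev p f) μ := by
  have hc := cont f
  obtain ⟨C, hC⟩ := (isCompact_univ (X := MM n)).exists_bound_of_continuousOn hc.continuousOn
  exact Integrable.of_bound hc.aestronglyMeasurable C
    (Eventually.of_forall fun x => hC x (Set.mem_univ x))

lemma ig_add (μ : Measure (MM n)) [IsFiniteMeasure μ] (f g : SmA n) :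
    ig μ (f + g) = ig μ f + ig μ g := by
  unfold ig
  simp only [map_add]
  exact integral_add (int μ f) (int μ g)

lemma ig_sub (μ : Measure (MM n)) [IsFiniteMeasure μ] (f g : SmA n) :
    ig μ (f - g) = ig μ f - ig μ g := by
  unfold ig
  simp only [map_sub]
  exact integral_sub (int μ f) (int μ g)

lemma ig_cs (μ : Measure (MM n)) (c : ℝ) (f : SmA n) : ig μ (cs c * f) = c * ig μ f := by
  unfold ig
  simp only [map_mul, ev_cs]
  exact integral_const_mul c _

lemma ig_sum (μ : Measure (MM n)) [IsFiniteMeasure μ] {κ : Type*} (s : Finset κ) (f : κ → SmA n) :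
    ig μ (∑ i ∈ s, f i) = ∑ i ∈ s, ig μ (f i) := by
  unfold ig
  simp only [map_sum]
  exact integral_finsetSum s fun i _ => int μ (f i)

/-! ### the functions `⟨x, x'⟩` -/

/-- the inner product of the blocks -/
def T (σ : Fin (n + 1) → Ix n) (p : MM n) : SmA n := ∑ j, cs (cx (σ j) p) * cxA (σ j)

lemma ev_T_inl (p q : MM n) : ev q (T Sum.inl p) = ⟪(p.1 : V n), (q.1 : V n)⟫ := by
  unfold T
  rw [map_sum, PiLp.inner_apply]
  refine Finset.sum_congr rfl fun j _ => ?_
  rw [map_mul, ev_cs, ev_cxA]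
  simp [cx, crd, sj, mul_comm]

lemma ev_T_inr (p q : MM n) : ev q (T Sum.inr p) = ⟪(p.2 : V n), (q.2 : V n)⟫ := by
  unfold T
  rw [map_sum, PiLp.inner_apply]
  refine Finset.sum_congr rfl fun j _ => ?_
  rw [map_mul, ev_cs, ev_cxA]
  simp [cx, crd, sj, mul_comm]

/-- properties of the two blocks of coordinates -/
structure Blk (σ τ : Fin (n + 1) → Ix n) : Prop where
  same : ∀ i j, blk (σ i) (σ j) = 1
  other : ∀ i j, blk (σ i) (τ j) = 0
  dls : ∀ i j, dl (σ i) (σ j) = if i = j then 1 else 0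
  dlo : ∀ i j, dl (σ i) (τ j) = 0
  nrm : ∀ p : MM n, ∑ i, cx (σ i) p * cx (σ i) p = 1

lemma blk_l : Blk (n := n) Sum.inl Sum.inr where
  same _ _ := rfl
  other _ _ := rfl
  dls i j := by simp [dl]
  dlo i j := by simp [dl]
  nrm p := by
    have h : ⟪(p.1 : V n), (p.1 : V n)⟫ = 1 := by
      rw [real_inner_self_eq_norm_sq]
      have := p.1.2
      rw [mem_sphere_zero_iff_norm] at this
      rw [this]; norm_num
    rw [← h, PiLp.inner_apply]
    refine Finset.sum_congr rfl fun j _ => ?_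
    simp [cx, crd, sj, pow_two]

lemma blk_r : Blk (n := n) Sum.inr Sum.inl where
  same _ _ := rfl
  other _ _ := rfl
  dls i j := by simp [dl]
  dlo i j := by simp [dl]
  nrm p := by
    have h : ⟪(p.2 : V n), (p.2 : V n)⟫ = 1 := by
      rw [real_inner_self_eq_norm_sq]
      have := p.2.2
      rw [mem_sphere_zero_iff_norm] at this
      rw [this]; norm_num
    rw [← h, PiLp.inner_apply]
    refine Finset.sum_congr rfl fun j _ => ?_
    simp [cx, crd, sj, pow_two]

variable {σ τ : Fin (n + 1) → Ix n}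

lemma ED_T (h : Blk σ τ) (i : Fin (n + 1)) (p : MM n) :
    ED (σ i) (T σ p) = cs (cx (σ i) p) - cxA (σ i) * T σ p := by
  unfold T
  rw [map_sum]
  have h1 : ∀ j, ED (σ i) (cs (cx (σ j) p) * cxA (σ j)) =
      cs (cx (σ j) p) * cs (if i = j then 1 else 0) - cxA (σ i) * (cs (cx (σ j) p) * cxA (σ j)) := by
    intro j
    rw [Derivation.leibniz, ED_cxA, h.same, h.dls]
    have h2 : ED (σ i) (cs (n := n) (cx (σ j) p)) = 0 := Derivation.map_algebraMap _ _
    have h3 : cs (n := n) 1 = 1 := map_one _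
    rw [h2, h3]
    simp only [smul_eq_mul, mul_zero, add_zero]
    ring
  rw [Finset.sum_congr rfl fun j _ => h1 j, Finset.sum_sub_distrib, ← Finset.mul_sum]
  congr 1
  apply ext_ev
  intro q
  rw [map_sum]
  simp only [map_mul, ev_cs]
  simp

lemma ED_T' (h : Blk σ τ) (i : Fin (n + 1)) (p : MM n) : ED (σ i) (T τ p) = 0 := by
  unfold T
  rw [map_sum]
  refine Finset.sum_eq_zero fun j _ => ?_
  rw [Derivation.leibniz, ED_cxA, h.other, h.dlo]
  have h2 : ED (σ i) (cs (n := n) (cx (τ j) p)) = 0 := Derivation.map_algebraMap _ _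
  have h3 : cs (n := n) 0 = 0 := map_zero _
  rw [h2, h3]
  simp

lemma ED_pow (i : Ix n) (f : SmA n) (a : ℕ) :
    ED i ((1 + f) ^ (a + 1)) = cs ((a : ℝ) + 1) * (1 + f) ^ a * ED i f := by
  rw [Derivation.leibniz_pow, map_add, Derivation.map_one_eq_zero, zero_add, Nat.add_sub_cancel]
  have h3 : cs (n := n) ((a : ℝ) + 1) = ((a + 1 : ℕ) : SmA n) := by
    unfold cs
    rw [← Nat.cast_succ, map_natCast]
  rw [h3, nsmul_eq_mul, smul_eq_mul]
  ring

/-- the divergence identity for the kernel, multiplied by the coordinates of `p` -/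
lemma key (h : Blk σ τ) (p : MM n) (a : ℕ) (g : SmA n) (hg : ∀ i, ED (σ i) g = 0) :
    ∑ i, cs (cx (σ i) p) * ED (σ i) ((1 + T σ p) ^ a * g) =
      cs (a : ℝ) * (2 * ((1 + T σ p) ^ a * g) - (1 + T σ p) ^ (a + 1) * g) := by
  have h2 : ∑ i, cs (n := n) (cx (σ i) p) * cs (cx (σ i) p) = 1 := by
    have e : ∀ i, cs (n := n) (cx (σ i) p) * cs (cx (σ i) p) = cs (cx (σ i) p * cx (σ i) p) :=
      fun i => (map_mul (algebraMap ℝ (SmA n)) _ _).symm
    rw [Finset.sum_congr rfl fun i _ => e i]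
    unfold cs
    rw [← map_sum, h.nrm p, map_one]
  rcases a with _ | a
  · have h0 : ∀ i, cs (cx (σ i) p) * ED (σ i) ((1 + T σ p) ^ 0 * g) = 0 := fun i => by
      rw [pow_zero, one_mul, hg i, mul_zero]
    rw [Finset.sum_congr rfl fun i _ => h0 i]
    have h3 : cs (n := n) ((0 : ℕ) : ℝ) = 0 := by rw [Nat.cast_zero]; exact map_zero _
    rw [h3]
    simp
  · have h1 : ∀ i, cs (cx (σ i) p) * ED (σ i) ((1 + T σ p) ^ (a + 1) * g) =
        cs ((a : ℝ) + 1) * (1 + T σ p) ^ a * g * (cs (cx (σ i) p) * cs (cx (σ i) p)) -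
        cs ((a : ℝ) + 1) * (1 + T σ p) ^ a * g * T σ p * (cs (cx (σ i) p) * cxA (σ i)) := by
      intro i
      rw [Derivation.leibniz, hg i, ED_pow, ED_T h]
      simp only [smul_eq_mul, mul_zero, zero_add]
      ring
    rw [Finset.sum_congr rfl fun i _ => h1 i, Finset.sum_sub_distrib, ← Finset.mul_sum,
      ← Finset.mul_sum, h2]
    have h3 : ∑ i, cs (cx (σ i) p) * cxA (σ i) = T σ p := rfl
    rw [h3]
    push_cast
    ring

lemma rec_step (μ : Measure (MM n)) (hμ : IsRound μ) (hn : 1 ≤ n) (h : Blk σ τ) (p : MM n) (a : ℕ)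
    (g : SmA n) (hg : ∀ i, ED (σ i) g = 0) :
    ig μ ((1 + T σ p) ^ (a + 1) * g) = (2 * a + n : ℝ) / (a + n) * ig μ ((1 + T σ p) ^ a * g) := by
  have := hμ.prob
  have e1 : ig μ (∑ i, cs (cx (σ i) p) * ED (σ i) ((1 + T σ p) ^ a * g)) =
      n * ig μ (T σ p * ((1 + T σ p) ^ a * g)) := by
    rw [ig_sum]
    simp only [ig_cs]
    have : ∀ i, ig μ (ED (σ i) ((1 + T σ p) ^ a * g)) =
        n * ig μ (cxA (σ i) * ((1 + T σ p) ^ a * g)) := fun i => hμ.div (σ i) _
    simp only [this]
    have e2 : T σ p * ((1 + T σ p) ^ a * g) =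
        ∑ i, cs (cx (σ i) p) * (cxA (σ i) * ((1 + T σ p) ^ a * g)) := by
      conv_lhs => rw [T, Finset.sum_mul]
      exact Finset.sum_congr rfl fun i _ => by rw [mul_assoc]; rfl
    rw [e2, ig_sum, Finset.mul_sum]
    refine Finset.sum_congr rfl fun i _ => ?_
    rw [ig_cs]
    ring
  rw [key h p a g hg, ig_cs, ig_sub] at e1
  have e3 : (2 : SmA n) * ((1 + T σ p) ^ a * g) = cs 2 * ((1 + T σ p) ^ a * g) := by
    congr 1
  have e4 : T σ p * ((1 + T σ p) ^ a * g) = (1 + T σ p) ^ (a + 1) * g - (1 + T σ p) ^ a * g := by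
    ring
  rw [e3, ig_cs, e4, ig_sub] at e1
  have hn' : (1 : ℝ) ≤ n := by exact_mod_cast hn
  have hp : (0 : ℝ) < a + n := by positivity
  field_simp
  linarith

/-! ### kernels of finite rank -/

/-- kernels of finite rank -/
def FinRk (k : MM n → MM n → ℝ) : Prop :=
  ∃ (κ : Type) (_ : Fintype κ) (φ ψ : κ → SmA n), ∀ p q, k p q = ∑ i, ev p (φ i) * ev q (ψ i)

lemma FinRk.mul {k l : MM n → MM n → ℝ} (hk : FinRk k) (hl : FinRk l) :
    FinRk (fun p q => k p q * l p q) := by
  obtain ⟨κ, _, φ, ψ, h1⟩ := hk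
  obtain ⟨κ', _, φ', ψ', h2⟩ := hl
  refine ⟨κ × κ', inferInstance, fun i => φ i.1 * φ' i.2, fun i => ψ i.1 * ψ' i.2, fun p q => ?_⟩
  simp only [h1, h2]
  rw [Fintype.sum_prod_type, Finset.sum_mul_sum]
  refine Finset.sum_congr rfl fun i _ => Finset.sum_congr rfl fun j _ => ?_
  rw [map_mul, map_mul]
  ring

lemma FinRk.one : FinRk (n := n) (fun _ _ => 1) :=
  ⟨Unit, inferInstance, fun _ => 1, fun _ => 1, fun p q => by simp⟩

lemma FinRk.pow {k : MM n → MM n → ℝ} (hk : FinRk k) (m : ℕ) : FinRk (fun p q => k p q ^ m) := by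
  induction m with
  | zero => simpa only [pow_zero] using FinRk.one
  | succ m ih => simpa only [pow_succ] using ih.mul hk

lemma finRk_T (σ : Fin (n + 1) → Ix n) : FinRk (fun p q => 1 + ev q (T σ p)) := by
  refine ⟨Option (Fin (n + 1)), inferInstance, fun o => o.elim 1 fun i => cxA (σ i),
    fun o => o.elim 1 fun i => cxA (σ i), fun p q => ?_⟩
  rw [Fintype.sum_option]
  simp only [Option.elim]
  rw [map_one, map_one, mul_one, T, map_sum]
  simp only [map_mul, ev_cs, ev_cxA]

lemma finRk_kk (m : ℕ) : FinRk (n := n) (fun p q => kk m m p q) := by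
  have h := ((finRk_T (n := n) Sum.inl).pow m).mul ((finRk_T (n := n) Sum.inr).pow m)
  simp only [ev_T_inl, ev_T_inr] at h
  exact h

lemma finRk_fin (m : ℕ) : ∃ (k : ℕ) (φ ψ : Fin k → SmA n),
    ∀ p q, kk m m p q = ∑ i, ev p (φ i) * ev q (ψ i) := by
  obtain ⟨κ, _, φ, ψ, h⟩ := finRk_kk (n := n) m
  classical
  let e := Fintype.equivFin κ
  refine ⟨Fintype.card κ, fun i => φ (e.symm i), fun i => ψ (e.symm i), fun p q => ?_⟩
  have h' := h p q
  simp only at h'
  rw [h', ← Equiv.sum_comp e.symm]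

end Mom

/-- the moments of the kernels -/
theorem s_mom : S_MOM := by
  intro n μ hn hμ a b p
  have := hμ.prob
  have e0 : ∀ a b : ℕ, ∫ q, kk a b p q ∂μ =
      ig μ ((1 + Mom.T Sum.inl p) ^ a * (1 + Mom.T Sum.inr p) ^ b) := by
    intro a b
    unfold ig kk
    refine integral_congr_ae (Eventually.of_forall fun q => ?_)
    simp only [map_mul, map_pow, map_add, map_one, Mom.ev_T_inl, Mom.ev_T_inr]
  have hpow : ∀ (i : Fin (n + 1)) (b : ℕ), ED (Sum.inl i) ((1 + Mom.T Sum.inr p) ^ b) = 0 := by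
    intro i b
    rcases b with _ | b
    · rw [pow_zero]; exact Derivation.map_one_eq_zero _
    · rw [Mom.ED_pow, Mom.ED_T' Mom.blk_l, mul_zero]
  rw [e0]
  induction a with
  | zero =>
    induction b with
    | zero =>
      simp only [pow_zero, mul_one, cm, Finset.range_zero, Finset.prod_empty]
      simp [ig]
    | succ b ih =>
      have h1 := Mom.rec_step μ hμ hn Mom.blk_r p b 1 (fun i => Derivation.map_one_eq_zero _)
      simp only [pow_zero, one_mul, mul_one] at h1 ih ⊢
      rw [h1, ih]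
      simp only [cm, Finset.prod_range_succ]
      ring
  | succ a ih =>
    rw [Mom.rec_step μ hμ hn Mom.blk_l p a _ (fun i => hpow i b), ih]
    simp only [cm, Finset.prod_range_succ]
    ring

/-- existence of the mollifier, finite rank -/
theorem s_jex : S_JEX := by
  intro n μ hn hμ
  have := hμ.prob
  have h1 := fun m : ℕ => Mom.finRk_fin (n := n) m
  choose k φ ψ h using h1
  let J : ℕ → SmA n →ₗ[ℝ] SmA n := fun m =>
    { toFun := fun f => ∑ j, cs (ig μ (ψ m j * f)) * (cs (((cm n m) ^ 2)⁻¹) * φ m j)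
      map_add' := fun f g => by
        rw [← Finset.sum_add_distrib]
        refine Finset.sum_congr rfl fun j _ => ?_
        rw [mul_add, Mom.ig_add]
        have : cs (n := n) (ig μ (ψ m j * f) + ig μ (ψ m j * g)) =
          cs (ig μ (ψ m j * f)) + cs (ig μ (ψ m j * g)) := map_add (algebraMap ℝ (SmA n)) _ _
        rw [this, add_mul]
      map_smul' := fun c f => by
        rw [RingHom.id_apply, Finset.smul_sum]
        refine Finset.sum_congr rfl fun j _ => ?_
        have e1 : c • f = cs c * f := Algebra.smul_def c f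
        have e2 : ψ m j * (c • f) = cs c * (ψ m j * f) := by rw [e1]; ring
        have e3 : cs (n := n) (c * ig μ (ψ m j * f)) = cs c * cs (ig μ (ψ m j * f)) :=
          map_mul (algebraMap ℝ (SmA n)) _ _
        rw [e2, Mom.ig_cs, e3, mul_assoc]
        exact (Algebra.smul_def c _).symm }
  refine ⟨J, ?_, fun m => ⟨k m, fun j => cs (((cm n m) ^ 2)⁻¹) * φ m j, ψ m, fun f => rfl⟩⟩
  intro m f p
  have e1 : ∀ q, kk m m p q * ev q f = ∑ j, ev p (φ m j) * ev q (ψ m j * f) := by
    intro q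
    rw [h m p q, Finset.sum_mul]
    refine Finset.sum_congr rfl fun j _ => ?_
    rw [map_mul, mul_assoc]
  show ev p (∑ j, cs (ig μ (ψ m j * f)) * (cs (((cm n m) ^ 2)⁻¹) * φ m j)) = _
  rw [integral_congr_ae (Eventually.of_forall e1),
    integral_finsetSum _ fun j _ => (Mom.int μ (ψ m j * f)).const_mul _, map_sum, Finset.mul_sum]
  refine Finset.sum_congr rfl fun j _ => ?_
  rw [integral_const_mul, map_mul, map_mul, ev_cs, ev_cs]
  unfold ig
  ring

end Pool.Agent.H781.NG
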