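import Pool.Agent.H781.NG.GeoSpec

/-!
Brackets of the coordinate fields (`S_BR`) and existence of tight frames (`S_TF`).
-/

open Bundle Manifold ContDiff VectorField Metric MeasureTheory Filter
open scoped Topology RealInnerProductSpace

set_option autoImplicit false
set_option synthInstance.maxHeartbeats 400000
set_option maxHeartbeats 4000000
set_option linter.unusedSectionVars false

noncomputable section

namespace Pool.Agent.H781.NG.Tf

open Pool.Agent.H821R2 Pool.Agent.H821R3 Pool.Agent.H893R5.HO Pool.Agent.H781.S22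

variable {n : ℕ}

theorem ext_cx (p : MM n) {v w : TangentSpace (IM n) p}
    (h : ∀ i, mvfderiv (IM n) (cx i) p v = mvfderiv (IM n) (cx i) p w) : v = w := by
  rw [← repr_EE p v, ← repr_EE p w]
  exact Finset.sum_congr rfl fun i _ => by rw [h i]

theorem br_cx (hn : 1 ≤ n) (i j k : Ix n) (p : MM n) :
    mvfderiv (IM n) (cx k) p (mlieBracket (IM n) (EE i) (EE j) p) =
      ev p (ED i (ED j (cxA k))) - ev p (ED j (ED i (cxA k))) := by
  have : Nonempty (Fin n) := ⟨⟨0, hn⟩⟩
  have : Nontrivial (EuclideanSpace ℝ (Fin n)) := inferInstance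
  have h := comm_fun (smooth_cx k) (EE_smooth i) (EE_smooth j)
    (Sm.der (EE_smooth i) (smooth_cx k)) (Sm.der (EE_smooth j) (smooth_cx k)) p
  exact h.symm

theorem ED_cs (i : Ix n) (c : ℝ) : ED i (cs c) = 0 := (ED i).map_algebraMap c

theorem ev_EDED (i j k : Ix n) (p : MM n) : ev p (ED i (ED j (cxA k))) =
    - (blk j k * ((dl i j - blk i j * cx i p * cx j p) * cx k p +
      cx j p * (dl i k - blk i k * cx i p * cx k p))) := by
  rw [ED_cxA, map_sub, ED_cs, zero_sub, Derivation.leibniz, Derivation.leibniz, ED_cs, ED_cxA,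
    ED_cxA]
  simp only [smul_eq_mul, map_neg, map_add, map_mul, map_sub, ev_cs, ev_cxA, mul_zero,
    add_zero]
  ring

theorem dl_comm (i j : Ix n) : dl i j = dl j i := by
  unfold dl
  simp only [eq_comm]

theorem dl_lr (a b : Fin (n + 1)) : dl (Sum.inl a : Ix n) (Sum.inr b) = 0 := by simp [dl]
theorem dl_rl (a b : Fin (n + 1)) : dl (Sum.inr a : Ix n) (Sum.inl b) = 0 := by simp [dl]

theorem cxd (k : Ix n) (p : MM n) (i : Ix n) :
    mvfderiv (IM n) (cx k) p (EE i p) = dl i k - blk i k * cx i p * cx k p := der_EE_cx i k p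

/-! ### the normal components -/

/-- the normal components at a point -/
def nv (p : MM n) (c : Fin 2) (i : Ix n) : ℝ := ev p (nn n c i)

theorem nv0l (p : MM n) (j : Fin (n + 1)) : nv p 0 (Sum.inl j) = cx (Sum.inl j) p := rfl
theorem nv0r (p : MM n) (j : Fin (n + 1)) : nv p 0 (Sum.inr j) = 0 := rfl
theorem nv1l (p : MM n) (j : Fin (n + 1)) : nv p 1 (Sum.inl j) = 0 := rfl
theorem nv1r (p : MM n) (j : Fin (n + 1)) : nv p 1 (Sum.inr j) = cx (Sum.inr j) p := rfl

theorem nv_mul (p : MM n) (i k : Ix n) :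
    ∑ c, nv p c i * nv p c k = blk i k * cx i p * cx k p := by
  rw [Fin.sum_univ_two]
  rcases i with i | i <;> rcases k with k | k <;>
    simp only [nv0l, nv0r, nv1l, nv1r, blk] <;> ring

theorem sum_sq (x : sphere (0 : V n) 1) : ∑ j, (x : V n) j * (x : V n) j = 1 := by
  have h := inner_self_sph x
  rw [PiLp.inner_apply] at h
  simpa [pow_two] using h

theorem nv_on (p : MM n) (c c' : Fin 2) :
    ∑ i, nv p c i * nv p c' i = if c = c' then 1 else 0 := by
  rw [Fintype.sum_sum_type]
  fin_cases c <;> fin_cases c'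
  · show (∑ j, nv p 0 (Sum.inl j) * nv p 0 (Sum.inl j)) +
      (∑ j, nv p 0 (Sum.inr j) * nv p 0 (Sum.inr j)) = 1
    simp only [nv0l, nv0r, mul_zero, Finset.sum_const_zero, add_zero]
    exact sum_sq p.1
  · show (∑ j, nv p 0 (Sum.inl j) * nv p 1 (Sum.inl j)) +
      (∑ j, nv p 0 (Sum.inr j) * nv p 1 (Sum.inr j)) = 0
    simp only [nv0r, nv1l, mul_zero, zero_mul, Finset.sum_const_zero, add_zero]
  · show (∑ j, nv p 1 (Sum.inl j) * nv p 0 (Sum.inl j)) +
      (∑ j, nv p 1 (Sum.inr j) * nv p 0 (Sum.inr j)) = 0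
    simp only [nv0r, nv1l, mul_zero, zero_mul, Finset.sum_const_zero, add_zero]
  · show (∑ j, nv p 1 (Sum.inl j) * nv p 1 (Sum.inl j)) +
      (∑ j, nv p 1 (Sum.inr j) * nv p 1 (Sum.inr j)) = 1
    simp only [nv1l, nv1r, mul_zero, Finset.sum_const_zero, zero_add]
    exact sum_sq p.2

theorem cxd' (k : Ix n) (p : MM n) (i : Ix n) :
    mvfderiv (IM n) (cx k) p (EE i p) = dl i k - ∑ c, nv p c i * nv p c k := by
  rw [nv_mul, cxd]

/-- coordinates of a combination of the coordinate fields -/
theorem cxd_sum (p : MM n) (x : Ix n → ℝ) (k : Ix n) :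
    mvfderiv (IM n) (cx k) p (∑ i, x i • EE i p) =
      x k - ∑ c, (∑ i, x i * nv p c i) * nv p c k := by
  rw [map_sum]
  have h : ∀ i, mvfderiv (IM n) (cx k) p (x i • EE i p) =
      x i * dl i k - ∑ c, x i * nv p c i * nv p c k := by
    intro i
    rw [map_smul, cxd', smul_eq_mul, mul_sub, Finset.mul_sum]
    simp only [mul_assoc]
  rw [Finset.sum_congr rfl fun i _ => h i, Finset.sum_sub_distrib, Finset.sum_comm]
  congr 1
  · unfold dl
    simp
  · refine Finset.sum_congr rfl fun c _ => ?_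
    rw [Finset.sum_mul]

theorem nv_E (p : MM n) (c : Fin 2) : ∑ i, nv p c i • EE i p = 0 := by
  apply ext_cx
  intro k
  rw [cxd_sum, map_zero]
  have h : ∀ c', (∑ i, nv p c i * nv p c' i) * nv p c' k = if c = c' then nv p c' k else 0 := by
    intro c'
    rw [nv_on]
    split_ifs <;> simp
  rw [Finset.sum_congr rfl fun c' _ => h c', Finset.sum_ite_eq]
  simp

theorem tan_perp (p : MM n) (v : TangentSpace (IM n) p) (c : Fin 2) :
    ∑ k, mvfderiv (IM n) (cx k) p v * nv p c k = 0 := by
  set x : Ix n → ℝ := fun k => mvfderiv (IM n) (cx k) p v with hx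
  have h1 : ∀ k, ∑ c, (∑ i, x i * nv p c i) * nv p c k = 0 := by
    intro k
    have h2 := cxd_sum p x k
    rw [repr_EE] at h2
    change x k = _ at h2
    linarith
  have h3 : ∑ k, (∑ c', (∑ i, x i * nv p c' i) * nv p c' k) * nv p c k = 0 := by
    rw [Finset.sum_congr rfl fun k _ => by rw [h1 k, zero_mul], Finset.sum_const_zero]
  have h4 : ∑ k, (∑ c', (∑ i, x i * nv p c' i) * nv p c' k) * nv p c k =
      ∑ i, x i * nv p c i := by
    have h5 : ∀ k, (∑ c', (∑ i, x i * nv p c' i) * nv p c' k) * nv p c k =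
        ∑ c', (∑ i, x i * nv p c' i) * (nv p c' k * nv p c k) := by
      intro k
      rw [Finset.sum_mul]
      exact Finset.sum_congr rfl fun c' _ => by ring
    rw [Finset.sum_congr rfl fun k _ => h5 k, Finset.sum_comm]
    have h6 : ∀ c', ∑ k, (∑ i, x i * nv p c' i) * (nv p c' k * nv p c k) =
        if c' = c then ∑ i, x i * nv p c' i else 0 := by
      intro c'
      rw [← Finset.mul_sum, nv_on]
      split_ifs <;> simp
    rw [Finset.sum_congr rfl fun c' _ => h6 c', Finset.sum_ite_eq']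
    simp
  rw [← h4, h3]

/-! ### linear algebra -/

section lin

variable {ι κ γ : Type} [Fintype ι] [Fintype κ] [Fintype γ] [DecidableEq ι] [DecidableEq κ]
  [DecidableEq γ]

theorem lin1 (e : κ ≃ ι) (s : κ → ι → ℝ) (G : ι → ι → ℝ)
    (h : ∀ a b, ∑ i, ∑ j, s a i * G i j * s b j = if a = b then 1 else 0) :
    ∀ i j, ∑ a, s a i * ∑ k, G j k * s a k = if i = j then 1 else 0 := by
  have h1 : (Matrix.of s) * (Matrix.of fun i b => ∑ j, G i j * s b j) = 1 := by
    ext a b
    rw [Matrix.mul_apply, Matrix.one_apply, ← h a b]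
    refine Finset.sum_congr rfl fun i _ => ?_
    rw [Matrix.of_apply, Matrix.of_apply, Finset.mul_sum]
    exact Finset.sum_congr rfl fun j _ => by ring
  have h2 := (Matrix.mul_eq_one_comm_of_equiv e).1 h1
  intro i j
  have h3 := congrFun (congrFun h2 j) i
  rw [Matrix.mul_apply, Matrix.one_apply] at h3
  have h4 : (if i = j then (1 : ℝ) else 0) = if j = i then 1 else 0 := by
    simp only [eq_comm]
  rw [h4, ← h3]
  refine Finset.sum_congr rfl fun a _ => ?_
  rw [Matrix.of_apply, Matrix.of_apply, mul_comm]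

variable {T : Type} [AddCommGroup T] [Module ℝ T] (B : T →ₗ[ℝ] T →ₗ[ℝ] ℝ) (E : ι → T)
  (nu : γ → ι → ℝ) (s : κ → ι → ℝ)

theorem B_sum (x y : ι → ℝ) : B (∑ i, x i • E i) (∑ j, y j • E j) =
    ∑ i, ∑ j, x i * B (E i) (E j) * y j := by
  have e1 : B (∑ i, x i • E i) = ∑ i, x i • B (E i) := by
    rw [map_sum]
    exact Finset.sum_congr rfl fun i _ => by rw [map_smul]
  rw [e1, LinearMap.sum_apply]
  refine Finset.sum_congr rfl fun i _ => ?_
  rw [LinearMap.smul_apply, map_sum, smul_eq_mul, Finset.mul_sum]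
  refine Finset.sum_congr rfl fun j _ => ?_
  rw [map_smul, smul_eq_mul]
  ring

/-- the big metric -/
def GG (i j : ι) : ℝ := B (E i) (E j) + ∑ c, nu c i * nu c j

theorem GG_sum (x y : ι → ℝ) : ∑ i, ∑ j, x i * GG B E nu i j * y j =
    B (∑ i, x i • E i) (∑ j, y j • E j) + ∑ c, (∑ i, x i * nu c i) * (∑ j, y j * nu c j) := by
  rw [B_sum]
  have h : ∑ c, (∑ i, x i * nu c i) * (∑ j, y j * nu c j) =
      ∑ i, ∑ j, x i * (∑ c, nu c i * nu c j) * y j := by
    rw [Finset.sum_congr rfl fun c _ => Finset.sum_mul_sum _ _ _ _, Finset.sum_comm]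
    refine Finset.sum_congr rfl fun i _ => ?_
    rw [Finset.sum_comm]
    refine Finset.sum_congr rfl fun j _ => ?_
    rw [Finset.mul_sum, Finset.sum_mul]
    refine Finset.sum_congr rfl fun c _ => ?_
    ring
  rw [h, ← Finset.sum_add_distrib]
  refine Finset.sum_congr rfl fun i _ => ?_
  rw [← Finset.sum_add_distrib]
  refine Finset.sum_congr rfl fun j _ => ?_
  unfold GG
  ring

theorem GG_apply (x : ι → ℝ) (j : ι) : ∑ k, GG B E nu j k * x k =
    B (E j) (∑ k, x k • E k) + ∑ c, nu c j * (∑ k, x k * nu c k) := by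
  have h := GG_sum B E nu (fun i => if i = j then 1 else 0) x
  simpa [Finset.mul_sum, mul_comm] using h

/-- the normal vectors are fixed -/
theorem GG_nu (hE : ∀ c, ∑ i, nu c i • E i = 0)
    (hn : ∀ c c', ∑ i, nu c i * nu c' i = if c = c' then 1 else 0) (c : γ) (j : ι) :
    ∑ k, GG B E nu j k * nu c k = nu c j := by
  rw [GG_apply, hE, map_zero, zero_add]
  have h : ∀ c', nu c' j * (∑ k, nu c k * nu c' k) = if c = c' then nu c' j else 0 := by
    intro c'
    rw [hn]
    split_ifs <;> simp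
  rw [Finset.sum_congr rfl fun c' _ => h c', Finset.sum_ite_eq]
  simp

/-- `sᵀ s G x = x` -/
theorem ssG (h2 : ∀ i j, ∑ a, s a i * ∑ k, GG B E nu j k * s a k = if i = j then 1 else 0)
    (hG : ∀ i j, GG B E nu i j = GG B E nu j i) (x : ι → ℝ) (i : ι) :
    ∑ a, s a i * ∑ k, s a k * (∑ j, GG B E nu k j * x j) = x i := by
  have h3 : ∀ a, s a i * ∑ k, s a k * (∑ j, GG B E nu k j * x j) =
      ∑ j, (s a i * ∑ k, GG B E nu j k * s a k) * x j := by
    intro a
    simp only [Finset.mul_sum, Finset.sum_mul]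
    rw [Finset.sum_comm]
    refine Finset.sum_congr rfl fun j _ => ?_
    refine Finset.sum_congr rfl fun k _ => ?_
    rw [hG k j]
    ring
  rw [Finset.sum_congr rfl fun a _ => h3 a, Finset.sum_comm]
  have h4 : ∀ j, ∑ a, (s a i * ∑ k, GG B E nu j k * s a k) * x j =
      if i = j then x j else 0 := by
    intro j
    rw [← Finset.sum_mul, h2]
    split_ifs <;> simp
  rw [Finset.sum_congr rfl fun j _ => h4 j, Finset.sum_ite_eq]
  simp

theorem ss_nu (h2 : ∀ i j, ∑ a, s a i * ∑ k, GG B E nu j k * s a k = if i = j then 1 else 0)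
    (hG : ∀ i j, GG B E nu i j = GG B E nu j i) (hE : ∀ c, ∑ i, nu c i • E i = 0)
    (hn : ∀ c c', ∑ i, nu c i * nu c' i = if c = c' then 1 else 0) (c : γ) (i : ι) :
    ∑ a, s a i * ∑ k, s a k * nu c k = nu c i := by
  have h := ssG B E nu s h2 hG (nu c) i
  simp only [GG_nu B E nu hE hn] at h
  exact h

theorem swap_sum (w : κ → ℝ) : ∑ b, w b • (∑ j, s b j • E j) =
    ∑ j, (∑ b, s b j * w b) • E j := by
  simp only [Finset.smul_sum, Finset.sum_smul, smul_smul]
  rw [Finset.sum_comm]
  refine Finset.sum_congr rfl fun j _ => ?_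
  refine Finset.sum_congr rfl fun b _ => ?_
  rw [mul_comm]

end lin

/-! ### the metric at a point -/

/-- the metric at a point as a bilinear form -/
def BL (g : Met n) (p : MM n) :
    TangentSpace (IM n) p →ₗ[ℝ] TangentSpace (IM n) p →ₗ[ℝ] ℝ :=
  LinearMap.mk₂ ℝ (fun v w => g.inner p v w)
    (fun v v' w => by rw [map_add]; rfl)
    (fun c v w => by rw [map_smul]; rfl)
    (fun v w w' => map_add _ _ _)
    (fun c v w => map_smul _ _ _)

theorem BL_apply (g : Met n) (p : MM n) (v w : TangentSpace (IM n) p) :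
    BL g p v w = g.inner p v w := rfl

/-- the big metric -/
def Gg (g : Met n) (i j : Ix n) : SmA n :=
  (⟨gi g (EE i) (EE j), gi_smooth (EE_smooth i) (EE_smooth j)⟩ : SmA n)
    + ∑ c, nn n c i * nn n c j

/-- the big metric at a point -/
abbrev Gp (g : Met n) (p : MM n) (i j : Ix n) : ℝ :=
  GG (T := TangentSpace (IM n) p) (BL g p) (fun i => EE i p) (nv p) i j

theorem ev_Gg (g : Met n) (p : MM n) (i j : Ix n) : ev p (Gg g i j) = Gp g p i j := by
  unfold Gg
  rw [map_add, map_sum]
  simp only [map_mul]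
  rfl

theorem Gp_symm (g : Met n) (p : MM n) (i j : Ix n) : Gp g p i j = Gp g p j i := by
  unfold Gp GG
  rw [BL_apply, BL_apply, g.symm p (EE i p) (EE j p)]
  simp only [mul_comm]

theorem Gg_symm (g : Met n) (i j : Ix n) : Gg g i j = Gg g j i := by
  apply ext_ev
  intro p
  rw [ev_Gg, ev_Gg, Gp_symm]

theorem Gp_pos (g : Met n) (p : MM n) (x : Ix n → ℝ) (hx : x ≠ 0) :
    0 < ∑ i, ∑ j, x i * Gp g p i j * x j := by
  have h := GG_sum (T := TangentSpace (IM n) p) (BL g p) (fun i => EE i p) (nv p) x x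
  rw [h, BL_apply]
  by_cases hX : (∑ i, x i • EE i p) = 0
  · rw [hX, map_zero, zero_add]
    by_contra hc
    push Not at hc
    have h0 : ∀ c ∈ (Finset.univ : Finset (Fin 2)),
        (∑ i, x i * nv p c i) * (∑ i, x i * nv p c i) = 0 := by
      have h1 : ∑ c, (∑ i, x i * nv p c i) * (∑ i, x i * nv p c i) = 0 :=
        le_antisymm hc (Finset.sum_nonneg fun c _ => mul_self_nonneg _)
      exact (Finset.sum_eq_zero_iff_of_nonneg fun c _ => mul_self_nonneg _).1 h1
    apply hx
    funext k
    have h2 := cxd_sum p x k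
    rw [hX, map_zero] at h2
    have h3 : ∑ c, (∑ i, x i * nv p c i) * nv p c k = 0 :=
      Finset.sum_eq_zero fun c hc => by
        rw [mul_self_eq_zero.1 (h0 c hc), zero_mul]
    rw [h3, sub_zero] at h2
    exact h2.symm
  · have h1 := g.pos p (∑ i, x i • EE i p) hX
    have h2 : 0 ≤ ∑ c, (∑ i, x i * nv p c i) * (∑ i, x i * nv p c i) :=
      Finset.sum_nonneg fun c _ => mul_self_nonneg _
    linarith

theorem posDef (g : Met n) (p : MM n) :
    (Matrix.of fun i j : Fin (2 * n + 2) => ev p (Gg g (ix n i) (ix n j))).PosDef := by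
  apply Matrix.PosDef.of_dotProduct_mulVec_pos
  · ext i j
    rw [Matrix.conjTranspose_apply, Matrix.of_apply, Matrix.of_apply, Gg_symm]
    rfl
  · intro x hx
    have hy : (fun k => x ((ix n).symm k)) ≠ 0 := by
      intro h
      apply hx
      funext i
      have := congrFun h (ix n i)
      simpa using this
    have h := Gp_pos g p _ hy
    rw [← Equiv.sum_comp (ix n)] at h
    refine lt_of_lt_of_eq h ?_
    show _ = ∑ i, star (x i) * (∑ j, ev p (Gg g (ix n i) (ix n j)) * x j)
    refine Finset.sum_congr rfl fun i _ => ?_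
    rw [← Equiv.sum_comp (ix n), Finset.mul_sum]
    refine Finset.sum_congr rfl fun j _ => ?_
    rw [ev_Gg, Equiv.symm_apply_apply, Equiv.symm_apply_apply, star_trivial]
    ring

end Pool.Agent.H781.NG.Tf

namespace Pool.Agent.H781.NG

open Pool.Agent.H821R2 Pool.Agent.H821R3 Pool.Agent.H893R5.HO Pool.Agent.H781.S22
open Tf

theorem s_br : S_BR := by
  intro n hn i j p
  apply ext_cx
  intro k
  rw [br_cx hn, ev_EDED, ev_EDED, map_smul, map_sub, map_smul, map_smul, cxd, cxd]
  simp only [smul_eq_mul]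
  have h1 := dl_comm i j
  have h2 := dl_comm i k
  have h3 := dl_comm j k
  rcases i with i | i <;> rcases j with j | j <;> rcases k with k | k <;>
    simp only [blk, dl_lr, dl_rl] at * <;> (try rw [h1]) <;> ring

theorem s_tf (hc : S_CHOL) : S_TF := by
  intro n hn g
  obtain ⟨S', hS, hdet⟩ := hc n (2 * n + 2) (fun i j => Gg g (ix n i) (ix n j))
    (fun i j => Gg_symm g _ _) (posDef g)
  set S : Fin (2 * n + 2) → Ix n → SmA n := fun b i => S' b ((ix n).symm i) with hSdef
  -- values at a point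
  have h1 : ∀ (p : MM n) (a b : Fin (2 * n + 2)),
      ∑ i, ∑ j, ev p (S a i) * Gp g p i j * ev p (S b j) = if a = b then 1 else 0 := by
    intro p a b
    have h := congrArg (ev p) (hS a b)
    rw [map_sum] at h
    have e : ev p (if a = b then 1 else 0 : SmA n) = if a = b then 1 else 0 := by
      split_ifs <;> simp
    rw [e] at h
    rw [← h, ← Equiv.sum_comp (ix n)]
    refine Finset.sum_congr rfl fun i _ => ?_
    rw [map_sum, ← Equiv.sum_comp (ix n)]
    refine Finset.sum_congr rfl fun j _ => ?_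
    rw [map_mul, map_mul, ev_Gg, hSdef]
    simp only [Equiv.symm_apply_apply]
  have h2 : ∀ (p : MM n) (i j : Ix n),
      ∑ a, ev p (S a i) * ∑ k, Gp g p j k * ev p (S a k) = if i = j then 1 else 0 := fun p =>
    lin1 (ix n) (fun a i => ev p (S a i)) (Gp g p) (h1 p)
  have hnu : ∀ (p : MM n) (c : Fin 2) (b : Fin (2 * n + 2)),
      ev p (nuS S c b) = ∑ i, ev p (S b i) * nv p c i := by
    intro p c b
    unfold nuS
    rw [map_sum]
    exact Finset.sum_congr rfl fun i _ => map_mul _ _ _
  have hss : ∀ (p : MM n) (c : Fin 2) (i : Ix n),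
      ∑ a, ev p (S a i) * ∑ k, ev p (S a k) * nv p c k = nv p c i := fun p =>
    ss_nu (T := TangentSpace (IM n) p) (BL g p) (fun i => EE i p) (nv p)
      (fun a i => ev p (S a i)) (h2 p) (Gp_symm g p) (nv_E p) (nv_on p)
  refine ⟨⟨S, ?_, ?_, ?_, ?_, ?_, ?_⟩⟩
  · intro p
    have h := hdet p
    rw [AlgHom.map_det]
    refine lt_of_lt_of_eq h ?_
    congr 1
    ext a b
    simp [hSdef]
  · intro p a b
    rw [← h1 p a b, GG_sum]
    simp only [hnu]
    rfl
  · intro p v
    have hx := repr_EE p v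
    set x : Ix n → ℝ := fun k => mvfderiv (IM n) (cx k) p v with hxdef
    have hB : ∀ j, g.inner p (EE j p) v = ∑ k, Gp g p j k * x k := by
      intro j
      have h := GG_apply (T := TangentSpace (IM n) p) (BL g p) (fun i => EE i p) (nv p) x j
      have h3 : ∀ c, ∑ k, x k * nv p c k = 0 := fun c => tan_perp p v c
      simp only [h3, mul_zero, Finset.sum_const_zero, add_zero] at h
      rw [h, BL_apply]
      exact congrArg _ hx.symm
    have hw : ∀ b, g.inner p v (fld (S b) p) =
        ∑ j, ev p (S b j) * ∑ k, Gp g p j k * x k := by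
      intro b
      rw [g.symm]
      change BL g p (∑ j, ev p (S b j) • EE j p) v = _
      rw [map_sum, LinearMap.sum_apply]
      refine Finset.sum_congr rfl fun j _ => ?_
      rw [map_smul, LinearMap.smul_apply, smul_eq_mul, BL_apply, hB]
    simp only [hw]
    have h := swap_sum (T := TangentSpace (IM n) p) (fun i => EE i p)
      (fun a i => ev p (S a i)) (fun b => ∑ j, ev p (S b j) * ∑ k, Gp g p j k * x k)
    refine h.trans ?_
    refine Eq.trans ?_ hx
    refine Finset.sum_congr rfl fun i _ => ?_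
    have h4 := ssG (T := TangentSpace (IM n) p) (BL g p) (fun i => EE i p) (nv p)
      (fun a i => ev p (S a i)) (h2 p) (Gp_symm g p) x i
    rw [h4]
  · intro p c
    simp only [hnu]
    have h := swap_sum (T := TangentSpace (IM n) p) (fun i => EE i p)
      (fun a i => ev p (S a i)) (fun b => ∑ i, ev p (S b i) * nv p c i)
    refine h.trans ?_
    rw [← nv_E p c]
    exact Finset.sum_congr rfl fun i _ => by rw [hss]
  · intro c c'
    apply ext_ev
    intro p
    have e : ev p (if c = c' then 1 else 0 : SmA n) = if c = c' then 1 else 0 := by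
      split_ifs <;> simp
    rw [e, map_sum, ← nv_on p c c']
    have h3 : ∀ b, ev p (nuS S c b * nuS S c' b) =
        ∑ j, (ev p (S b j) * ∑ k, ev p (S b k) * nv p c k) * nv p c' j := by
      intro b
      rw [map_mul, hnu, hnu, Finset.mul_sum]
      exact Finset.sum_congr rfl fun j _ => by ring
    rw [Finset.sum_congr rfl fun b _ => h3 b, Finset.sum_comm]
    refine Finset.sum_congr rfl fun j _ => ?_
    rw [← Finset.sum_mul, hss]
  · intro p j k
    rw [← h2 p j k]
    refine Finset.sum_congr rfl fun b _ => ?_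
    have h := GG_apply (T := TangentSpace (IM n) p) (BL g p) (fun i => EE i p) (nv p)
      (fun i => ev p (S b i)) k
    simp only [hnu]
    refine congrArg (fun t => ev p (S b j) * t) ?_
    exact h.symm

end Pool.Agent.H781.NG
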