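import Pool.Agent.H781.NG.Spec

/-!
`S_TOP`: a closed form with non-zero period.
-/

open Bundle Manifold ContDiff VectorField Metric MeasureTheory Filter
open scoped Topology RealInnerProductSpace

set_option autoImplicit false
set_option synthInstance.maxHeartbeats 400000
set_option maxHeartbeats 4000000

noncomputable section

namespace Pool.Agent.H781.NG

open Pool.Agent.H821R2 Pool.Agent.H821R3 Pool.Agent.H893R5.HO Pool.Agent.H781.S22

namespace Top

/-! ### Products of exterior multiplications -/

section fock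

variable {N : ℕ} {A : Type} [CommRing A]

/-- exterior multiplication by a vector -/
def cv (v : Fin N → A) : Module.End A (Fk N A) := ∑ a, v a • cr a

theorem cv_apply (v : Fin N → A) (u : Fk N A) : cv v u = ∑ a, v a • cr a u := by
  simp [cv, LinearMap.sum_apply]

theorem cv_add (v w : Fin N → A) : cv (v + w) = cv v + cv w := by
  unfold cv
  rw [← Finset.sum_add_distrib]
  exact Finset.sum_congr rfl fun a _ => by rw [Pi.add_apply, add_smul]

theorem cv_smul (c : A) (v : Fin N → A) : cv (c • v) = c • cv v := by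
  unfold cv
  rw [Finset.smul_sum]
  exact Finset.sum_congr rfl fun a _ => by rw [Pi.smul_apply, smul_eq_mul, mul_smul]

theorem cv_cv (v w : Fin N → A) (u : Fk N A) : cv v (cv w u) = - cv w (cv v u) := by
  have h1 : ∀ v w : Fin N → A, cv v (cv w u) = ∑ a, ∑ b, (v a * w b) • cr a (cr b u) := by
    intro v w
    rw [cv_apply]
    refine Finset.sum_congr rfl fun a _ => ?_
    rw [cv_apply, map_sum, Finset.smul_sum]
    refine Finset.sum_congr rfl fun b _ => ?_
    rw [map_smul, smul_smul]
  rw [h1, h1, Finset.sum_comm, ← Finset.sum_neg_distrib]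
  refine Finset.sum_congr rfl fun a _ => ?_
  rw [← Finset.sum_neg_distrib]
  refine Finset.sum_congr rfl fun b _ => ?_
  rw [cr_cr b a u, smul_neg, mul_comm]

theorem cv_self [Algebra ℝ A] (v : Fin N → A) (u : Fk N A) : cv v (cv v u) = 0 := by
  have h := cv_cv v v u
  have h2 : (2 : ℝ) • cv v (cv v u) = 0 := by
    rw [two_smul]
    nth_rewrite 1 [h]
    rw [neg_add_cancel]
  have h3 : cv v (cv v u) = (1 / 2 : ℝ) • ((2 : ℝ) • cv v (cv v u)) := by
    rw [smul_smul]; norm_num
  rw [h3, h2, smul_zero]

/-- `cv` as a linear map -/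
def cvL (N : ℕ) (A : Type) [CommRing A] : (Fin N → A) →ₗ[A] Module.End A (Fk N A) where
  toFun := cv
  map_add' := cv_add
  map_smul' := cv_smul

variable [Algebra ℝ A]

/-- the exterior algebra acts on the Fock space -/
def Phi (N : ℕ) (A : Type) [CommRing A] [Algebra ℝ A] :
    ExteriorAlgebra A (Fin N → A) →ₐ[A] Module.End A (Fk N A) :=
  ExteriorAlgebra.lift A ⟨cvL N A, fun v => LinearMap.ext fun u => cv_self v u⟩

/-- the product of `k` exterior multiplications is alternating -/
def ME (N : ℕ) (A : Type) [CommRing A] [Algebra ℝ A] (k : ℕ) :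
    (Fin N → A) [⋀^Fin k]→ₗ[A] Module.End A (Fk N A) :=
  (Phi N A).toLinearMap.compAlternatingMap (ExteriorAlgebra.ιMulti A k)

theorem ME_apply (k : ℕ) (v : Fin k → Fin N → A) :
    ME N A k v = (List.ofFn fun i => cv (v i)).prod := by
  unfold ME
  rw [LinearMap.compAlternatingMap_apply, ExteriorAlgebra.ιMulti_apply, AlgHom.toLinearMap_apply,
    map_list_prod, List.map_ofFn]
  congr 1
  congr 1
  funext i
  exact ExteriorAlgebra.lift_ι_apply A _ _ _

/-- an alternating map vanishes on a family with a unimodular relation -/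
theorem alt_zero {V W : Type} [AddCommGroup V] [Module A V] [AddCommGroup W] [Module A W] {k : ℕ}
    (M : V [⋀^Fin k]→ₗ[A] W) (w : Fin k → V) (z : Fin k → A) (h : ∑ i, z i • w i = 0)
    (hz : ∑ i, z i * z i = 1) : M w = 0 := by
  have h1 : ∀ j, z j • M w = 0 := by
    intro j
    have h2 : M (Function.update w j (∑ i, z i • w i)) = 0 := by
      rw [h]
      exact M.map_update_zero w j
    rw [M.map_update_sum] at h2
    rw [Finset.sum_eq_single j] at h2
    · rw [M.map_update_smul, Function.update_eq_self] at h2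
      exact h2
    · intro i _ hij
      rw [M.map_update_smul]
      have : M (Function.update w j (w i)) = 0 :=
        M.map_eq_zero_of_eq _ (i := i) (j := j)
          (by rw [Function.update_of_ne hij, Function.update_self]) hij
      rw [this, smul_zero]
    · intro hj
      exact absurd (Finset.mem_univ j) hj
  calc M w = (∑ i, z i * z i) • M w := by rw [hz, one_smul]
    _ = ∑ i, z i • (z i • M w) := by
        rw [Finset.sum_smul]
        exact Finset.sum_congr rfl fun i _ => mul_smul _ _ _
    _ = 0 := by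
        refine Finset.sum_eq_zero fun i _ => ?_
        rw [h1, smul_zero]

/-- degree -/
def Deg (r : ℕ) (u : Fk N A) : Prop := ∀ S : Finset (Fin N), S.card ≠ r → u S = 0

omit [Algebra ℝ A] in
theorem deg_vac : Deg 0 (vac : Fk N A) := by
  intro S hS
  unfold vac
  rw [if_neg]
  rintro rfl
  exact hS rfl

omit [Algebra ℝ A] in
theorem deg_cv {r : ℕ} {u : Fk N A} (h : Deg r u) (v : Fin N → A) : Deg (r + 1) (cv v u) := by
  intro S hS
  rw [cv_apply, Finset.sum_apply]
  refine Finset.sum_eq_zero fun a _ => ?_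
  rw [Pi.smul_apply, cr_apply]
  split_ifs with ha
  · rw [h (S.erase a), mul_zero, smul_zero]
    rw [Finset.card_erase_of_mem ha]
    have := Finset.card_pos.2 ⟨a, ha⟩
    omega
  · rw [smul_zero]

omit [Algebra ℝ A] in
theorem deg_prod {r : ℕ} {u : Fk N A} (h : Deg r u) : ∀ l : List (Fin N → A),
    Deg (r + l.length) ((l.map cv).prod u)
  | [] => by simpa using h
  | v :: l => by
    have h1 := deg_cv (deg_prod h l) v
    rw [List.map_cons, List.prod_cons, List.length_cons, Module.End.mul_apply, ← add_assoc]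
    exact h1

/-- increasing products of creation operators -/
theorem cr_prod (l : List (Fin N)) (hl : l.Pairwise (· < ·)) :
    (l.map fun i => (cr i : Fk N A →ₗ[A] Fk N A)).foldr (fun f w => f w) (vac : Fk N A) =
      fun S => if S = l.toFinset then 1 else 0 := by
  induction l with
  | nil => rfl
  | cons i l ih =>
    rw [List.pairwise_cons] at hl
    rw [List.map_cons, List.foldr_cons, ih hl.2]
    funext S
    rw [cr_apply, List.toFinset_cons]
    have hi : i ∉ l.toFinset := by
      intro h
      exact lt_irrefl _ (hl.1 i (List.mem_toFinset.1 h))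
    by_cases hiS : i ∈ S
    · rw [if_pos hiS]
      by_cases he : S.erase i = l.toFinset
      · have hS : S = insert i l.toFinset := by rw [← he, Finset.insert_erase hiS]
        rw [if_pos he, if_pos hS, mul_one]
        have hsg : sg i S = 1 := by
          unfold sg
          have : S.filter (· < i) = ∅ := by
            rw [Finset.filter_eq_empty_iff]
            intro j hj hji
            rw [hS, Finset.mem_insert] at hj
            rcases hj with rfl | hj
            · exact lt_irrefl _ hji
            · exact lt_asymm hji (hl.1 j (List.mem_toFinset.1 hj))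
          rw [this]
          rfl
        rw [hsg, Int.cast_one]
      · have hS : S ≠ insert i l.toFinset := by
          rintro rfl
          exact he (Finset.erase_insert hi)
        rw [if_neg he, if_neg hS, mul_zero]
    · rw [if_neg hiS]
      have hS : S ≠ insert i l.toFinset := by
        rintro rfl
        exact hiS (Finset.mem_insert_self _ _)
      rw [if_neg hS]

omit [Algebra ℝ A] in
theorem prod_apply (l : List (Module.End A (Fk N A))) (u : Fk N A) :
    l.prod u = l.foldr (fun f w => f w) u := by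
  induction l with
  | nil => rfl
  | cons f l ih => rw [List.prod_cons, Module.End.mul_apply, ih, List.foldr_cons]

omit [Algebra ℝ A] in
theorem cv_single (i : Fin N) : cv (Pi.single i (1 : A)) = cr i := by
  unfold cv
  rw [Finset.sum_eq_single i]
  · rw [Pi.single_eq_same, one_smul]
  · intro j _ hj
    rw [Pi.single_eq_of_ne hj, zero_smul]
  · intro h
    exact absurd (Finset.mem_univ i) h

theorem ip_basis : ip (ME N A N (fun i => Pi.single i (1 : A)) vac) topf = 1 := by
  rw [ME_apply]
  simp only [cv_single]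
  rw [prod_apply, List.ofFn_eq_map, cr_prod _ (List.pairwise_lt_finRange N), List.toFinset_finRange]
  unfold ip topf
  rw [Finset.sum_eq_single Finset.univ]
  · simp
  · intro S _ hS
    simp [hS]
  · intro h
    exact absurd (Finset.mem_univ _) h

/-- the scalar alternating map -/
def fA (N : ℕ) (A : Type) [CommRing A] [Algebra ℝ A] : (Fin N → A) [⋀^Fin N]→ₗ[A] A :=
  LinearMap.compAlternatingMap
    ({ toFun := fun T => ip (T vac) topf
       map_add' := fun S T => by rw [LinearMap.add_apply, ip_add_left]
       map_smul' := fun c T => by rw [LinearMap.smul_apply, ip_smul_left]; rfl } :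
      Module.End A (Fk N A) →ₗ[A] A) (ME N A N)

theorem fA_apply (v : Fin N → Fin N → A) : fA N A v = ip (ME N A N v vac) topf := rfl

theorem ME_det (v : Fin N → Fin N → A) : ip (ME N A N v vac) topf = (Matrix.of v).det := by
  have h := AlternatingMap.eq_smul_basis_det (Pi.basisFun A (Fin N)) (fA N A)
  have h1 : fA N A v = fA N A (Pi.basisFun A (Fin N)) * (Matrix.of v).det := by
    conv_lhs => rw [h]
    rw [AlternatingMap.smul_apply, smul_eq_mul, Pi.basisFun_det_apply]
  have h2 : fA N A (Pi.basisFun A (Fin N)) = 1 := by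
    have e : (⇑(Pi.basisFun A (Fin N)) : Fin N → Fin N → A) = fun i => Pi.single i (1 : A) := by
      funext i
      rw [Pi.basisFun_apply]
    rw [e, fA_apply]
    exact ip_basis
  rw [h2, one_mul, fA_apply] at h1
  exact h1

theorem ME_det' {K : ℕ} (hK : K = N) (v : Fin K → Fin N → A) :
    ip (ME N A K v vac) topf = (Matrix.of fun i => v (Fin.cast hK.symm i)).det := by
  subst hK
  exact ME_det v

end fock

/-! ### Frames -/

section frame

variable {N : ℕ} {A : Type} [CommRing A] [Algebra ℝ A] (F : Fr N A)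

/-- the gradient -/
def gr (f : A) : Fin N → A := fun a => F.e a f

theorem nab_add (a : Fin N) (u v : Fk N A) : nab F a (u + v) = nab F a u + nab F a v := by
  unfold nab gam
  have h : ∑ b, ∑ c, F.Γ a b c • cr c (an b (u + v)) =
      ∑ b, ∑ c, F.Γ a b c • cr c (an b u) + ∑ b, ∑ c, F.Γ a b c • cr c (an b v) := by
    rw [← Finset.sum_add_distrib]
    refine Finset.sum_congr rfl fun b _ => ?_
    rw [← Finset.sum_add_distrib]
    refine Finset.sum_congr rfl fun c _ => ?_
    rw [map_add, map_add, smul_add]
  rw [h]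
  have h2 : (fun S => F.e a ((u + v) S)) = (fun S => F.e a (u S)) + fun S => F.e a (v S) := by
    funext S
    rw [Pi.add_apply, Pi.add_apply, map_add]
  rw [h2]
  abel

theorem nab_smul (a : Fin N) (f : A) (u : Fk N A) :
    nab F a (f • u) = F.e a f • u + f • nab F a u := by
  unfold nab gam
  have h : ∑ b, ∑ c, F.Γ a b c • cr c (an b (f • u)) =
      f • ∑ b, ∑ c, F.Γ a b c • cr c (an b u) := by
    rw [Finset.smul_sum]
    refine Finset.sum_congr rfl fun b _ => ?_
    rw [Finset.smul_sum]
    refine Finset.sum_congr rfl fun c _ => ?_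
    rw [map_smul, map_smul, smul_comm]
  rw [h]
  have h2 : (fun S => F.e a ((f • u) S)) = F.e a f • u + f • fun S => F.e a (u S) := by
    funext S
    rw [Pi.smul_apply, smul_eq_mul, Derivation.leibniz, Pi.add_apply, Pi.smul_apply, Pi.smul_apply]
    simp only [smul_eq_mul]
    ring
  rw [h2, smul_add]
  abel

theorem dd_add (u v : Fk N A) : dd F (u + v) = dd F u + dd F v := by
  unfold dd
  rw [← Finset.sum_add_distrib]
  exact Finset.sum_congr rfl fun a _ => by rw [nab_add, map_add]

theorem dd_smul (f : A) (u : Fk N A) : dd F (f • u) = cv (gr F f) u + f • dd F u := by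
  unfold dd
  rw [cv_apply, Finset.smul_sum, ← Finset.sum_add_distrib]
  refine Finset.sum_congr rfl fun a _ => ?_
  rw [nab_smul, map_add, map_smul, map_smul]
  rfl

theorem dd_zero : dd F (0 : Fk N A) = 0 := by
  have h := dd_add F 0 0
  rw [add_zero] at h
  exact left_eq_add.1 h

theorem dd_neg (u : Fk N A) : dd F (-u) = - dd F u := by
  have h := dd_add F u (-u)
  rw [add_neg_cancel, dd_zero] at h
  exact (neg_eq_of_add_eq_zero_right h.symm).symm

variable {F} in
theorem dd_gr (hdd : ∀ u : Fk N A, dd F (dd F u) = 0) (f : A) (u : Fk N A) :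
    dd F (cv (gr F f) u) = - cv (gr F f) (dd F u) := by
  have h1 : cv (gr F f) u = dd F (f • u) - f • dd F u := by
    rw [dd_smul, add_sub_cancel_right]
  rw [h1, sub_eq_add_neg, dd_add, dd_neg, hdd, dd_smul, hdd, smul_zero, add_zero, zero_add]

variable {F} in
theorem dd_prod (hdd : ∀ u : Fk N A, dd F (dd F u) = 0) (u : Fk N A) : ∀ l : List A,
    dd F ((l.map fun f => cv (gr F f)).prod u) =
      (-1 : ℤ) ^ l.length • (l.map fun f => cv (gr F f)).prod (dd F u)
  | [] => by simp
  | f :: l => by
    rw [List.map_cons, List.prod_cons, Module.End.mul_apply, dd_gr hdd, dd_prod hdd u l,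
      List.length_cons, Module.End.mul_apply, pow_succ, map_zsmul]
    rw [mul_neg_one, neg_smul]

theorem nab_vac (a : Fin N) : nab F a (vac : Fk N A) = 0 := by
  unfold nab gam
  have h1 : (fun S => F.e a ((vac : Fk N A) S)) = 0 := by
    funext S
    unfold vac
    split_ifs
    · rw [Derivation.map_one_eq_zero]; rfl
    · rw [map_zero]; rfl
  rw [h1, zero_add]
  refine Finset.sum_eq_zero fun b _ => Finset.sum_eq_zero fun c _ => ?_
  rw [an_vac, map_zero, smul_zero]

theorem dd_vac : dd F (vac : Fk N A) = 0 := by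
  unfold dd
  refine Finset.sum_eq_zero fun a _ => ?_
  rw [nab_vac, map_zero]

theorem nab_topf (a : Fin N) : nab F a (topf : Fk N A) = 0 := by
  unfold nab gam
  have h1 : (fun S => F.e a ((topf : Fk N A) S)) = 0 := by
    funext S
    unfold topf
    split_ifs
    · rw [Derivation.map_one_eq_zero]; rfl
    · rw [map_zero]; rfl
  have hG : ∀ b, F.Γ a b b = 0 := by
    intro b
    have h := F.anti a b b
    have h2 : (2 : ℝ) • F.Γ a b b = 0 := by
      rw [two_smul]
      nth_rewrite 1 [h]
      rw [neg_add_cancel]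
    have h3 : F.Γ a b b = (1 / 2 : ℝ) • ((2 : ℝ) • F.Γ a b b) := by
      rw [smul_smul]; norm_num
    rw [h3, h2, smul_zero]
  rw [h1, zero_add]
  refine Finset.sum_eq_zero fun b _ => ?_
  have h2 : ∀ c, F.Γ a b c • cr c (an b (topf : Fk N A)) =
      if b = c then F.Γ a b c • (topf : Fk N A) else 0 := by
    intro c
    have h3 := an_cr b c (topf : Fk N A)
    rw [cr_topf, map_zero] at h3
    have h4 : cr c (an b (topf : Fk N A)) = if b = c then topf else 0 := (sub_eq_zero.1 h3.symm).symm
    rw [h4]
    split_ifs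
    · rfl
    · rw [smul_zero]
  simp only [h2, Finset.sum_ite_eq, Finset.mem_univ, if_true, hG, zero_smul]

theorem gam_an (a c : Fin N) (u : Fk N A) :
    gam F a (an c u) = an c (gam F a u) - ∑ b, F.Γ a b c • an b u := by
  unfold gam
  rw [map_sum, ← Finset.sum_sub_distrib]
  refine Finset.sum_congr rfl fun b _ => ?_
  rw [map_sum]
  have h1 : ∀ d, F.Γ a b d • cr d (an b (an c u)) =
      an c (F.Γ a b d • cr d (an b u)) - if c = d then F.Γ a b d • an b u else 0 := by
    intro d
    rw [map_smul, an_cr, an_an b c u, map_neg]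
    split_ifs
    · rw [smul_neg, smul_sub]; abel
    · rw [smul_neg, smul_sub, smul_zero]; abel
  simp only [h1, Finset.sum_sub_distrib, Finset.sum_ite_eq, Finset.mem_univ, if_true]

theorem nab_an (a c : Fin N) (u : Fk N A) :
    nab F a (an c u) = an c (nab F a u) - ∑ b, F.Γ a b c • an b u := by
  unfold nab
  rw [gam_an, map_add, add_sub_assoc]
  congr 1
  funext S
  rw [an_apply, an_apply]
  split_ifs
  · rw [map_zero]
  · rw [Derivation.leibniz, Derivation.map_intCast, smul_zero, add_zero, smul_eq_mul]

theorem nab_zero (a : Fin N) : nab F a (0 : Fk N A) = 0 := by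
  have h := nab_add F a 0 0
  rw [add_zero] at h
  exact left_eq_add.1 h

theorem nab_sum {ι : Type} (s : Finset ι) (a : Fin N) (f : ι → Fk N A) :
    nab F a (∑ i ∈ s, f i) = ∑ i ∈ s, nab F a (f i) := by
  classical
  induction s using Finset.induction_on with
  | empty => rw [Finset.sum_empty, Finset.sum_empty, nab_zero]
  | insert i s hi ih => rw [Finset.sum_insert hi, Finset.sum_insert hi, nab_add, ih]

end frame

/-! ### The frame of the product of spheres -/

section geo

variable {n k : ℕ} {μ : Measure (MM n)} (D : GeoDat n k μ)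

theorem anu_smul (a : Fin 2) (f : SmA n) (u : Fk (2 * n + 2) (SmA n)) :
    anu D a (f • u) = f • anu D a u := by
  unfold anu
  rw [Finset.smul_sum]
  exact Finset.sum_congr rfl fun b _ => by rw [map_smul, smul_comm]

theorem anu_cv (a : Fin 2) (v : Fin (2 * n + 2) → SmA n) (u : Fk (2 * n + 2) (SmA n)) :
    anu D a (cv v u) = (∑ b, D.nu a b * v b) • u - cv v (anu D a u) := by
  have h1 : ∀ b, D.nu a b • an b (cv v u) =
      (D.nu a b * v b) • u - ∑ c, v c • cr c (D.nu a b • an b u) := by
    intro b
    rw [cv_apply, map_sum, Finset.smul_sum]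
    have h2 : ∀ c, D.nu a b • an b (v c • cr c u) =
        (if b = c then (D.nu a b * v c) • u else 0) - v c • cr c (D.nu a b • an b u) := by
      intro c
      rw [map_smul, an_cr, map_smul]
      split_ifs
      · rw [smul_sub, smul_sub, smul_smul, smul_comm (v c) (D.nu a b)]
      · rw [zero_sub, zero_sub, smul_neg, smul_neg, smul_comm (v c) (D.nu a b)]
    simp only [h2, Finset.sum_sub_distrib, Finset.sum_ite_eq, Finset.mem_univ, if_true]
  unfold anu
  simp only [h1]
  rw [Finset.sum_sub_distrib, Finset.sum_smul, map_sum]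
  congr 1
  exact Finset.sum_congr rfl fun b _ => by rw [cv_apply]

theorem anu_gr (a : Fin 2) (f : SmA n) (u : Fk (2 * n + 2) (SmA n)) :
    anu D a (cv (gr D.F f) u) = - cv (gr D.F f) (anu D a u) := by
  rw [anu_cv]
  have h := D.nu_e a f
  have h' : ∑ b, D.nu a b * gr D.F f b = 0 := h
  rw [h', zero_smul, zero_sub]

theorem anu_vac (a : Fin 2) : anu D a vac = 0 := by
  unfold anu
  exact Finset.sum_eq_zero fun b _ => by rw [an_vac, smul_zero]

theorem anu_prod (a : Fin 2) : ∀ l : List (SmA n),
    anu D a ((l.map fun f => cv (gr D.F f)).prod vac) = 0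
  | [] => anu_vac D a
  | f :: l => by
    rw [List.map_cons, List.prod_cons, Module.End.mul_apply, anu_gr, anu_prod a l, map_zero,
      neg_zero]

theorem nab_anu (a : Fin (2 * n + 2)) (i : Fin 2) (u : Fk (2 * n + 2) (SmA n)) :
    nab D.F a (anu D i u) = anu D i (nab D.F a u) := by
  unfold anu
  rw [nab_sum]
  have h1 : ∀ c, nab D.F a (D.nu i c • an c u) =
      (∑ d, (D.F.Γ a c d * D.nu i d) • an c u) + D.nu i c • an c (nab D.F a u) -
        ∑ b, (D.F.Γ a b c * D.nu i c) • an b u := by
    intro c
    rw [nab_smul, nab_an, D.nu_par, smul_sub, Finset.smul_sum, Finset.sum_smul, add_sub_assoc]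
    congr 2
    exact Finset.sum_congr rfl fun b _ => by rw [smul_smul, mul_comm (D.nu i c)]
  simp only [h1]
  rw [Finset.sum_sub_distrib, Finset.sum_add_distrib, add_sub_right_comm]
  rw [Finset.sum_comm (f := fun c b => (D.F.Γ a b c * D.nu i c) • an b u), sub_self, zero_add]

/-- the volume form -/
def volg : Fk (2 * n + 2) (SmA n) := anu D 0 (anu D 1 topf)

theorem nab_volg (a : Fin (2 * n + 2)) : nab D.F a (volg D) = 0 := by
  unfold volg
  rw [nab_anu, nab_anu, nab_topf]
  have h : ∀ i, anu D i 0 = 0 := by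
    intro i
    unfold anu
    exact Finset.sum_eq_zero fun b _ => by rw [map_zero, smul_zero]
  rw [h, h]

theorem de_volg : de D.F (volg D) = 0 := by
  unfold de
  rw [neg_eq_zero]
  exact Finset.sum_eq_zero fun a _ => by rw [nab_volg, map_zero]

theorem ip_anu (a : Fin 2) (u v : Fk (2 * n + 2) (SmA n)) :
    ip u (anu D a v) = ip (cv (D.nu a) u) v := by
  unfold anu
  rw [ip_sum_right, cv_apply, ip_sum_left]
  exact Finset.sum_congr rfl fun b _ => by rw [ip_smul_right, ip_smul_left, ip_cr]

theorem ip_volg (u : Fk (2 * n + 2) (SmA n)) :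
    ip u (volg D) = ip (cv (D.nu 1) (cv (D.nu 0) u)) topf := by
  unfold volg
  rw [ip_anu, ip_anu]

/-- coordinates of the two factors -/
def zz (n : ℕ) : Bool → Fin (n + 1) → SmA n := fun b i =>
  match b with
  | false => cxA (.inl i)
  | true => cxA (.inr i)

theorem zz_sq (b : Bool) : ∑ i, zz n b i * zz n b i = 1 := by
  apply ext_ev
  intro p
  rw [map_sum, map_one]
  simp only [map_mul]
  cases b
  · have h1 : ‖(p.1 : V n)‖ = 1 := by
      have := p.1.2
      rwa [mem_sphere_zero_iff_norm] at this
    have h2 := EuclideanSpace.real_norm_sq_eq (p.1 : V n)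
    rw [h1] at h2
    have h3 : ∀ i, ev p (zz n false i) = (p.1 : V n) i := fun i => rfl
    simp only [h3]
    rw [one_pow] at h2
    exact (Finset.sum_congr rfl fun i _ => (sq _).symm).trans h2.symm
  · have h1 : ‖(p.2 : V n)‖ = 1 := by
      have := p.2.2
      rwa [mem_sphere_zero_iff_norm] at this
    have h2 := EuclideanSpace.real_norm_sq_eq (p.2 : V n)
    rw [h1] at h2
    have h3 : ∀ i, ev p (zz n true i) = (p.2 : V n) i := fun i => rfl
    simp only [h3]
    rw [one_pow] at h2
    exact (Finset.sum_congr rfl fun i _ => (sq _).symm).trans h2.symm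

theorem ME_zz (b : Bool) : ME (2 * n + 2) (SmA n) (n + 1) (fun i => gr D.F (zz n b i)) = 0 := by
  refine alt_zero (V := Fin (2 * n + 2) → SmA n)
    (W := Module.End (SmA n) (Fk (2 * n + 2) (SmA n))) _ _ (zz n b) ?_ (zz_sq b)
  funext a
  rw [Finset.sum_apply]
  have h1 : D.F.e a (∑ i, zz n b i * zz n b i) = 0 := by
    rw [zz_sq, Derivation.map_one_eq_zero]
  have h2 : D.F.e a (∑ i, zz n b i * zz n b i) =
      (2 : ℝ) • ∑ i, (zz n b i • gr D.F (zz n b i)) a := by
    rw [map_sum, Finset.smul_sum]
    refine Finset.sum_congr rfl fun i _ => ?_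
    rw [Derivation.leibniz, Pi.smul_apply, two_smul]
    rfl
  rw [h2] at h1
  have h3 : ∑ i, (zz n b i • gr D.F (zz n b i)) a =
      (1 / 2 : ℝ) • ((2 : ℝ) • ∑ i, (zz n b i • gr D.F (zz n b i)) a) := by
    rw [smul_smul]; norm_num
  rw [h3, h1, smul_zero]
  rfl

/-- `θ₁ ⋯ θₙ` -/
def tt (b : Bool) : Module.End (SmA n) (Fk (2 * n + 2) (SmA n)) :=
  ((List.ofFn fun i : Fin n => zz n b i.succ).map fun f => cv (gr D.F f)).prod

theorem th_tt (b : Bool) (u : Fk (2 * n + 2) (SmA n)) :
    cv (gr D.F (zz n b 0)) (tt D b u) = 0 := by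
  have h := ME_zz D b
  rw [ME_apply, List.ofFn_succ, List.prod_cons] at h
  have h2 := congrArg (fun T : Module.End (SmA n) (Fk (2 * n + 2) (SmA n)) => T u) h
  simp only [Module.End.mul_apply, LinearMap.zero_apply] at h2
  unfold tt
  rw [List.map_ofFn]
  exact h2

/-- the closed form -/
def al : Fk (2 * n + 2) (SmA n) := zz n false 0 • tt D false vac

theorem anu_al (a : Fin 2) : anu D a (al D) = 0 := by
  unfold al tt
  rw [anu_smul, anu_prod, smul_zero]

theorem isForm_al : IsForm D n (al D) := by
  refine ⟨?_, anu_al D⟩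
  intro S hS
  unfold al tt
  rw [Pi.smul_apply]
  have h := deg_prod (deg_vac (N := 2 * n + 2) (A := SmA n))
    ((List.ofFn fun i : Fin n => zz n false i.succ).map fun f => gr D.F f)
  rw [List.map_map] at h
  have h1 := h S (by
    rw [zero_add, List.length_map, List.length_ofFn]
    exact hS)
  have h2 : (cv ∘ fun f => gr D.F f : SmA n → Module.End (SmA n) (Fk (2 * n + 2) (SmA n))) =
      fun f => cv (gr D.F f) := rfl
  rw [h2] at h1
  rw [h1, smul_zero]

theorem dd_al (hdd : ∀ u : Fk (2 * n + 2) (SmA n), dd D.F (dd D.F u) = 0) :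
    dd D.F (al D) = 0 := by
  unfold al
  rw [dd_smul, th_tt, zero_add]
  unfold tt
  rw [dd_prod hdd, dd_vac, map_zero, smul_zero, smul_zero]

/-- the functional -/
def LL : Fk (2 * n + 2) (SmA n) →ₗ[SmA n] SmA n where
  toFun u := ip (zz n true 0 • tt D true u) (volg D)
  map_add' u v := by rw [map_add, smul_add, ip_add_left]
  map_smul' c u := by rw [map_smul, smul_comm, ip_smul_left]; rfl

theorem LL_apply (u : Fk (2 * n + 2) (SmA n)) :
    LL D u = ip (zz n true 0 • tt D true u) (volg D) := rfl

theorem LL_dd (hdd : ∀ u : Fk (2 * n + 2) (SmA n), dd D.F (dd D.F u) = 0)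
    (w : Fk (2 * n + 2) (SmA n)) :
    LL D (dd D.F w) = (-1 : ℤ) ^ n • ip (dd D.F (zz n true 0 • tt D true w)) (volg D) := by
  have h1 : dd D.F (tt D true w) = (-1 : ℤ) ^ n • tt D true (dd D.F w) := by
    unfold tt
    rw [dd_prod hdd, List.length_ofFn]
  have h2 : tt D true (dd D.F w) = (-1 : ℤ) ^ n • dd D.F (tt D true w) := by
    rw [h1, smul_smul, ← mul_pow]
    norm_num
  rw [LL_apply, h2, dd_smul, th_tt, zero_add]
  rcases neg_one_pow_eq_or ℤ n with h | h
  · rw [h, one_smul, one_smul]
  · rw [h, neg_smul, one_smul, smul_neg, ip_neg_left, neg_smul, one_smul]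

/-! ### The determinant -/

/-- the list of the rows -/
def li (n : ℕ) : List (Ix n) :=
  [.inr 0, .inl 0] ++ ((List.ofFn fun j : Fin n => Sum.inr j.succ) ++
    (List.ofFn fun i : Fin n => Sum.inl i.succ))

theorem li_length : (li n).length = 2 * n + 2 := by
  unfold li
  simp only [List.length_append, List.length_cons, List.length_nil, List.length_ofFn]
  omega

theorem li_mem (x : Ix n) : x ∈ li n := by
  unfold li
  rcases x with x | x
  · rcases Fin.eq_zero_or_eq_succ x with rfl | ⟨y, rfl⟩
    · simp
    · simp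
  · rcases Fin.eq_zero_or_eq_succ x with rfl | ⟨y, rfl⟩
    · simp
    · simp

theorem li_nodup : (li n).Nodup := by
  have h1 : (Fintype.card (Ix n)) = (li n).length := by
    rw [li_length]
    simp only [Fintype.card_sum, Fintype.card_fin]
    omega
  have h2 : (li n).toFinset = Finset.univ := by
    ext x
    simp only [List.mem_toFinset, Finset.mem_univ, iff_true]
    exact li_mem x
  have h3 : (li n).toFinset.card = (li n).length := by
    rw [h2, Finset.card_univ, h1]
  exact Multiset.toFinset_card_eq_card_iff_nodup.1 h3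

/-- the rows -/
def ww : Ix n → Fin (2 * n + 2) → SmA n
  | .inl i => Fin.cases (D.nu 0) (fun j => gr D.F (zz n false j.succ)) i
  | .inr i => Fin.cases (D.nu 1) (fun j => gr D.F (zz n true j.succ)) i

theorem prod_li (u : Fk (2 * n + 2) (SmA n)) :
    ((li n).map fun r => cv (ww D r)).prod u =
      cv (D.nu 1) (cv (D.nu 0) (tt D true (tt D false u))) := by
  unfold li tt
  rw [List.map_append, List.map_append, List.prod_append, List.prod_append, List.map_ofFn,
    List.map_ofFn, List.map_ofFn, List.map_ofFn]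
  simp only [List.map_cons, List.map_nil, List.prod_cons, List.prod_nil, mul_one,
    Module.End.mul_apply]
  rfl

/-- the transition matrix of one factor -/
def T0 {A : Type} [CommRing A] {m : ℕ} (z : Fin (m + 1) → A) :
    Matrix (Fin (m + 1)) (Fin (m + 1)) A :=
  Matrix.of fun i j => Fin.cases (z j) (fun i' => (if j = i'.succ then 1 else 0) - z j * z i'.succ) i

theorem det_T0 {A : Type} [CommRing A] {m : ℕ} (z : Fin (m + 1) → A) : (T0 z).det = z 0 := by
  have h1 : (T0 z).det = (Matrix.of fun i j : Fin (m + 1) =>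
      (Fin.cases (z j) (fun i' => if j = i'.succ then 1 else 0) i : A)).det := by
    refine Matrix.det_eq_of_forall_row_eq_smul_add_const
      (fun i => Fin.cases 0 (fun i' => - z i'.succ) i) 0 rfl ?_
    intro i j
    rcases Fin.eq_zero_or_eq_succ i with rfl | ⟨i, rfl⟩
    · simp [T0]
    · simp only [T0, Matrix.of_apply, Fin.cases_succ, Fin.cases_zero]
      ring
  rw [h1, Matrix.det_of_isUpperTriangular, Fin.prod_univ_succ]
  · simp
  · intro i j hij
    have hij' : j < i := hij
    rcases Fin.eq_zero_or_eq_succ i with rfl | ⟨i, rfl⟩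
    · exact absurd hij' (Fin.not_lt_zero _)
    · simp only [Matrix.of_apply, Fin.cases_succ]
      rw [if_neg hij'.ne]

/-- the transition matrix -/
def TT (n : ℕ) : Matrix (Ix n) (Ix n) (SmA n) :=
  Matrix.fromBlocks (T0 (zz n false)) 0 0 (T0 (zz n true))

theorem det_TT : (TT n).det = zz n false 0 * zz n true 0 := by
  unfold TT
  rw [Matrix.det_fromBlocks_zero₂₁, det_T0, det_T0]

theorem ED_zz_ff (i j : Fin (n + 1)) : ED (.inl i) (zz n false j) =
    (if i = j then 1 else 0) - zz n false i * zz n false j := by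
  change ED (.inl i) (cxA (.inl j)) = _
  rw [ED_cxA]
  have h1 : cs (n := n) (dl (.inl i) (.inl j)) = if i = j then 1 else 0 := by
    unfold dl
    by_cases h : i = j
    · subst h; simp [cs]
    · simp [cs, h]
  have h2 : cs (n := n) (blk (.inl i) (.inl j)) = 1 := by simp [blk, cs]
  rw [h1, h2, one_mul]
  rfl

theorem ED_zz_tt (i j : Fin (n + 1)) : ED (.inr i) (zz n true j) =
    (if i = j then 1 else 0) - zz n true i * zz n true j := by
  change ED (.inr i) (cxA (.inr j)) = _
  rw [ED_cxA]
  have h1 : cs (n := n) (dl (.inr i) (.inr j)) = if i = j then 1 else 0 := by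
    unfold dl
    by_cases h : i = j
    · subst h; simp [cs]
    · simp [cs, h]
  have h2 : cs (n := n) (blk (.inr i) (.inr j)) = 1 := by simp [blk, cs]
  rw [h1, h2, one_mul]
  rfl

theorem ED_zz_tf (i j : Fin (n + 1)) : ED (.inr i) (zz n false j) = 0 := by
  change ED (.inr i) (cxA (.inl j)) = _
  rw [ED_cxA]
  simp [dl, blk, cs]

theorem ED_zz_ft (i j : Fin (n + 1)) : ED (.inl i) (zz n true j) = 0 := by
  change ED (.inl i) (cxA (.inr j)) = _
  rw [ED_cxA]
  simp [dl, blk, cs]

theorem ww_eq (r : Ix n) (b : Fin (2 * n + 2)) : ww D r b = ∑ s, TT n r s * D.S b s := by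
  rw [Fintype.sum_sum_type]
  rcases r with i | i
  · have h0 : ∀ s, TT n (.inl i) (.inr s) = 0 := fun s => rfl
    have h1 : ∀ s, TT n (.inl i) (.inl s) = T0 (zz n false) i s := fun s => rfl
    simp only [h0, h1, zero_mul, Finset.sum_const_zero, add_zero]
    rcases Fin.eq_zero_or_eq_succ i with rfl | ⟨i, rfl⟩
    · have h2 : ww D (.inl 0) b = D.nu 0 b := rfl
      rw [h2, D.hnu, Fintype.sum_sum_type]
      have h3 : ∀ s, nn n 0 (.inr s) = 0 := fun s => rfl
      simp only [h3, mul_zero, Finset.sum_const_zero, add_zero]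
      exact Finset.sum_congr rfl fun s _ => mul_comm _ _
    · have h2 : ww D (.inl i.succ) b = D.F.e b (zz n false i.succ) := rfl
      rw [h2, D.he, Fintype.sum_sum_type]
      simp only [ED_zz_tf, ED_zz_ff, mul_zero, Finset.sum_const_zero, add_zero]
      exact Finset.sum_congr rfl fun s _ => mul_comm _ _
  · have h0 : ∀ s, TT n (.inr i) (.inl s) = 0 := fun s => rfl
    have h1 : ∀ s, TT n (.inr i) (.inr s) = T0 (zz n true) i s := fun s => rfl
    simp only [h0, h1, zero_mul, Finset.sum_const_zero, zero_add]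
    rcases Fin.eq_zero_or_eq_succ i with rfl | ⟨i, rfl⟩
    · have h2 : ww D (.inr 0) b = D.nu 1 b := rfl
      rw [h2, D.hnu, Fintype.sum_sum_type]
      have h3 : ∀ s, nn n 1 (.inl s) = 0 := fun s => rfl
      simp only [h3, mul_zero, Finset.sum_const_zero, zero_add]
      exact Finset.sum_congr rfl fun s _ => mul_comm _ _
    · have h2 : ww D (.inr i.succ) b = D.F.e b (zz n true i.succ) := rfl
      rw [h2, D.he, Fintype.sum_sum_type]
      simp only [ED_zz_tt, ED_zz_ft, mul_zero, Finset.sum_const_zero, zero_add]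
      exact Finset.sum_congr rfl fun s _ => mul_comm _ _

theorem det_ww : (Matrix.of fun i => ww D (ix n i)).det =
    (zz n false 0 * zz n true 0) * (Matrix.of fun a b => D.S a (ix n b)).det := by
  have h1 : (Matrix.of fun i => ww D (ix n i)) =
      (TT n).submatrix (ix n) (ix n) * (Matrix.of fun a b => D.S a (ix n b)).transpose := by
    refine Matrix.ext fun i b => ?_
    rw [Matrix.of_apply, Matrix.mul_apply, ww_eq]
    exact (Equiv.sum_comp (ix n) fun s => TT n (ix n i) s * D.S b s).symm
  rw [h1, Matrix.det_mul, Matrix.det_submatrix_equiv_self, det_TT, Matrix.det_transpose]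

theorem ip_top : ∃ σ : Equiv.Perm (Fin (2 * n + 2)),
    ip (cv (D.nu 1) (cv (D.nu 0) (tt D true (tt D false vac)))) topf =
      ((Equiv.Perm.sign σ : ℤ) : SmA n) * ((zz n false 0 * zz n true 0) *
        (Matrix.of fun a b => D.S a (ix n b)).det) := by
  set E : Fin (2 * n + 2) ≃ Ix n := (finCongr (li_length (n := n)).symm).trans
    (List.Nodup.getEquivOfForallMemList (li n) li_nodup li_mem) with hE
  refine ⟨E.trans (ix n).symm, ?_⟩
  rw [← prod_li]
  have h1 : (li n).map (fun r => cv (ww D r)) =
      List.ofFn fun i : Fin (li n).length => cv (ww D ((li n).get i)) := by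
    conv_lhs => rw [← List.ofFn_get (li n), List.map_ofFn]
    rfl
  rw [h1, ← ME_apply (N := 2 * n + 2) (A := SmA n) _ (fun i => ww D ((li n).get i)),
    ME_det' (li_length (n := n))]
  have h2 : (Matrix.of fun i : Fin (2 * n + 2) =>
      ww D ((li n).get (Fin.cast (li_length (n := n)).symm i))) =
      (Matrix.of fun i => ww D (ix n i)).submatrix (E.trans (ix n).symm) id := by
    refine Matrix.ext fun i b => ?_
    rw [Matrix.submatrix_apply, Matrix.of_apply, Matrix.of_apply, Equiv.trans_apply,
      Equiv.apply_symm_apply]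
    rfl
  rw [h2, Matrix.det_permute, det_ww]

/-! ### Integrals -/

theorem integrable_ev [IsProbabilityMeasure μ] (f : SmA n) :
    Integrable (fun p => ev p f) μ := by
  have hc : Continuous (fun p => ev p f) := by
    have h : Sm (IM n) f.1 := f.2
    exact h.continuous
  exact hc.integrable_of_hasCompactSupport (HasCompactSupport.of_compactSpace _)

theorem ig_sub [IsProbabilityMeasure μ] (f g : SmA n) : ig μ (f - g) = ig μ f - ig μ g := by
  unfold ig
  simp only [map_sub]
  exact integral_sub (integrable_ev f) (integrable_ev g)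

theorem ig_add [IsProbabilityMeasure μ] (f g : SmA n) : ig μ (f + g) = ig μ f + ig μ g := by
  unfold ig
  simp only [map_add]
  exact integral_add (integrable_ev f) (integrable_ev g)

theorem ig_smul (c : ℝ) (f : SmA n) : ig μ (c • f) = c * ig μ f := by
  unfold ig
  simp only [map_smul, smul_eq_mul]
  exact integral_const_mul c _

/-- integration against the density -/
def Irho (μ : Measure (MM n)) [IsProbabilityMeasure μ] (rho : SmA n) : SmA n →ₗ[ℝ] ℝ where
  toFun f := ig μ (rho * f)
  map_add' f g := by rw [mul_add, ig_add]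
  map_smul' c f := by rw [mul_smul_comm, ig_smul]; rfl

theorem moment {μ : Measure (MM n)} (hμ : IsRound μ) (i : Ix n) (g : SmA n) (hg : ED i g = 0)
    (hi : ED i (cxA i) = 1 - cxA i * cxA i) :
    ig μ g = (n + 1 : ℝ) * ig μ (cxA i * cxA i * g) := by
  have := hμ.prob
  have h := hμ.div i (cxA i * g)
  have h1 : ED i (cxA i * g) = g - cxA i * cxA i * g := by
    rw [Derivation.leibniz, hg, hi, smul_zero, zero_add, smul_eq_mul]
    ring
  rw [h1] at h
  have h2 : ig μ (g - cxA i * cxA i * g) = n * ig μ (cxA i * (cxA i * g)) := h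
  rw [ig_sub, ← mul_assoc] at h2
  linarith

theorem moment4 {μ : Measure (MM n)} (hμ : IsRound μ) :
    0 < ig μ ((zz n false 0 * zz n true 0) * (zz n false 0 * zz n true 0)) := by
  have := hμ.prob
  have e1 : ED (.inl 0) (cxA (n := n) (.inl 0)) = 1 - cxA (.inl 0) * cxA (.inl 0) := by
    have := ED_zz_ff (n := n) 0 0
    rwa [if_pos rfl] at this
  have e2 : ED (.inr 0) (cxA (n := n) (.inr 0)) = 1 - cxA (.inr 0) * cxA (.inr 0) := by
    have := ED_zz_tt (n := n) 0 0
    rwa [if_pos rfl] at this
  have h1 := moment hμ (.inr 0) 1 (Derivation.map_one_eq_zero _) e2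
  have h2 := moment hμ (.inl 0) (zz n true 0 * zz n true 0) (by
    rw [Derivation.leibniz, ED_zz_ft, smul_zero, add_zero]) e1
  have h3 : ig μ (1 : SmA n) = 1 := by
    unfold ig
    simp
  rw [h3, mul_one] at h1
  have hn : (0 : ℝ) < n + 1 := by positivity
  have h4 : 0 < ig μ (cxA (n := n) (.inr 0) * cxA (.inr 0)) := by
    by_contra hcon
    push Not at hcon
    nlinarith
  have h5 : ig μ (zz n true 0 * zz n true 0) = ig μ (cxA (n := n) (.inr 0) * cxA (.inr 0)) := rfl
  have h6 : (zz n false 0 * zz n true 0) * (zz n false 0 * zz n true 0) =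
      cxA (.inl 0) * cxA (.inl 0) * (zz n true 0 * zz n true 0) := by
    change (cxA (.inl 0) * zz n true 0) * (cxA (.inl 0) * zz n true 0) = _
    ring
  rw [h6]
  rw [h5] at h2
  by_contra hcon
  push Not at hcon
  nlinarith

end geo

end Top

theorem s_top (hdd : S_DD) (hadj : S_ADJ) : S_TOP := by
  intro n k μ _ hμ D
  have := hμ.prob
  have hd : ∀ u : Fk (2 * n + 2) (SmA n), dd D.F (dd D.F u) = 0 :=
    hdd (2 * n + 2) (SmA n) D.F D.bianchi
  refine ⟨Top.al D, Top.LL D, Top.isForm_al D, Top.dd_al D hd, ?_, ?_⟩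
  · intro w
    have hI : IsInt D.F (Top.Irho μ D.rho) := D.div
    have h1 := hadj (2 * n + 2) (SmA n) D.F (Top.Irho μ D.rho) hI
      (Top.zz n true 0 • Top.tt D true w) (Top.volg D)
    rw [Top.de_volg, ip_zero_right, map_zero] at h1
    rw [Top.LL_dd D hd]
    have h2 : ig μ (D.rho * ((-1 : ℤ) ^ n • ip (dd D.F (Top.zz n true 0 • Top.tt D true w))
        (Top.volg D))) = Top.Irho μ D.rho ((-1 : ℤ) ^ n • ip (dd D.F (Top.zz n true 0 •
          Top.tt D true w)) (Top.volg D)) := rfl
    rw [h2, map_zsmul]
    have h3 : (Top.Irho μ D.rho) (ip (dd D.F (Top.zz n true 0 • Top.tt D true w))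
      (Top.volg D)) = 0 := h1
    rw [h3, smul_zero]
  · obtain ⟨σ, hσ⟩ := Top.ip_top D
    have h1 : D.rho * Top.LL D (Top.al D) = ((Equiv.Perm.sign σ : ℤ) : SmA n) *
        ((Top.zz n false 0 * Top.zz n true 0) * (Top.zz n false 0 * Top.zz n true 0)) := by
      rw [Top.LL_apply]
      unfold Top.al
      rw [map_smul, ip_smul_left, ip_smul_left, Top.ip_volg, hσ]
      have h2 := D.rho_det
      linear_combination (((Equiv.Perm.sign σ : ℤ) : SmA n) *
        ((Top.zz n false 0 * Top.zz n true 0) * (Top.zz n false 0 * Top.zz n true 0))) * h2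
    rw [h1]
    have h4 := Top.moment4 hμ
    rcases Int.units_eq_one_or (Equiv.Perm.sign σ) with h | h
    · rw [h]
      simp only [Units.val_one, Int.cast_one, one_mul]
      exact h4.ne'
    · rw [h]
      have h5 : ∀ X : SmA n, ig μ ((((-1 : ℤˣ) : ℤ) : SmA n) * X) = - ig μ X := by
        intro X
        have h6 : (((-1 : ℤˣ) : ℤ) : SmA n) * X = (-1 : ℝ) • X := by
          rw [neg_smul, one_smul, Units.val_neg, Units.val_one, Int.cast_neg, Int.cast_one]
          exact neg_one_mul X
        rw [h6, Top.ig_smul]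
        ring
      rw [h5]
      exact (neg_neg_of_pos h4).ne

end Pool.Agent.H781.NG
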