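import Pool.Agent.H781.NG.AlgH
import Pool.Agent.H781.NG.Boch
import Pool.Agent.H781.NG.DDz
import Pool.Agent.H781.NG.Chol
import Pool.Agent.H781.NG.Meas
import Pool.Agent.H781.NG.Mom
import Pool.Agent.H781.NG.Jbd
import Pool.Agent.H781.NG.Jcm
import Pool.Agent.H781.NG.Tf
import Pool.Agent.H781.NG.GeoA
import Pool.Agent.H781.NG.GeoB
import Pool.Agent.H781.NG.GeoC
import Pool.Agent.H781.NG.Top
import Pool.Agent.H781.NG.Ric
import Pool.Agent.H781.NG.Ph
import Pool.Agent.H781.NG.Com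

/-!
All inputs.
-/

namespace Pool.Agent.H781.NG

theorem h_mom : S_MOM := s_mom
theorem h_jbd : S_JBD := s_jbd s_mom
theorem h_jcm : S_JCM := s_jcm s_mom h_jbd
theorem h_tf : S_TF := s_tf s_chol
theorem h_geo : S_GEO := s_geo h_tf (s_geo_a s_br) (s_geo_b s_br)
theorem h_top : S_TOP := s_top s_dd s_adj

end Pool.Agent.H781.NG
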