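import Pool.Agent.H781.NG.Spec

/-!
Specification of the lemmas for `n = 3, 4`: Fock space reduction, spinor model, `8 × 8` matrices.
-/

set_option autoImplicit false
set_option maxHeartbeats 1000000

noncomputable section

namespace Pool.Agent.H781.NG

open scoped RealInnerProductSpace Matrix
open Pool.Agent.H781.S22 (Pr)

/-- the algebraic lemma for the Fock space `Λ(ℝ^{2n})` -/
def AlgLemmaF (n : ℕ) : Prop :=
  ∀ K : Fin (2 * n) → Fin (2 * n) → Fin (2 * n) → Fin (2 * n) → ℝ, CurvT K → KPos (n + 1) K →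
    ∀ u : Fk (2 * n) ℝ, u ≠ 0 → (∀ S, S.card ≠ n → u S = 0) →
      0 < ∑ i, ∑ j, ∑ k, ∑ l, K i j k l * ip (cr j (an i u)) (cr l (an k u))

/-- A vector `e` with `c_i e = 0` for all `i` generates a copy of the Fock space. -/
def S_FOCK : Prop :=
  ∀ (m : ℕ) (H : Type) [NormedAddCommGroup H] [InnerProductSpace ℝ H] (c cd : Fin m → H →ₗ[ℝ] H),
    (∀ i x y, ⟪c i x, y⟫ = ⟪x, cd i y⟫) →
    (∀ i j x, c i (cd j x) + cd j (c i x) = if i = j then x else 0) →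
    (∀ i j x, c i (c j x) = - c j (c i x)) →
    ∃ U : H → Fk m ℝ →ₗ[ℝ] H,
      (∀ e, (∀ i, c i e = 0) → U e vac = e ∧ (∀ i v, U e (an i v) = c i (U e v)) ∧
        ∀ i v, U e (cr i v) = cd i (U e v)) ∧
      ∀ e e', (∀ i, c i e = 0) → (∀ i, c i e' = 0) → ∀ v v', ⟪U e v, U e' v'⟫ = ⟪e, e'⟫ * ip v v'

/-- reduction of the algebraic lemma to the Fock space -/
def S_FRED : Prop := ∀ n : ℕ, AlgLemmaF n → AlgLemma n

/-- squared Frobenius norm -/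
def nF {ι κ : Type} [Fintype ι] [Fintype κ] (M : Matrix ι κ ℝ) : ℝ := ∑ i, ∑ j, M i j ^ 2

/-- `8 × 8` matrices -/
abbrev M8 : Type := Matrix (Fin 8) (Fin 8) ℝ

/-- gamma matrices `Δ₊ → Δ₋` of `ℝ⁸` -/
structure IsGam (G : Fin 8 → M8) : Prop where
  tr : ∀ i j, (G i)ᵀ * G j + (G j)ᵀ * G i = if i = j then (2 : M8) else 0
  rt : ∀ i j, G i * (G j)ᵀ + G j * (G i)ᵀ = if i = j then (2 : M8) else 0
  trp : ∀ p q : Pr 8, (((G p.1.1)ᵀ * G p.1.2)ᵀ * ((G q.1.1)ᵀ * G q.1.2)).trace =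
    if p = q then 8 else 0
  trm : ∀ p q : Pr 8, ((G p.1.1 * (G p.1.2)ᵀ)ᵀ * (G q.1.1 * (G q.1.2)ᵀ)).trace =
    if p = q then 8 else 0

/-- existence of gamma matrices -/
def S_GAM : Prop := ∃ G : Fin 8 → M8, IsGam G

/-- the spinor model of `Λ⁴ ℝ⁸` -/
def S_MODEL : Prop := ∀ G : Fin 8 → M8, IsGam G →
  ∃ Pp Pm : Fk 8 ℝ →ₗ[ℝ] M8, ∀ w : Fk 8 ℝ, (∀ S, S.card ≠ 4 → w S = 0) →
    (Pp w)ᵀ = Pp w ∧ (Pm w)ᵀ = Pm w ∧ (Pp w).trace = 0 ∧ (Pm w).trace = 0 ∧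
    ip w w = nF (Pp w) + nF (Pm w) ∧
    ∀ i j, i ≠ j →
      Pp (cr i (an j w) - cr j (an i w)) =
        ((1 / 2 : ℝ) • ((G i)ᵀ * G j)) * Pp w - Pp w * ((1 / 2 : ℝ) • ((G i)ᵀ * G j)) ∧
      Pm (cr i (an j w) - cr j (an i w)) =
        ((1 / 2 : ℝ) • (G i * (G j)ᵀ)) * Pm w - Pm w * ((1 / 2 : ℝ) • (G i * (G j)ᵀ))

/-- the inequality for eigenvalues -/
def S_PAIR : Prop := ∀ h : Fin 8 → ℝ, ∑ i, h i = 0 → ∑ i, h i ^ 2 = 1 →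
  ∃ s : Fin 8 → ℝ, ∑ i, s i = 0 ∧ ∀ i j, i ≠ j →
    0 ≤ 2 * (h i - h j) ^ 2 - (s i + s j) ∧ 2 * (h i - h j) ^ 2 - (s i + s j) ≤ 16 / 5

/-- the inequality for matrices -/
def S_LEM8 : Prop := ∀ h : M8, hᵀ = h → h.trace = 0 →
  ∃ s : M8, sᵀ = s ∧ s.trace = 0 ∧ ∀ a : M8, aᵀ = -a →
    0 ≤ nF (a * h - h * a) - (s * (aᵀ * a)).trace ∧
    nF (a * h - h * a) - (s * (aᵀ * a)).trace ≤ (16 / 5) * nF h * ((1 / 2) * nF a)

/-- the Clifford–Bianchi identity -/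
def S_CLIFB : Prop := ∀ (m : ℕ) (R : Type) [Ring R] [Algebra ℝ R] (A B : Fin m → R),
  (∀ i j, A i * B j + A j * B i = if i = j then 2 else 0) →
  (∀ i j, B i * A j + B j * A i = if i = j then 2 else 0) →
  ∀ K : Fin m → Fin m → Fin m → Fin m → ℝ, CurvT K →
    ∃ c : ℝ, ∑ i, ∑ j, ∑ k, ∑ l, K i j k l • (A i * B j * A k * B l) = c • (1 : R)

end Pool.Agent.H781.NG
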