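import Pool.Agent.H781.NG.Final
import Pool.Agent.H781.NG.Spec4

/-!
All `n ≥ 3` from the algebraic lemmas.
-/

set_option autoImplicit false

noncomputable section

namespace Pool.Agent.H781.NG

theorem alg_all (h3 : AlgLemma 3) (h4 : AlgLemma 4) : ∀ n : ℕ, 3 ≤ n → AlgLemma n := by
  intro n hn
  rcases Nat.lt_or_ge n 5 with h | h
  · interval_cases n
    · exact h3
    · exact h4
  · exact s_alg n h

end Pool.Agent.H781.NG
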