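import Pool.Agent.H781.NG.Spec4
import Pool.Agent.H781.NG.AlgG

/-!
The Clifford–Bianchi identity (helper549).
-/

set_option autoImplicit false
set_option maxHeartbeats 1000000

namespace Pool.Agent.H781.NG

namespace Clifb

theorem rot {m : ℕ} {R : Type} [AddCommMonoid R] (g : Fin m → Fin m → Fin m → R) :
    ∑ j, ∑ k, ∑ l, g j k l = ∑ j, ∑ k, ∑ l, g l j k := by
  rw [Finset.sum_comm]
  exact Finset.sum_congr rfl fun k _ => Finset.sum_comm

variable {m : ℕ} {R : Type} [Ring R] [Algebra ℝ R] {A B : Fin m → R}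
  {K : Fin m → Fin m → Fin m → Fin m → ℝ}

theorem cycf (h1 : ∀ i j, A i * B j + A j * B i = if i = j then 2 else 0)
    (h2 : ∀ i j, B i * A j + B j * A i = if i = j then 2 else 0) (j k l : Fin m) :
    B j * A k * B l - B k * A l * B j =
      (if j = k then (2 : ℝ) else 0) • B l - (if j = l then (2 : ℝ) else 0) • B k := by
  have e1 : B j * A k * B l + B k * A j * B l = (if j = k then (2 : ℝ) else 0) • B l := by
    rw [← add_mul, h2]
    split_ifs
    · rw [two_mul, two_smul]
    · rw [zero_mul, zero_smul]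
  have e2 : B k * A j * B l + B k * A l * B j = (if j = l then (2 : ℝ) else 0) • B k := by
    rw [mul_assoc, mul_assoc, ← mul_add, h1]
    split_ifs
    · rw [mul_two, two_smul]
    · rw [mul_zero, zero_smul]
  rw [← e1, ← e2]
  abel

theorem inner_sum (hK : CurvT K)
    (h1 : ∀ i j, A i * B j + A j * B i = if i = j then 2 else 0)
    (h2 : ∀ i j, B i * A j + B j * A i = if i = j then 2 else 0) (i : Fin m) :
    ∑ j, ∑ k, ∑ l, K i j k l • (B j * A k * B l) = (2 : ℝ) • ∑ j, ∑ l, K i j j l • B l := by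
  set U := ∑ j, ∑ l, K i j j l • B l with hU
  -- the two kinds of delta terms
  have d1 : ∑ j, ∑ k, ∑ l, K i j k l • ((if j = k then (2 : ℝ) else 0) • B l) = (2 : ℝ) • U := by
    rw [hU, Finset.smul_sum]
    refine Finset.sum_congr rfl fun j _ => ?_
    rw [Finset.sum_eq_single j]
    · rw [Finset.smul_sum]
      refine Finset.sum_congr rfl fun l _ => ?_
      rw [if_pos rfl, smul_comm]
    · intro k _ hk
      refine Finset.sum_eq_zero fun l _ => ?_
      rw [if_neg (Ne.symm hk), zero_smul, smul_zero]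
    · intro h
      exact absurd (Finset.mem_univ j) h
  have d2 : ∑ j, ∑ k, ∑ l, K i j k l • ((if j = l then (2 : ℝ) else 0) • B k) =
      -((2 : ℝ) • U) := by
    rw [hU, Finset.smul_sum, ← Finset.sum_neg_distrib]
    refine Finset.sum_congr rfl fun j _ => ?_
    rw [Finset.smul_sum, ← Finset.sum_neg_distrib]
    refine Finset.sum_congr rfl fun k _ => ?_
    rw [Finset.sum_eq_single j]
    · rw [if_pos rfl, hK.anti2 i j k j, neg_smul, smul_comm]
    · intro l _ hl
      rw [if_neg (Ne.symm hl), zero_smul, smul_zero]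
    · intro h
      exact absurd (Finset.mem_univ j) h
  have d3 : ∑ j, ∑ k, ∑ l, K i j k l • ((if k = l then (2 : ℝ) else 0) • B j) = 0 := by
    refine Finset.sum_eq_zero fun j _ => Finset.sum_eq_zero fun k _ => ?_
    refine Finset.sum_eq_zero fun l _ => ?_
    split_ifs with h
    · subst h
      have : K i j k k = 0 := by
        have := hK.anti2 i j k k
        linarith
      rw [this, zero_smul]
    · rw [zero_smul, smul_zero]
  -- the rotated sums
  have s2 : ∑ j, ∑ k, ∑ l, K i j k l • (B k * A l * B j) =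
      ∑ j, ∑ k, ∑ l, K i l j k • (B j * A k * B l) :=
    rot fun j k l => K i j k l • (B k * A l * B j)
  have s3 : ∑ j, ∑ k, ∑ l, K i j k l • (B l * A j * B k) =
      ∑ j, ∑ k, ∑ l, K i k l j • (B j * A k * B l) := by
    rw [rot fun j k l => K i j k l • (B l * A j * B k)]
    exact rot fun j k l => K i l j k • (B k * A l * B j)
  have s0 : ∑ j, ∑ k, ∑ l, K i j k l • (B j * A k * B l) +
      (∑ j, ∑ k, ∑ l, K i k l j • (B j * A k * B l) +
      ∑ j, ∑ k, ∑ l, K i l j k • (B j * A k * B l)) = 0 := by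
    simp only [← Finset.sum_add_distrib, ← add_smul]
    refine Finset.sum_eq_zero fun j _ => Finset.sum_eq_zero fun k _ => ?_
    refine Finset.sum_eq_zero fun l _ => ?_
    rw [← add_assoc, Alg.K_cyc hK, zero_smul]
  have t2 : ∑ j, ∑ k, ∑ l, K i j k l • (B j * A k * B l) -
      ∑ j, ∑ k, ∑ l, K i l j k • (B j * A k * B l) = (2 : ℝ) • U - -((2 : ℝ) • U) := by
    rw [← s2, ← d2, ← d1]
    simp only [← Finset.sum_sub_distrib, ← smul_sub]
    refine Finset.sum_congr rfl fun j _ => Finset.sum_congr rfl fun k _ => ?_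
    refine Finset.sum_congr rfl fun l _ => ?_
    rw [cycf h1 h2]
  have t3 : ∑ j, ∑ k, ∑ l, K i j k l • (B j * A k * B l) -
      ∑ j, ∑ k, ∑ l, K i k l j • (B j * A k * B l) = 0 - -((2 : ℝ) • U) := by
    rw [← s3, ← d3, ← d2]
    simp only [← Finset.sum_sub_distrib, ← smul_sub]
    refine Finset.sum_congr rfl fun j _ => Finset.sum_congr rfl fun k _ => ?_
    refine Finset.sum_congr rfl fun l _ => ?_
    have e : B j * A k * B l - B l * A j * B k =
        (B j * A k * B l - B k * A l * B j) + (B k * A l * B j - B l * A j * B k) := by abel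
    rw [e, cycf h1 h2 j k l, cycf h1 h2 k l j]
    have c1 : (if k = j then (2 : ℝ) else 0) = if j = k then (2 : ℝ) else 0 := by
      simp only [eq_comm]
    rw [c1]
    congr 1
    abel
  generalize ∑ j, ∑ k, ∑ l, K i j k l • (B j * A k * B l) = X at *
  generalize ∑ j, ∑ k, ∑ l, K i l j k • (B j * A k * B l) = Y at *
  generalize ∑ j, ∑ k, ∑ l, K i k l j • (B j * A k * B l) = Z at *
  have h3 : (3 : ℝ) • X = (3 : ℝ) • ((2 : ℝ) • U) := by
    have e : (3 : ℝ) • X = (X - Y) + (X - Z) + (X + (Z + Y)) := by module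
    rw [e, t2, t3, s0]
    module
  exact smul_right_injective R (by norm_num : (3 : ℝ) ≠ 0) h3

end Clifb

open Clifb in
theorem s_clifb : S_CLIFB := by
  intro m R _ _ A B h1 h2 K hK
  have hsym : ∀ i l, ∑ j, K i j j l = ∑ j, K l j j i := by
    intro i l
    refine Finset.sum_congr rfl fun j _ => ?_
    rw [hK.pair i j j l, hK.anti1 j l i j, hK.anti2 l j i j]
    ring
  have e0 : ∑ i, ∑ j, ∑ k, ∑ l, K i j k l • (A i * B j * A k * B l) =
      (2 : ℝ) • ∑ i, ∑ l, (∑ j, K i j j l) • (A i * B l) := by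
    rw [Finset.smul_sum]
    refine Finset.sum_congr rfl fun i _ => ?_
    have e1 : ∑ j, ∑ k, ∑ l, K i j k l • (A i * B j * A k * B l) =
        A i * ∑ j, ∑ k, ∑ l, K i j k l • (B j * A k * B l) := by
      simp only [Finset.mul_sum, mul_smul_comm, mul_assoc]
    rw [e1, inner_sum hK h1 h2, mul_smul_comm]
    congr 1
    simp only [Finset.mul_sum, mul_smul_comm, Finset.sum_smul]
    exact Finset.sum_comm
  have e2 : ∑ i, ∑ l, (∑ j, K i j j l) • (A i * B l) =
      ∑ i, ∑ l, (∑ j, K i j j l) • (A l * B i) := by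
    rw [Finset.sum_comm]
    refine Finset.sum_congr rfl fun i _ => Finset.sum_congr rfl fun l _ => ?_
    rw [hsym]
  refine ⟨2 * ∑ i, ∑ j, K i j j i, ?_⟩
  rw [e0, two_smul]
  nth_rewrite 2 [e2]
  rw [← Finset.sum_add_distrib]
  simp only [← Finset.sum_add_distrib, ← smul_add, h1]
  rw [mul_smul, Finset.sum_smul, Finset.smul_sum]
  refine Finset.sum_congr rfl fun i _ => ?_
  rw [Finset.sum_eq_single i]
  · rw [if_pos rfl, smul_comm, two_smul, one_add_one_eq_two]
  · intro l _ hl
    rw [if_neg (Ne.symm hl), smul_zero]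
  · intro h
    exact absurd (Finset.mem_univ i) h

end Pool.Agent.H781.NG
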