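import Pool.Agent.H781.NG.Spec4

/-!
A vector killed by all annihilation operators generates a copy of the Fock space.
-/

set_option autoImplicit false

noncomputable section

namespace Pool.Agent.H781.NG

open scoped RealInnerProductSpace
open Finset

namespace Fk1

section

variable {m : ℕ} {H : Type} [NormedAddCommGroup H] [InnerProductSpace ℝ H]

/-- ordered products of creation operators -/
def CD (cd : Fin m → H →ₗ[ℝ] H) (S : Finset (Fin m)) : Module.End ℝ H :=
  ((S.sort (· ≤ ·)).map (fun i => (cd i : Module.End ℝ H))).prod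

theorem CD_empty (cd : Fin m → H →ₗ[ℝ] H) (x : H) : CD cd ∅ x = x := by
  unfold CD
  rw [Finset.sort_empty]
  rfl

theorem CD_insert (cd : Fin m → H →ₗ[ℝ] H) {a : Fin m} {S : Finset (Fin m)}
    (h : ∀ b ∈ S, a < b) (x : H) : CD cd (insert a S) x = cd a (CD cd S x) := by
  unfold CD
  rw [Finset.sort_insert _ (fun b hb => (h b hb).le) (fun ha => lt_irrefl _ (h a ha)),
    List.map_cons, List.prod_cons]
  rfl

theorem sg_min {a : Fin m} {S : Finset (Fin m)} (h : ∀ b ∈ S, a ≤ b) : sg a S = 1 := by
  unfold sg
  rw [Finset.filter_eq_empty_iff.2 (fun b hb => not_lt.2 (h b hb))]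
  simp

variable {c cd : Fin m → H →ₗ[ℝ] H}

theorem adj' (hadj : ∀ i x y, ⟪c i x, y⟫ = ⟪x, cd i y⟫) (i : Fin m) (x y : H) :
    ⟪cd i x, y⟫ = ⟪x, c i y⟫ := by
  rw [real_inner_comm, ← hadj, real_inner_comm]

theorem cd_cd (hadj : ∀ i x y, ⟪c i x, y⟫ = ⟪x, cd i y⟫)
    (hcc : ∀ i j x, c i (c j x) = - c j (c i x)) (i j : Fin m) (x : H) :
    cd i (cd j x) = - cd j (cd i x) := by
  rw [eq_neg_iff_add_eq_zero]
  apply ext_inner_right ℝ
  intro y
  rw [inner_zero_left, inner_add_left, adj' hadj, adj' hadj, adj' hadj, adj' hadj,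
    ← inner_add_right, hcc i j y]
  simp

theorem cd_cd_self (hadj : ∀ i x y, ⟪c i x, y⟫ = ⟪x, cd i y⟫)
    (hcc : ∀ i j x, c i (c j x) = - c j (c i x)) (i : Fin m) (x : H) : cd i (cd i x) = 0 := by
  have h := cd_cd hadj hcc i i x
  rw [eq_neg_iff_add_eq_zero, ← two_smul ℝ] at h
  rcases smul_eq_zero.1 h with h | h
  · norm_num at h
  · exact h

theorem cd_CD (hadj : ∀ i x y, ⟪c i x, y⟫ = ⟪x, cd i y⟫)
    (hcc : ∀ i j x, c i (c j x) = - c j (c i x)) (i : Fin m) (S : Finset (Fin m)) (x : H) :
    cd i (CD cd S x) = if i ∈ S then 0 else (sg i S : ℝ) • CD cd (insert i S) x := by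
  induction S using Finset.induction_on_min with
  | empty =>
    rw [if_neg (Finset.notMem_empty i), CD_insert cd (by simp), sg_min (by simp)]
    simp
  | insert a S ha ih =>
    rw [CD_insert cd ha]
    rcases lt_trichotomy i a with h | h | h
    · have hi : i ∉ insert a S := by
        rw [Finset.mem_insert]
        rintro (h' | h')
        · exact h.ne h'
        · exact lt_asymm h (ha i h')
      have hlt : ∀ b ∈ insert a S, i < b := by
        intro b hb
        rcases Finset.mem_insert.1 hb with rfl | hb
        · exact h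
        · exact h.trans (ha b hb)
      rw [if_neg hi, CD_insert cd hlt, CD_insert cd ha, sg_min (fun b hb => (hlt b hb).le)]
      simp
    · subst h
      rw [if_pos (Finset.mem_insert_self i S), cd_cd_self hadj hcc]
    · rw [cd_cd hadj hcc i a, ih]
      by_cases hi : i ∈ S
      · rw [if_pos hi, if_pos (Finset.mem_insert_of_mem hi), map_zero, neg_zero]
      · have hi' : i ∉ insert a S := by
          rw [Finset.mem_insert]
          rintro (h' | h')
          · exact h.ne' h'
          · exact hi h'
        have haS : a ∉ S := fun h' => lt_irrefl _ (ha a h')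
        have hlt : ∀ b ∈ insert i S, a < b := by
          intro b hb
          rcases Finset.mem_insert.1 hb with rfl | hb
          · exact h
          · exact ha b hb
        rw [if_neg hi, if_neg hi', map_smul, Finset.insert_comm, CD_insert cd hlt,
          sg_insert_of_lt h haS]
        push_cast
        rw [neg_smul]

theorem c_CD (hcar : ∀ i j x, c i (cd j x) + cd j (c i x) = if i = j then x else 0)
    {x : H} (hx : ∀ i, c i x = 0) (i : Fin m) (S : Finset (Fin m)) :
    c i (CD cd S x) = if i ∈ S then (sg i S : ℝ) • CD cd (S.erase i) x else 0 := by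
  induction S using Finset.induction_on_min with
  | empty => rw [if_neg (Finset.notMem_empty i), CD_empty, hx]
  | insert a S ha ih =>
    have haS : a ∉ S := fun h' => lt_irrefl _ (ha a h')
    rw [CD_insert cd ha]
    have h1 := hcar i a (CD cd S x)
    by_cases h : i = a
    · subst h
      rw [if_pos rfl, ih, if_neg haS, map_zero, add_zero] at h1
      rw [h1, if_pos (Finset.mem_insert_self i S), Finset.erase_insert haS, sg_insert_self,
        sg_min (fun b hb => (ha b hb).le)]
      simp
    · rw [if_neg h] at h1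
      rw [eq_neg_of_add_eq_zero_left h1, ih]
      by_cases hi : i ∈ S
      · have hlt : ∀ b ∈ S.erase i, a < b := fun b hb => ha b (Finset.mem_of_mem_erase hb)
        rw [if_pos hi, if_pos (Finset.mem_insert_of_mem hi), map_smul,
          Finset.erase_insert_of_ne (Ne.symm h), CD_insert cd hlt, sg_insert_of_lt (ha i hi) haS]
        push_cast
        rw [neg_smul]
      · have hi' : i ∉ insert a S := by
          rw [Finset.mem_insert]
          rintro (h' | h')
          · exact h h'
          · exact hi h'
        rw [if_neg hi, if_neg hi', map_zero, neg_zero]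

theorem inner_CD (hadj : ∀ i x y, ⟪c i x, y⟫ = ⟪x, cd i y⟫)
    (hcar : ∀ i j x, c i (cd j x) + cd j (c i x) = if i = j then x else 0)
    {e e' : H} (he : ∀ i, c i e = 0) (he' : ∀ i, c i e' = 0) (S T : Finset (Fin m)) :
    ⟪CD cd S e, CD cd T e'⟫ = if S = T then ⟪e, e'⟫ else 0 := by
  induction S using Finset.induction_on_min generalizing T with
  | empty =>
    rw [CD_empty]
    induction T using Finset.induction_on_min with
    | empty => rw [if_pos rfl, CD_empty]
    | insert b T hb _ =>
      rw [if_neg (Finset.insert_ne_empty b T).symm, CD_insert cd hb, ← hadj, he, inner_zero_left]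
  | insert a S ha ih =>
    have haS : a ∉ S := fun h' => lt_irrefl _ (ha a h')
    rw [CD_insert cd ha, adj' hadj, c_CD hcar he' a T]
    by_cases haT : a ∈ T
    · rw [if_pos haT, inner_smul_right, ih]
      by_cases hST : insert a S = T
      · have h1 : S = T.erase a := by rw [← hST, Finset.erase_insert haS]
        have h2 : sg a T = 1 := by
          rw [← hST, sg_insert_self]
          exact sg_min (fun b hb => (ha b hb).le)
        rw [if_pos h1, if_pos hST, h2]
        simp
      · have h1 : S ≠ T.erase a := by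
          intro h
          apply hST
          rw [h, Finset.insert_erase haT]
        rw [if_neg h1, if_neg hST, mul_zero]
    · have hST : insert a S ≠ T := by
        intro h
        apply haT
        rw [← h]
        exact Finset.mem_insert_self a S
      rw [if_neg haT, if_neg hST, inner_zero_right]

/-- the map from the Fock space -/
def UU (cd : Fin m → H →ₗ[ℝ] H) (e : H) : Fk m ℝ →ₗ[ℝ] H :=
  Fintype.linearCombination ℝ (fun S => CD cd S e)

theorem UU_apply (e : H) (v : Fk m ℝ) : UU cd e v = ∑ S, v S • CD cd S e := rfl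

theorem UU_vac (e : H) : UU cd e vac = e := by
  rw [UU_apply, Finset.sum_eq_single (∅ : Finset (Fin m))]
  · unfold vac
    rw [if_pos rfl, one_smul, CD_empty]
  · intro S _ hS
    unfold vac
    rw [if_neg hS, zero_smul]
  · intro h
    exact absurd (Finset.mem_univ _) h

theorem UU_cr (hadj : ∀ i x y, ⟪c i x, y⟫ = ⟪x, cd i y⟫)
    (hcc : ∀ i j x, c i (c j x) = - c j (c i x)) (e : H) (i : Fin m) (v : Fk m ℝ) :
    UU cd e (cr i v) = cd i (UU cd e v) := by
  rw [UU_apply, UU_apply, map_sum]
  have h1 : ∑ S, cr i v S • CD cd S e =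
      ∑ S ∈ Finset.univ.filter (fun S : Finset (Fin m) => i ∈ S),
        ((sg i S : ℝ) * v (S.erase i)) • CD cd S e := by
    rw [Finset.sum_filter]
    refine Finset.sum_congr rfl fun S _ => ?_
    rw [cr_apply]
    split_ifs
    · rfl
    · rw [zero_smul]
  have h2 : ∑ S, cd i (v S • CD cd S e) =
      ∑ S ∈ Finset.univ.filter (fun S : Finset (Fin m) => i ∉ S),
        (v S * (sg i S : ℝ)) • CD cd (insert i S) e := by
    rw [Finset.sum_filter]
    refine Finset.sum_congr rfl fun S _ => ?_
    rw [map_smul, cd_CD hadj hcc]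
    by_cases hi : i ∈ S
    · rw [if_pos hi, if_neg (not_not.2 hi), smul_zero]
    · rw [if_neg hi, if_pos hi, smul_smul]
  rw [h1, h2]
  refine Finset.sum_bij' (fun S _ => S.erase i) (fun S _ => insert i S) ?_ ?_ ?_ ?_ ?_
  · intro S _
    simp
  · intro S _
    simp
  · intro S hS
    exact Finset.insert_erase (by simpa using hS)
  · intro S hS
    exact Finset.erase_insert (by simpa using hS)
  · intro S hS
    have h : i ∈ S := by simpa using hS
    rw [sg_erase_self, Finset.insert_erase h, mul_comm]

theorem UU_an (hcar : ∀ i j x, c i (cd j x) + cd j (c i x) = if i = j then x else 0)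
    {e : H} (he : ∀ i, c i e = 0) (i : Fin m) (v : Fk m ℝ) :
    UU cd e (an i v) = c i (UU cd e v) := by
  rw [UU_apply, UU_apply, map_sum]
  have h1 : ∑ S, an i v S • CD cd S e =
      ∑ S ∈ Finset.univ.filter (fun S : Finset (Fin m) => i ∉ S),
        ((sg i S : ℝ) * v (insert i S)) • CD cd S e := by
    rw [Finset.sum_filter]
    refine Finset.sum_congr rfl fun S _ => ?_
    rw [an_apply]
    by_cases hi : i ∈ S
    · rw [if_pos hi, if_neg (not_not.2 hi), zero_smul]
    · rw [if_neg hi, if_pos hi]
  have h2 : ∑ S, c i (v S • CD cd S e) =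
      ∑ S ∈ Finset.univ.filter (fun S : Finset (Fin m) => i ∈ S),
        (v S * (sg i S : ℝ)) • CD cd (S.erase i) e := by
    rw [Finset.sum_filter]
    refine Finset.sum_congr rfl fun S _ => ?_
    rw [map_smul, c_CD hcar he]
    by_cases hi : i ∈ S
    · rw [if_pos hi, if_pos hi, smul_smul]
    · rw [if_neg hi, if_neg hi, smul_zero]
  rw [h1, h2]
  refine Finset.sum_bij' (fun S _ => insert i S) (fun S _ => S.erase i) ?_ ?_ ?_ ?_ ?_
  · intro S _
    simp
  · intro S _
    simp
  · intro S hS
    exact Finset.erase_insert (by simpa using hS)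
  · intro S hS
    exact Finset.insert_erase (by simpa using hS)
  · intro S hS
    have h : i ∉ S := by simpa using hS
    rw [sg_insert_self, Finset.erase_insert h, mul_comm]

theorem UU_inner (hadj : ∀ i x y, ⟪c i x, y⟫ = ⟪x, cd i y⟫)
    (hcar : ∀ i j x, c i (cd j x) + cd j (c i x) = if i = j then x else 0)
    {e e' : H} (he : ∀ i, c i e = 0) (he' : ∀ i, c i e' = 0) (v v' : Fk m ℝ) :
    ⟪UU cd e v, UU cd e' v'⟫ = ⟪e, e'⟫ * ip v v' := by
  rw [UU_apply, UU_apply, sum_inner, ip, Finset.mul_sum]
  refine Finset.sum_congr rfl fun S _ => ?_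
  rw [inner_sum, Finset.sum_eq_single S]
  · rw [inner_smul_left, inner_smul_right, inner_CD hadj hcar he he', if_pos rfl]
    simp only [conj_trivial]
    ring
  · intro T _ hT
    rw [inner_smul_left, inner_smul_right, inner_CD hadj hcar he he', if_neg (Ne.symm hT),
      mul_zero, mul_zero]
  · intro h
    exact absurd (Finset.mem_univ _) h

end

end Fk1

theorem s_fock : S_FOCK := by
  intro m H _ _ c cd hadj hcar hcc
  exact ⟨Fk1.UU cd, fun e he => ⟨Fk1.UU_vac e, fun i v => Fk1.UU_an hcar he i v,
    fun i v => Fk1.UU_cr hadj hcc e i v⟩,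
    fun e e' he he' v v' => Fk1.UU_inner hadj hcar he he' v v'⟩

end Pool.Agent.H781.NG
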