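import Pool.Agent.H781.NG.Spec4

/-!
Reduction of the algebraic lemma to the Fock space.
-/

set_option autoImplicit false

noncomputable section

namespace Pool.Agent.H781.NG

open scoped RealInnerProductSpace

namespace Fred

variable {m : ℕ} {H : Type} [NormedAddCommGroup H] [InnerProductSpace ℝ H]
  {c cd : Fin m → H →ₗ[ℝ] H} {U : H → Fk m ℝ →ₗ[ℝ] H}

/-- the span of the copies of the Fock space -/
def VV (c : Fin m → H →ₗ[ℝ] H) (U : H → Fk m ℝ →ₗ[ℝ] H) : Submodule ℝ H :=
  Submodule.span ℝ {x | ∃ e, (∀ i, c i e = 0) ∧ ∃ v, x = U e v}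

theorem VV_cd (hU : ∀ e, (∀ i, c i e = 0) → U e vac = e ∧ (∀ i v, U e (an i v) = c i (U e v)) ∧
    ∀ i v, U e (cr i v) = cd i (U e v)) (i : Fin m) {x : H} (hx : x ∈ VV c U) :
    cd i x ∈ VV c U := by
  have h : VV c U ≤ (VV c U).comap (cd i) := by
    unfold VV
    rw [Submodule.span_le]
    rintro x ⟨e, he, v, rfl⟩
    refine Submodule.subset_span ⟨e, he, cr i v, ?_⟩
    exact ((hU e he).2.2 i v).symm
  exact h hx

theorem complete (hcar : ∀ i j x, c i (cd j x) + cd j (c i x) = if i = j then x else 0)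
    (hanti : ∀ i j x, c i (c j x) = - c j (c i x))
    (hU : ∀ e, (∀ i, c i e = 0) → U e vac = e ∧ (∀ i v, U e (an i v) = c i (U e v)) ∧
      ∀ i v, U e (cr i v) = cd i (U e v)) (T : Finset (Fin m)) :
    ∀ x : H, (∀ i, i ∉ T → c i x = 0) → x ∈ VV c U := by
  induction T using Finset.induction_on with
  | empty =>
    intro x hx
    have h0 : ∀ i, c i x = 0 := fun i => hx i (by simp)
    exact Submodule.subset_span ⟨x, h0, vac, (hU x h0).1.symm⟩
  | insert j T hj ih =>
    intro x hx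
    have hcc : ∀ y, c j (c j y) = 0 := by
      intro y
      have h := hanti j j y
      have h2 : (2 : ℝ) • c j (c j y) = 0 := by
        rw [two_smul]
        nth_rewrite 1 [h]
        rw [neg_add_cancel]
      exact (smul_eq_zero.1 h2).resolve_left (by norm_num)
    have hdec : x = c j (cd j x) + cd j (c j x) := by
      rw [hcar j j x, if_pos rfl]
    have h1 : c j x ∈ VV c U := by
      refine ih _ fun i hi => ?_
      by_cases hij : i = j
      · subst hij
        exact hcc x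
      · rw [hanti i j x, hx i (by simp [hi, hij]), map_zero, neg_zero]
    have h2 : c j (cd j x) ∈ VV c U := by
      refine ih _ fun i hi => ?_
      by_cases hij : i = j
      · subst hij
        exact hcc _
      · have h3 := hcar i j x
        rw [if_neg hij, hx i (by simp [hi, hij]), map_zero, add_zero] at h3
        rw [hanti i j, h3, map_zero, neg_zero]
    rw [hdec]
    exact Submodule.add_mem _ h2 (VV_cd hU j h1)

/-- decomposition of a vector into orthogonal copies -/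
theorem decomp (hcar : ∀ i j x, c i (cd j x) + cd j (c i x) = if i = j then x else 0)
    (hanti : ∀ i j x, c i (c j x) = - c j (c i x))
    (hU : ∀ e, (∀ i, c i e = 0) → U e vac = e ∧ (∀ i v, U e (an i v) = c i (U e v)) ∧
      ∀ i v, U e (cr i v) = cd i (U e v))
    (hU2 : ∀ e e', (∀ i, c i e = 0) → (∀ i, c i e' = 0) →
      ∀ v v', ⟪U e v, U e' v'⟫ = ⟪e, e'⟫ * ip v v') (u : H) :
    ∃ (r : ℕ) (b : Fin r → H) (w : Fin r → Fk m ℝ), Orthonormal ℝ b ∧ (∀ a i, c i (b a) = 0) ∧
      u = ∑ a, U (b a) (w a) := by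
  have hu : u ∈ VV c U := complete hcar hanti hU Finset.univ u fun i hi => absurd (Finset.mem_univ i) hi
  obtain ⟨k, f, g, hfg⟩ := (Submodule.mem_span_set').1 hu
  choose e he v hv using fun i => (g i).2
  let E : Submodule ℝ H := Submodule.span ℝ (Set.range e)
  have : FiniteDimensional ℝ E := FiniteDimensional.span_of_finite ℝ (Set.finite_range e)
  let b := stdOrthonormalBasis ℝ E
  have heE : ∀ i, e i ∈ E := fun i => Submodule.subset_span ⟨i, rfl⟩
  have hE0 : ∀ x ∈ E, ∀ i, c i x = 0 := by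
    intro x hx i
    have h : E ≤ LinearMap.ker (c i) := by
      rw [Submodule.span_le]
      rintro _ ⟨j, rfl⟩
      exact he j i
    exact h hx
  have hb0 : ∀ a i, c i (b a : H) = 0 := fun a i => hE0 _ (b a).2 i
  -- expansion of `U (e i) v`
  have hexp : ∀ (x : H) (hx : x ∈ E) (v : Fk m ℝ),
      U x v = ∑ a, U (b a : H) ((⟪(b a : H), x⟫ : ℝ) • v) := by
    intro x hx v
    rw [← sub_eq_zero, ← inner_self_eq_zero (𝕜 := ℝ)]
    have hx0 := hE0 x hx
    have hxs : ⟪x, x⟫ = ∑ a, ⟪(b a : H), x⟫ * ⟪(b a : H), x⟫ := by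
      have h1 := b.sum_inner_mul_inner ⟨x, hx⟩ ⟨x, hx⟩
      have h2 : ⟪(⟨x, hx⟩ : E), ⟨x, hx⟩⟫ = ⟪x, x⟫ := rfl
      rw [← h2, ← h1]
      refine Finset.sum_congr rfl fun a _ => ?_
      have h3 : ⟪(⟨x, hx⟩ : E), b a⟫ = ⟪x, (b a : H)⟫ := rfl
      have h4 : ⟪b a, (⟨x, hx⟩ : E)⟫ = ⟪(b a : H), x⟫ := rfl
      rw [h3, h4, real_inner_comm]
    have hbb : ∀ a a', ⟪(b a : H), (b a' : H)⟫ = if a = a' then 1 else 0 := by
      intro a a'
      have h1 := orthonormal_iff_ite.1 b.orthonormal a a'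
      exact h1
    have h1 : ⟪U x v, ∑ a, U (b a : H) ((⟪(b a : H), x⟫ : ℝ) • v)⟫ =
        (∑ a, ⟪(b a : H), x⟫ * ⟪(b a : H), x⟫) * ip v v := by
      rw [inner_sum, Finset.sum_mul]
      refine Finset.sum_congr rfl fun a _ => ?_
      rw [hU2 x (b a : H) hx0 (hb0 a), ip_smul_right, real_inner_comm]
      ring
    have h2 : ⟪∑ a, U (b a : H) ((⟪(b a : H), x⟫ : ℝ) • v),
        ∑ a, U (b a : H) ((⟪(b a : H), x⟫ : ℝ) • v)⟫ =
        (∑ a, ⟪(b a : H), x⟫ * ⟪(b a : H), x⟫) * ip v v := by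
      rw [inner_sum, Finset.sum_mul]
      refine Finset.sum_congr rfl fun a _ => ?_
      rw [sum_inner]
      rw [Finset.sum_eq_single a]
      · rw [hU2 _ _ (hb0 a) (hb0 a), hbb, if_pos rfl, ip_smul_right, ip_smul_left]
        ring
      · intro a' _ ha'
        rw [hU2 _ _ (hb0 a') (hb0 a), hbb, if_neg ha', zero_mul]
      · intro h
        exact absurd (Finset.mem_univ a) h
    rw [inner_sub_left, inner_sub_right, inner_sub_right, h2,
      real_inner_comm (U x v) (∑ a, U (b a : H) ((⟪(b a : H), x⟫ : ℝ) • v)), h1,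
      hU2 x x hx0 hx0, hxs]
    ring
  refine ⟨_, fun a => (b a : H), fun a => ∑ i, (f i * ⟪(b a : H), e i⟫) • v i, ?_, hb0, ?_⟩
  · rw [orthonormal_iff_ite]
    intro a a'
    have h1 := orthonormal_iff_ite.1 b.orthonormal a a'
    exact h1
  · rw [← hfg]
    have h1 : ∀ i, f i • (g i : H) = ∑ a, (f i * ⟪(b a : H), e i⟫) • U (b a : H) (v i) := by
      intro i
      rw [hv i, hexp (e i) (heE i) (v i), Finset.smul_sum]
      refine Finset.sum_congr rfl fun a _ => ?_
      rw [map_smul, smul_smul]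
    rw [Finset.sum_congr rfl fun i _ => h1 i, Finset.sum_comm]
    refine Finset.sum_congr rfl fun a _ => ?_
    rw [map_sum]
    refine Finset.sum_congr rfl fun i _ => ?_
    rw [map_smul]

theorem inner_sum_U {r : ℕ} {b : Fin r → H} (hb : Orthonormal ℝ b) (hb0 : ∀ a i, c i (b a) = 0)
    (hU2 : ∀ e e', (∀ i, c i e = 0) → (∀ i, c i e' = 0) →
      ∀ v v', ⟪U e v, U e' v'⟫ = ⟪e, e'⟫ * ip v v') (x y : Fin r → Fk m ℝ) :
    ⟪∑ a, U (b a) (x a), ∑ a, U (b a) (y a)⟫ = ∑ a, ip (x a) (y a) := by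
  rw [inner_sum]
  refine Finset.sum_congr rfl fun a _ => ?_
  rw [sum_inner, Finset.sum_eq_single a]
  · rw [hU2 _ _ (hb0 a) (hb0 a), orthonormal_iff_ite.1 hb a a, if_pos rfl, one_mul]
  · intro a' _ ha'
    rw [hU2 _ _ (hb0 a') (hb0 a), orthonormal_iff_ite.1 hb a' a, if_neg ha', zero_mul]
  · intro h
    exact absurd (Finset.mem_univ a) h

theorem ip_self_eq_zero {x : Fk m ℝ} (h : ip x x = 0) : x = 0 := by
  unfold ip at h
  have h1 := (Finset.sum_eq_zero_iff_of_nonneg fun S _ => mul_self_nonneg (x S)).1 h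
  funext S
  exact mul_self_eq_zero.1 (h1 S (Finset.mem_univ S))

/-- comparison of coefficients -/
theorem coeff_eq {r : ℕ} {b : Fin r → H} (hb : Orthonormal ℝ b) (hb0 : ∀ a i, c i (b a) = 0)
    (hU2 : ∀ e e', (∀ i, c i e = 0) → (∀ i, c i e' = 0) →
      ∀ v v', ⟪U e v, U e' v'⟫ = ⟪e, e'⟫ * ip v v') (x : Fin r → Fk m ℝ)
    (h : ∑ a, U (b a) (x a) = 0) (a : Fin r) : x a = 0 := by
  have h1 := inner_sum_U hb hb0 hU2 x x
  rw [h, inner_zero_left] at h1
  have h2 : ∀ a, 0 ≤ ip (x a) (x a) := fun a =>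
    Finset.sum_nonneg fun S _ => mul_self_nonneg _
  exact ip_self_eq_zero ((Finset.sum_eq_zero_iff_of_nonneg fun a _ => h2 a).1 h1.symm a
    (Finset.mem_univ a))

end Fred

open Fred in
theorem s_fred (hf : S_FOCK) : S_FRED := by
  intro n hF H _ _ c cd hadj hcar hanti K hK hKp u hu0 hu
  obtain ⟨U, hU, hU2⟩ := hf (2 * n) H c cd hadj hcar hanti
  obtain ⟨r, b, w, hb, hb0, rfl⟩ := decomp hcar hanti hU hU2 u
  -- the operators on the sum
  have hop : ∀ i j, cd j (c i (∑ a, U (b a) (w a))) = ∑ a, U (b a) (cr j (an i (w a))) := by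
    intro i j
    rw [map_sum, map_sum]
    refine Finset.sum_congr rfl fun a _ => ?_
    rw [(hU (b a) (hb0 a)).2.2, (hU (b a) (hb0 a)).2.1]
  -- number
  have hnum : ∀ a, ∀ S : Finset (Fin (2 * n)), S.card ≠ n → w a S = 0 := by
    have h1 : ∑ a, U (b a) ((∑ i, cr i (an i (w a))) - (n : ℝ) • w a) = 0 := by
      have h2 : ∑ i, cd i (c i (∑ a, U (b a) (w a))) =
          ∑ a, U (b a) (∑ i, cr i (an i (w a))) := by
        rw [Finset.sum_congr rfl fun i _ => hop i i, Finset.sum_comm]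
        refine Finset.sum_congr rfl fun a _ => ?_
        rw [map_sum]
      rw [h2, Finset.smul_sum] at hu
      rw [← sub_eq_zero.2 hu, ← Finset.sum_sub_distrib]
      refine Finset.sum_congr rfl fun a _ => ?_
      rw [map_sub, map_smul]
    intro a S hS
    have h3 := coeff_eq hb hb0 hU2 _ h1 a
    have h4 := congrFun h3 S
    rw [Pi.sub_apply, number, Pi.smul_apply, smul_eq_mul, Pi.zero_apply, ← sub_mul] at h4
    refine (mul_eq_zero.1 h4).resolve_left ?_
    rw [sub_eq_zero]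
    exact_mod_cast hS
  -- the form
  have hform : ∑ i, ∑ j, ∑ k, ∑ l, K i j k l *
      ⟪cd j (c i (∑ a, U (b a) (w a))), cd l (c k (∑ a, U (b a) (w a)))⟫ =
      ∑ a, ∑ i, ∑ j, ∑ k, ∑ l, K i j k l *
        ip (cr j (an i (w a))) (cr l (an k (w a))) := by
    simp only [hop]
    have h1 : ∀ i j k l, K i j k l * ⟪∑ a, U (b a) (cr j (an i (w a))),
        ∑ a, U (b a) (cr l (an k (w a)))⟫ =
        ∑ a, K i j k l * ip (cr j (an i (w a))) (cr l (an k (w a))) := by
      intro i j k l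
      rw [inner_sum_U hb hb0 hU2 (fun a => cr j (an i (w a))) (fun a => cr l (an k (w a))),
        Finset.mul_sum]
    simp only [h1]
    rw [Finset.sum_comm' (s := Finset.univ) (t := fun _ => Finset.univ) (t' := Finset.univ)
      (s' := fun _ => Finset.univ) (f := fun a i => ∑ j, ∑ k, ∑ l, K i j k l *
        ip (cr j (an i (w a))) (cr l (an k (w a)))) (by simp)]
    refine Finset.sum_congr rfl fun i _ => ?_
    rw [Finset.sum_comm]
    rw [Finset.sum_comm (s := (Finset.univ : Finset (Fin r)))]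
    rw [Finset.sum_comm]
    refine Finset.sum_congr rfl fun j _ => ?_
    rw [Finset.sum_comm (s := (Finset.univ : Finset (Fin r)))]
    refine Finset.sum_congr rfl fun k _ => ?_
    rw [Finset.sum_comm (s := (Finset.univ : Finset (Fin r)))]
  rw [hform]
  have hpos : ∀ a, w a ≠ 0 → 0 < ∑ i, ∑ j, ∑ k, ∑ l, K i j k l *
      ip (cr j (an i (w a))) (cr l (an k (w a))) := fun a ha => hF K hK hKp (w a) ha (hnum a)
  have hnn : ∀ a, 0 ≤ ∑ i, ∑ j, ∑ k, ∑ l, K i j k l *
      ip (cr j (an i (w a))) (cr l (an k (w a))) := by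
    intro a
    by_cases ha : w a = 0
    · rw [ha]
      simp [ip_zero_left]
    · exact (hpos a ha).le
  obtain ⟨a, ha⟩ : ∃ a, w a ≠ 0 := by
    by_contra hcon
    apply hu0
    refine Finset.sum_eq_zero fun a _ => ?_
    have : w a = 0 := by
      by_contra h
      exact hcon ⟨a, h⟩
    rw [this, map_zero]
  exact Finset.sum_pos' (fun a _ => hnn a) ⟨a, Finset.mem_univ a, hpos a ha⟩

end Pool.Agent.H781.NG
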