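import Pool.Agent.H781.NG.Spec4

/-!
Explicit gamma matrices of `ℝ⁸`: left multiplications by the units of the octonions.
-/

set_option autoImplicit false

namespace Pool.Agent.H781.NG.Gam

open scoped Matrix

/-- the signs of the octonion multiplication table, `e_i e_y = sn i y e_{i xor y}` -/
def sn (i y : Fin 8) : ℤ :=
  if Nat.testBit 12887178008817199616 (8 * i.val + y.val) then -1 else 1

/-- the matrices with integral entries -/
def GI (i : Fin 8) : Matrix (Fin 8) (Fin 8) ℤ :=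
  Matrix.of fun x y => if x = i ^^^ y then sn i y else 0

theorem xor_iff : ∀ i x z : Fin 8, x = i ^^^ z ↔ z = i ^^^ x := by decide +kernel

theorem tm_apply (i j x y : Fin 8) : ((GI i)ᵀ * GI j) x y =
    if i ^^^ x = j ^^^ y then sn i x * sn j y else 0 := by
  rw [Matrix.mul_apply]
  simp only [Matrix.transpose_apply, GI, Matrix.of_apply, ite_mul, zero_mul, mul_ite, mul_zero]
  rw [Finset.sum_ite_eq' Finset.univ (j ^^^ y)]
  simp only [Finset.mem_univ, if_true, eq_comm]

theorem mt_apply (i j x y : Fin 8) : (GI i * (GI j)ᵀ) x y =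
    if i ^^^ x = j ^^^ y then sn i (i ^^^ x) * sn j (i ^^^ x) else 0 := by
  rw [Matrix.mul_apply]
  simp only [Matrix.transpose_apply, GI, Matrix.of_apply, ite_mul, zero_mul, mul_ite, mul_zero]
  simp only [xor_iff i x, xor_iff j y]
  rw [Finset.sum_ite_eq' Finset.univ (j ^^^ y)]
  simp only [Finset.mem_univ, if_true]
  by_cases h : i ^^^ x = j ^^^ y
  · rw [if_pos h, if_pos h.symm, h]
  · rw [if_neg h, if_neg (fun e => h e.symm)]

theorem D1 : ∀ i j x y : Fin 8, (if i ^^^ x = j ^^^ y then sn i x * sn j y else 0) +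
    (if j ^^^ x = i ^^^ y then sn j x * sn i y else 0) =
      if i = j then (if x = y then 2 else 0) else 0 := by decide +kernel

theorem D2 : ∀ i j x y : Fin 8,
    (if i ^^^ x = j ^^^ y then sn i (i ^^^ x) * sn j (i ^^^ x) else 0) +
    (if j ^^^ x = i ^^^ y then sn j (j ^^^ x) * sn i (j ^^^ x) else 0) =
      if i = j then (if x = y then 2 else 0) else 0 := by decide +kernel

theorem D3 : ∀ i j k l : Fin 8, i < j → k < l →
    ∑ x : Fin 8, (if k ^^^ x = l ^^^ (j ^^^ (i ^^^ x)) then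
      (sn i x * sn j (j ^^^ (i ^^^ x))) * (sn k x * sn l (j ^^^ (i ^^^ x))) else 0) =
      if i = k ∧ j = l then 8 else 0 := by decide +kernel

theorem D4 : ∀ i j k l : Fin 8, i < j → k < l →
    ∑ x : Fin 8, (if k ^^^ x = l ^^^ (j ^^^ (i ^^^ x)) then
      (sn i (i ^^^ x) * sn j (i ^^^ x)) * (sn k (k ^^^ x) * sn l (k ^^^ x)) else 0) =
      if i = k ∧ j = l then 8 else 0 := by decide +kernel

theorem trace_tm (A B : Matrix (Fin 8) (Fin 8) ℤ) : (Aᵀ * B).trace = ∑ x, ∑ y, A x y * B x y := by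
  rw [Matrix.trace, Finset.sum_comm]
  simp only [Matrix.diag_apply, Matrix.mul_apply, Matrix.transpose_apply]

theorem xor_iff2 (i j x y : Fin 8) : i ^^^ x = j ^^^ y ↔ y = j ^^^ (i ^^^ x) := xor_iff j _ y

theorem trp (i j k l : Fin 8) (hij : i < j) (hkl : k < l) :
    (((GI i)ᵀ * GI j)ᵀ * ((GI k)ᵀ * GI l)).trace = if i = k ∧ j = l then 8 else 0 := by
  rw [trace_tm, ← D3 i j k l hij hkl]
  refine Finset.sum_congr rfl fun x _ => ?_
  simp only [tm_apply, xor_iff2 i j x, ite_mul, zero_mul]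
  rw [Finset.sum_ite_eq' Finset.univ (j ^^^ (i ^^^ x))]
  simp only [Finset.mem_univ, if_true, mul_ite, mul_zero]

theorem trm (i j k l : Fin 8) (hij : i < j) (hkl : k < l) :
    ((GI i * (GI j)ᵀ)ᵀ * (GI k * (GI l)ᵀ)).trace = if i = k ∧ j = l then 8 else 0 := by
  rw [trace_tm, ← D4 i j k l hij hkl]
  refine Finset.sum_congr rfl fun x _ => ?_
  simp only [mt_apply, xor_iff2 i j x, ite_mul, zero_mul]
  rw [Finset.sum_ite_eq' Finset.univ (j ^^^ (i ^^^ x))]
  simp only [Finset.mem_univ, if_true, mul_ite, mul_zero]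

theorem tr (i j : Fin 8) : (GI i)ᵀ * GI j + (GI j)ᵀ * GI i = if i = j then 2 else 0 := by
  ext x y
  rw [Matrix.add_apply, tm_apply, tm_apply, D1]
  by_cases h : i = j
  · rw [if_pos h, if_pos h]
    rw [Matrix.ofNat_apply]
    split_ifs <;> rfl
  · rw [if_neg h, if_neg h]
    rfl

theorem rt (i j : Fin 8) : GI i * (GI j)ᵀ + GI j * (GI i)ᵀ = if i = j then 2 else 0 := by
  ext x y
  rw [Matrix.add_apply, mt_apply, mt_apply, D2]
  by_cases h : i = j
  · rw [if_pos h, if_pos h]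
    rw [Matrix.ofNat_apply]
    split_ifs <;> rfl
  · rw [if_neg h, if_neg h]
    rfl

/-- from integral to real matrices -/
noncomputable def cst : Matrix (Fin 8) (Fin 8) ℤ →+* M8 := (Int.castRingHom ℝ).mapMatrix

theorem cst_t (A : Matrix (Fin 8) (Fin 8) ℤ) : (cst A)ᵀ = cst Aᵀ := rfl

theorem cst_trace (A : Matrix (Fin 8) (Fin 8) ℤ) : (cst A).trace = ((A.trace : ℤ) : ℝ) := by
  simp only [Matrix.trace, Matrix.diag_apply, Int.cast_sum]
  rfl

end Pool.Agent.H781.NG.Gam

namespace Pool.Agent.H781.NG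

open scoped Matrix
open Pool.Agent.H781.S22 (Pr)

/-- existence of gamma matrices -/
theorem s_gam : S_GAM := by
  refine ⟨fun i => Gam.cst (Gam.GI i), ?_, ?_, ?_, ?_⟩
  · intro i j
    simp only [Gam.cst_t, ← map_mul, ← map_add, Gam.tr]
    split_ifs
    · exact map_ofNat _ _
    · exact map_zero _
  · intro i j
    simp only [Gam.cst_t, ← map_mul, ← map_add, Gam.rt]
    split_ifs
    · exact map_ofNat _ _
    · exact map_zero _
  · intro p q
    simp only [Gam.cst_t, ← map_mul]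
    rw [Gam.cst_trace, Gam.trp _ _ _ _ p.2 q.2]
    have h : (p.1.1 = q.1.1 ∧ p.1.2 = q.1.2) ↔ p = q := by
      rw [Subtype.ext_iff, Prod.ext_iff]
    simp only [h]
    split_ifs <;> norm_num
  · intro p q
    simp only [Gam.cst_t, ← map_mul]
    rw [Gam.cst_trace, Gam.trm _ _ _ _ p.2 q.2]
    have h : (p.1.1 = q.1.1 ∧ p.1.2 = q.1.2) ↔ p = q := by
      rw [Subtype.ext_iff, Prod.ext_iff]
    simp only [h]
    split_ifs <;> norm_num

end Pool.Agent.H781.NG
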