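import Pool.Agent.H781.NG.Spec4
import Pool.Agent.H781.NG.AlgE

/-!
The inequality for symmetric `8 × 8` matrices, from the inequality for eigenvalues.
-/

set_option autoImplicit false
set_option maxHeartbeats 1000000

noncomputable section

namespace Pool.Agent.H781.NG

open Finset
open scoped RealInnerProductSpace Matrix

namespace L8

theorem nF_eq (M : M8) : nF M = (Mᵀ * M).trace := by
  rw [nF, Matrix.trace, Finset.sum_comm]
  refine Finset.sum_congr rfl fun j _ => ?_
  rw [Matrix.diag_apply, Matrix.mul_apply]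
  refine Finset.sum_congr rfl fun i _ => ?_
  rw [Matrix.transpose_apply, pow_two]

theorem nF_conj (O M : M8) (hO : O * Oᵀ = 1) : nF (Oᵀ * M * O) = nF M := by
  rw [nF_eq, nF_eq]
  have h1 : (Oᵀ * M * O)ᵀ * (Oᵀ * M * O) = Oᵀ * (Mᵀ * M * O) := by
    rw [Matrix.transpose_mul, Matrix.transpose_mul, Matrix.transpose_transpose]
    calc Oᵀ * (Mᵀ * O) * (Oᵀ * M * O) = Oᵀ * Mᵀ * (O * Oᵀ) * M * O := by
          simp only [Matrix.mul_assoc]
      _ = _ := by rw [hO, Matrix.mul_one]; simp only [Matrix.mul_assoc]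
  rw [h1, Matrix.trace_mul_comm, Matrix.mul_assoc, hO, Matrix.mul_one]

theorem tr_conj (O M : M8) (hO : O * Oᵀ = 1) : (Oᵀ * M * O).trace = M.trace := by
  rw [Matrix.mul_assoc, Matrix.trace_mul_comm, Matrix.mul_assoc, hO, Matrix.mul_one]

theorem mul_conj (O M P : M8) (hO : O * Oᵀ = 1) :
    (Oᵀ * M * O) * (Oᵀ * P * O) = Oᵀ * (M * P) * O := by
  calc (Oᵀ * M * O) * (Oᵀ * P * O) = Oᵀ * M * (O * Oᵀ) * P * O := by
        simp only [Matrix.mul_assoc]
    _ = _ := by rw [hO, Matrix.mul_one]; simp only [Matrix.mul_assoc]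

theorem tp_conj (O M : M8) : (Oᵀ * M * O)ᵀ = Oᵀ * Mᵀ * O := by
  rw [Matrix.transpose_mul, Matrix.transpose_mul, Matrix.transpose_transpose, Matrix.mul_assoc]

end L8

open L8 in
theorem s_lem8 (hp : S_PAIR) : S_LEM8 := by
  intro h hs htr
  have hH : h.IsHermitian := by
    rw [Matrix.IsHermitian, Matrix.conjTranspose_eq_transpose_of_trivial, hs]
  obtain ⟨v, v1, v2, v3, v4⟩ := Alg.spec_exists h hH
  set O : M8 := Matrix.of v with hOdef
  have hO : O * Oᵀ = 1 := by
    ext r s
    rw [Matrix.mul_apply, Matrix.one_apply]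
    exact v1 r s
  have hO2 : Oᵀ * O = 1 := mul_eq_one_comm.1 hO
  set e : Fin 8 → ℝ := hH.eigenvalues with he
  have hD : h = Oᵀ * Matrix.diagonal e * O := by
    ext p q
    rw [v4 p q, Matrix.mul_apply]
    refine Finset.sum_congr rfl fun r _ => ?_
    rw [Matrix.mul_diagonal, Matrix.transpose_apply, hOdef, Matrix.of_apply, Matrix.of_apply]
    ring
  have hsum : ∑ i, e i = 0 := by
    have h1 : h.trace = (Matrix.diagonal e).trace := by
      conv_lhs => rw [hD]
      exact tr_conj O _ hO
    rw [htr, Matrix.trace_diagonal] at h1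
    exact h1.symm
  have hN : nF h = ∑ i, e i ^ 2 := by
    conv_lhs => rw [hD]
    rw [nF_conj O _ hO, nF]
    refine Finset.sum_congr rfl fun i _ => ?_
    rw [Finset.sum_eq_single i]
    · rw [Matrix.diagonal_apply_eq]
    · intro j _ hj
      rw [Matrix.diagonal_apply_ne _ hj.symm]
      ring
    · intro hi
      exact absurd (Finset.mem_univ i) hi
  set N : ℝ := nF h with hNdef
  have hN0 : 0 ≤ N := by
    rw [hN]
    exact Finset.sum_nonneg fun i _ => sq_nonneg _
  rcases hN0.eq_or_lt with hz | hpos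
  · -- `h = 0`
    have he0 : ∀ i, e i = 0 := by
      intro i
      have h1 : ∑ i, e i ^ 2 = 0 := by rw [← hN, ← hz]
      rw [Finset.sum_eq_zero_iff_of_nonneg (fun i _ => sq_nonneg _)] at h1
      exact pow_eq_zero_iff two_ne_zero |>.1 (h1 i (Finset.mem_univ i))
    have hh0 : h = 0 := by
      rw [hD]
      have : Matrix.diagonal e = 0 := by
        ext i j
        rw [Matrix.diagonal_apply]
        split_ifs
        · exact he0 i
        · rfl
      rw [this, Matrix.mul_zero, Matrix.zero_mul]
    have hn0 : nF (0 : M8) = 0 := by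
      simp [nF]
    refine ⟨0, Matrix.transpose_zero, Matrix.trace_zero _ _, fun a _ => ?_⟩
    rw [hh0] at hNdef
    rw [hh0, Matrix.mul_zero, Matrix.zero_mul, Matrix.zero_mul, Matrix.trace_zero, sub_zero,
      sub_zero, hn0, ← hz]
    constructor
    · exact le_refl _
    · simp
  · -- `h ≠ 0`
    have hsq : 0 < Real.sqrt N := Real.sqrt_pos.2 hpos
    have hsq2 : Real.sqrt N ^ 2 = N := Real.sq_sqrt hN0
    obtain ⟨s0, hs0, hs1⟩ := hp (fun i => e i / Real.sqrt N)
      (by rw [← Finset.sum_div, hsum, zero_div])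
      (by
        have : ∀ i, (e i / Real.sqrt N) ^ 2 = e i ^ 2 / N := by
          intro i
          rw [div_pow, hsq2]
        simp only [this]
        rw [← Finset.sum_div, ← hN]
        exact div_self hpos.ne')
    have hs2 : ∀ i j, i ≠ j → 0 ≤ 2 * (e i - e j) ^ 2 - N * (s0 i + s0 j) ∧
        2 * (e i - e j) ^ 2 - N * (s0 i + s0 j) ≤ N * (16 / 5) := by
      intro i j hij
      have h1 := hs1 i j hij
      have h2 : (e i / Real.sqrt N - e j / Real.sqrt N) ^ 2 = (e i - e j) ^ 2 / N := by
        rw [← sub_div, div_pow, hsq2]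
      rw [h2] at h1
      have h3 : 2 * (e i - e j) ^ 2 - N * (s0 i + s0 j) =
          N * (2 * ((e i - e j) ^ 2 / N) - (s0 i + s0 j)) := by
        field_simp
      rw [h3]
      exact ⟨mul_nonneg hN0 h1.1, mul_le_mul_of_nonneg_left h1.2 hN0⟩
    refine ⟨Oᵀ * Matrix.diagonal (fun i => N * s0 i) * O, ?_, ?_, ?_⟩
    · rw [tp_conj, Matrix.diagonal_transpose]
    · rw [tr_conj O _ hO, Matrix.trace_diagonal, ← Finset.mul_sum, hs0, mul_zero]
    · intro a ha
      set b : M8 := O * a * Oᵀ with hb
      have hab : a = Oᵀ * b * O := by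
        rw [hb]
        calc a = (Oᵀ * O) * a * (Oᵀ * O) := by rw [hO2, Matrix.one_mul, Matrix.mul_one]
          _ = _ := by simp only [Matrix.mul_assoc]
      have hbs : bᵀ = -b := by
        rw [hb, Matrix.transpose_mul, Matrix.transpose_mul, Matrix.transpose_transpose, ha,
          Matrix.neg_mul, Matrix.mul_neg, Matrix.mul_assoc]
      have hbij : ∀ i j, b j i = - b i j := by
        intro i j
        have := congrFun (congrFun hbs i) j
        rw [Matrix.transpose_apply, Matrix.neg_apply] at this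
        exact this
      have hbii : ∀ i, b i i = 0 := by
        intro i
        have := hbij i i
        linarith
      have hbb : ∀ i j, b j i ^ 2 = b i j ^ 2 := by
        intro i j
        rw [hbij i j, neg_sq]
      have e1 : nF (a * h - h * a) = ∑ i, ∑ j, b i j ^ 2 * (e i - e j) ^ 2 := by
        have h1 : a * h - h * a = Oᵀ * (b * Matrix.diagonal e - Matrix.diagonal e * b) * O := by
          rw [hab, hD, mul_conj O _ _ hO, mul_conj O _ _ hO, Matrix.mul_sub, Matrix.sub_mul]
        rw [h1, nF_conj O _ hO, nF]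
        refine Finset.sum_congr rfl fun i _ => Finset.sum_congr rfl fun j _ => ?_
        rw [Matrix.sub_apply, Matrix.mul_diagonal, Matrix.diagonal_mul]
        ring
      have e2 : (Oᵀ * Matrix.diagonal (fun i => N * s0 i) * O * (aᵀ * a)).trace =
          ∑ i, ∑ j, b i j ^ 2 * (N * (s0 i + s0 j) / 2) := by
        have h1 : aᵀ * a = Oᵀ * (bᵀ * b) * O := by
          rw [hab, tp_conj, mul_conj O _ _ hO]
        rw [h1, mul_conj O _ _ hO, tr_conj O _ hO, Matrix.trace]
        have h2 : ∀ i, (Matrix.diagonal (fun i => N * s0 i) * (bᵀ * b)).diag i =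
            ∑ j, b i j ^ 2 * (N * s0 i) := by
          intro i
          rw [Matrix.diag_apply, Matrix.diagonal_mul, Matrix.mul_apply, Finset.mul_sum]
          refine Finset.sum_congr rfl fun j _ => ?_
          rw [Matrix.transpose_apply, ← hbb i j]
          ring
        simp only [h2]
        have h3 : ∑ i, ∑ j, b i j ^ 2 * (N * s0 i) = ∑ i, ∑ j, b i j ^ 2 * (N * s0 j) := by
          rw [Finset.sum_comm]
          refine Finset.sum_congr rfl fun i _ => Finset.sum_congr rfl fun j _ => ?_
          rw [hbb]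
        have h4 : ∑ i, ∑ j, b i j ^ 2 * (N * (s0 i + s0 j) / 2) =
            (1 / 2) * (∑ i, ∑ j, b i j ^ 2 * (N * s0 i)) +
            (1 / 2) * (∑ i, ∑ j, b i j ^ 2 * (N * s0 j)) := by
          simp only [Finset.mul_sum]
          rw [← Finset.sum_add_distrib]
          refine Finset.sum_congr rfl fun i _ => ?_
          rw [← Finset.sum_add_distrib]
          refine Finset.sum_congr rfl fun j _ => ?_
          ring
        rw [h4, ← h3]
        ring
      have e3 : nF a = ∑ i, ∑ j, b i j ^ 2 := by
        conv_lhs => rw [hab]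
        rw [nF_conj O _ hO, nF]
      rw [e1, e2, e3, ← Finset.sum_sub_distrib]
      simp only [← Finset.sum_sub_distrib, Finset.mul_sum]
      constructor
      · refine Finset.sum_nonneg fun i _ => Finset.sum_nonneg fun j _ => ?_
        by_cases hij : i = j
        · rw [hij, hbii]
          simp
        · have h1 := (hs2 i j hij).1
          have h2 : b i j ^ 2 * (e i - e j) ^ 2 - b i j ^ 2 * (N * (s0 i + s0 j) / 2) =
              b i j ^ 2 * ((2 * (e i - e j) ^ 2 - N * (s0 i + s0 j)) / 2) := by ring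
          rw [h2]
          exact mul_nonneg (sq_nonneg _) (by linarith)
      · refine Finset.sum_le_sum fun i _ => Finset.sum_le_sum fun j _ => ?_
        by_cases hij : i = j
        · rw [hij, hbii]
          simp
        · have h1 := (hs2 i j hij).2
          have h2 : b i j ^ 2 * (e i - e j) ^ 2 - b i j ^ 2 * (N * (s0 i + s0 j) / 2) =
              b i j ^ 2 * ((2 * (e i - e j) ^ 2 - N * (s0 i + s0 j)) / 2) := by ring
          have h3 : 16 / 5 * N * (1 / 2 * b i j ^ 2) = b i j ^ 2 * (N * (16 / 5) / 2) := by ring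
          rw [h2, h3]
          exact mul_le_mul_of_nonneg_left (by linarith) (sq_nonneg _)

end Pool.Agent.H781.NG
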