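import Pool.Agent.H781.NG.Spec4

/-!
The spinor model of `Λ⁴ ℝ⁸` (helper740).
-/

set_option autoImplicit false
set_option maxHeartbeats 1000000

noncomputable section

namespace Pool.Agent.H781.NG

open scoped RealInnerProductSpace Matrix
open Pool.Agent.H781.S22 (Pr)

namespace ModelAux

/-- the double index -/
abbrev D : Type := Fin 8 ⊕ Fin 8

abbrev MD : Type := Matrix D D ℝ

def gm (G : Fin 8 → M8) (i : Fin 8) : MD := Matrix.fromBlocks 0 (G i)ᵀ (G i) 0

def et : MD := Matrix.fromBlocks 1 0 0 (-1)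

theorem et_et : et * et = 1 := by
  unfold et
  rw [Matrix.fromBlocks_multiply]
  simp [Matrix.fromBlocks_one]

theorem et_tr : etᵀ = et := by
  unfold et
  rw [Matrix.fromBlocks_transpose]
  simp

theorem gm_tr (G : Fin 8 → M8) (i : Fin 8) : (gm G i)ᵀ = gm G i := by
  unfold gm
  rw [Matrix.fromBlocks_transpose]
  simp

theorem et_gm (G : Fin 8 → M8) (i : Fin 8) : et * gm G i = -(gm G i * et) := by
  unfold et gm
  rw [Matrix.fromBlocks_multiply, Matrix.fromBlocks_multiply, Matrix.fromBlocks_neg]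
  simp

theorem gm_gm (G : Fin 8 → M8) (i j : Fin 8) :
    gm G i * gm G j = Matrix.fromBlocks ((G i)ᵀ * G j) 0 0 (G i * (G j)ᵀ) := by
  unfold gm
  rw [Matrix.fromBlocks_multiply]
  simp

theorem gm_car {G : Fin 8 → M8} (hG : IsGam G) (i j : Fin 8) :
    gm G i * gm G j + gm G j * gm G i = if i = j then (2 : MD) else 0 := by
  rw [gm_gm, gm_gm, Matrix.fromBlocks_add, hG.tr, hG.rt]
  split_ifs with h
  · rw [add_zero]
    have h2 : (2 : MD) = 1 + 1 := by norm_num
    have h3 : (2 : M8) = 1 + 1 := by norm_num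
    rw [h2, h3, ← Matrix.fromBlocks_one, Matrix.fromBlocks_add, add_zero]
  · simp

/-- left multiplication -/
def Lo (G : Fin 8 → M8) (i : Fin 8) : MD →ₗ[ℝ] MD where
  toFun X := gm G i * X
  map_add' X Y := by rw [mul_add]
  map_smul' a X := by rw [Matrix.mul_smul]; rfl

/-- twisted right multiplication -/
def Ro (G : Fin 8 → M8) (i : Fin 8) : MD →ₗ[ℝ] MD where
  toFun X := et * X * et * gm G i
  map_add' X Y := by rw [mul_add, add_mul, add_mul]
  map_smul' a X := by rw [Matrix.mul_smul, Matrix.smul_mul, Matrix.smul_mul]; rfl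

theorem Lo_apply (G : Fin 8 → M8) (i : Fin 8) (X : MD) : Lo G i X = gm G i * X := rfl
theorem Ro_apply (G : Fin 8 → M8) (i : Fin 8) (X : MD) : Ro G i X = et * X * et * gm G i := rfl

variable {G : Fin 8 → M8}

theorem two_mul_smul (X : MD) : (2 : MD) * X = (2 : ℝ) • X := by
  have h2 : (2 : MD) = 1 + 1 := by norm_num
  rw [h2, add_mul, one_mul, two_smul]

theorem mul_two_smul (X : MD) : X * (2 : MD) = (2 : ℝ) • X := by
  have h2 : (2 : MD) = 1 + 1 := by norm_num
  rw [h2, mul_add, mul_one, two_smul]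

theorem hLL (hG : IsGam G) (i j : Fin 8) (X : MD) :
    Lo G j (Lo G i X) = (if i = j then (2 : ℝ) • X else 0) - Lo G i (Lo G j X) := by
  have h := gm_car hG i j
  have h1 : gm G i * gm G j * X + gm G j * gm G i * X = if i = j then (2 : ℝ) • X else 0 := by
    rw [← add_mul, h]
    split_ifs
    · exact two_mul_smul X
    · exact zero_mul X
  rw [← h1]
  simp only [Lo_apply, ← mul_assoc]
  abel

theorem RR (i j : Fin 8) (X : MD) :
    Ro G i (Ro G j X) = -(X * (gm G j * gm G i)) := by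
  simp only [Ro_apply]
  have h1 : et * (et * X * et * gm G j) * et * gm G i =
      (et * et) * X * (et * gm G j) * et * gm G i := by noncomm_ring
  rw [h1, et_et, et_gm]
  have h2 : (1 : MD) * X * -(gm G j * et) * et * gm G i =
      -(X * (gm G j * (et * et) * gm G i)) := by noncomm_ring
  rw [h2, et_et, mul_one]

theorem hRR (hG : IsGam G) (i j : Fin 8) (X : MD) :
    Ro G j (Ro G i X) = -(if i = j then (2 : ℝ) • X else 0) - Ro G i (Ro G j X) := by
  have h := gm_car hG i j
  have h1 : X * (gm G i * gm G j) + X * (gm G j * gm G i) =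
      if i = j then (2 : ℝ) • X else 0 := by
    rw [← mul_add, h]
    split_ifs
    · exact mul_two_smul X
    · exact mul_zero X
  rw [← h1, RR, RR]
  abel

theorem hRL (i j : Fin 8) (X : MD) :
    Ro G j (Lo G i X) = - Lo G i (Ro G j X) := by
  simp only [Ro_apply, Lo_apply]
  have h1 : et * (gm G i * X) * et * gm G j = (et * gm G i) * X * et * gm G j := by noncomm_ring
  rw [h1, et_gm]
  noncomm_ring

def cM (G : Fin 8 → M8) (i : Fin 8) : MD →ₗ[ℝ] MD := (1 / 2 : ℝ) • (Lo G i - Ro G i)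
def dM (G : Fin 8 → M8) (i : Fin 8) : MD →ₗ[ℝ] MD := (1 / 2 : ℝ) • (Lo G i + Ro G i)

theorem cM_apply (i : Fin 8) (X : MD) : cM G i X = (1 / 2 : ℝ) • (Lo G i X - Ro G i X) := rfl
theorem dM_apply (i : Fin 8) (X : MD) : dM G i X = (1 / 2 : ℝ) • (Lo G i X + Ro G i X) := rfl

theorem car1 (hG : IsGam G) (i j : Fin 8) (X : MD) :
    cM G i (dM G j X) + dM G j (cM G i X) = if i = j then X else 0 := by
  simp only [cM_apply, dM_apply, map_smul, map_add, map_sub]
  rw [hLL hG i j, hRR hG i j, hRL i j, hRL j i]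
  split_ifs <;> module

theorem car2 (hG : IsGam G) (i j : Fin 8) (X : MD) :
    cM G i (cM G j X) = - cM G j (cM G i X) := by
  simp only [cM_apply, map_smul, map_sub]
  rw [hLL hG i j, hRR hG i j, hRL i j, hRL j i]
  split_ifs <;> module

theorem equi (hG : IsGam G) (i j : Fin 8) (hij : i ≠ j) (X : MD) :
    dM G i (cM G j X) - dM G j (cM G i X) =
      (1 / 2 : ℝ) • (gm G i * gm G j * X - X * (gm G i * gm G j)) := by
  have h1 : gm G j * gm G i = -(gm G i * gm G j) := by
    have h := gm_car hG i j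
    rw [if_neg hij] at h
    exact eq_neg_of_add_eq_zero_right h
  have h2 : dM G i (cM G j X) - dM G j (cM G i X) =
      (1 / 2 : ℝ) • (Lo G i (Lo G j X) - Ro G i (Ro G j X)) := by
    simp only [cM_apply, dM_apply, map_smul, map_sub]
    rw [hLL hG i j, hRR hG i j, hRL i j, hRL j i, if_neg hij]
    module
  rw [h2, RR, h1, Lo_apply, Lo_apply, ← mul_assoc, mul_neg, neg_neg]

/-! ### the Hilbert space -/

abbrev HD : Type := EuclideanSpace ℝ (D × D)

/-- vectors as matrices -/
def toM : HD ≃ₗ[ℝ] MD where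
  toFun x := Matrix.of fun a b => x (a, b)
  invFun X := WithLp.toLp 2 fun p => X p.1 p.2
  left_inv _ := rfl
  right_inv _ := rfl
  map_add' _ _ := rfl
  map_smul' _ _ := rfl

theorem inner_toM (x y : HD) : ⟪x, y⟫ = ((toM x)ᵀ * toM y).trace := by
  rw [PiLp.inner_apply, Fintype.sum_prod_type]
  simp only [Matrix.trace, Matrix.diag_apply, Matrix.mul_apply, Matrix.transpose_apply]
  rw [Finset.sum_comm]
  refine Finset.sum_congr rfl fun a _ => Finset.sum_congr rfl fun b _ => ?_
  show y (b, a) * x (b, a) = x (b, a) * y (b, a)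
  ring

def cH (G : Fin 8 → M8) (i : Fin 8) : HD →ₗ[ℝ] HD :=
  toM.symm.toLinearMap ∘ₗ cM G i ∘ₗ toM.toLinearMap

def dH (G : Fin 8 → M8) (i : Fin 8) : HD →ₗ[ℝ] HD :=
  toM.symm.toLinearMap ∘ₗ dM G i ∘ₗ toM.toLinearMap

theorem toM_cH (i : Fin 8) (x : HD) : toM (cH G i x) = cM G i (toM x) := rfl
theorem toM_dH (i : Fin 8) (x : HD) : toM (dH G i x) = dM G i (toM x) := rfl

theorem adj (i : Fin 8) (x y : HD) : ⟪cH G i x, y⟫ = ⟪x, dH G i y⟫ := by
  rw [inner_toM, inner_toM, toM_cH, toM_dH, cM_apply, dM_apply, Lo_apply, Ro_apply, Lo_apply,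
    Ro_apply]
  generalize toM x = X
  generalize toM y = Y
  rw [Matrix.transpose_smul, Matrix.smul_mul, Matrix.mul_smul, Matrix.trace_smul,
    Matrix.trace_smul]
  congr 1
  rw [Matrix.transpose_sub, Matrix.transpose_mul, Matrix.transpose_mul, Matrix.transpose_mul,
    Matrix.transpose_mul, gm_tr, et_tr, sub_mul, mul_add, Matrix.trace_sub, Matrix.trace_add]
  have h1 : (gm G i * (et * (Xᵀ * et)) * Y).trace = -(Xᵀ * (et * Y * et * gm G i)).trace := by
    have h2 : gm G i * (et * (Xᵀ * et)) * Y = (gm G i * et) * (Xᵀ * (et * Y)) := by noncomm_ring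
    have h3 : gm G i * et = -(et * gm G i) := by rw [et_gm, neg_neg]
    rw [h2, Matrix.trace_mul_comm, h3, mul_neg, Matrix.trace_neg]
    congr 2
    noncomm_ring
  rw [h1, mul_assoc]
  ring

def e0 : HD := toM.symm ((1 / 4 : ℝ) • (1 : MD))

theorem toM_e0 : toM e0 = (1 / 4 : ℝ) • (1 : MD) := rfl

theorem e0_norm : ⟪e0, e0⟫ = (1 : ℝ) := by
  rw [inner_toM, toM_e0, Matrix.transpose_smul, Matrix.transpose_one, Matrix.smul_mul,
    Matrix.mul_smul, mul_one, Matrix.trace_smul, Matrix.trace_smul, Matrix.trace_one]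
  simp
  norm_num

theorem e0_c (i : Fin 8) : cH G i e0 = 0 := by
  apply toM.injective
  rw [toM_cH, toM_e0, cM_apply, Lo_apply, Ro_apply, map_zero]
  have h : et * ((1 / 4 : ℝ) • (1 : MD)) * et * gm G i = gm G i * ((1 / 4 : ℝ) • (1 : MD)) := by
    rw [Matrix.mul_smul, Matrix.smul_mul, Matrix.smul_mul, mul_one, et_et, one_mul,
      Matrix.mul_smul, mul_one]
  rw [h, sub_self, smul_zero]

/-! ### basis vectors of the Fock space -/

def bs (S : Finset (Fin 8)) : Fk 8 ℝ := fun T => if T = S then 1 else 0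

theorem an_bs {i : Fin 8} {S : Finset (Fin 8)} (hi : i ∉ S) : an i (bs S) = 0 := by
  funext T
  rw [an_apply]
  split_ifs with h
  · rfl
  · unfold bs
    rw [if_neg (fun h' => hi (by rw [← h']; exact Finset.mem_insert_self i T)), mul_zero]
    rfl

theorem cr_bs {i : Fin 8} {S : Finset (Fin 8)} (hi : i ∉ S) :
    cr i (bs S) = (sg i S : ℝ) • bs (insert i S) := by
  funext T
  rw [cr_apply, Pi.smul_apply, smul_eq_mul]
  unfold bs
  by_cases h : T = insert i S
  · subst h
    rw [if_pos (Finset.mem_insert_self i S), if_pos (Finset.erase_insert hi), if_pos rfl,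
      sg_insert_self]
  · rw [if_neg h, mul_zero]
    split_ifs with h1 h2
    · exact absurd (by rw [← h2, Finset.insert_erase h1]) h
    · rw [mul_zero]
    · rfl

theorem bs_insert {i : Fin 8} {S : Finset (Fin 8)} (hi : i ∉ S) :
    bs (insert i S) = (sg i S : ℝ) • cr i (bs S) := by
  rw [cr_bs hi, smul_smul, sg_sqA, one_smul]

theorem vac_bs : (vac : Fk 8 ℝ) = bs ∅ := rfl

theorem eq_sum (w : Fk 8 ℝ) : w = ∑ S, w S • bs S := by
  funext T
  rw [Finset.sum_apply]
  simp [bs]

/-- the sign of the reversal -/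
def rs : ℕ → ℝ
  | 0 => 1
  | k + 1 => (-1) ^ k * rs k

theorem rs4 : rs 4 = 1 := by
  norm_num [rs]

section

variable {M : Fk 8 ℝ →ₗ[ℝ] MD} (hv : M vac = (1 / 4 : ℝ) • (1 : MD))
  (ha : ∀ i v, M (an i v) = cM G i (M v)) (hc : ∀ i v, M (cr i v) = dM G i (M v))

include ha in
theorem comm_of {i : Fin 8} {v : Fk 8 ℝ} (h : an i v = 0) : gm G i * M v = et * M v * et * gm G i := by
  have h1 := ha i v
  rw [h, map_zero, cM_apply, Lo_apply, Ro_apply] at h1
  have h2 := smul_eq_zero.1 h1.symm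
  rcases h2 with h2 | h2
  · norm_num at h2
  · exact sub_eq_zero.1 h2

include ha hc in
theorem step {i : Fin 8} {v : Fk 8 ℝ} (h : an i v = 0) : M (cr i v) = gm G i * M v := by
  rw [hc, dM_apply, Lo_apply, Ro_apply, ← comm_of ha h]
  module

include hv ha hc in
theorem main_ind (S : Finset (Fin 8)) :
    et * M (bs S) * et = ((-1 : ℝ) ^ S.card) • M (bs S) ∧ (M (bs S))ᵀ = rs S.card • M (bs S) := by
  induction S using Finset.induction_on with
  | empty =>
    rw [← vac_bs, hv]
    refine ⟨?_, ?_⟩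
    · rw [Matrix.mul_smul, Matrix.smul_mul, mul_one, et_et]
      simp
    · simp [rs]
  | insert i S hi ih =>
    obtain ⟨h1, h2⟩ := ih
    have h3 := comm_of ha (an_bs hi)
    rw [h1] at h3
    rw [Matrix.smul_mul] at h3
    have h4 : M (bs (insert i S)) = (sg i S : ℝ) • (gm G i * M (bs S)) := by
      rw [bs_insert hi, map_smul, step ha hc (an_bs hi)]
    rw [h4, Finset.card_insert_of_notMem hi]
    refine ⟨?_, ?_⟩
    · rw [Matrix.mul_smul, Matrix.smul_mul, smul_comm ((-1 : ℝ) ^ (S.card + 1))]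
      congr 1
      have h5 : et * (gm G i * M (bs S)) * et = -(gm G i * (et * M (bs S) * et)) := by
        have h6 : et * (gm G i * M (bs S)) * et = (et * gm G i) * M (bs S) * et := by noncomm_ring
        rw [h6, et_gm]
        noncomm_ring
      rw [h5, h1, Matrix.mul_smul, pow_succ]
      module
    · rw [Matrix.transpose_smul, Matrix.transpose_mul, gm_tr, h2, smul_comm (rs (S.card + 1))]
      congr 1
      rw [Matrix.smul_mul, h3]
      show _ = ((-1) ^ S.card * rs S.card) • (((-1 : ℝ) ^ S.card) • (M (bs S) * gm G i))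
      rw [smul_smul]
      congr 1
      have h7 : ((-1 : ℝ) ^ S.card) * ((-1 : ℝ) ^ S.card) = 1 := by
        rw [← mul_pow]; norm_num
      linear_combination (- rs S.card) * h7

include hv ha hc in
theorem main4 (hG : IsGam G) (S : Finset (Fin 8)) (hS : S.card = 4) :
    et * M (bs S) * et = M (bs S) ∧ (M (bs S))ᵀ = M (bs S) ∧ (M (bs S)).trace = 0 ∧
      (et * M (bs S)).trace = 0 := by
  obtain ⟨h1, h2⟩ := main_ind hv ha hc S
  rw [hS, rs4, one_smul] at h2
  rw [hS] at h1
  have h1' : et * M (bs S) * et = M (bs S) := by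
    rw [h1]
    norm_num
  have hsq : ∀ j, gm G j * gm G j = 1 := by
    intro j
    have h := gm_car hG j j
    rw [if_pos rfl] at h
    have h5 : (2 : ℝ) • (gm G j * gm G j) = (2 : ℝ) • (1 : MD) := by
      rw [two_smul, h]
      have h2 : (2 : MD) = 1 + 1 := by norm_num
      rw [h2, two_smul]
    exact smul_right_injective MD (by norm_num : (2 : ℝ) ≠ 0) h5
  refine ⟨h1', h2, ?_, ?_⟩
  · obtain ⟨i, hi⟩ : S.Nonempty := by
      rw [← Finset.card_pos, hS]; norm_num
    have hi' := Finset.notMem_erase i S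
    obtain ⟨h3, h4⟩ := main_ind hv ha hc (S.erase i)
    rw [Finset.card_erase_of_mem hi, hS] at h3
    have h5 := comm_of ha (an_bs hi')
    rw [h3] at h5
    have h6 : M (bs S) = (sg i (S.erase i) : ℝ) • (gm G i * M (bs (S.erase i))) := by
      conv_lhs => rw [← Finset.insert_erase hi]
      rw [bs_insert hi', map_smul, step ha hc (an_bs hi')]
    have h7 : (gm G i * M (bs (S.erase i))).trace = 0 := by
      have h8 : (gm G i * M (bs (S.erase i))).trace = -(gm G i * M (bs (S.erase i))).trace := by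
        conv_lhs => rw [h5]
        rw [Matrix.smul_mul, Matrix.trace_smul, Matrix.trace_mul_comm]
        norm_num
      linarith
    rw [h6, Matrix.trace_smul, h7, smul_zero]
  · obtain ⟨j, hj⟩ : ∃ j, j ∉ S := by
      by_contra hcon
      push Not at hcon
      have h3 : S = Finset.univ := Finset.eq_univ_iff_forall.2 hcon
      rw [h3] at hS
      simp at hS
    have h3 := comm_of ha (an_bs hj)
    rw [h1'] at h3
    have h4 : (et * M (bs S)).trace = -(et * M (bs S)).trace := by
      have h5 : et * M (bs S) = et * M (bs S) * gm G j * gm G j := by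
        rw [mul_assoc _ (gm G j), hsq, mul_one]
      have h6 : gm G j * (et * M (bs S) * gm G j) = -(et * (gm G j * M (bs S)) * gm G j) := by
        have h7 : gm G j * et = -(et * gm G j) := by rw [et_gm, neg_neg]
        have h8 : gm G j * (et * M (bs S) * gm G j) = (gm G j * et) * M (bs S) * gm G j := by
          noncomm_ring
        rw [h8, h7]
        noncomm_ring
      conv_lhs => rw [h5]
      rw [Matrix.trace_mul_comm, h6, h3, Matrix.trace_neg, ← mul_assoc, ← h5]
    linarith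

end

theorem trace_split (X : MD) : X.trace = X.toBlocks₁₁.trace + X.toBlocks₂₂.trace := by
  simp [Matrix.trace, Matrix.toBlocks₁₁, Matrix.toBlocks₂₂]

theorem et_mul (X : MD) :
    et * X = Matrix.fromBlocks X.toBlocks₁₁ X.toBlocks₁₂ (-X.toBlocks₂₁) (-X.toBlocks₂₂) := by
  conv_lhs => rw [← Matrix.fromBlocks_toBlocks X]
  unfold et
  rw [Matrix.fromBlocks_multiply]
  simp

theorem et_mul_et (X : MD) :
    et * X * et = Matrix.fromBlocks X.toBlocks₁₁ (-X.toBlocks₁₂) (-X.toBlocks₂₁) X.toBlocks₂₂ := by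
  rw [et_mul]
  unfold et
  rw [Matrix.fromBlocks_multiply]
  simp

theorem nF_split (X : MD) : (Xᵀ * X).trace = nF X.toBlocks₁₁ + nF X.toBlocks₁₂ +
    (nF X.toBlocks₂₁ + nF X.toBlocks₂₂) := by
  simp only [Matrix.trace, Matrix.diag_apply, Matrix.mul_apply, Matrix.transpose_apply]
  rw [Finset.sum_comm]
  simp only [Fintype.sum_sum_type, nF, Matrix.toBlocks₁₁, Matrix.toBlocks₁₂, Matrix.toBlocks₂₁,
    Matrix.toBlocks₂₂, Matrix.of_apply, Finset.sum_add_distrib, pow_two]
  ring

theorem zero_of_neg {X : M8} (h : X = -X) : X = 0 := by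
  ext i j
  have h1 := congrFun (congrFun h i) j
  rw [Matrix.neg_apply] at h1
  rw [Matrix.zero_apply]
  linarith

def b11 : MD →ₗ[ℝ] M8 where
  toFun X := X.toBlocks₁₁
  map_add' _ _ := rfl
  map_smul' _ _ := rfl

def b22 : MD →ₗ[ℝ] M8 where
  toFun X := X.toBlocks₂₂
  map_add' _ _ := rfl
  map_smul' _ _ := rfl

end ModelAux

open ModelAux in
theorem s_model (hf : S_FOCK) : S_MODEL := by
  intro G hG
  obtain ⟨U, hU, hin⟩ := hf 8 HD (cH G) (dH G) adj
    (fun i j x => by
      apply toM.injective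
      rw [map_add, toM_cH, toM_dH, toM_dH, toM_cH, car1 hG]
      split_ifs <;> simp)
    (fun i j x => by
      apply toM.injective
      rw [map_neg, toM_cH, toM_cH, toM_cH, toM_cH, car2 hG])
  obtain ⟨hv, ha, hc⟩ := hU e0 e0_c
  have hin := hin e0 e0 e0_c e0_c
  let M : Fk 8 ℝ →ₗ[ℝ] MD := toM.toLinearMap ∘ₗ U e0
  have hMv : M vac = (1 / 4 : ℝ) • (1 : MD) := by
    show toM (U e0 vac) = _
    rw [hv, toM_e0]
  have hMa : ∀ i v, M (an i v) = cM G i (M v) := by
    intro i v
    show toM (U e0 (an i v)) = _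
    rw [ha, toM_cH]
    rfl
  have hMc : ∀ i v, M (cr i v) = dM G i (M v) := by
    intro i v
    show toM (U e0 (cr i v)) = _
    rw [hc, toM_dH]
    rfl
  have hMi : ∀ v, ip v v = ((M v)ᵀ * M v).trace := by
    intro v
    have h := hin v v
    rw [e0_norm, one_mul, inner_toM] at h
    exact h.symm
  refine ⟨b11 ∘ₗ M, b22 ∘ₗ M, ?_⟩
  intro w hw
  have hall : et * M w * et = M w ∧ (M w)ᵀ = M w ∧ (M w).trace = 0 ∧ (et * M w).trace = 0 := by
    have h0 : M w = ∑ S, w S • M (bs S) := by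
      conv_lhs => rw [eq_sum w]
      rw [map_sum]
      exact Finset.sum_congr rfl fun S _ => map_smul _ _ _
    rw [h0]
    have key : ∀ S, w S = 0 ∨ (et * M (bs S) * et = M (bs S) ∧ (M (bs S))ᵀ = M (bs S) ∧
        (M (bs S)).trace = 0 ∧ (et * M (bs S)).trace = 0) := by
      intro S
      by_cases hS : S.card = 4
      · exact Or.inr (main4 hMv hMa hMc hG S hS)
      · exact Or.inl (hw S hS)
    refine ⟨?_, ?_, ?_, ?_⟩
    · rw [Finset.mul_sum, Finset.sum_mul]
      refine Finset.sum_congr rfl fun S _ => ?_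
      rcases key S with h | h
      · rw [h, zero_smul, mul_zero, zero_mul]
      · rw [Matrix.mul_smul, Matrix.smul_mul, h.1]
    · rw [Matrix.transpose_sum]
      refine Finset.sum_congr rfl fun S _ => ?_
      rcases key S with h | h
      · rw [h, zero_smul, Matrix.transpose_zero]
      · rw [Matrix.transpose_smul, h.2.1]
    · rw [Matrix.trace_sum]
      refine Finset.sum_eq_zero fun S _ => ?_
      rcases key S with h | h
      · rw [h, zero_smul, Matrix.trace_zero]
      · rw [Matrix.trace_smul, h.2.2.1, smul_zero]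
    · rw [Finset.mul_sum, Matrix.trace_sum]
      refine Finset.sum_eq_zero fun S _ => ?_
      rcases key S with h | h
      · rw [h, zero_smul, mul_zero, Matrix.trace_zero]
      · rw [Matrix.mul_smul, Matrix.trace_smul, h.2.2.2, smul_zero]
  obtain ⟨hb, hs, ht, hte⟩ := hall
  have e12 : (M w).toBlocks₁₂ = 0 := by
    have h := congrArg Matrix.toBlocks₁₂ hb
    rw [et_mul_et, Matrix.toBlocks_fromBlocks₁₂] at h
    exact zero_of_neg h.symm
  have e21 : (M w).toBlocks₂₁ = 0 := by
    have h := congrArg Matrix.toBlocks₂₁ hb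
    rw [et_mul_et, Matrix.toBlocks_fromBlocks₂₁] at h
    exact zero_of_neg h.symm
  have t1 := trace_split (M w)
  have t2 := trace_split (et * M w)
  rw [et_mul, Matrix.toBlocks_fromBlocks₁₁, Matrix.toBlocks_fromBlocks₂₂, ← et_mul, hte,
    Matrix.trace_neg] at t2
  rw [ht] at t1
  refine ⟨?_, ?_, ?_, ?_, ?_, ?_⟩
  · exact congrArg Matrix.toBlocks₁₁ hs
  · exact congrArg Matrix.toBlocks₂₂ hs
  · show (M w).toBlocks₁₁.trace = 0
    linarith
  · show (M w).toBlocks₂₂.trace = 0
    linarith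
  · rw [hMi, nF_split, e12, e21]
    show _ = nF (M w).toBlocks₁₁ + nF (M w).toBlocks₂₂
    simp [nF]
  · intro i j hij
    have h1 : M (cr i (an j w) - cr j (an i w)) =
        (1 / 2 : ℝ) • (gm G i * gm G j * M w - M w * (gm G i * gm G j)) := by
      rw [map_sub, hMc, hMc, hMa, hMa, equi hG i j hij]
    have h2 : M w = Matrix.fromBlocks (M w).toBlocks₁₁ 0 0 (M w).toBlocks₂₂ := by
      conv_lhs => rw [← Matrix.fromBlocks_toBlocks (M w), e12, e21]
    have h3 : M (cr i (an j w) - cr j (an i w)) = Matrix.fromBlocks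
        (((1 / 2 : ℝ) • ((G i)ᵀ * G j)) * (M w).toBlocks₁₁ -
          (M w).toBlocks₁₁ * ((1 / 2 : ℝ) • ((G i)ᵀ * G j))) 0 0
        (((1 / 2 : ℝ) • (G i * (G j)ᵀ)) * (M w).toBlocks₂₂ -
          (M w).toBlocks₂₂ * ((1 / 2 : ℝ) • (G i * (G j)ᵀ))) := by
      rw [h1, gm_gm]
      conv_lhs => rw [h2]
      rw [Matrix.fromBlocks_multiply, Matrix.fromBlocks_multiply, sub_eq_add_neg,
        Matrix.fromBlocks_neg, Matrix.fromBlocks_add, Matrix.fromBlocks_smul]
      simp only [Matrix.smul_mul, Matrix.mul_smul, smul_add, mul_zero, zero_mul, add_zero,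
        zero_add, neg_zero, smul_zero, smul_neg, sub_eq_add_neg]
    refine ⟨?_, ?_⟩
    · exact congrArg Matrix.toBlocks₁₁ h3
    · exact congrArg Matrix.toBlocks₂₂ h3

end Pool.Agent.H781.NG
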