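import Pool.Agent.H781.NG.Spec4
import Pool.Graph.R_seed8.Helper427.FPA.P_T_pos
import Pool.Graph.R_seed8.Helper427.FPA.P_fourpos_of_eig

/-!
The algebraic lemma for `n = 3` (`AlgLemmaF 3`): the Weitzenböck form of a curvature tensor with
4-positive curvature operator is positive on `Λ³ ℝ⁶`.
-/

set_option autoImplicit false
set_option maxHeartbeats 1000000

noncomputable section

namespace Pool.Agent.H781.NG

open Pool.Agent.H781.S22 (Pr)

namespace N3

/-- `v` is homogeneous of degree `m` -/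
def Hom {N : ℕ} (m : ℕ) (v : Fk N ℝ) : Prop := ∀ S, S.card ≠ m → v S = 0

theorem hom_an {N m : ℕ} {v : Fk N ℝ} (hv : Hom (m + 1) v) (i : Fin N) : Hom m (an i v) := by
  intro S hS
  rw [an_apply]
  split_ifs with h
  · rfl
  · rw [hv (insert i S) (by rw [Finset.card_insert_of_notMem h]; omega), mul_zero]

theorem ip_hom {N m : ℕ} {x : Fk N ℝ} (hx : Hom m x) (y : Fk N ℝ) :
    (m : ℝ) * ip x y = ∑ a, ip (an a x) (an a y) := by
  have h1 : (∑ a, cr a (an a x)) = (m : ℝ) • x := by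
    funext S
    rw [number, Pi.smul_apply, smul_eq_mul]
    by_cases h : S.card = m
    · rw [h]
    · rw [hx S h, mul_zero, mul_zero]
  rw [← ip_smul_left, ← h1, ip_sum_left]
  exact Finset.sum_congr rfl fun a _ => ip_cr a _ _

theorem ip_hom0 {N : ℕ} {x : Fk N ℝ} (hx : Hom 0 x) (y : Fk N ℝ) :
    ip x y = x ∅ * y ∅ := by
  unfold ip
  refine Finset.sum_eq_single ∅ ?_ ?_
  · intro S _ hS
    rw [hx S (by rwa [Ne, Finset.card_eq_zero]), zero_mul]
  · intro h
    exact absurd (Finset.mem_univ _) h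

/-- the 3-tensor of a vector of degree 3 -/
def w3 {N : ℕ} (v : Fk N ℝ) : Fin N → Fin N → Fin N → ℝ := fun i j k => an k (an j (an i v)) ∅

theorem w3_alt1 {N : ℕ} (v : Fk N ℝ) (a b c : Fin N) : w3 v a b c = - w3 v b a c := by
  unfold w3
  rw [an_an b a, map_neg]
  rfl

theorem w3_alt2 {N : ℕ} (v : Fk N ℝ) (a b c : Fin N) : w3 v a b c = - w3 v a c b := by
  unfold w3
  rw [an_an c b]
  rfl

theorem ip_one {N : ℕ} {v : Fk N ℝ} (hv : Hom 3 v) (i k : Fin N) :
    ip (an i v) (an k v) = (1 / 2) * ∑ a, ∑ b, w3 v i a b * w3 v k a b := by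
  have h2 := ip_hom (hom_an hv i) (an k v)
  have h1 : ∀ a, ip (an a (an i v)) (an a (an k v)) = ∑ b, w3 v i a b * w3 v k a b := by
    intro a
    have h3 := ip_hom (hom_an (hom_an hv i) a) (an a (an k v))
    rw [Nat.cast_one, one_mul] at h3
    rw [h3]
    exact Finset.sum_congr rfl fun b _ => ip_hom0 (hom_an (hom_an (hom_an hv i) a) b) _
  rw [← Finset.sum_congr rfl fun a _ => h1 a, ← h2]
  push_cast
  ring

theorem ip_two {N : ℕ} {v : Fk N ℝ} (hv : Hom 3 v) (i j k l : Fin N) :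
    ip (an l (an i v)) (an j (an k v)) = ∑ a, w3 v i l a * w3 v k j a := by
  have h3 := ip_hom (hom_an (hom_an hv i) l) (an j (an k v))
  rw [Nat.cast_one, one_mul] at h3
  rw [h3]
  exact Finset.sum_congr rfl fun b _ => ip_hom0 (hom_an (hom_an (hom_an hv i) l) b) _

theorem ip_four {N : ℕ} {v : Fk N ℝ} (hv : Hom 3 v) (i j k l : Fin N) :
    ip (cr j (an i v)) (cr l (an k v)) =
      (if j = l then (1 / 2) * ∑ a, ∑ b, w3 v i a b * w3 v k a b else 0) -
        ∑ a, w3 v i l a * w3 v k j a := by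
  rw [ip_cr, an_cr, ip_sub_right, ← ip_an, ip_two hv]
  congr 1
  split_ifs with h
  · exact ip_one hv i k
  · exact ip_zero_right _

theorem eq_zero_of_w3 {N : ℕ} {v : Fk N ℝ} (hv : Hom 3 v) (h : ∀ a b c, w3 v a b c = 0) :
    v = 0 := by
  have h1 := ip_hom hv v
  have h2 : ∀ a, ip (an a v) (an a v) = 0 := by
    intro a
    rw [ip_one hv]
    simp [h]
  rw [Finset.sum_congr rfl fun a _ => h2 a, Finset.sum_const_zero] at h1
  have h3 : ip v v = 0 := by
    rcases mul_eq_zero.1 h1 with h4 | h4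
    · norm_num at h4
    · exact h4
  funext S
  unfold ip at h3
  have h5 := (Finset.sum_eq_zero_iff_of_nonneg (fun S _ => mul_self_nonneg (v S))).1 h3 S
    (Finset.mem_univ S)
  exact mul_self_eq_zero.1 h5

theorem key (K : FPA.T4) (h1 : ∀ i j k l, K i j k l = - K j i k l)
    (h2 : ∀ i j k l, K i j k l = - K i j l k) {v : Fk 6 ℝ} (hv : Hom 3 v) :
    ∑ i, ∑ j, ∑ k, ∑ l, K i j k l * ip (cr j (an i v)) (cr l (an k v)) =
      FPA.Tform K (w3 v) := by
  have e1 : ∑ i, ∑ j, ∑ k, ∑ l, K i j k l * ip (cr j (an i v)) (cr l (an k v)) =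
      (∑ i, ∑ j, ∑ k, K i j k j * ((1 / 2) * ∑ a, ∑ b, w3 v i a b * w3 v k a b)) -
        ∑ i, ∑ j, ∑ k, ∑ l, K i j k l * ∑ a, w3 v i l a * w3 v k j a := by
    simp only [← Finset.sum_sub_distrib]
    refine Finset.sum_congr rfl fun i _ => Finset.sum_congr rfl fun j _ =>
      Finset.sum_congr rfl fun k _ => ?_
    have : ∀ l, K i j k l * ip (cr j (an i v)) (cr l (an k v)) =
        (if j = l then K i j k l * ((1 / 2) * ∑ a, ∑ b, w3 v i a b * w3 v k a b) else 0) -
          K i j k l * ∑ a, w3 v i l a * w3 v k j a := by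
      intro l
      rw [ip_four hv]
      split_ifs <;> ring
    rw [Finset.sum_congr rfl fun l _ => this l, Finset.sum_sub_distrib, Finset.sum_ite_eq,
      if_pos (Finset.mem_univ j)]
  rw [e1]
  unfold FPA.Tform
  rw [sub_eq_add_neg]
  congr 1
  · rw [Finset.mul_sum, Finset.sum_comm]
    refine Finset.sum_congr rfl fun j _ => ?_
    rw [Finset.mul_sum]
    refine Finset.sum_congr rfl fun i _ => ?_
    rw [Finset.mul_sum]
    refine Finset.sum_congr rfl fun k _ => ?_
    rw [h1 i j k j, h2 j i k j]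
    have : ∑ a, ∑ b, w3 v i a b * w3 v k a b = ∑ a, ∑ b, w3 v k a b * w3 v i a b :=
      Finset.sum_congr rfl fun a _ => Finset.sum_congr rfl fun b _ => mul_comm _ _
    rw [this]
    ring
  · simp only [← Finset.sum_neg_distrib]
    refine Finset.sum_congr rfl fun i _ => Finset.sum_congr rfl fun j _ =>
      Finset.sum_congr rfl fun k _ => Finset.sum_congr rfl fun l _ => ?_
    rw [← mul_neg, ← Finset.sum_neg_distrib]
    congr 1
    refine Finset.sum_congr rfl fun a _ => ?_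
    rw [w3_alt1 v k j a]
    ring

theorem herm {m : ℕ} {K : Fin m → Fin m → Fin m → Fin m → ℝ}
    (hp : ∀ i j k l, K i j k l = K k l i j) : (KM K).IsHermitian := by
  refine Matrix.IsHermitian.ext fun p q => ?_
  rw [star_trivial]
  exact hp q.1.1 q.1.2 p.1.1 p.1.2

theorem main (K : FPA.T4) (hK : CurvT K) (h4 : KPos 4 K) (v : Fk 6 ℝ) (hv : v ≠ 0)
    (h3 : ∀ S, S.card ≠ 3 → v S = 0) :
    0 < ∑ i, ∑ j, ∑ k, ∑ l, K i j k l * ip (cr j (an i v)) (cr l (an k v)) := by
  rw [key K hK.anti1 hK.anti2 h3]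
  have hK' : FPA.CurvT K := ⟨hK.anti1, hK.anti2, hK.bianchi⟩
  refine FPA.T_pos K hK' (FPA.fourpos_of_eig K hK' (herm hK.pair) (h4 (herm hK.pair))) (w3 v)
    ⟨w3_alt1 v, w3_alt2 v⟩ fun h => hv (eq_zero_of_w3 h3 fun a b c => ?_)
  rw [h]
  rfl

end N3

theorem s_n3 : AlgLemmaF 3 := fun K hK h4 u hu h3 => N3.main K hK h4 u hu h3

end Pool.Agent.H781.NG
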