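import Pool.Agent.H781.NG.Spec4

/-!
The inequality for the eigenvalues (`S_PAIR`).
-/

set_option autoImplicit false
set_option maxHeartbeats 1000000

noncomputable section

namespace Pool.Agent.H781.NG.Pair

/-- the quadratic polynomial is nonnegative -/
theorem quad (d ρ P Q : ℝ) (hd : d ^ 2 = 2 * (1 - ρ)) (h0 : 0 ≤ ρ) (h1 : 0 ≤ 1 - 5 * ρ) :
    0 ≤ (11 / 2) * (d / 2 + P) ^ 2 - (1 - 5 * ρ) * (2 * (d / 2 + Q) ^ 2 - 1) -
      (21 / 10 - 15 / 2 * ρ) * (4 * ρ - 3 * P ^ 2 - 2 * P * Q - 3 * Q ^ 2) := by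
  obtain ⟨k, hk⟩ : ∃ k, k = 1 - 5 * ρ := ⟨_, rfl⟩
  obtain ⟨μ, hμ⟩ : ∃ μ, μ = 21 / 10 - 15 / 2 * ρ := ⟨_, rfl⟩
  obtain ⟨E, hE⟩ : ∃ E, E = 59 / 5 - 45 / 2 * ρ := ⟨_, rfl⟩
  obtain ⟨g, hg⟩ : ∃ g, g = 43 / 10 - 25 / 2 * ρ := ⟨_, rfl⟩
  obtain ⟨D, hD⟩ : ∃ D, D = 4633 / 100 - 851 / 4 * ρ + 225 * ρ ^ 2 := ⟨_, rfl⟩
  obtain ⟨T, hT⟩ : ∃ T, T = 121 / 16 * g + 11 / 2 * (k * μ) + k ^ 2 * E := ⟨_, rfl⟩
  have hgpos : 0 < g := by rw [hg]; linarith
  have hDe : D = 4633 / 100 * k ^ 2 + 5011 / 100 * (k * (5 * ρ)) + 639 / 50 * (5 * ρ) ^ 2 := by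
    rw [hD, hk]; ring
  have hk0 : 0 ≤ k := by rw [hk]; exact h1
  have hr0 : 0 ≤ 5 * ρ := by linarith
  have hsum : k + 5 * ρ = 1 := by rw [hk]; ring
  have hDpos : 0 < D := by
    rw [hDe]
    have e1 : 0 ≤ k ^ 2 := sq_nonneg _
    have e2 : 0 ≤ k * (5 * ρ) := mul_nonneg hk0 hr0
    have e3 : 0 ≤ (5 * ρ) ^ 2 := sq_nonneg _
    have e4 : k ^ 2 + 2 * (k * (5 * ρ)) + (5 * ρ) ^ 2 = 1 := by
      have : (k + 5 * ρ) ^ 2 = 1 := by rw [hsum]; norm_num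
      linarith [this, (by ring : (k + 5 * ρ) ^ 2 = k ^ 2 + 2 * (k * (5 * ρ)) + (5 * ρ) ^ 2)]
    linarith
  have hdet : 0 ≤ ((11 / 4) * (1 - ρ) + (1 - 5 * ρ) * ρ - 4 * (21 / 10 - 15 / 2 * ρ) * ρ) * D -
      2 * (1 - ρ) * T := by
    have e : ((11 / 4) * (1 - ρ) + (1 - 5 * ρ) * ρ - 4 * (21 / 10 - 15 / 2 * ρ) * ρ) * D -
        2 * (1 - ρ) * T = 1567 / 100 * k ^ 4 + 4 * (1184 / 625) * (k ^ 3 * (5 * ρ)) +
        6 * (3367 / 15000) * (k ^ 2 * (5 * ρ) ^ 2) + 4 * (3051 / 5000) * (k * (5 * ρ) ^ 3) +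
        126 / 625 * (5 * ρ) ^ 4 := by
      rw [hT, hD, hg, hE, hμ, hk]; ring
    rw [e]
    positivity
  have key : g * D * ((11 / 2) * (d / 2 + P) ^ 2 - (1 - 5 * ρ) * (2 * (d / 2 + Q) ^ 2 - 1) -
      (21 / 10 - 15 / 2 * ρ) * (4 * ρ - 3 * P ^ 2 - 2 * P * Q - 3 * Q ^ 2)) =
      D * (g * Q + μ * P + -(k * d)) ^ 2 +
      (D * P + (11 / 4 * d * g - μ * -(k * d))) ^ 2 +
      g * (((11 / 4) * (1 - ρ) + (1 - 5 * ρ) * ρ - 4 * (21 / 10 - 15 / 2 * ρ) * ρ) * D -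
      2 * (1 - ρ) * T) := by
    rw [hT, hD, hg, hE, hμ, hk]
    linear_combination ((43 / 10 - 25 / 2 * ρ) * ((11 / 8 - (1 - 5 * ρ) / 2) *
      (4633 / 100 - 851 / 4 * ρ + 225 * ρ ^ 2) - (121 / 16 * (43 / 10 - 25 / 2 * ρ) +
      11 / 2 * ((1 - 5 * ρ) * (21 / 10 - 15 / 2 * ρ)) +
      (1 - 5 * ρ) ^ 2 * (59 / 5 - 45 / 2 * ρ)))) * hd
  have hpos : 0 < g * D := mul_pos hgpos hDpos
  by_contra hcon
  push Not at hcon
  have h3 := mul_neg_of_pos_of_neg hpos hcon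
  rw [key] at h3
  have h4 : 0 ≤ D * (g * Q + μ * P + -(k * d)) ^ 2 := mul_nonneg hDpos.le (sq_nonneg _)
  have h5 : 0 ≤ (D * P + (11 / 4 * d * g - μ * -(k * d))) ^ 2 := sq_nonneg _
  have h6 := mul_nonneg hgpos.le hdet
  linarith

theorem star (a b c : ℝ) (h1 : a ^ 2 + b ^ 2 + c ^ 2 ≤ 1) (h2 : 8 / 5 ≤ (a + b) ^ 2) :
    (2 * (a + b) ^ 2 - 16 / 5) * (2 * (a + c) ^ 2 - 1) ≤ (22 / 5) * (a - c) ^ 2 := by
  have hρ0 : 0 ≤ 1 - (a + b) ^ 2 / 2 := by nlinarith [sq_nonneg (a - b), sq_nonneg c]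
  have hρ1 : 0 ≤ 1 - 5 * (1 - (a + b) ^ 2 / 2) := by linarith
  have hμ : 0 ≤ 21 / 10 - 15 / 2 * (1 - (a + b) ^ 2 / 2) := by linarith
  have hF := quad (a + b) (1 - (a + b) ^ 2 / 2) ((a - b) / 2 - c) ((a - b) / 2 + c) (by ring)
    hρ0 hρ1
  have e1 : (a + b) / 2 + ((a - b) / 2 - c) = a - c := by ring
  have e2 : (a + b) / 2 + ((a - b) / 2 + c) = a + c := by ring
  have e3 : 4 * (1 - (a + b) ^ 2 / 2) - 3 * ((a - b) / 2 - c) ^ 2 -
      2 * ((a - b) / 2 - c) * ((a - b) / 2 + c) - 3 * ((a - b) / 2 + c) ^ 2 =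
      4 * (1 - (a ^ 2 + b ^ 2 + c ^ 2)) := by ring
  rw [e1, e2, e3] at hF
  have h3 := mul_nonneg hμ (by linarith : 0 ≤ 4 * (1 - (a ^ 2 + b ^ 2 + c ^ 2)))
  linarith

/-- sums of squares over distinct indices -/
theorem sub_le (h : Fin 8 → ℝ) (h2 : ∑ i, h i ^ 2 = 1) (s : Finset (Fin 8)) :
    ∑ i ∈ s, h i ^ 2 ≤ 1 := by
  rw [← h2]
  exact Finset.sum_le_sum_of_subset_of_nonneg (Finset.subset_univ s) fun _ _ _ => sq_nonneg _

theorem three (h : Fin 8 → ℝ) (h2 : ∑ i, h i ^ 2 = 1) {p q j : Fin 8} (hpq : p ≠ q) (hpj : p ≠ j)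
    (hqj : q ≠ j) : h p ^ 2 + h q ^ 2 + h j ^ 2 ≤ 1 := by
  have := sub_le h h2 {p, q, j}
  rw [Finset.sum_insert (by simp [hpq, hpj]), Finset.sum_insert (by simp [hqj]),
    Finset.sum_singleton] at this
  linarith

theorem four (h : Fin 8 → ℝ) (h2 : ∑ i, h i ^ 2 = 1) {p q i j : Fin 8} (hpq : p ≠ q)
    (hpj : p ≠ j) (hqj : q ≠ j) (hpi : p ≠ i) (hqi : q ≠ i) (hij : i ≠ j) :
    h p ^ 2 + h q ^ 2 + h i ^ 2 + h j ^ 2 ≤ 1 := by
  have := sub_le h h2 {p, q, i, j}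
  rw [Finset.sum_insert (by simp [hpq, hpj, hpi]), Finset.sum_insert (by simp [hqj, hqi]),
    Finset.sum_insert (by simp [hij]), Finset.sum_singleton] at this
  linarith

theorem two (h : Fin 8 → ℝ) (h2 : ∑ i, h i ^ 2 = 1) {p q : Fin 8} (hpq : p ≠ q) :
    h p ^ 2 + h q ^ 2 ≤ 1 := by
  have := sub_le h h2 {p, q}
  rw [Finset.sum_insert (by simp [hpq]), Finset.sum_singleton] at this
  linarith

/-- the lower bound -/
theorem lower (h : Fin 8 → ℝ) (h2 : ∑ i, h i ^ 2 = 1) {p q : Fin 8} (hpq : p ≠ q)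
    (hl : 8 / 5 < (h p - h q) ^ 2) (i j : Fin 8) (hij : i ≠ j) :
    (2 * (h p - h q) ^ 2 - 16 / 5) * (2 * (h i + h j) ^ 2 - 1) ≤
      (11 / 5) * (2 * (h i - h j) ^ 2) := by
  -- trivial if `M ≤ 1`
  have triv : 2 * (h i + h j) ^ 2 ≤ 1 → (2 * (h p - h q) ^ 2 - 16 / 5) *
      (2 * (h i + h j) ^ 2 - 1) ≤ (11 / 5) * (2 * (h i - h j) ^ 2) := by
    intro hM
    have e1 := mul_nonneg (by linarith : (0 : ℝ) ≤ 2 * (h p - h q) ^ 2 - 16 / 5)
      (by linarith : (0 : ℝ) ≤ 1 - 2 * (h i + h j) ^ 2)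
    have e2 := sq_nonneg (h i - h j)
    linarith
  have c1 : ∀ j, p ≠ j → q ≠ j → (2 * (h p - h q) ^ 2 - 16 / 5) *
      (2 * (h p + h j) ^ 2 - 1) ≤ (22 / 5) * (h p - h j) ^ 2 := by
    intro j hpj hqj
    have h3 := three h h2 hpq hpj hqj
    have h4 := star (h p) (-(h q)) (h j) (by rw [neg_sq]; exact h3)
      (by rw [← sub_eq_add_neg]; exact hl.le)
    rwa [← sub_eq_add_neg] at h4
  have c2 : ∀ j, p ≠ j → q ≠ j → (2 * (h p - h q) ^ 2 - 16 / 5) *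
      (2 * (h q + h j) ^ 2 - 1) ≤ (22 / 5) * (h q - h j) ^ 2 := by
    intro j hpj hqj
    have h3 := three h h2 hpq hpj hqj
    have h4 := star (-(h q)) (h p) (-(h j)) (by rw [neg_sq, neg_sq]; linarith)
      (by
        have e : (-(h q) + h p) ^ 2 = (h p - h q) ^ 2 := by ring
        rw [e]; exact hl.le)
    have e1 : (-(h q) + h p) ^ 2 = (h p - h q) ^ 2 := by ring
    have e2 : (-(h q) + -(h j)) ^ 2 = (h q + h j) ^ 2 := by ring
    have e3 : (-(h q) - -(h j)) ^ 2 = (h q - h j) ^ 2 := by ring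
    rwa [e1, e2, e3] at h4
  have h2' := two h h2 hpq
  by_cases hip : i = p
  · subst hip
    by_cases hjq : j = q
    · subst hjq
      apply triv
      nlinarith
    · have := c1 j hij (Ne.symm hjq)
      linarith
  · by_cases hiq : i = q
    · subst hiq
      by_cases hjp : j = p
      · subst hjp
        apply triv
        nlinarith
      · have := c2 j (Ne.symm hjp) hij
        linarith
    · by_cases hjp : j = p
      · subst hjp
        have h3 := c1 i hij.symm (Ne.symm hiq)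
        have e1 : (h i + h j) ^ 2 = (h j + h i) ^ 2 := by ring
        have e2 : (h i - h j) ^ 2 = (h j - h i) ^ 2 := by ring
        rw [e1, e2]
        linarith
      · by_cases hjq : j = q
        · subst hjq
          have h3 := c2 i (Ne.symm hip) hij.symm
          have e1 : (h i + h j) ^ 2 = (h j + h i) ^ 2 := by ring
          have e2 : (h i - h j) ^ 2 = (h j - h i) ^ 2 := by ring
          rw [e1, e2]
          linarith
        · apply triv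
          have h3 := four h h2 hpq (Ne.symm hjp) (Ne.symm hjq) (Ne.symm hip) (Ne.symm hiq) hij
          nlinarith [sq_nonneg (h i - h j), sq_nonneg (h p + h q)]

end Pool.Agent.H781.NG.Pair

namespace Pool.Agent.H781.NG

open Pair

/-- the inequality for the eigenvalues -/
theorem s_pair : S_PAIR := by
  intro h _ h2
  obtain ⟨p, hp⟩ := Finite.exists_max h
  obtain ⟨q, hq⟩ := Finite.exists_min h
  have hd0 : 0 ≤ h p - h q := by linarith [hp q]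
  have hW : ∀ i j, (h i - h j) ^ 2 ≤ (h p - h q) ^ 2 := by
    intro i j
    apply sq_le_sq'
    · linarith [hp j, hq i]
    · linarith [hp i, hq j]
  by_cases hl : (h p - h q) ^ 2 ≤ 8 / 5
  · refine ⟨fun _ => 0, by simp, fun i j _ => ⟨?_, ?_⟩⟩
    · have := sq_nonneg (h i - h j)
      simp only [add_zero, sub_zero]
      linarith
    · have := hW i j
      simp only [add_zero, sub_zero]
      linarith
  · push Not at hl
    have hpq : p ≠ q := by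
      rintro rfl
      rw [sub_self] at hl
      norm_num at hl
    have hpos : 0 < 2 * (h p - h q) ^ 2 - 1 := by linarith
    obtain ⟨θ, hθ⟩ : ∃ θ, θ = (2 * (h p - h q) ^ 2 - 16 / 5) / (2 * (h p - h q) ^ 2 - 1) :=
      ⟨_, rfl⟩
    have hθ' : θ * (2 * (h p - h q) ^ 2 - 1) = 2 * (h p - h q) ^ 2 - 16 / 5 := by
      rw [hθ, div_mul_cancel₀ _ hpos.ne']
    have hθ0 : 0 ≤ θ := by
      rw [hθ]
      exact div_nonneg (by linarith) hpos.le
    have hθ1 : θ ≤ 1 := by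
      rw [hθ, div_le_one hpos]
      linarith
    refine ⟨fun i => θ * (4 * h i ^ 2 - 1 / 2), ?_, ?_⟩
    · rw [← Finset.mul_sum, Finset.sum_sub_distrib, ← Finset.mul_sum, h2]
      simp
      right
      norm_num
    · intro i j hij
      have hlow := lower h h2 hpq hl i j hij
      have hWij := hW i j
      constructor
      · show 0 ≤ 2 * (h i - h j) ^ 2 - (θ * (4 * h i ^ 2 - 1 / 2) + θ * (4 * h j ^ 2 - 1 / 2))
        by_contra hcon
        push Not at hcon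
        have h3 := mul_neg_of_pos_of_neg hpos hcon
        have e : (2 * (h p - h q) ^ 2 - 1) * (2 * (h i - h j) ^ 2 -
            (θ * (4 * h i ^ 2 - 1 / 2) + θ * (4 * h j ^ 2 - 1 / 2))) =
            (11 / 5) * (2 * (h i - h j) ^ 2) - (2 * (h p - h q) ^ 2 - 16 / 5) *
              (2 * (h i + h j) ^ 2 - 1) := by
          linear_combination (-(4 * h i ^ 2 + 4 * h j ^ 2 - 1)) * hθ'
        rw [e] at h3
        linarith
      · show 2 * (h i - h j) ^ 2 - (θ * (4 * h i ^ 2 - 1 / 2) + θ * (4 * h j ^ 2 - 1 / 2)) ≤ 16 / 5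
        have e1 : 2 * (h i - h j) ^ 2 - (θ * (4 * h i ^ 2 - 1 / 2) + θ * (4 * h j ^ 2 - 1 / 2)) =
            (1 - θ) * (2 * (h i - h j) ^ 2) + θ - θ * (2 * (h i + h j) ^ 2) := by ring
        have e2 : (1 - θ) * (2 * (h i - h j) ^ 2) ≤ (1 - θ) * (2 * (h p - h q) ^ 2) :=
          mul_le_mul_of_nonneg_left (by linarith) (by linarith)
        have e3 : 0 ≤ θ * (2 * (h i + h j) ^ 2) := mul_nonneg hθ0 (by positivity)
        rw [e1]
        linarith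

end Pool.Agent.H781.NG
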