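import Pool.Agent.H781.NG.Final
import Pool.Agent.H781.NG.Classify
import Pool.Agent.H781.NG.Alg4
import Pool.Agent.H781.NG.Fk1
import Pool.Agent.H781.NG.Fred
import Pool.Agent.H781.NG.Gam
import Pool.Agent.H781.NG.Model
import Pool.Agent.H781.NG.Pair
import Pool.Agent.H781.NG.Lem8
import Pool.Agent.H781.NG.Clifb
import Pool.Agent.H781.NG.N3

/-!
The algebraic lemma for every `n ≥ 3`.
-/

set_option autoImplicit false

noncomputable section

namespace Pool.Agent.H781.NG

theorem alg4' : AlgLemma 4 :=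
  s_fred s_fock 4 (s_n4 s_gam (s_model s_fock) (s_lem8 s_pair) s_clifb)

theorem alg3' : AlgLemma 3 := s_fred s_fock 3 s_n3

/-- The algebraic lemma for all `n ≥ 3`. -/
theorem alg3 : ∀ n : ℕ, 3 ≤ n → AlgLemma n := alg_all alg3' alg4'

end Pool.Agent.H781.NG
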