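import Pool.Agent.H781.NG.Fock

/-!
Frames with a metric torsion-free connection, and the induced operators on the Fock space.
-/

set_option autoImplicit false

noncomputable section

namespace Pool.Agent.H781.NG

open Finset

/-- Derivations `e a` of a commutative algebra of functions and connection coefficients
`Γ a b c = ⟨∇_{e_a} e_b, e_c⟩` of a metric torsion-free connection. -/
structure Fr (N : ℕ) (A : Type*) [CommRing A] [Algebra ℝ A] where
  e : Fin N → Derivation ℝ A A
  Γ : Fin N → Fin N → Fin N → A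
  anti : ∀ a b c, Γ a b c = - Γ a c b
  tors : ∀ a b (f : A), e a (e b f) - e b (e a f) = ∑ c, (Γ a b c - Γ b a c) * e c f

variable {N : ℕ} {A : Type*} [CommRing A] [Algebra ℝ A] (F : Fr N A)

/-- curvature `⟨R(e_a,e_b)e_c, e_d⟩` -/
def Rm (a b c d : Fin N) : A :=
  F.e a (F.Γ b c d) - F.e b (F.Γ a c d)
    + ∑ f, (F.Γ b c f * F.Γ a f d - F.Γ a c f * F.Γ b f d)
    - ∑ f, (F.Γ a b f - F.Γ b a f) * F.Γ f c d

/-- the first Bianchi identity -/
def Bianchi : Prop := ∀ a b c d, Rm F a b c d + Rm F b c a d + Rm F c a b d = 0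

/-- the connection matrix acting on the Fock space -/
def gam (a : Fin N) (u : Fk N A) : Fk N A := ∑ b, ∑ c, F.Γ a b c • cr c (an b u)

/-- covariant derivative along `e a` -/
def nab (a : Fin N) (u : Fk N A) : Fk N A := (fun S => F.e a (u S)) + gam F a u

/-- exterior derivative -/
def dd (u : Fk N A) : Fk N A := ∑ a, cr a (nab F a u)

/-- codifferential -/
def de (u : Fk N A) : Fk N A := - ∑ a, an a (nab F a u)

/-- Weitzenböck term -/
def ric (u : Fk N A) : A :=
  - ∑ a, ∑ b, ∑ c, ∑ d, Rm F a b c d * ip (cr b (an a u)) (cr d (an c u))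

/-- divergence of a vector field with components `f` -/
def dv (f : Fin N → A) : A := ∑ b, F.e b (f b) + ∑ a, ∑ b, F.Γ b a b * f a

/-- `I` is integration with respect to the Riemannian measure -/
def IsInt (I : A →ₗ[ℝ] ℝ) : Prop := ∀ f : Fin N → A, I (dv F f) = 0

end Pool.Agent.H781.NG
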