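import Pool.Agent.H781.NG.Spec

/-! Proof of `S_COM` (commutators of `d`, `δ` with the mollifier). -/

open Bundle Manifold ContDiff VectorField Metric MeasureTheory Filter
open scoped Topology RealInnerProductSpace

set_option autoImplicit false
set_option synthInstance.maxHeartbeats 400000
set_option maxHeartbeats 4000000

noncomputable section

namespace Pool.Agent.H781.NG

open Pool.Agent.H821R2 Pool.Agent.H821R3 Pool.Agent.H893R5.HO Pool.Agent.H781.S22

namespace Com

variable {n : ℕ} {μ : Measure (MM n)}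

theorem cont_ev (f : SmA n) : Continuous fun p => ev p f := f.2.continuous

theorem int_ev [IsProbabilityMeasure μ] (f : SmA n) : Integrable (fun p => ev p f) μ :=
  (cont_ev f).integrable_of_hasCompactSupport (HasCompactSupport.of_compactSpace _)

theorem ig_add [IsProbabilityMeasure μ] (f g : SmA n) : ig μ (f + g) = ig μ f + ig μ g := by
  unfold ig
  rw [← integral_add (int_ev f) (int_ev g)]
  exact integral_congr_ae (Eventually.of_forall fun p => map_add (ev p) f g)

theorem ig_sub [IsProbabilityMeasure μ] (f g : SmA n) : ig μ (f - g) = ig μ f - ig μ g := by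
  unfold ig
  rw [← integral_sub (int_ev f) (int_ev g)]
  exact integral_congr_ae (Eventually.of_forall fun p => map_sub (ev p) f g)

theorem ig_zero : ig μ (0 : SmA n) = 0 := by
  unfold ig
  simp

theorem ig_sum [IsProbabilityMeasure μ] {κ : Type*} (s : Finset κ) (f : κ → SmA n) :
    ig μ (∑ k ∈ s, f k) = ∑ k ∈ s, ig μ (f k) := by
  classical
  induction s using Finset.induction_on with
  | empty => simp [ig_zero]
  | insert a s ha ih => rw [Finset.sum_insert ha, Finset.sum_insert ha, ig_add, ih]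

theorem ig_mono [IsProbabilityMeasure μ] {f g : SmA n} (h : ∀ p, ev p f ≤ ev p g) :
    ig μ f ≤ ig μ g := integral_mono (int_ev f) (int_ev g) h

theorem ig_cs [IsProbabilityMeasure μ] (c : ℝ) (f : SmA n) : ig μ (cs c * f) = c * ig μ f := by
  unfold ig
  rw [← integral_const_mul]
  refine integral_congr_ae (Eventually.of_forall fun p => ?_)
  change ev p (cs c * f) = c * ev p f
  rw [map_mul, ev_cs]

theorem ig_sq_nonneg [IsProbabilityMeasure μ] (f : SmA n) : 0 ≤ ig μ (f * f) := by
  rw [← ig_zero (n := n) (μ := μ)]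
  refine ig_mono fun p => ?_
  rw [map_zero, map_mul]
  exact mul_self_nonneg _

theorem ig_sq_add [IsProbabilityMeasure μ] (f g : SmA n) :
    ig μ ((f + g) * (f + g)) ≤ 2 * ig μ (f * f) + 2 * ig μ (g * g) := by
  rw [← ig_cs, ← ig_cs, ← ig_add]
  refine ig_mono fun p => ?_
  simp only [map_mul, map_add, ev_cs]
  nlinarith [sq_nonneg (ev p f - ev p g)]

theorem ig_sq_sub [IsProbabilityMeasure μ] (f g : SmA n) :
    ig μ ((f - g) * (f - g)) ≤ 2 * ig μ (f * f) + 2 * ig μ (g * g) := by
  rw [← ig_cs, ← ig_cs, ← ig_add]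
  refine ig_mono fun p => ?_
  simp only [map_mul, map_add, map_sub, ev_cs]
  nlinarith [sq_nonneg (ev p f + ev p g)]

theorem bdd_sq (a : SmA n) : ∃ A : ℝ, 0 ≤ A ∧ ∀ p, ev p a * ev p a ≤ A := by
  obtain ⟨C, hC⟩ := (isCompact_univ (X := MM n)).exists_bound_of_continuousOn
    (cont_ev a).continuousOn
  refine ⟨C * C, mul_self_nonneg C, fun p => ?_⟩
  have h1 := hC p (Set.mem_univ p)
  rw [Real.norm_eq_abs] at h1
  have h2 : |ev p a| * |ev p a| ≤ C * C := mul_self_le_mul_self (abs_nonneg _) h1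
  rwa [abs_mul_abs_self] at h2

theorem ig_sq_mul [IsProbabilityMeasure μ] (a : SmA n) {A : ℝ}
    (hA : ∀ p, ev p a * ev p a ≤ A) (f : SmA n) :
    ig μ ((a * f) * (a * f)) ≤ A * ig μ (f * f) := by
  rw [← ig_cs]
  refine ig_mono fun p => ?_
  simp only [map_mul, ev_cs]
  nlinarith [hA p, mul_self_nonneg (ev p f)]

/-! ### Squared norms of forms -/

theorem q2_eq [IsProbabilityMeasure μ] (u : Fk (2 * n + 2) (SmA n)) :
    q2 μ u = ∑ S, ig μ (u S * u S) := by
  unfold q2 ip
  rw [ig_sum]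

theorem q2_nonneg [IsProbabilityMeasure μ] (u : Fk (2 * n + 2) (SmA n)) : 0 ≤ q2 μ u := by
  rw [q2_eq]
  exact Finset.sum_nonneg fun S _ => ig_sq_nonneg _

theorem q2_add [IsProbabilityMeasure μ] (u v : Fk (2 * n + 2) (SmA n)) :
    q2 μ (u + v) ≤ 2 * q2 μ u + 2 * q2 μ v := by
  rw [q2_eq, q2_eq, q2_eq, Finset.mul_sum, Finset.mul_sum, ← Finset.sum_add_distrib]
  exact Finset.sum_le_sum fun S _ => ig_sq_add _ _

theorem q2_neg (u : Fk (2 * n + 2) (SmA n)) : q2 μ (-u) = q2 μ u := by
  unfold q2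
  rw [ip_neg_left, ip_neg_right, neg_neg]

theorem q2_cr_an [IsProbabilityMeasure μ] (a : Fin (2 * n + 2)) (u : Fk (2 * n + 2) (SmA n)) :
    q2 μ (cr a u) + q2 μ (an a u) = q2 μ u := by
  unfold q2
  rw [← ig_add, ip_cr, ip_an, ← ip_add_right, car_self]

theorem q2_cr [IsProbabilityMeasure μ] (a : Fin (2 * n + 2)) (u : Fk (2 * n + 2) (SmA n)) :
    q2 μ (cr a u) ≤ q2 μ u := by
  rw [← q2_cr_an a u]
  linarith [q2_nonneg (μ := μ) (an a u)]

theorem q2_an [IsProbabilityMeasure μ] (a : Fin (2 * n + 2)) (u : Fk (2 * n + 2) (SmA n)) :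
    q2 μ (an a u) ≤ q2 μ u := by
  rw [← q2_cr_an a u]
  linarith [q2_nonneg (μ := μ) (cr a u)]

/-! ### The mollifier on forms -/

variable (J : ℕ → SmA n →ₗ[ℝ] SmA n)

theorem J_sg (m : ℕ) (z : ℤ) (f : SmA n) : J m ((z : SmA n) * f) = (z : SmA n) * J m f := by
  rw [← zsmul_eq_mul, ← zsmul_eq_mul, map_zsmul]

theorem JF_add (m : ℕ) (u v : Fk (2 * n + 2) (SmA n)) :
    JF J m (u + v) = JF J m u + JF J m v := by
  funext S
  exact map_add (J m) _ _

theorem JF_neg (m : ℕ) (u : Fk (2 * n + 2) (SmA n)) : JF J m (-u) = -JF J m u := by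
  funext S
  exact map_neg (J m) _

theorem JF_zero (m : ℕ) : JF J m (0 : Fk (2 * n + 2) (SmA n)) = 0 := by
  funext S
  exact map_zero (J m)

theorem JF_cr (m : ℕ) (a : Fin (2 * n + 2)) (u : Fk (2 * n + 2) (SmA n)) :
    JF J m (cr a u) = cr a (JF J m u) := by
  funext S
  change J m (cr a u S) = cr a (JF J m u) S
  rw [cr_apply, cr_apply]
  split_ifs
  · exact J_sg J m _ _
  · exact map_zero (J m)

theorem JF_an (m : ℕ) (a : Fin (2 * n + 2)) (u : Fk (2 * n + 2) (SmA n)) :
    JF J m (an a u) = an a (JF J m u) := by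
  funext S
  change J m (an a u S) = an a (JF J m u) S
  rw [an_apply, an_apply]
  split_ifs
  · exact map_zero (J m)
  · exact J_sg J m _ _

/-- operators whose commutators with the mollifier are bounded and tend to zero -/
structure Good (μ : Measure (MM n)) (J : ℕ → SmA n →ₗ[ℝ] SmA n)
    (P : Fk (2 * n + 2) (SmA n) → Fk (2 * n + 2) (SmA n)) : Prop where
  bd : ∃ C : ℝ, ∀ m, 1 ≤ m → ∀ u, q2 μ (P (JF J m u) - JF J m (P u)) ≤ C * q2 μ u
  lim : ∀ u, Tendsto (fun m => q2 μ (P (JF J m u) - JF J m (P u))) atTop (𝓝 0)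

variable {J}
variable {P Q : Fk (2 * n + 2) (SmA n) → Fk (2 * n + 2) (SmA n)}

theorem Good.add [IsProbabilityMeasure μ] (hP : Good μ J P) (hQ : Good μ J Q) :
    Good μ J fun u => P u + Q u := by
  have h : ∀ m u, (P (JF J m u) + Q (JF J m u)) - JF J m (P u + Q u) =
      (P (JF J m u) - JF J m (P u)) + (Q (JF J m u) - JF J m (Q u)) := by
    intro m u
    rw [JF_add]
    abel
  constructor
  · obtain ⟨C, hC⟩ := hP.bd
    obtain ⟨C', hC'⟩ := hQ.bd
    refine ⟨2 * C + 2 * C', fun m hm u => ?_⟩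
    rw [h]
    refine (q2_add _ _).trans ?_
    linarith [hC m hm u, hC' m hm u]
  · intro u
    simp only [h]
    have h1 := ((hP.lim u).const_mul 2).add ((hQ.lim u).const_mul 2)
    rw [mul_zero, add_zero] at h1
    exact squeeze_zero (fun m => q2_nonneg _) (fun m => q2_add _ _) h1

theorem Good.neg (hP : Good μ J P) : Good μ J fun u => -P u := by
  have h : ∀ m u, -P (JF J m u) - JF J m (-P u) = -(P (JF J m u) - JF J m (P u)) := by
    intro m u
    rw [JF_neg]
    abel
  constructor
  · obtain ⟨C, hC⟩ := hP.bd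
    refine ⟨C, fun m hm u => ?_⟩
    rw [h, q2_neg]
    exact hC m hm u
  · intro u
    simp only [h, q2_neg]
    exact hP.lim u

theorem good_zero : Good μ J fun _ => 0 := by
  have h : ∀ m, (0 : Fk (2 * n + 2) (SmA n)) - JF J m 0 = 0 := by
    intro m
    rw [JF_zero, sub_zero]
  have h0 : q2 μ (0 : Fk (2 * n + 2) (SmA n)) = 0 := by
    unfold q2
    rw [ip_zero_left, ig_zero]
  constructor
  · refine ⟨0, fun m hm u => ?_⟩
    rw [h, h0, zero_mul]
  · intro u
    simp only [h, h0]
    exact tendsto_const_nhds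

theorem Good.sum [IsProbabilityMeasure μ] {κ : Type*} (s : Finset κ)
    {P : κ → Fk (2 * n + 2) (SmA n) → Fk (2 * n + 2) (SmA n)} (hP : ∀ k, Good μ J (P k)) :
    Good μ J fun u => ∑ k ∈ s, P k u := by
  classical
  induction s using Finset.induction_on with
  | empty =>
    simp only [Finset.sum_empty]
    exact good_zero
  | insert a s ha ih =>
    simp only [Finset.sum_insert ha]
    exact (hP a).add ih

theorem Good.cr [IsProbabilityMeasure μ] (hP : Good μ J P) (a : Fin (2 * n + 2)) :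
    Good μ J fun u => cr a (P u) := by
  have h : ∀ m u, NG.cr a (P (JF J m u)) - JF J m (NG.cr a (P u)) =
      NG.cr a (P (JF J m u) - JF J m (P u)) := by
    intro m u
    rw [JF_cr, map_sub]
  constructor
  · obtain ⟨C, hC⟩ := hP.bd
    refine ⟨C, fun m hm u => ?_⟩
    rw [h]
    exact (q2_cr _ _).trans (hC m hm u)
  · intro u
    simp only [h]
    exact squeeze_zero (fun m => q2_nonneg _) (fun m => q2_cr _ _) (hP.lim u)

theorem Good.an [IsProbabilityMeasure μ] (hP : Good μ J P) (a : Fin (2 * n + 2)) :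
    Good μ J fun u => an a (P u) := by
  have h : ∀ m u, NG.an a (P (JF J m u)) - JF J m (NG.an a (P u)) =
      NG.an a (P (JF J m u) - JF J m (P u)) := by
    intro m u
    rw [JF_an, map_sub]
  constructor
  · obtain ⟨C, hC⟩ := hP.bd
    refine ⟨C, fun m hm u => ?_⟩
    rw [h]
    exact (q2_an _ _).trans (hC m hm u)
  · intro u
    simp only [h]
    exact squeeze_zero (fun m => q2_nonneg _) (fun m => q2_an _ _) (hP.lim u)

/-- composition on the right with an operator commuting with the mollifier -/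
theorem Good.comp (hP : Good μ J P) (hC0 : ∀ C : ℝ, ∃ C', C ≤ C' ∧ 0 ≤ C')
    {T : Fk (2 * n + 2) (SmA n) → Fk (2 * n + 2) (SmA n)}
    (hT : ∀ m u, JF J m (T u) = T (JF J m u)) (hq : ∀ u, q2 μ (T u) ≤ q2 μ u)
    (hq0 : ∀ u : Fk (2 * n + 2) (SmA n), 0 ≤ q2 μ u) :
    Good μ J fun u => P (T u) := by
  constructor
  · obtain ⟨C, hC⟩ := hP.bd
    obtain ⟨C', h1, h2⟩ := hC0 C
    refine ⟨C', fun m hm u => ?_⟩
    rw [← hT]
    refine (hC m hm (T u)).trans ?_
    exact (mul_le_mul_of_nonneg_right h1 (hq0 _)).trans (mul_le_mul_of_nonneg_left (hq u) h2)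
  · intro u
    have h := hP.lim (T u)
    simp only [hT] at h
    exact h

/-- componentwise operators -/
theorem good_comp [IsProbabilityMeasure μ] {T : SmA n → SmA n}
    (h1 : ∃ C : ℝ, ∀ m, 1 ≤ m → ∀ f,
      ig μ ((T (J m f) - J m (T f)) * (T (J m f) - J m (T f))) ≤ C * ig μ (f * f))
    (h2 : ∀ f, Tendsto (fun m => ig μ ((T (J m f) - J m (T f)) * (T (J m f) - J m (T f)))) atTop
      (𝓝 0)) :
    Good μ J fun u S => T (u S) := by
  constructor
  · obtain ⟨C, hC⟩ := h1
    refine ⟨C, fun m hm u => ?_⟩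
    rw [q2_eq, q2_eq, Finset.mul_sum]
    exact Finset.sum_le_sum fun S _ => hC m hm (u S)
  · intro u
    have h3 : Tendsto (fun m => ∑ S : Finset (Fin (2 * n + 2)),
        ig μ ((T (J m (u S)) - J m (T (u S))) * (T (J m (u S)) - J m (T (u S))))) atTop
        (𝓝 (∑ S : Finset (Fin (2 * n + 2)), (0 : ℝ))) :=
      tendsto_finsetSum _ fun S _ => h2 (u S)
    rw [Finset.sum_const_zero] at h3
    refine h3.congr fun m => ?_
    rw [q2_eq]
    rfl

theorem good_mul [IsProbabilityMeasure μ]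
    (hJ : ∀ m f, ig μ (J m f * J m f) ≤ ig μ (f * f))
    (hJ0 : ∀ f, Tendsto (fun m => ig μ ((J m f - f) * (J m f - f))) atTop (𝓝 0)) (a : SmA n) :
    Good μ J fun u => a • u := by
  obtain ⟨A, hA0, hA⟩ := bdd_sq a
  refine good_comp (T := fun f => a * f) ⟨4 * A, fun m _ f => ?_⟩ fun f => ?_
  · have e1 := ig_sq_sub (μ := μ) (a * J m f) (J m (a * f))
    have e2 := ig_sq_mul (μ := μ) a hA (J m f)
    have e3 := hJ m (a * f)
    have e4 := ig_sq_mul (μ := μ) a hA f
    have e5 := mul_le_mul_of_nonneg_left (hJ m f) hA0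
    linarith
  · have h1 : ∀ m, a * J m f - J m (a * f) = a * (J m f - f) - (J m (a * f) - a * f) := by
      intro m
      ring
    have h2 := ((hJ0 f).const_mul (2 * A)).add ((hJ0 (a * f)).const_mul 2)
    rw [mul_zero, mul_zero, add_zero] at h2
    refine squeeze_zero (fun m => ig_sq_nonneg _) (fun m => ?_) h2
    rw [h1]
    have e1 := ig_sq_sub (μ := μ) (a * (J m f - f)) (J m (a * f) - a * f)
    have e2 := ig_sq_mul (μ := μ) a hA (J m f - f)
    linarith

end Com

open Com in
theorem s_com : S_COM := by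
  intro n k μ hn hμ D J hJ hJ0 hC hC0
  have := hμ.prob
  have hder : ∀ (a : SmA n) (i : Ix n),
      Good μ J fun u S => a * ED i (u S) := by
    intro a i
    refine good_comp (T := fun f => a * ED i f) ?_ ?_
    · obtain ⟨C, h⟩ := hC a i
      refine ⟨C, fun m hm f => ?_⟩
      have := h m hm f
      rwa [pow_two] at this
    · intro f
      have := hC0 a i f
      simp only [pow_two] at this
      exact this
  have hnab : ∀ a, Good μ J (nab D.F a) := by
    intro a
    have h1 : Good μ J fun u => ∑ i, fun S => D.S a i * ED i (u S) :=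
      Good.sum _ fun i => hder _ i
    have h2 : Good μ J fun u => ∑ b, ∑ c, D.F.Γ a b c • cr c (an b u) := by
      refine Good.sum _ fun b => Good.sum _ fun c => ?_
      refine Good.comp (T := fun u => cr c (an b u)) (good_mul hJ hJ0 (D.F.Γ a b c))
        (fun C => ⟨max C 0, le_max_left _ _, le_max_right _ _⟩) (fun m u => ?_) (fun u => ?_)
        q2_nonneg
      · rw [JF_cr, JF_an]
      · exact (q2_cr _ _).trans (q2_an _ _)
    have h3 := h1.add h2
    have h4 : (fun u : Fk (2 * n + 2) (SmA n) => (∑ i, fun S => D.S a i * ED i (u S)) +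
        ∑ b, ∑ c, D.F.Γ a b c • cr c (an b u)) = nab D.F a := by
      funext u
      unfold nab gam
      congr 1
      funext S
      rw [Finset.sum_apply, D.he]
    rwa [h4] at h3
  have hdd : Good μ J (dd D.F) := by
    have h := Good.sum (μ := μ) (J := J) Finset.univ fun a => (hnab a).cr a
    exact h
  have hde : Good μ J (de D.F) := by
    have h := (Good.sum (μ := μ) (J := J) Finset.univ fun a => (hnab a).an a).neg
    exact h
  exact ⟨hdd.bd, hde.bd, hdd.lim, hde.lim⟩

end Pool.Agent.H781.NG
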