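import Pool.Graph.R_seed8.H893R5.HO.SphEmb
import Pool.Graph.R_seed8.H893R5.HO.Frame
import Pool.Agent.H781.S22.Defs

/-!
The manifold `Sⁿ × Sⁿ`: coordinate functions, coordinate vector fields, the algebra of smooth
functions and the derivations of it given by the coordinate vector fields.
-/

open Bundle Manifold ContDiff VectorField Metric
open scoped Topology RealInnerProductSpace

set_option autoImplicit false
set_option synthInstance.maxHeartbeats 400000
set_option maxHeartbeats 4000000

noncomputable section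

namespace Pool.Agent.H781.NG

open Pool.Agent.H821R2 Pool.Agent.H821R3 Pool.Agent.H893R5.HO

/-- `ℝ^(n+1)` -/
abbrev V (n : ℕ) : Type := EuclideanSpace ℝ (Fin (n + 1))

instance factV (n : ℕ) : Fact (Module.finrank ℝ (V n) = n + 1) := ⟨by simp⟩

/-- the model of `Sⁿ × Sⁿ` -/
abbrev IM (n : ℕ) : ModelWithCorners ℝ (EuclideanSpace ℝ (Fin n) × EuclideanSpace ℝ (Fin n))
    (ModelProd (EuclideanSpace ℝ (Fin n)) (EuclideanSpace ℝ (Fin n))) := (𝓡 n).prod (𝓡 n)

/-- `Sⁿ × Sⁿ` -/
abbrev MM (n : ℕ) : Type := sphere (0 : V n) 1 × sphere (0 : V n) 1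

/-- indices of the coordinates of `ℝ^(n+1) × ℝ^(n+1)` -/
abbrev Ix (n : ℕ) : Type := Fin (n + 1) ⊕ Fin (n + 1)

variable {n : ℕ}

/-- the basis of `ℝ^(n+1) × ℝ^(n+1)` -/
def bas : Ix n → V n × V n
  | .inl j => (EuclideanSpace.single j 1, 0)
  | .inr j => (0, EuclideanSpace.single j 1)

/-- the coordinates on `ℝ^(n+1) × ℝ^(n+1)` -/
def crd : Ix n → V n × V n → ℝ
  | .inl j => fun z => z.1 j
  | .inr j => fun z => z.2 j

/-- the coordinate functions on `Sⁿ × Sⁿ` -/
def cx (i : Ix n) (p : MM n) : ℝ := crd i (sj (V n) (V n) p)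

/-- the inclusion of `Sⁿ × Sⁿ` into `ℝ^(n+1) × ℝ^(n+1)` with its Euclidean structure -/
abbrev emb (n : ℕ) : Emb (IM n) (MM n) (V n × V n) := sph n n (V n) (V n)

theorem exists_EE (i : Ix n) : ∃ Z : Π p : MM n, TangentSpace (IM n) p, SmV Z ∧
    ∀ p, (emb n).d p (Z p) = (emb n).P ((emb n).j p) (bas i) :=
  (emb n).exists_field (F := fun p => (emb n).P ((emb n).j p) (bas i))
    ((emb n).smooth_comp ((emb n).hP.clm_apply contDiff_const)) (fun p => (emb n).PP p _)

/-- the coordinate vector fields: the tangential projections of the constant fields -/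
def EE (i : Ix n) : Π p : MM n, TangentSpace (IM n) p := (exists_EE i).choose

theorem EE_smooth (i : Ix n) : SmV (EE i) := (exists_EE i).choose_spec.1

theorem d_EE (i : Ix n) (p : MM n) :
    (emb n).d p (EE i p) = (emb n).P ((emb n).j p) (bas i) := (exists_EE i).choose_spec.2 p

theorem crd_add (i : Ix n) (z w : V n × V n) : crd i (z + w) = crd i z + crd i w := by
  cases i <;> rfl

theorem crd_sub (i : Ix n) (z w : V n × V n) : crd i (z - w) = crd i z - crd i w := by
  cases i <;> rfl

theorem crd_smul (i : Ix n) (c : ℝ) (z : V n × V n) : crd i (c • z) = c * crd i z := by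
  cases i <;> rfl

/-- the coordinates as continuous linear maps -/
def crdL (i : Ix n) : V n × V n →L[ℝ] ℝ :=
  LinearMap.toContinuousLinearMap
    { toFun := crd i
      map_add' := crd_add i
      map_smul' := fun c z => crd_smul i c z }

theorem crdL_apply (i : Ix n) (z : V n × V n) : crdL i z = crd i z := rfl

theorem crd_bas (i j : Ix n) : crd j (bas i) = if i = j then 1 else 0 := by
  rcases i with i | i <;> rcases j with j | j
  · simp [crd, bas, Pi.single_apply, eq_comm]
  · simp [crd, bas]
  · simp [crd, bas]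
  · simp [crd, bas, Pi.single_apply, eq_comm]

theorem smooth_cx (i : Ix n) : Sm (IM n) (cx (n := n) i) :=
  (crdL i).contDiff.contMDiff.comp (smooth_sj (V₁ := V n) (V₂ := V n) n n)

/-- `1` if `i` and `j` are coordinates of the same factor, else `0` -/
def blk : Ix n → Ix n → ℝ
  | .inl _, .inl _ => 1
  | .inr _, .inr _ => 1
  | _, _ => 0

theorem blk_comm (i j : Ix n) : blk i j = blk j i := by
  rcases i with i | i <;> rcases j with j | j <;> rfl

theorem blk_self (i : Ix n) : blk i i = 1 := by
  rcases i with i | i <;> rfl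

theorem blk_sq (i j : Ix n) : blk i j * blk i j = blk i j := by
  rcases i with i | i <;> rcases j with j | j <;> simp [blk]

/-- the Kronecker delta -/
def dl (i j : Ix n) : ℝ := if i = j then 1 else 0

/-- coordinates of the projection of a basis vector -/
theorem crd_P_bas (i j : Ix n) (p : MM n) :
    crd j ((emb n).P ((emb n).j p) (bas i)) = dl i j - blk i j * cx i p * cx j p := by
  change crd j (bas i - sN (sj (V n) (V n) p) (bas i)) = _
  rw [crd_sub, crd_bas, sN_apply]
  rcases i with i | i <;> rcases j with j | j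
  · simp only [crd, bas, dl, blk, cx, sj, EuclideanSpace.inner_single_right, PiLp.smul_apply,
      smul_eq_mul]
    simp
  · simp only [crd, bas, dl, blk, cx, sj, inner_zero_right, zero_smul]
    simp
  · simp only [crd, bas, dl, blk, cx, sj, inner_zero_right, zero_smul]
    simp
  · simp only [crd, bas, dl, blk, cx, sj, EuclideanSpace.inner_single_right, PiLp.smul_apply,
      smul_eq_mul]
    simp

theorem d_cx (i : Ix n) (p : MM n) (v : TangentSpace (IM n) p) :
    mvfderiv (IM n) (cx i) p v = crd i ((emb n).d p v) :=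
  d_clm' (crdL i) ((smooth_sj (V₁ := V n) (V₂ := V n) n n).mdifferentiableAt (by simp)) v

/-- `E_i x_j = δ_ij - x_i x_j` (same factor) -/
theorem der_EE_cx (i j : Ix n) (p : MM n) :
    der (EE i) (cx j) p = dl i j - blk i j * cx i p * cx j p := by
  rw [der_apply, d_cx, d_EE, crd_P_bas]

theorem sum_crd_bas (z : V n × V n) : ∑ i, crd i z • bas i = z := by
  rw [Fintype.sum_sum_type]
  refine Prod.ext ?_ ?_
  · rw [Prod.fst_add, Prod.fst_sum, Prod.fst_sum]
    ext k
    simp [crd, bas, Finset.sum_apply, Pi.single_apply]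
  · rw [Prod.snd_add, Prod.snd_sum, Prod.snd_sum]
    ext k
    simp [crd, bas, Finset.sum_apply, Pi.single_apply]

/-- tangent vectors in terms of the coordinate fields -/
theorem repr_EE (p : MM n) (v : TangentSpace (IM n) p) :
    ∑ i, mvfderiv (IM n) (cx i) p v • EE i p = v := by
  apply (emb n).d_inj p
  rw [map_sum]
  have h1 : ∀ i, (emb n).d p (mvfderiv (IM n) (cx i) p v • EE i p) =
      (emb n).P ((emb n).j p) (crd i ((emb n).d p v) • bas i) := by
    intro i
    rw [map_smul, d_EE, d_cx, map_smul]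
  rw [Finset.sum_congr rfl fun i _ => h1 i, ← map_sum, sum_crd_bas, (emb n).P_d]

/-- the frame data of `Sⁿ × Sⁿ` -/
def frm (n : ℕ) : Pool.Agent.H893R5.HO.FrameData (IM n) (MM n) (Ix n) where
  f := cx
  e := EE
  hf := smooth_cx
  he := EE_smooth
  repr := repr_EE

/-- the algebra of smooth functions on `Sⁿ × Sⁿ` -/
def SmA (n : ℕ) : Subalgebra ℝ (MM n → ℝ) where
  carrier := {f | Sm (IM n) f}
  mul_mem' := fun {f g} hf hg => Sm.mul hf hg
  add_mem' := fun {f g} hf hg => Sm.add hf hg
  algebraMap_mem' := fun c => Sm.const c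

/-- value at a point -/
def ev (p : MM n) : SmA n →ₐ[ℝ] ℝ := (Pi.evalAlgHom ℝ (fun _ : MM n => ℝ) p).comp (SmA n).val

theorem ev_apply (p : MM n) (f : SmA n) : ev p f = f.1 p := rfl

theorem ext_ev {f g : SmA n} (h : ∀ p, ev p f = ev p g) : f = g := Subtype.ext (funext h)

/-- the derivation of the algebra of smooth functions given by a smooth vector field -/
def derA (Z : Π p : MM n, TangentSpace (IM n) p) (hZ : SmV Z) : Derivation ℝ (SmA n) (SmA n) :=
  Derivation.mk'
    { toFun := fun f => ⟨der Z f.1, Sm.der hZ f.2⟩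
      map_add' := fun f g => Subtype.ext (der_add f.2 g.2)
      map_smul' := fun c f => Subtype.ext (der_cmul c f.2) }
    (fun f g => Subtype.ext (by
      have h := der_mul (Z := Z) f.2 g.2
      refine h.trans ?_
      funext p
      change der Z f.1 p * g.1 p + f.1 p * der Z g.1 p = f.1 p * der Z g.1 p + g.1 p * der Z f.1 p
      ring))

theorem ev_derA (Z : Π p : MM n, TangentSpace (IM n) p) (hZ : SmV Z) (f : SmA n) (p : MM n) :
    ev p (derA Z hZ f) = mvfderiv (IM n) f.1 p (Z p) := rfl

/-- the coordinate fields as derivations -/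
def ED (i : Ix n) : Derivation ℝ (SmA n) (SmA n) := derA (EE i) (EE_smooth i)

/-- the coordinate functions as elements of the algebra -/
def cxA (i : Ix n) : SmA n := ⟨cx i, smooth_cx i⟩

/-- constants -/
def cs (c : ℝ) : SmA n := algebraMap ℝ (SmA n) c

theorem ev_cs (c : ℝ) (p : MM n) : ev p (cs (n := n) c) = c := rfl

theorem ev_cxA (i : Ix n) (p : MM n) : ev p (cxA i) = cx i p := rfl

/-- `E_i x_j = δ_ij - x_i x_j` (same factor) -/
theorem ED_cxA (i j : Ix n) : ED i (cxA j) = cs (dl i j) - cs (blk i j) * cxA i * cxA j := by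
  apply ext_ev
  intro p
  rw [map_sub, map_mul, map_mul, ev_cs, ev_cs, ev_cxA, ev_cxA]
  exact der_EE_cx i j p

end Pool.Agent.H781.NG
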