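import Pool.Agent.H781.NG.Bas
import Pool.Agent.H781.NG.Geo0

/-!
The data extracted from a Riemannian metric on `Sⁿ × Sⁿ`, and the measure.
-/

open Bundle Manifold ContDiff VectorField Metric MeasureTheory
open scoped Topology RealInnerProductSpace

set_option autoImplicit false
set_option synthInstance.maxHeartbeats 400000
set_option maxHeartbeats 4000000

noncomputable section

namespace Pool.Agent.H781.NG

open Pool.Agent.H781.S22

variable {n : ℕ}

/-- coordinates of the two unit normal vectors `(x, 0)`, `(0, y)` -/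
def nn (n : ℕ) : Fin 2 → Ix n → SmA n := fun a i =>
  match a, i with
  | 0, .inl j => cxA (.inl j)
  | 1, .inr j => cxA (.inr j)
  | _, _ => 0

/-- `Fin (2n+2)` as the index set of the coordinates -/
def ix (n : ℕ) : Fin (2 * n + 2) ≃ Ix n :=
  (finCongr (by ring : 2 * n + 2 = (n + 1) + (n + 1))).trans finSumFinEquiv.symm

/-- algebraic curvature tensors -/
structure CurvT {m : ℕ} (K : Fin m → Fin m → Fin m → Fin m → ℝ) : Prop where
  anti1 : ∀ i j k l, K i j k l = - K j i k l
  anti2 : ∀ i j k l, K i j k l = - K i j l k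
  pair : ∀ i j k l, K i j k l = K k l i j
  bianchi : ∀ i j k l, K i j k l + K j k i l + K k i j l = 0

/-- the matrix of `K` on `Λ²` -/
def KM {m : ℕ} (K : Fin m → Fin m → Fin m → Fin m → ℝ) : Matrix (Pr m) (Pr m) ℝ :=
  Matrix.of fun p q => K p.1.1 p.1.2 q.1.1 q.1.2

/-- any `k` eigenvalues of `K` on `Λ²` have positive sum -/
def KPos {m : ℕ} (k : ℕ) (K : Fin m → Fin m → Fin m → Fin m → ℝ) : Prop :=
  ∀ h : (KM K).IsHermitian, ∀ t : Finset (Pr m), t.card = k → 0 < ∑ i ∈ t, h.eigenvalues i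

/-- `μ` is the normalised round measure of `Sⁿ × Sⁿ`: it satisfies the divergence theorem for the
coordinate fields (`div E_i = - n x_i`). -/
structure IsRound (μ : Measure (MM n)) : Prop where
  prob : IsProbabilityMeasure μ
  div : ∀ (i : Ix n) (f : SmA n), ∫ p, ev p (ED i f) ∂μ = n * ∫ p, ev p (cxA i * f) ∂μ

/-- The data extracted from a Riemannian metric `g` on `M = Sⁿ × Sⁿ` with `k`-positive curvature
operator. `ẽ_a` (`a < 2n+2`) is a global orthonormal frame of the bundle `TM ⊕ ℝ²` with the metric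
`g ⊕ flat`, `E_i + (normal part)` (`i ∈ Ix n`) the standard frame of the same bundle,
`ẽ_a = ∑ S a i Ẽ_i`, `e a` the derivation given by the `TM`-part of `ẽ_a`, `Γ` the connection
`∇^g ⊕ d` in the frame `ẽ`, `nu` the components of the two constant normal sections, `rho` the
Riemannian density. -/
structure GeoDat (n k : ℕ) (μ : Measure (MM n)) where
  F : Fr (2 * n + 2) (SmA n)
  S : Fin (2 * n + 2) → Ix n → SmA n
  nu : Fin 2 → Fin (2 * n + 2) → SmA n
  rho : SmA n
  he : ∀ a f, F.e a f = ∑ i, S a i * ED i f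
  bianchi : Bianchi F
  hnu : ∀ a b, nu a b = ∑ i, S b i * nn n a i
  nu_on : ∀ a a', ∑ b, nu a b * nu a' b = if a = a' then 1 else 0
  nu_e : ∀ a f, ∑ b, nu a b * F.e b f = 0
  nu_G : ∀ a c d, ∑ b, nu a b * F.Γ b c d = 0
  nu_par : ∀ a b c, F.e b (nu a c) = ∑ d, F.Γ b c d * nu a d
  rho_pos : ∀ p, 0 < ev p rho
  rho_det : rho * (Matrix.of fun a b => S a (ix n b)).det = 1
  div : ∀ f : Fin (2 * n + 2) → SmA n, ∫ p, ev p (rho * dv F f) ∂μ = 0
  pos : ∀ p : MM n, ∃ (f : Fin (2 * n) → Fin (2 * n + 2) → ℝ)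
    (K : Fin (2 * n) → Fin (2 * n) → Fin (2 * n) → Fin (2 * n) → ℝ),
    (∀ i j, ∑ a, f i a * f j a = if i = j then 1 else 0) ∧
    (∀ i b, ∑ a, f i a * ev p (nu b a) = 0) ∧
    CurvT K ∧ KPos k K ∧
    ∀ a b c d, - ev p (Rm F a b c d) =
      ∑ i, ∑ j, ∑ l, ∑ m, f i a * f j b * f l c * f m d * K i j l m

end Pool.Agent.H781.NG
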