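import Pool.Agent.H781.NG.Hodge
import Pool.Graph.R_seed8.H893R5.HO.RiemEx

/-!
The geometric statement.
-/

open Bundle Manifold ContDiff VectorField Metric MeasureTheory Filter
open scoped Topology RealInnerProductSpace

set_option autoImplicit false
set_option synthInstance.maxHeartbeats 400000
set_option maxHeartbeats 4000000

noncomputable section

namespace Pool.Agent.H781.NG

open Pool.Agent.H821R2 Pool.Agent.H821R3 Pool.Agent.H893R5.HO Pool.Agent.H781.S22

variable {n : ℕ}

/-- gradients -/
def gradT {g : Met n} (T : TF g) (i : Ix n) : Π p : MM n, TangentSpace (IM n) p :=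
  fun p => ∑ b, der (fld (T.S b)) (cx i) p • fld (T.S b) p

theorem gradT_smooth {g : Met n} (T : TF g) (i : Ix n) : SmV (gradT T i) :=
  smV_sum Finset.univ fun b => smV_smul (Sm.der (fld_smooth _) (smooth_cx i)) (fld_smooth _)

theorem gradT_inner {g : Met n} (T : TF g) (i : Ix n) (p : MM n) (v : TangentSpace (IM n) p) :
    g.inner p (gradT T i p) v = mvfderiv (IM n) (cx i) p v := by
  have h : mvfderiv (IM n) (cx i) p v =
      mvfderiv (IM n) (cx i) p (∑ b, g.inner p v (fld (T.S b) p) • fld (T.S b) p) := by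
    rw [T.tight p v]
  rw [h, map_sum, g.symm p (gradT T i p) v]
  unfold gradT
  rw [map_sum]
  refine Finset.sum_congr rfl fun b _ => ?_
  rw [map_smul, map_smul, smul_eq_mul, smul_eq_mul, der_apply, mul_comm]

/-- the Levi-Civita connection and the Riemann tensor exist -/
theorem exists_LC (hn : 1 ≤ n) (g : Met n) : ∃ (cov : Cov n) (R : CurvField (IM n) (MM n)),
    IsLeviCivita g cov ∧ IsRiemannTensor cov R := by
  obtain ⟨T⟩ := h_tf n hn g
  have hne : Nonempty (Fin n) := ⟨⟨0, hn⟩⟩
  have : Nontrivial (EuclideanSpace ℝ (Fin n)) := inferInstance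
  have h := (frm n).isLeviCivita_lc g (X := gradT T) (gradT_smooth T) (fun i p v =>
    gradT_inner T i p v)
  obtain ⟨R, hR⟩ := exists_riemann_of_LC h
  exact ⟨_, R, h, hR⟩

/-- **Theorem.** If the algebraic lemma holds in dimension `2n`, then `Sⁿ × Sⁿ` has no metric with
`(n+1)`-positive curvature operator. -/
theorem no_positive (hn : 1 ≤ n) (hA : AlgLemma n) (g : Met n) (cov : Cov n)
    (R : CurvField (IM n) (MM n)) (hLC : IsLeviCivita g cov) (hR : IsRiemannTensor cov R) :
    ∃ (x : MM n) (f : Fin (2 * n) → TangentSpace (IM n) x), IsOrthonormalFrame g x f ∧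
      ∃ (h : (curvMatrix g R x f).IsHermitian) (t : Finset (Pr (2 * n))),
        t.card = n + 1 ∧ ∑ i ∈ t, h.eigenvalues i ≤ 0 := by
  by_contra hcon
  have hpos : CPos (n + 1) g R := by
    intro x f hf h t ht
    by_contra hle
    exact hcon ⟨x, f, hf, h, t, ht, not_lt.1 hle⟩
  obtain ⟨μ, hμ⟩ := s_meas n hn
  obtain ⟨D⟩ := h_geo n hn g cov R hLC hR (n + 1) hpos μ hμ
  exact vanishing n hn hA hμ D

end Pool.Agent.H781.NG
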