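import Mathlib

/-!
Fock space `Λ(A^N)` with coefficients in a commutative ring `A`: functions on finite subsets of
`Fin N`, creation operators `cr i` (exterior multiplication by the `i`-th basis covector) and
annihilation operators `an i` (contraction with the `i`-th basis vector).
-/

set_option autoImplicit false

noncomputable section

namespace Pool.Agent.H781.NG

open Finset

/-- Fock space with coefficients in `A` -/
abbrev Fk (N : ℕ) (A : Type*) : Type _ := Finset (Fin N) → A

variable {N : ℕ} {A : Type*} [CommRing A]

/-- the sign `(-1)^(number of elements of S below i)` -/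
def sg (i : Fin N) (S : Finset (Fin N)) : ℤ := (-1) ^ (S.filter (· < i)).card

/-- annihilation operator -/
def an (i : Fin N) : Fk N A →ₗ[A] Fk N A where
  toFun u S := if i ∈ S then 0 else (sg i S : A) * u (insert i S)
  map_add' u v := by
    funext S
    simp only [Pi.add_apply]
    split_ifs <;> ring
  map_smul' c u := by
    funext S
    simp only [Pi.smul_apply, smul_eq_mul, RingHom.id_apply]
    split_ifs <;> ring

/-- creation operator -/
def cr (i : Fin N) : Fk N A →ₗ[A] Fk N A where
  toFun u S := if i ∈ S then (sg i S : A) * u (S.erase i) else 0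
  map_add' u v := by
    funext S
    simp only [Pi.add_apply]
    split_ifs <;> ring
  map_smul' c u := by
    funext S
    simp only [Pi.smul_apply, smul_eq_mul, RingHom.id_apply]
    split_ifs <;> ring

/-- the inner product -/
def ip (u v : Fk N A) : A := ∑ S, u S * v S

/-- the vacuum (the 0-form 1) -/
def vac : Fk N A := fun S => if S = ∅ then 1 else 0

/-- the top form -/
def topf : Fk N A := fun S => if S = Finset.univ then 1 else 0

theorem an_apply (i : Fin N) (u : Fk N A) (S : Finset (Fin N)) :
    an i u S = if i ∈ S then 0 else (sg i S : A) * u (insert i S) := rfl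

theorem cr_apply (i : Fin N) (u : Fk N A) (S : Finset (Fin N)) :
    cr i u S = if i ∈ S then (sg i S : A) * u (S.erase i) else 0 := rfl

theorem sg_sq (i : Fin N) (S : Finset (Fin N)) : sg i S * sg i S = 1 := by
  unfold sg
  rw [← mul_pow]
  norm_num

theorem sg_sqA (i : Fin N) (S : Finset (Fin N)) : (sg i S : A) * (sg i S : A) = 1 := by
  rw [← Int.cast_mul, sg_sq, Int.cast_one]

theorem sg_insert_self (i : Fin N) (S : Finset (Fin N)) : sg i (insert i S) = sg i S := by
  unfold sg
  rw [Finset.filter_insert]
  simp

theorem sg_erase_self (i : Fin N) (S : Finset (Fin N)) : sg i (S.erase i) = sg i S := by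
  unfold sg
  rw [Finset.filter_erase]
  congr 2
  apply Finset.erase_eq_of_notMem
  simp

theorem sg_insert_of_lt {i j : Fin N} (h : j < i) {S : Finset (Fin N)} (hj : j ∉ S) :
    sg i (insert j S) = - sg i S := by
  unfold sg
  rw [Finset.filter_insert, if_pos h, Finset.card_insert_of_notMem (by simp [hj]), pow_succ]
  ring

theorem sg_insert_of_gt {i j : Fin N} (h : i < j) (S : Finset (Fin N)) :
    sg i (insert j S) = sg i S := by
  unfold sg
  rw [Finset.filter_insert, if_neg (not_lt.2 h.le)]

theorem sg_erase_of_lt {i j : Fin N} (h : j < i) {S : Finset (Fin N)} (hj : j ∈ S) :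
    sg i (S.erase j) = - sg i S := by
  have h1 := sg_insert_of_lt (S := S.erase j) h (Finset.notMem_erase j S)
  rw [Finset.insert_erase hj] at h1
  rw [h1, neg_neg]

theorem sg_erase_of_gt {i j : Fin N} (h : i < j) (S : Finset (Fin N)) :
    sg i (S.erase j) = sg i S := by
  by_cases hj : j ∈ S
  · have h1 := sg_insert_of_gt (S := S.erase j) h
    rw [Finset.insert_erase hj] at h1
    exact h1.symm
  · rw [Finset.erase_eq_of_notMem hj]

/-- `c_i c_i† + c_i† c_i = 1` -/
theorem car_self (i : Fin N) (u : Fk N A) : an i (cr i u) + cr i (an i u) = u := by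
  funext S
  rw [Pi.add_apply, an_apply i (cr i u) S, cr_apply i (an i u) S]
  by_cases h : i ∈ S
  · rw [if_pos h, if_pos h, an_apply, if_neg (Finset.notMem_erase i S), sg_erase_self,
      Finset.insert_erase h, ← mul_assoc, sg_sqA, one_mul, zero_add]
  · rw [if_neg h, if_neg h, cr_apply, if_pos (Finset.mem_insert_self i S), sg_insert_self,
      Finset.erase_insert h, ← mul_assoc, sg_sqA, one_mul, add_zero]

/-- `c_i c_j† + c_j† c_i = 0` for `i ≠ j` -/
theorem car_ne {i j : Fin N} (hij : i ≠ j) (u : Fk N A) : an i (cr j u) + cr j (an i u) = 0 := by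
  funext S
  rw [Pi.add_apply, an_apply i (cr j u) S, cr_apply j (an i u) S, Pi.zero_apply]
  by_cases hi : i ∈ S
  · rw [if_pos hi, zero_add]
    split_ifs with hj
    · rw [an_apply i u, if_pos (Finset.mem_erase.2 ⟨hij, hi⟩), mul_zero]
    · rfl
  · rw [if_neg hi, cr_apply]
    by_cases hj : j ∈ S
    · rw [if_pos (Finset.mem_insert_of_mem hj), if_pos hj, an_apply,
        if_neg (fun h => hi (Finset.mem_of_mem_erase h)), Finset.erase_insert_of_ne hij]
      rcases lt_or_gt_of_ne hij with h | h
      · rw [sg_insert_of_lt h hi, sg_erase_of_gt h]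
        push_cast
        ring
      · rw [sg_insert_of_gt h, sg_erase_of_lt h hj]
        push_cast
        ring
    · rw [if_neg (by simp [hj, hij.symm]), if_neg hj]
      ring

theorem car (i j : Fin N) (u : Fk N A) :
    an i (cr j u) + cr j (an i u) = if i = j then u else 0 := by
  split_ifs with h
  · subst h
    exact car_self i u
  · exact car_ne h u

theorem an_cr (i j : Fin N) (u : Fk N A) :
    an i (cr j u) = (if i = j then u else 0) - cr j (an i u) := by
  rw [← car i j u]
  abel

theorem an_an_self (i : Fin N) (u : Fk N A) : an i (an i u) = 0 := by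
  funext S
  rw [an_apply]
  split_ifs with h
  · rfl
  · rw [an_apply, if_pos (Finset.mem_insert_self i S), mul_zero]
    rfl

theorem cr_cr_self (i : Fin N) (u : Fk N A) : cr i (cr i u) = 0 := by
  funext S
  rw [cr_apply]
  split_ifs with h
  · rw [cr_apply, if_neg (Finset.notMem_erase i S), mul_zero]
    rfl
  · rfl

theorem cr_cr (i j : Fin N) (u : Fk N A) : cr i (cr j u) = - cr j (cr i u) := by
  by_cases hij : i = j
  · subst hij
    rw [cr_cr_self, neg_zero]
  funext S
  rw [Pi.neg_apply, cr_apply i (cr j u) S, cr_apply j (cr i u) S]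
  by_cases hi : i ∈ S
  · rw [if_pos hi, cr_apply]
    by_cases hj : j ∈ S
    · rw [if_pos (Finset.mem_erase.2 ⟨Ne.symm hij, hj⟩), if_pos hj, cr_apply,
        if_pos (Finset.mem_erase.2 ⟨hij, hi⟩), Finset.erase_right_comm]
      rcases lt_or_gt_of_ne hij with h | h
      · rw [sg_erase_of_lt h hi, sg_erase_of_gt h]
        push_cast
        ring
      · rw [sg_erase_of_gt h, sg_erase_of_lt h hj]
        push_cast
        ring
    · rw [if_neg (fun h => hj (Finset.mem_of_mem_erase h)), if_neg hj]
      ring
  · rw [if_neg hi]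
    split_ifs with hj
    · rw [cr_apply, if_neg (fun h => hi (Finset.mem_of_mem_erase h))]
      ring
    · ring

theorem an_an (i j : Fin N) (u : Fk N A) : an i (an j u) = - an j (an i u) := by
  by_cases hij : i = j
  · subst hij
    rw [an_an_self, neg_zero]
  funext S
  rw [Pi.neg_apply, an_apply i (an j u) S, an_apply j (an i u) S]
  by_cases hi : i ∈ S
  · rw [if_pos hi]
    split_ifs with hj
    · rw [neg_zero]
    · rw [an_apply, if_pos (Finset.mem_insert_of_mem hi)]
      ring
  · rw [if_neg hi, an_apply]
    by_cases hj : j ∈ S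
    · rw [if_pos (Finset.mem_insert_of_mem hj), if_pos hj]
      ring
    · rw [if_neg (by simp [hj, Ne.symm hij]), if_neg hj, an_apply,
        if_neg (by simp [hi, hij]), Finset.insert_comm]
      rcases lt_or_gt_of_ne hij with h | h
      · rw [sg_insert_of_lt h hi, sg_insert_of_gt h]
        push_cast
        ring
      · rw [sg_insert_of_gt h, sg_insert_of_lt h hj]
        push_cast
        ring

theorem ip_comm (u v : Fk N A) : ip u v = ip v u := by
  unfold ip
  exact Finset.sum_congr rfl fun S _ => mul_comm _ _

theorem ip_add_left (u v w : Fk N A) : ip (u + v) w = ip u w + ip v w := by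
  unfold ip
  rw [← Finset.sum_add_distrib]
  exact Finset.sum_congr rfl fun S _ => by simp only [Pi.add_apply]; ring

theorem ip_add_right (u v w : Fk N A) : ip u (v + w) = ip u v + ip u w := by
  rw [ip_comm, ip_add_left, ip_comm v, ip_comm w]

theorem ip_neg_left (u v : Fk N A) : ip (-u) v = - ip u v := by
  unfold ip
  rw [← Finset.sum_neg_distrib]
  exact Finset.sum_congr rfl fun S _ => by simp only [Pi.neg_apply]; ring

theorem ip_neg_right (u v : Fk N A) : ip u (-v) = - ip u v := by
  rw [ip_comm, ip_neg_left, ip_comm]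

theorem ip_sub_left (u v w : Fk N A) : ip (u - v) w = ip u w - ip v w := by
  rw [sub_eq_add_neg, ip_add_left, ip_neg_left, ← sub_eq_add_neg]

theorem ip_sub_right (u v w : Fk N A) : ip u (v - w) = ip u v - ip u w := by
  rw [sub_eq_add_neg, ip_add_right, ip_neg_right, ← sub_eq_add_neg]

theorem ip_zero_left (u : Fk N A) : ip 0 u = 0 := by
  unfold ip
  simp

theorem ip_zero_right (u : Fk N A) : ip u 0 = 0 := by
  rw [ip_comm, ip_zero_left]

theorem ip_smul_left (a : A) (u v : Fk N A) : ip (a • u) v = a * ip u v := by
  unfold ip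
  rw [Finset.mul_sum]
  exact Finset.sum_congr rfl fun S _ => by simp only [Pi.smul_apply, smul_eq_mul]; ring

theorem ip_smul_right (a : A) (u v : Fk N A) : ip u (a • v) = a * ip u v := by
  rw [ip_comm, ip_smul_left, ip_comm]

theorem ip_sum_left {κ : Type*} (s : Finset κ) (f : κ → Fk N A) (v : Fk N A) :
    ip (∑ k ∈ s, f k) v = ∑ k ∈ s, ip (f k) v := by
  classical
  induction s using Finset.induction_on with
  | empty => simp [ip_zero_left]
  | insert a s ha ih => rw [Finset.sum_insert ha, Finset.sum_insert ha, ip_add_left, ih]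

theorem ip_sum_right {κ : Type*} (s : Finset κ) (f : κ → Fk N A) (v : Fk N A) :
    ip v (∑ k ∈ s, f k) = ∑ k ∈ s, ip v (f k) := by
  rw [ip_comm, ip_sum_left]
  exact Finset.sum_congr rfl fun k _ => ip_comm _ _

/-- `c_i†` and `c_i` are adjoint -/
theorem ip_cr (i : Fin N) (u v : Fk N A) : ip (cr i u) v = ip u (an i v) := by
  unfold ip
  have h1 : ∑ S, cr i u S * v S = ∑ S ∈ Finset.univ.filter (fun S : Finset (Fin N) => i ∈ S),
      (sg i S : A) * u (S.erase i) * v S := by
    rw [Finset.sum_filter]
    refine Finset.sum_congr rfl fun S _ => ?_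
    rw [cr_apply]
    split_ifs <;> ring
  have h2 : ∑ S, u S * an i v S = ∑ S ∈ Finset.univ.filter (fun S : Finset (Fin N) => i ∉ S),
      u S * ((sg i S : A) * v (insert i S)) := by
    rw [Finset.sum_filter]
    refine Finset.sum_congr rfl fun S _ => ?_
    rw [an_apply]
    split_ifs <;> ring
  rw [h1, h2]
  refine Finset.sum_bij' (fun S _ => S.erase i) (fun S _ => insert i S) ?_ ?_ ?_ ?_ ?_
  · intro S _
    simp
  · intro S _
    simp
  · intro S hS
    exact Finset.insert_erase (by simpa using hS)
  · intro S hS
    exact Finset.erase_insert (by simpa using hS)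
  · intro S hS
    have h : i ∈ S := by simpa using hS
    rw [sg_erase_self, Finset.insert_erase h]
    ring

theorem ip_an (i : Fin N) (u v : Fk N A) : ip (an i u) v = ip u (cr i v) := by
  rw [ip_comm, ← ip_cr, ip_comm]

/-- the number operator -/
theorem number (u : Fk N A) (S : Finset (Fin N)) :
    (∑ i, cr i (an i u)) S = (S.card : A) * u S := by
  rw [Finset.sum_apply]
  have h : ∀ i, cr i (an i u) S = if i ∈ S then u S else 0 := by
    intro i
    rw [cr_apply]
    split_ifs with h
    · rw [an_apply, if_neg (Finset.notMem_erase i S), sg_erase_self, Finset.insert_erase h,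
        ← mul_assoc, sg_sqA, one_mul]
    · rfl
  rw [Finset.sum_congr rfl fun i _ => h i, Finset.sum_ite_mem, Finset.univ_inter,
    Finset.sum_const, nsmul_eq_mul]

theorem an_vac (i : Fin N) : an i (vac : Fk N A) = 0 := by
  funext S
  rw [an_apply]
  split_ifs with h
  · rfl
  · unfold vac
    rw [if_neg (Finset.insert_ne_empty i S), mul_zero]
    rfl

theorem cr_topf (i : Fin N) : cr i (topf : Fk N A) = 0 := by
  funext S
  rw [cr_apply]
  split_ifs with h
  · unfold topf
    rw [if_neg (fun hS => by
      have : i ∈ S.erase i := by rw [hS]; exact Finset.mem_univ i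
      exact Finset.notMem_erase i S this), mul_zero]
    rfl
  · rfl

end Pool.Agent.H781.NG
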