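import Pool.Agent.H781.NG.Spec

/-!
Intermediate statements for `S_GEO`.
-/

open Bundle Manifold ContDiff VectorField Metric MeasureTheory Filter
open scoped Topology RealInnerProductSpace

set_option autoImplicit false
set_option synthInstance.maxHeartbeats 400000
set_option maxHeartbeats 4000000

noncomputable section

namespace Pool.Agent.H781.NG

open Pool.Agent.H821R2 Pool.Agent.H821R3 Pool.Agent.H893R5.HO Pool.Agent.H781.S22

variable {n : ℕ}

theorem smV_smul {f : MM n → ℝ} (hf : Sm (IM n) f) {Z : Π p : MM n, TangentSpace (IM n) p}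
    (hZ : SmV Z) : SmV (fun p => f p • Z p) :=
  ContMDiff.smul_section hf hZ

theorem smV_zero : SmV (fun p : MM n => (0 : TangentSpace (IM n) p)) :=
  contMDiff_zeroSection ℝ _

theorem smV_sum {κ : Type*} (s : Finset κ) {Z : κ → Π p : MM n, TangentSpace (IM n) p}
    (hZ : ∀ i, SmV (Z i)) : SmV (fun p => ∑ i ∈ s, Z i p) := by
  classical
  induction s using Finset.induction_on with
  | empty =>
    simp only [Finset.sum_empty]
    exact smV_zero
  | insert a s ha ih =>
    simp only [Finset.sum_insert ha]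
    exact ContMDiff.add_section (hZ a) ih

theorem fld_smooth (s : Ix n → SmA n) : SmV (fld s) :=
  smV_sum Finset.univ fun i => smV_smul (s i).2 (EE_smooth i)

/-- `∑ s i E_i` as a derivation -/
def fD (s : Ix n → SmA n) : Derivation ℝ (SmA n) (SmA n) := derA (fld s) (fld_smooth s)

theorem fD_eq (s : Ix n → SmA n) (f : SmA n) : fD s f = ∑ i, s i * ED i f := by
  apply ext_ev
  intro p
  rw [map_sum]
  change mvfderiv (IM n) f.1 p (∑ i, ev p (s i) • EE i p) = _
  rw [map_sum]
  refine Finset.sum_congr rfl fun i _ => ?_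
  rw [map_smul, map_mul]
  rfl

variable {g : Met n} {cov : Cov n}

/-- the connection coefficients of `∇^g ⊕ d` in the frame `ẽ` -/
def GamT (h : IsLeviCivita g cov) (T : TF g) (b c d : Fin (2 * n + 2)) : SmA n :=
  (⟨gi g (nabla cov (fld (T.S b)) (fld (T.S c))) (fld (T.S d)),
    gi_smooth (nabla_smooth h (fld_smooth _) (fld_smooth _)) (fld_smooth _)⟩ : SmA n)
    + ∑ a, nuS T.S a d * fD (T.S b) (nuS T.S a c)

/-- the frame is a metric torsion-free frame, with the curvature of `g` -/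
def S_GEO_A : Prop := ∀ (n : ℕ), 1 ≤ n → ∀ (g : Met n) (cov : Cov n)
  (R : CurvField (IM n) (MM n)) (h : IsLeviCivita g cov), IsRiemannTensor cov R → ∀ T : TF g,
  ∃ F : Fr (2 * n + 2) (SmA n), (∀ a, F.e a = fD (T.S a)) ∧ (∀ b c d, F.Γ b c d = GamT h T b c d) ∧
    ∀ a b c d p, ev p (Rm F a b c d) =
      g.inner p (R p (fld (T.S a) p) (fld (T.S b) p) (fld (T.S c) p)) (fld (T.S d) p)

/-- divergence theorem -/
def S_GEO_B : Prop := ∀ (n : ℕ), 1 ≤ n → ∀ (g : Met n) (cov : Cov n)
  (h : IsLeviCivita g cov) (T : TF g) (F : Fr (2 * n + 2) (SmA n)),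
  (∀ a, F.e a = fD (T.S a)) → (∀ b c d, F.Γ b c d = GamT h T b c d) →
  ∀ (μ : Measure (MM n)), IsRound μ → ∀ rho : SmA n,
    rho * (Matrix.of fun a b => T.S a (ix n b)).det = 1 →
    ∀ f : Fin (2 * n + 2) → SmA n, ∫ p, ev p (rho * dv F f) ∂μ = 0

end Pool.Agent.H781.NG
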