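import Pool.Agent.H781.NG.All
import Pool.Graph.R_seed8.Helper427.FPX.P_abstract_hodge

/-!
The vanishing theorem: assembly.
-/

open Bundle Manifold ContDiff VectorField Metric MeasureTheory Filter
open scoped Topology RealInnerProductSpace

set_option autoImplicit false
set_option synthInstance.maxHeartbeats 400000
set_option maxHeartbeats 4000000

noncomputable section

namespace Pool.Agent.H781.NG

open Pool.Agent.H821R2 Pool.Agent.H821R3 Pool.Agent.H893R5.HO Pool.Agent.H781.S22

namespace Hod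

section lin

variable {N : ℕ} {A : Type} [CommRing A] [Algebra ℝ A] (F : Fr N A)

theorem ip_smulR (c : ℝ) (u v : Fk N A) : ip (c • u) v = c • ip u v := by
  unfold ip
  rw [Finset.smul_sum]
  exact Finset.sum_congr rfl fun S _ => by rw [Pi.smul_apply, smul_mul_assoc]

theorem ip_smulR' (c : ℝ) (u v : Fk N A) : ip u (c • v) = c • ip u v := by
  rw [ip_comm, ip_smulR, ip_comm]

theorem gam_add (a : Fin N) (u v : Fk N A) : gam F a (u + v) = gam F a u + gam F a v := by
  unfold gam
  simp only [map_add, smul_add, Finset.sum_add_distrib]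

theorem gam_smulR (a : Fin N) (c : ℝ) (u : Fk N A) : gam F a (c • u) = c • gam F a u := by
  unfold gam
  rw [Finset.smul_sum]
  refine Finset.sum_congr rfl fun b _ => ?_
  rw [Finset.smul_sum]
  refine Finset.sum_congr rfl fun d _ => ?_
  rw [LinearMap.map_smul_of_tower, LinearMap.map_smul_of_tower, smul_comm]

theorem nab_add (a : Fin N) (u v : Fk N A) : nab F a (u + v) = nab F a u + nab F a v := by
  unfold nab
  rw [gam_add]
  have : (fun S => F.e a ((u + v) S)) = (fun S => F.e a (u S)) + fun S => F.e a (v S) := by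
    funext S
    simp only [Pi.add_apply, map_add]
  rw [this]
  abel

theorem nab_smulR (a : Fin N) (c : ℝ) (u : Fk N A) : nab F a (c • u) = c • nab F a u := by
  unfold nab
  rw [gam_smulR, smul_add]
  congr 1
  funext S
  simp only [Pi.smul_apply]
  exact (F.e a).map_smul_of_tower c (u S)

/-- `d` as a linear map -/
def ddL : Fk N A →ₗ[ℝ] Fk N A where
  toFun := dd F
  map_add' u v := by
    unfold dd
    simp only [nab_add, map_add, Finset.sum_add_distrib]
  map_smul' c u := by
    unfold dd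
    rw [RingHom.id_apply, Finset.smul_sum]
    refine Finset.sum_congr rfl fun a _ => ?_
    rw [nab_smulR, LinearMap.map_smul_of_tower]

/-- `δ` as a linear map -/
def deL : Fk N A →ₗ[ℝ] Fk N A where
  toFun := de F
  map_add' u v := by
    unfold de
    simp only [nab_add, map_add, Finset.sum_add_distrib, neg_add]
  map_smul' c u := by
    unfold de
    rw [RingHom.id_apply, smul_neg, Finset.smul_sum]
    congr 1
    refine Finset.sum_congr rfl fun a _ => ?_
    rw [nab_smulR, LinearMap.map_smul_of_tower]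

end lin

variable {n k : ℕ} {μ : Measure (MM n)}

theorem ev_smulR (p : MM n) (c : ℝ) (f : SmA n) : ev p (c • f) = c * ev p f := by
  rw [map_smul, smul_eq_mul]

theorem ig_smul [IsProbabilityMeasure μ] (c : ℝ) (f : SmA n) : ig μ (c • f) = c * ig μ f := by
  unfold ig
  rw [← integral_const_mul]
  exact integral_congr_ae (Eventually.of_forall fun p => ev_smulR p c f)

variable (D : GeoDat n k μ)

/-- integration -/
def II [IsProbabilityMeasure μ] : SmA n →ₗ[ℝ] ℝ where
  toFun f := ig μ (D.rho * f)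
  map_add' f g := by rw [mul_add, Com.ig_add]
  map_smul' c f := by rw [mul_smul_comm, ig_smul, RingHom.id_apply, smul_eq_mul]

theorem II_apply [IsProbabilityMeasure μ] (f : SmA n) : II D f = ig μ (D.rho * f) := rfl

theorem II_int [IsProbabilityMeasure μ] : IsInt D.F (II D) := fun f => D.div f

theorem II_mono [IsProbabilityMeasure μ] {f g : SmA n} (h : ∀ p, ev p f ≤ ev p g) :
    II D f ≤ II D g := by
  refine Com.ig_mono fun p => ?_
  rw [map_mul, map_mul]
  exact mul_le_mul_of_nonneg_left (h p) (D.rho_pos p).le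

theorem II_nonneg [IsProbabilityMeasure μ] {f : SmA n} (h : ∀ p, 0 ≤ ev p f) : 0 ≤ II D f := by
  rw [← map_zero (II D)]
  refine II_mono D fun p => ?_
  rw [map_zero]
  exact h p

theorem ev_ip_nonneg (p : MM n) (u : Fk (2 * n + 2) (SmA n)) : 0 ≤ ev p (ip u u) := by
  unfold ip
  rw [map_sum]
  refine Finset.sum_nonneg fun S _ => ?_
  rw [map_mul]
  exact mul_self_nonneg _

/-- bounds of the density -/
theorem rho_bounds [IsProbabilityMeasure μ] : ∃ r0 r1 : ℝ, 0 < r0 ∧ 0 < r1 ∧
    (∀ u : Fk (2 * n + 2) (SmA n), r0 * q2 μ u ≤ II D (ip u u)) ∧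
    ∀ u : Fk (2 * n + 2) (SmA n), II D (ip u u) ≤ r1 * q2 μ u := by
  have hne : Nonempty (MM n) := by
    by_contra h
    rw [not_nonempty_iff] at h
    have h1 : μ Set.univ = 1 := measure_univ
    rw [Set.univ_eq_empty_iff.2 h, measure_empty] at h1
    exact zero_ne_one h1
  obtain ⟨p0, -, h0⟩ := (isCompact_univ (X := MM n)).exists_isMinOn Set.univ_nonempty
    (Com.cont_ev D.rho).continuousOn
  obtain ⟨p1, -, h1⟩ := (isCompact_univ (X := MM n)).exists_isMaxOn Set.univ_nonempty
    (Com.cont_ev D.rho).continuousOn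
  refine ⟨ev p0 D.rho, ev p1 D.rho, D.rho_pos _, D.rho_pos _, ?_, ?_⟩
  · intro u
    rw [q2, ← Com.ig_cs, II_apply]
    refine Com.ig_mono fun p => ?_
    rw [map_mul, map_mul, ev_cs]
    exact mul_le_mul_of_nonneg_right (h0 (Set.mem_univ p)) (ev_ip_nonneg p u)
  · intro u
    rw [q2, ← Com.ig_cs, II_apply]
    refine Com.ig_mono fun p => ?_
    rw [map_mul, map_mul, ev_cs]
    exact mul_le_mul_of_nonneg_right (h1 (Set.mem_univ p)) (ev_ip_nonneg p u)

/-- the quadratic form -/
def QQ [IsProbabilityMeasure μ] (u : Fk (2 * n + 2) (SmA n)) : ℝ := II D (ip u u)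

theorem QQ_nonneg [IsProbabilityMeasure μ] (u : Fk (2 * n + 2) (SmA n)) : 0 ≤ QQ D u :=
  II_nonneg D fun p => ev_ip_nonneg p u

theorem QQ_add [IsProbabilityMeasure μ] (u v : Fk (2 * n + 2) (SmA n)) :
    QQ D (u + v) ≤ 2 * QQ D u + 2 * QQ D v := by
  have h := QQ_nonneg D (u - v)
  unfold QQ at *
  simp only [ip_add_left, ip_add_right, ip_sub_left, ip_sub_right, map_add, map_sub] at *
  linarith

theorem QQ_Ph [IsProbabilityMeasure μ] (u : Fk (2 * n + 2) (SmA n)) :
    QQ D (Ph D u) ≤ QQ D u :=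
  II_mono D fun p => (s_ph n k μ D).2.2.2.2.2.2.1 u p

/-- `Ph` is additive and real homogeneous -/
theorem Ph_add (u v : Fk (2 * n + 2) (SmA n)) : Ph D (u + v) = Ph D u + Ph D v := by
  unfold Ph anu cnu
  simp only [map_add, smul_add, Finset.sum_add_distrib]

theorem Ph_smulR (c : ℝ) (u : Fk (2 * n + 2) (SmA n)) : Ph D (c • u) = c • Ph D u := by
  unfold Ph anu cnu
  simp only [LinearMap.map_smul_of_tower, smul_comm _ c, ← Finset.smul_sum]

theorem JF_add (J : ℕ → SmA n →ₗ[ℝ] SmA n) (m : ℕ) (u v : Fk (2 * n + 2) (SmA n)) :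
    JF J m (u + v) = JF J m u + JF J m v := by
  funext S
  exact map_add (J m) _ _

theorem JF_smul (J : ℕ → SmA n →ₗ[ℝ] SmA n) (m : ℕ) (c : ℝ) (u : Fk (2 * n + 2) (SmA n)) :
    JF J m (c • u) = c • JF J m u := by
  funext S
  exact map_smul (J m) _ _

/-- the mollifier on forms -/
def PJ (J : ℕ → SmA n →ₗ[ℝ] SmA n) (m : ℕ) : Fk (2 * n + 2) (SmA n) →ₗ[ℝ] Fk (2 * n + 2) (SmA n)
    where
  toFun u := Ph D (JF J m u)
  map_add' u v := by rw [JF_add, Ph_add]
  map_smul' c u := by rw [JF_smul, Ph_smulR, RingHom.id_apply]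

/-- `Ph` as a linear map -/
def PhL : Fk (2 * n + 2) (SmA n) →ₗ[ℝ] Fk (2 * n + 2) (SmA n) where
  toFun := Ph D
  map_add' := Ph_add D
  map_smul' := Ph_smulR D

theorem Ph_sub (u v : Fk (2 * n + 2) (SmA n)) : Ph D (u - v) = Ph D u - Ph D v :=
  map_sub (PhL D) u v

/-- the forms of degree `r` -/
def PP (r : ℕ) : Submodule ℝ (Fk (2 * n + 2) (SmA n)) where
  carrier := {u | IsForm D r u}
  add_mem' := by
    rintro u v ⟨h1, h2⟩ ⟨h3, h4⟩
    refine ⟨fun S hS => ?_, fun a => ?_⟩
    · rw [Pi.add_apply, h1 S hS, h3 S hS, add_zero]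
    · have : anu D a (u + v) = anu D a u + anu D a v := by
        unfold anu
        simp only [map_add, smul_add, Finset.sum_add_distrib]
      rw [this, h2, h4, add_zero]
  zero_mem' := by
    refine ⟨fun S _ => rfl, fun a => ?_⟩
    unfold anu
    simp
  smul_mem' := by
    rintro c u ⟨h1, h2⟩
    refine ⟨fun S hS => ?_, fun a => ?_⟩
    · rw [Pi.smul_apply, h1 S hS, smul_zero]
    · have : anu D a (c • u) = c • anu D a u := by
        unfold anu
        simp only [LinearMap.map_smul_of_tower, smul_comm _ c, ← Finset.smul_sum]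
      rw [this, h2, smul_zero]

theorem PJ_mem (J : ℕ → SmA n →ₗ[ℝ] SmA n) (m r : ℕ) {u : Fk (2 * n + 2) (SmA n)}
    (hu : ∀ S, S.card ≠ r → u S = 0) : IsForm D r (PJ D J m u) := by
  refine ⟨fun S hS => ?_, fun a => (s_ph n k μ D).1 _ a⟩
  refine (s_ph n k μ D).2.2.2.2.2.1 r (JF J m u) (fun T hT => ?_) S hS
  unfold JF
  rw [hu T hT, map_zero]

end Hod

open Hod

/-- the vanishing theorem -/
theorem vanishing (n : ℕ) (hn : 1 ≤ n) (hA : AlgLemma n) {μ : Measure (MM n)} (hμ : IsRound μ)
    (D : GeoDat n (n + 1) μ) : False := by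
  have := hμ.prob
  obtain ⟨P1, P2, P3, P4, P5, P6, P7, P8, P9⟩ := s_ph n (n + 1) μ D
  have hn1 : n - 1 + 1 = n := by omega
  have hdd : ∀ u, dd D.F (dd D.F u) = 0 := fun u => s_dd _ _ D.F D.bianchi u
  obtain ⟨α, L, hαf, hαc, hL0, hL1⟩ := h_top n (n + 1) μ hn hμ D
  obtain ⟨c, hc, hric⟩ := s_ric n μ hn hA D
  obtain ⟨J, hJ, hfin⟩ := s_jex n μ hn hμ
  obtain ⟨hb1, hb2⟩ := h_jbd n μ hn hμ J hJ
  obtain ⟨hc1, hc2⟩ := h_jcm n μ hn hμ J hJ
  obtain ⟨⟨C1, hC1⟩, ⟨C2, hC2⟩, hT1, hT2⟩ := s_com n (n + 1) μ hn hμ D J hb1 hb2 hc1 hc2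
  obtain ⟨r0, r1, hr0, hr1, hlo, hup⟩ := rho_bounds D
  -- the space of forms
  let V := ↥(PP D n)
  let W := Fk (2 * n + 2) (SmA n) × Fk (2 * n + 2) (SmA n)
  let B : V →ₗ[ℝ] V →ₗ[ℝ] ℝ := LinearMap.mk₂ ℝ (fun u v => II D (ip u.1 v.1))
    (fun u v w => by rw [← map_add, ← ip_add_left]; rfl)
    (fun c u w => by
      change II D (ip (c • u.1) w.1) = _
      rw [ip_smulR, map_smul])
    (fun u v w => by rw [← map_add, ← ip_add_right]; rfl)
    (fun c u w => by
      change II D (ip u.1 (c • w.1)) = _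
      rw [ip_smulR', map_smul])
  have hB : ∀ u v : V, B u v = II D (ip u.1 v.1) := fun u v => rfl
  let X : Submodule ℝ V := ((PP D (n - 1)).map (ddL D.F)).comap (PP D n).subtype
  have hX : ∀ u : V, u ∈ X ↔ ∃ w, IsForm D (n - 1) w ∧ dd D.F w = u.1 := fun u => Iff.rfl
  let DD : V →ₗ[ℝ] W := ((ddL D.F).comp (PP D n).subtype).prod ((deL D.F).comp (PP D n).subtype)
  have hDD : ∀ u : V, DD u = (dd D.F u.1, de D.F u.1) := fun u => rfl
  let nW : W → ℝ := fun w => QQ D w.1 + QQ D w.2
  let J' : ℕ → V →ₗ[ℝ] V := fun m =>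
    ((PJ D J m).comp (PP D n).subtype).codRestrict (PP D n)
      (fun u => PJ_mem D J m n u.2.1)
  have hJ' : ∀ m (u : V), (J' m u).1 = Ph D (JF J m u.1) := fun m u => rfl
  let T : ℕ → V →ₗ[ℝ] W := fun m =>
    ((PJ D J m).comp ((ddL D.F).comp (PP D n).subtype)).prod
      ((PJ D J m).comp ((deL D.F).comp (PP D n).subtype))
  have hT : ∀ m (u : V), T m u = (Ph D (JF J m (dd D.F u.1)), Ph D (JF J m (de D.F u.1))) :=
    fun m u => rfl
  -- commutators
  have hcomm : ∀ m (u : V), DD (J' m u) - T m u =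
      (Ph D (dd D.F (JF J m u.1) - JF J m (dd D.F u.1)),
        Ph D (de D.F (JF J m u.1) - JF J m (de D.F u.1))) := by
    intro m u
    rw [hDD, hT, hJ', P3, P4, Ph_sub, Ph_sub]
    rfl
  have hq : ∀ m (u : V), nW (DD (J' m u) - T m u) ≤
      r1 * (q2 μ (dd D.F (JF J m u.1) - JF J m (dd D.F u.1)) +
        q2 μ (de D.F (JF J m u.1) - JF J m (de D.F u.1))) := by
    intro m u
    rw [hcomm]
    have e1 := (QQ_Ph D (dd D.F (JF J m u.1) - JF J m (dd D.F u.1))).trans (hup _)
    have e2 := (QQ_Ph D (de D.F (JF J m u.1) - JF J m (de D.F u.1))).trans (hup _)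
    change QQ D _ + QQ D _ ≤ _
    linarith
  -- the bound of the mollifier
  have hJq : ∀ m (u : Fk (2 * n + 2) (SmA n)), q2 μ (JF J m u) ≤ q2 μ u := by
    intro m u
    rw [Com.q2_eq, Com.q2_eq]
    exact Finset.sum_le_sum fun S _ => hb1 m (u S)
  set C : ℝ := r1 * (|C1| + |C2|) / r0 + r1 / r0 with hC
  have hC0 : 0 ≤ C := by positivity
  let Lr : V →ₗ[ℝ] ℝ :=
    { toFun := fun u => II D (L u.1)
      map_add' := fun u v => by
        change II D (L (u.1 + v.1)) = _
        rw [map_add, map_add]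
      map_smul' := fun c u => by
        change II D (L (c • u.1)) = _
        rw [LinearMap.map_smul_of_tower, map_smul, RingHom.id_apply] }
  have hα' : α ∈ PP D n := hαf
  let α0 : V := ⟨α, hα'⟩
  have hBs : ∀ u v : V, B u v = B v u := fun u v => by rw [hB, hB, ip_comm]
  have hB0 : ∀ u : V, 0 ≤ B u u := fun u => QQ_nonneg D u.1
  have hW0 : ∀ w : W, 0 ≤ nW w := fun w => add_nonneg (QQ_nonneg D _) (QQ_nonneg D _)
  refine FPX.abstract_hodge B hBs hB0 ⊤ X le_top α0 trivial nW hW0
    ?_ DD J' (fun m u _ => trivial) T c C hc hC0 1 ?_ ?_ ?_ ?_ ?_ ?_ Lr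
    (II D (ip (fun S => L (Pi.single S 1)) (fun S => L (Pi.single S 1)))) ?_ hL1 ?_
  · -- quasi-triangle
    intro w w'
    have e1 := QQ_add D w.1 w'.1
    have e2 := QQ_add D w.2 w'.2
    change QQ D (w.1 + w'.1) + QQ D (w.2 + w'.2) ≤
      2 * (QQ D w.1 + QQ D w.2) + 2 * (QQ D w'.1 + QQ D w'.2)
    linarith
  · -- Bochner
    intro u _
    have hbo := s_bochner _ _ D.F (II D) (II_int D) u.1
    have e1 : 0 ≤ II D (∑ a, ip (nab D.F a u.1) (nab D.F a u.1)) := by
      refine II_nonneg D fun p => ?_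
      rw [map_sum]
      exact Finset.sum_nonneg fun a _ => ev_ip_nonneg p _
    have e2 : c * II D (ip u.1 u.1) ≤ II D (ric D.F u.1) := by
      have e3 : c * II D (ip u.1 u.1) = II D (c • ip u.1 u.1) := by
        rw [map_smul, smul_eq_mul]
      rw [e3]
      refine II_mono D fun p => ?_
      rw [ev_smulR]
      exact hric u.1 u.2 p
    rw [hB]
    change _ ≤ II D (ip (dd D.F u.1) (dd D.F u.1)) + II D (ip (de D.F u.1) (de D.F u.1))
    linarith
  · -- h2
    intro m hm u
    refine (hq m u).trans ?_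
    rw [hB]
    have e1 := hC1 m hm u.1
    have e2 := hC2 m hm u.1
    have e3 := hlo u.1
    have e4 : 0 ≤ q2 μ u.1 := Com.q2_nonneg _
    have e5 : q2 μ u.1 ≤ II D (ip u.1 u.1) / r0 := by
      rw [le_div_iff₀ hr0]; linarith
    have e6 : C1 * q2 μ u.1 ≤ |C1| * q2 μ u.1 := mul_le_mul_of_nonneg_right (le_abs_self _) e4
    have e7 : C2 * q2 μ u.1 ≤ |C2| * q2 μ u.1 := mul_le_mul_of_nonneg_right (le_abs_self _) e4
    have e8 : 0 ≤ II D (ip u.1 u.1) := QQ_nonneg D u.1
    calc r1 * (q2 μ (dd D.F (JF J m u.1) - JF J m (dd D.F u.1)) +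
          q2 μ (de D.F (JF J m u.1) - JF J m (de D.F u.1)))
        ≤ r1 * ((|C1| + |C2|) * q2 μ u.1) := by
          refine mul_le_mul_of_nonneg_left ?_ hr1.le
          linarith
      _ ≤ r1 * ((|C1| + |C2|) * (II D (ip u.1 u.1) / r0)) := by
          refine mul_le_mul_of_nonneg_left ?_ hr1.le
          exact mul_le_mul_of_nonneg_left e5 (by positivity)
      _ = (r1 * (|C1| + |C2|) / r0) * II D (ip u.1 u.1) := by ring
      _ ≤ C * II D (ip u.1 u.1) := by
          refine mul_le_mul_of_nonneg_right ?_ e8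
          rw [hC]
          have : 0 ≤ r1 / r0 := by positivity
          linarith
  · -- h3
    intro u
    have e1 := ((hT1 u.1).add (hT2 u.1)).const_mul r1
    rw [add_zero, mul_zero] at e1
    exact squeeze_zero (fun m => add_nonneg (QQ_nonneg D _) (QQ_nonneg D _)) (fun m => hq m u) e1
  · -- h4
    intro m hm u
    rw [hB, hB, hJ']
    have e1 := (QQ_Ph D (JF J m u.1)).trans (hup _)
    have e2 := hJq m u.1
    have e3 := hlo u.1
    have e5 : q2 μ u.1 ≤ II D (ip u.1 u.1) / r0 := by
      rw [le_div_iff₀ hr0]; linarith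
    have e8 : 0 ≤ II D (ip u.1 u.1) := QQ_nonneg D u.1
    calc II D (ip (Ph D (JF J m u.1)) (Ph D (JF J m u.1))) ≤ r1 * q2 μ (JF J m u.1) := e1
      _ ≤ r1 * (II D (ip u.1 u.1) / r0) := mul_le_mul_of_nonneg_left (e2.trans e5) hr1.le
      _ = (r1 / r0) * II D (ip u.1 u.1) := by ring
      _ ≤ C * II D (ip u.1 u.1) := by
          refine mul_le_mul_of_nonneg_right ?_ e8
          rw [hC]
          have : 0 ≤ r1 * (|C1| + |C2|) / r0 := by positivity
          linarith
  · -- h4'
    intro u
    have e0 : ∀ m, B (J' m u - u) (J' m u - u) ≤ r1 * q2 μ (JF J m u.1 - u.1) := by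
      intro m
      have e1 : (J' m u - u).1 = Ph D (JF J m u.1 - u.1) := by
        rw [Ph_sub, P2 u.1 u.2.2]
        rfl
      rw [hB, e1]
      exact (QQ_Ph D _).trans (hup _)
    have e1 : Tendsto (fun m => r1 * q2 μ (JF J m u.1 - u.1)) atTop (𝓝 0) := by
      have e2 : Tendsto (fun m => q2 μ (JF J m u.1 - u.1)) atTop (𝓝 0) := by
        have e3 : (fun m => q2 μ (JF J m u.1 - u.1)) = fun m => ∑ S,
            ig μ ((J m (u.1 S) - u.1 S) * (J m (u.1 S) - u.1 S)) := by
          funext m
          rw [Com.q2_eq]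
          rfl
        rw [e3, ← Finset.sum_const_zero (s := (Finset.univ : Finset (Finset (Fin (2 * n + 2)))))]
        exact tendsto_finset_sum _ fun S _ => hb2 (u.1 S)
      have := e2.const_mul r1
      rwa [mul_zero] at this
    exact squeeze_zero (fun m => QQ_nonneg D _) e0 e1
  · -- h5
    intro m
    obtain ⟨kk, φ, ψ, hφψ⟩ := hfin m
    set ri : SmA n := (Matrix.of fun a b => D.S a (ix n b)).det with hri
    have hrr : D.rho * ri = 1 := D.rho_det
    let v : Fin kk × Finset (Fin (2 * n + 2)) → Fk (2 * n + 2) (SmA n) := fun x =>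
      if x.2.card = n - 1 then Ph D (Pi.single x.2 (ψ x.1 * ri)) else 0
    have hv : ∀ x, IsForm D (n - 1) (v x) := by
      intro x
      simp only [v]
      split_ifs with hx
      · refine ⟨fun S hS => P6 (n - 1) _ (fun T hT => ?_) S hS, fun a => P1 _ a⟩
        rw [Pi.single_eq_of_ne]
        rintro rfl
        exact hT hx
      · exact (PP D (n - 1)).zero_mem
    have hvd : ∀ x, IsForm D n (dd D.F (v x)) := by
      intro x
      have := P8 (n - 1) _ (hv x)
      rwa [hn1] at this
    let e := Fintype.equivFin (Fin kk × Finset (Fin (2 * n + 2)))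
    refine ⟨Fintype.card (Fin kk × Finset (Fin (2 * n + 2))),
      fun j => ⟨dd D.F (v (e.symm j)), hvd _⟩, II D (∑ j, φ j * φ j), ?_, ?_, ?_⟩
    · refine II_nonneg D fun p => ?_
      rw [map_sum]
      refine Finset.sum_nonneg fun j _ => ?_
      rw [map_mul]
      exact mul_self_nonneg _
    · intro j
      exact (hX _).2 ⟨v (e.symm j), hv _, rfl⟩
    · intro u hu
      obtain ⟨w, hw, hwu⟩ := (hX _).1 hu
      have hu1 : u.1 = α + dd D.F w := by
        have : (u - α0).1 = u.1 - α := rfl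
        rw [this] at hwu
        rw [hwu]
        abel
      have hdu : dd D.F u.1 = 0 := by
        rw [hu1]
        have : dd D.F (α + dd D.F w) = dd D.F α + dd D.F (dd D.F w) := map_add (ddL D.F) _ _
        rw [this, hαc, hdd, add_zero]
      have hdeu : IsForm D (n - 1) (de D.F u.1) := by
        apply P9
        rw [hn1]
        exact u.2
      have hB' : ∀ x : Fin kk × Finset (Fin (2 * n + 2)),
          II D (ip u.1 (dd D.F (v x))) = ig μ (ψ x.1 * de D.F u.1 x.2) := by
        intro x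
        have e1 : II D (ip u.1 (dd D.F (v x))) = II D (ip (v x) (de D.F u.1)) := by
          rw [ip_comm]
          exact s_adj _ _ D.F (II D) (II_int D) _ _
        rw [e1]
        by_cases hx : x.2.card = n - 1
        · have e2 : v x = Ph D (Pi.single x.2 (ψ x.1 * ri)) := by
            simp only [v]
            rw [if_pos hx]
          rw [e2, P5, P2 _ hdeu.2, II_apply]
          congr 1
          have e3 : ip (Pi.single x.2 (ψ x.1 * ri)) (de D.F u.1) =
              (ψ x.1 * ri) * de D.F u.1 x.2 := by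
            unfold ip
            rw [Finset.sum_eq_single x.2]
            · rw [Pi.single_eq_same]
            · intro S _ hS
              rw [Pi.single_eq_of_ne hS, zero_mul]
            · intro h; exact absurd (Finset.mem_univ _) h
          rw [e3]
          linear_combination (ψ x.1 * de D.F u.1 x.2) * hrr
        · have e2 : v x = 0 := by
            simp only [v]
            rw [if_neg hx]
          rw [e2, ip_zero_left, map_zero, hdeu.1 x.2 hx, mul_zero, Com.ig_zero]
      have hT0 : nW (T m u) = QQ D (Ph D (JF J m (de D.F u.1))) := by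
        rw [hT, hdu]
        change QQ D (Ph D (JF J m 0)) + QQ D _ = _
        have e1 : Ph D (JF J m 0) = 0 := map_zero (PJ D J m)
        rw [e1]
        have e2 : QQ D 0 = 0 := by
          unfold QQ
          rw [ip_zero_left, map_zero]
        rw [e2, zero_add]
      rw [hT0]
      refine (QQ_Ph D _).trans ?_
      have hsum : ∑ j, (B u ⟨dd D.F (v (e.symm j)), hvd _⟩) ^ 2 =
          ∑ x : Fin kk × Finset (Fin (2 * n + 2)), (ig μ (ψ x.1 * de D.F u.1 x.2)) ^ 2 := by
        rw [← Equiv.sum_comp e.symm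
          (fun x : Fin kk × Finset (Fin (2 * n + 2)) => (ig μ (ψ x.1 * de D.F u.1 x.2)) ^ 2)]
        refine Finset.sum_congr rfl fun j _ => ?_
        rw [hB, hB']
      rw [hsum]
      set b : Fin kk → Finset (Fin (2 * n + 2)) → ℝ := fun j S => ig μ (ψ j * de D.F u.1 S) with hb
      have e1 : QQ D (JF J m (de D.F u.1)) ≤
          II D ((∑ x : Fin kk × Finset (Fin (2 * n + 2)), (b x.1 x.2) ^ 2) • ∑ j, φ j * φ j) := by
        refine II_mono D fun p => ?_
        rw [ev_smulR, ip, map_sum, map_sum]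
        have e2 : ∀ S, ev p (JF J m (de D.F u.1) S * JF J m (de D.F u.1) S) ≤
            (∑ j, (b j S) ^ 2) * ∑ j, ev p (φ j * φ j) := by
          intro S
          have e3 : ev p (JF J m (de D.F u.1) S) = ∑ j, b j S * ev p (φ j) := by
            change ev p (J m (de D.F u.1 S)) = _
            rw [hφψ, map_sum]
            refine Finset.sum_congr rfl fun j _ => ?_
            rw [map_mul, ev_cs]
          rw [map_mul, e3, ← pow_two]
          have e4 := Finset.sum_mul_sq_le_sq_mul_sq Finset.univ (fun j => b j S)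
            (fun j => ev p (φ j))
          refine e4.trans (le_of_eq ?_)
          congr 1
          refine Finset.sum_congr rfl fun j _ => ?_
          rw [map_mul, pow_two]
        refine (Finset.sum_le_sum fun S _ => e2 S).trans (le_of_eq ?_)
        rw [← Finset.sum_mul, Fintype.sum_prod_type, Finset.sum_comm]
      refine e1.trans (le_of_eq ?_)
      rw [map_smul, smul_eq_mul, mul_comm]
  · -- L vanishes on X
    intro w hw
    obtain ⟨w', hw', hww⟩ := (hX w).1 hw
    change II D (L w.1) = 0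
    rw [← hww, II_apply]
    exact hL0 w'
  · -- L is bounded
    intro u
    have e1 : ∀ w : Fk (2 * n + 2) (SmA n), L w = ip w (fun S => L (Pi.single S 1)) := by
      intro w
      conv_lhs => rw [← Finset.univ_sum_single w]
      rw [map_sum]
      unfold ip
      refine Finset.sum_congr rfl fun S _ => ?_
      have e2 : (Pi.single S (w S) : Fk (2 * n + 2) (SmA n)) = w S • Pi.single S 1 := by
        rw [← Pi.single_smul, smul_eq_mul, mul_one]
      rw [e2, map_smul, smul_eq_mul]
    change (II D (L u.1)) ^ 2 ≤ _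
    rw [e1, hB]
    let BF : LinearMap.BilinForm ℝ (Fk (2 * n + 2) (SmA n)) :=
      LinearMap.mk₂ ℝ (fun u v => II D (ip u v))
        (fun u v w => by rw [← map_add, ← ip_add_left])
        (fun c u w => by rw [ip_smulR, map_smul])
        (fun u v w => by rw [← map_add, ← ip_add_right])
        (fun c u w => by rw [ip_smulR', map_smul])
    have e3 := LinearMap.BilinForm.apply_mul_apply_le_of_forall_zero_le BF
      (fun w => QQ_nonneg D w) u.1 (fun S => L (Pi.single S 1))
    change II D (ip u.1 _) * II D (ip _ u.1) ≤ II D (ip u.1 u.1) * II D (ip _ _) at e3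
    rw [ip_comm (fun S => L (Pi.single S 1)) u.1] at e3
    rw [pow_two]
    exact e3.trans (le_of_eq (mul_comm _ _))

end Pool.Agent.H781.NG
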