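import Pool.Agent.H781.NG.Spec

/-!
Rotation fields on `Sⁿ × Sⁿ`.
-/

open Bundle Manifold ContDiff VectorField Metric MeasureTheory Filter
open scoped Topology RealInnerProductSpace

set_option autoImplicit false
set_option synthInstance.maxHeartbeats 400000
set_option maxHeartbeats 4000000

noncomputable section

namespace Pool.Agent.H781.NG.Jcm

open Pool.Agent.H821R2 Pool.Agent.H821R3 Pool.Agent.H893R5.HO Pool.Agent.H781.NG

variable {n : ℕ}

theorem cont_ev (f : SmA n) : Continuous (fun p => ev p f) := f.2.continuous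

theorem int_cont {μ : Measure (MM n)} [IsProbabilityMeasure μ] {f : MM n → ℝ} (hf : Continuous f) :
    Integrable f μ :=
  hf.integrable_of_hasCompactSupport (HasCompactSupport.of_compactSpace f)

/-- rotation fields -/
def Lr (i j : Ix n) : Derivation ℝ (SmA n) (SmA n) := cxA i • ED j - cxA j • ED i

theorem Lr_apply (i j : Ix n) (f : SmA n) : Lr i j f = cxA i * ED j f - cxA j * ED i f := rfl

theorem int_ev_mul {μ : Measure (MM n)} [IsProbabilityMeasure μ] (f g : SmA n) :
    Integrable (fun p => ev p f * ev p g) μ := int_cont ((cont_ev f).mul (cont_ev g))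

theorem int_ev {μ : Measure (MM n)} [IsProbabilityMeasure μ] (f : SmA n) :
    Integrable (fun p => ev p f) μ := int_cont (cont_ev f)

theorem ig_add {μ : Measure (MM n)} [IsProbabilityMeasure μ] (f g : SmA n) :
    ig μ (f + g) = ig μ f + ig μ g := by
  unfold ig
  rw [← integral_add (int_ev f) (int_ev g)]
  simp only [map_add]

theorem ig_sub {μ : Measure (MM n)} [IsProbabilityMeasure μ] (f g : SmA n) :
    ig μ (f - g) = ig μ f - ig μ g := by
  unfold ig
  rw [← integral_sub (int_ev f) (int_ev g)]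
  simp only [map_sub]

theorem ig_cs {μ : Measure (MM n)} [IsProbabilityMeasure μ] (c : ℝ) (f : SmA n) :
    ig μ (cs c * f) = c * ig μ f := by
  unfold ig
  rw [← integral_const_mul]
  simp only [map_mul, ev_cs]

/-- (a) the rotation fields are divergence free -/
theorem int_Lr {μ : Measure (MM n)} (hμ : IsRound μ) (i j : Ix n) (f : SmA n) :
    ig μ (Lr i j f) = 0 := by
  have := hμ.prob
  have h1 : ∀ i j : Ix n, ig μ (cxA i * ED j f) =
      n * ig μ (cxA j * (cxA i * f)) - dl j i * ig μ f + blk j i * ig μ (cxA j * (cxA i * f)) := by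
    intro i j
    have e1 : cxA i * ED j f = ED j (cxA i * f) - (cs (dl j i) * f
        - cs (blk j i) * (cxA j * (cxA i * f))) := by
      rw [Derivation.leibniz, ED_cxA, smul_eq_mul, smul_eq_mul]
      ring
    rw [e1, ig_sub, ig_sub, ig_cs, ig_cs]
    have e2 : ig μ (ED j (cxA i * f)) = n * ig μ (cxA j * (cxA i * f)) := hμ.div j _
    rw [e2]
    ring
  rw [Lr_apply, ig_sub, h1, h1]
  have e3 : cxA j * (cxA i * f) = cxA i * (cxA j * f) := by ring
  have e4 : dl j i = dl i j := by
    unfold dl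
    simp only [eq_comm]
  rw [e3, e4, blk_comm j i]
  ring

theorem inner_eq (x y : V n) : ⟪x, y⟫ = ∑ k, x k * y k := by
  rw [PiLp.inner_apply]
  refine Finset.sum_congr rfl fun k _ => ?_
  simp [mul_comm]

theorem sum_sq_inl (p : MM n) : ∑ k, cx (n := n) (.inl k) p * cx (n := n) (.inl k) p = 1 := by
  have h := inner_self_sph p.1
  rw [inner_eq] at h
  exact h

theorem sum_sq_inr (p : MM n) : ∑ k, cx (n := n) (.inr k) p * cx (n := n) (.inr k) p = 1 := by
  have h := inner_self_sph p.2
  rw [inner_eq] at h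
  exact h

theorem sum_sq (i : Ix n) (p : MM n) : ∑ j, blk i j * (cx j p * cx j p) = 1 := by
  rw [Fintype.sum_sum_type]
  rcases i with i | i
  · simp only [blk, one_mul, zero_mul, Finset.sum_const_zero, add_zero]
    exact sum_sq_inl p
  · simp only [blk, one_mul, zero_mul, Finset.sum_const_zero, zero_add]
    exact sum_sq_inr p

theorem sum_EE (i : Ix n) (p : MM n) : ∑ j, (blk i j * cx j p) • EE j p = 0 := by
  rw [← repr_EE p (∑ j, (blk i j * cx j p) • EE j p)]
  refine Finset.sum_eq_zero fun k _ => ?_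
  rw [map_sum]
  have h1 : ∀ j, mvfderiv (IM n) (cx k) p ((blk i j * cx j p) • EE j p) =
      (blk i j * cx j p) * (dl j k - blk j k * cx j p * cx k p) := by
    intro j
    rw [map_smul, smul_eq_mul]
    congr 1
    exact der_EE_cx j k p
  rw [Finset.sum_congr rfl fun j _ => h1 j]
  have h2 : ∑ j, (blk i j * cx j p) * (dl j k - blk j k * cx j p * cx k p) =
      blk i k * cx k p - cx k p * ∑ j, blk i j * blk j k * (cx j p * cx j p) := by
    rw [Finset.mul_sum]
    have : blk i k * cx k p = ∑ j, (blk i j * cx j p) * dl j k := by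
      rw [Finset.sum_eq_single k]
      · simp [dl]
      · intro j _ hj
        simp [dl, hj]
      · intro h
        exact absurd (Finset.mem_univ _) h
    rw [this, ← Finset.sum_sub_distrib]
    refine Finset.sum_congr rfl fun j _ => ?_
    ring
  rw [h2]
  have h3 : ∑ j, blk i j * blk j k * (cx j p * cx j p) = blk i k := by
    have h4 : ∀ j, blk i j * blk j k = blk i k * blk k j := by
      intro j
      rcases i with i | i <;> rcases j with j | j <;> rcases k with k | k <;> simp [blk]
    rw [Finset.sum_congr rfl fun j _ => by rw [h4 j, mul_assoc], ← Finset.mul_sum, sum_sq, mul_one]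
  rw [h3]
  have : blk i k * cx k p - cx k p * blk i k = 0 := by ring
  rw [this, zero_smul]

theorem sum_ED (i : Ix n) (f : SmA n) : ∑ j, cs (blk i j) * cxA j * ED j f = 0 := by
  apply ext_ev
  intro p
  rw [map_sum, map_zero]
  have h := congrArg (fun v => mvfderiv (IM n) f.1 p v) (sum_EE i p)
  simp only [map_sum, map_zero, map_smul, smul_eq_mul] at h
  refine Eq.trans (Finset.sum_congr rfl fun j _ => ?_) h
  rw [map_mul, map_mul, ev_cs, ev_cxA]
  rfl

/-- (c) the coordinate fields in terms of the rotation fields -/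
theorem ED_eq (i : Ix n) (f : SmA n) : ED i f = ∑ j, cs (blk i j) * (cxA j * Lr j i f) := by
  have h1 : ∀ j, cs (blk i j) * (cxA j * Lr j i f) =
      (cs (blk i j) * (cxA j * cxA j)) * ED i f - cxA i * (cs (blk i j) * cxA j * ED j f) := by
    intro j
    rw [Lr_apply]
    ring
  rw [Finset.sum_congr rfl fun j _ => h1 j, Finset.sum_sub_distrib, ← Finset.mul_sum, sum_ED,
    mul_zero, sub_zero, ← Finset.sum_mul]
  have h2 : ∑ j, cs (blk i j) * (cxA j * cxA j) = (1 : SmA n) := by
    apply ext_ev
    intro p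
    rw [map_sum, map_one, ← sum_sq i p]
    rfl
  rw [h2, one_mul]

/-! ### the kernel -/

/-- the kernel functions -/
def tA (p : MM n) : SmA n := 1 + ∑ k, cs (cx (.inl k) p) * cxA (.inl k)

/-- the kernel functions -/
def sA (p : MM n) : SmA n := 1 + ∑ k, cs (cx (.inr k) p) * cxA (.inr k)

theorem ev_tA (p q : MM n) : ev q (tA p) = 1 + ⟪(p.1 : V n), (q.1 : V n)⟫ := by
  unfold tA
  rw [map_add, map_one, map_sum, inner_eq]
  rfl

theorem ev_sA (p q : MM n) : ev q (sA p) = 1 + ⟪(p.2 : V n), (q.2 : V n)⟫ := by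
  unfold sA
  rw [map_add, map_one, map_sum, inner_eq]
  rfl

/-- the kernels -/
def KA (a b : ℕ) (p : MM n) : SmA n := tA p ^ a * sA p ^ b

theorem ev_KA (a b : ℕ) (p q : MM n) : ev q (KA a b p) = kk a b p q := by
  unfold KA kk
  rw [map_mul, map_pow, map_pow, ev_tA, ev_sA]

theorem kk_comm (a b : ℕ) (p q : MM n) : kk a b p q = kk a b q p := by
  unfold kk
  rw [real_inner_comm (p.1 : V n), real_inner_comm (p.2 : V n)]

theorem kk_nonneg (a b : ℕ) (p q : MM n) : 0 ≤ kk a b p q := by
  unfold kk
  have h : ∀ x y : sphere (0 : V n) 1, 0 ≤ 1 + ⟪(x : V n), (y : V n)⟫ := by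
    intro x y
    have h1 := abs_real_inner_le_norm (x : V n) (y : V n)
    rw [norm_eq_of_mem_sphere, norm_eq_of_mem_sphere, one_mul] at h1
    have := (abs_le.1 h1).1
    linarith
  exact mul_nonneg (pow_nonneg (h _ _) _) (pow_nonneg (h _ _) _)

theorem cont_kk (a b : ℕ) : Continuous (fun z : MM n × MM n => kk a b z.1 z.2) := by
  unfold kk
  fun_prop

theorem Lr_cxA (i j k : Ix n) (h : blk i j = 1) :
    Lr i j (cxA k) = cs (dl j k) * cxA i - cs (dl i k) * cxA j := by
  have h4 : blk j k = blk i k := by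
    rcases i with i | i <;> rcases j with j | j <;> rcases k with k | k <;> simp [blk] at *
  rw [Lr_apply, ED_cxA, ED_cxA, h4]
  ring

theorem D_cs (D : Derivation ℝ (SmA n) (SmA n)) (c : ℝ) (f : SmA n) : D (cs c * f) = cs c * D f := by
  unfold cs
  rw [← Algebra.smul_def, ← Algebra.smul_def, Derivation.map_smul]

theorem ev_Lr_tA (i j : Fin (n + 1)) (p q : MM n) : ev q (Lr (.inl i) (.inl j) (tA p)) =
    cx (.inl i) q * cx (.inl j) p - cx (.inl j) q * cx (.inl i) p := by
  unfold tA
  rw [map_add, Derivation.map_one_eq_zero, zero_add, map_sum, map_sum]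
  have h1 : ∀ k : Fin (n + 1), ev q (Lr (.inl i) (.inl j) (cs (cx (.inl k) p) * cxA (.inl k))) =
      (if j = k then cx (.inl k) p * cx (.inl i) q else 0)
      - (if i = k then cx (.inl k) p * cx (.inl j) q else 0) := by
    intro k
    rw [D_cs, Lr_cxA _ _ _ rfl]
    simp only [map_mul, map_sub, ev_cs, ev_cxA, dl, Sum.inl.injEq]
    split_ifs <;> ring
  rw [Finset.sum_congr rfl fun k _ => h1 k, Finset.sum_sub_distrib]
  simp only [Finset.sum_ite_eq, Finset.mem_univ, if_true]
  ring

theorem ev_Lr_sA (i j : Fin (n + 1)) (p q : MM n) : ev q (Lr (.inr i) (.inr j) (sA p)) =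
    cx (.inr i) q * cx (.inr j) p - cx (.inr j) q * cx (.inr i) p := by
  unfold sA
  rw [map_add, Derivation.map_one_eq_zero, zero_add, map_sum, map_sum]
  have h1 : ∀ k : Fin (n + 1), ev q (Lr (.inr i) (.inr j) (cs (cx (.inr k) p) * cxA (.inr k))) =
      (if j = k then cx (.inr k) p * cx (.inr i) q else 0)
      - (if i = k then cx (.inr k) p * cx (.inr j) q else 0) := by
    intro k
    rw [D_cs, Lr_cxA _ _ _ rfl]
    simp only [map_mul, map_sub, ev_cs, ev_cxA, dl, Sum.inr.injEq]
    split_ifs <;> ring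
  rw [Finset.sum_congr rfl fun k _ => h1 k, Finset.sum_sub_distrib]
  simp only [Finset.sum_ite_eq, Finset.mem_univ, if_true]
  ring

theorem Lr_sA_inl (i j : Fin (n + 1)) (p : MM n) : Lr (.inl i) (.inl j) (sA p) = 0 := by
  unfold sA
  rw [map_add, Derivation.map_one_eq_zero, zero_add, map_sum]
  refine Finset.sum_eq_zero fun k _ => ?_
  rw [D_cs, Lr_cxA _ _ _ rfl]
  simp [dl, cs]

theorem Lr_tA_inr (i j : Fin (n + 1)) (p : MM n) : Lr (.inr i) (.inr j) (tA p) = 0 := by
  unfold tA
  rw [map_add, Derivation.map_one_eq_zero, zero_add, map_sum]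
  refine Finset.sum_eq_zero fun k _ => ?_
  rw [D_cs, Lr_cxA _ _ _ rfl]
  simp [dl, cs]

/-- the kernels with one exponent lowered -/
def kd (i : Ix n) (m : ℕ) (p q : MM n) : ℝ :=
  match i with
  | .inl _ => kk (m - 1) m p q
  | .inr _ => kk m (m - 1) p q

theorem kd_comm (i : Ix n) (m : ℕ) (p q : MM n) : kd i m p q = kd i m q p := by
  rcases i with i | i <;> exact kk_comm _ _ _ _

theorem kd_nonneg (i : Ix n) (m : ℕ) (p q : MM n) : 0 ≤ kd i m p q := by
  rcases i with i | i <;> exact kk_nonneg _ _ _ _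

theorem cont_kd (i : Ix n) (m : ℕ) : Continuous (fun z : MM n × MM n => kd i m z.1 z.2) := by
  rcases i with i | i
  · exact cont_kk (m - 1) m
  · exact cont_kk m (m - 1)

/-- the derivative of the kernel -/
theorem ev_Lr_KA (i j : Ix n) (h : blk i j = 1) (m : ℕ) (p q : MM n) :
    ev q (Lr i j (KA m m p)) = m * kd i m p q * (cx i q * cx j p - cx j q * cx i p) := by
  rcases i with i | i <;> rcases j with j | j
  · unfold KA
    rw [Derivation.leibniz, Derivation.leibniz_pow, Derivation.leibniz_pow, Lr_sA_inl]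
    simp only [smul_eq_mul, map_add, map_mul, ev_Lr_tA, mul_zero, smul_zero, map_zero, zero_add,
      map_nsmul, map_pow, nsmul_eq_mul, map_natCast, ev_tA, ev_sA, kd, kk]
    ring
  · simp [blk] at h
  · simp [blk] at h
  · unfold KA
    rw [Derivation.leibniz, Derivation.leibniz_pow, Derivation.leibniz_pow, Lr_tA_inr]
    simp only [smul_eq_mul, map_add, map_mul, ev_Lr_sA, mul_zero, smul_zero, map_zero, add_zero,
      map_nsmul, map_pow, nsmul_eq_mul, map_natCast, ev_tA, ev_sA, kd, kk]
    ring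

/-- (b) invariance of the kernel -/
theorem Lr_KA_symm (i j : Ix n) (h : blk i j = 1) (m : ℕ) (p q : MM n) :
    ev q (Lr i j (KA m m p)) = - ev p (Lr i j (KA m m q)) := by
  rw [ev_Lr_KA i j h, ev_Lr_KA i j h, kd_comm i m q p]
  ring

end Pool.Agent.H781.NG.Jcm
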