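import Pool.Agent.H781.NG.Geo0

/-!
Smooth functions on `Sⁿ × Sⁿ` are Lipschitz.
-/

open Bundle Manifold ContDiff VectorField Metric MeasureTheory Filter
open scoped Topology RealInnerProductSpace

set_option autoImplicit false
set_option synthInstance.maxHeartbeats 400000
set_option maxHeartbeats 4000000

noncomputable section

namespace Pool.Agent.H781.NG.Jcm

open Pool.Agent.H821R2 Pool.Agent.H821R3 Pool.Agent.H893R5.HO Pool.Agent.H781.NG

variable {n : ℕ}

/-- the charts of the sphere are locally Lipschitz -/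
theorem lip_chart (v : sphere (0 : V n) 1) : ∃ (K : NNReal) (t : Set (sphere (0 : V n) 1)),
    t ∈ 𝓝 v ∧ LipschitzOnWith K (fun x => extChartAt (𝓡 n) v x) t := by
  have hv : ‖(((-v : sphere (0 : V n) 1) : V n))‖ = 1 := norm_eq_of_mem_sphere (-v)
  have h1 : ContDiffAt ℝ 1 (stereoToFun (((-v : sphere (0 : V n) 1) : V n))) (v : V n) := by
    refine (contDiffOn_stereoToFun (n := 1)).contDiffAt ?_
    refine IsOpen.mem_nhds ?_ ?_
    · exact isOpen_ne.preimage (innerSL ℝ (((-v : sphere (0 : V n) 1) : V n))).continuous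
    · change (innerSL ℝ (((-v : sphere (0 : V n) 1) : V n))) (v : V n) ≠ 1
      rw [innerSL_apply_apply]
      simp only [coe_neg_sphere, inner_neg_left, inner_self_sph]
      norm_num
  obtain ⟨K, t, ht, hK⟩ := h1.exists_lipschitzOnWith
  refine ⟨K, (fun x : sphere (0 : V n) 1 => (x : V n)) ⁻¹' t,
    continuous_subtype_val.continuousAt.preimage_mem_nhds ht, ?_⟩
  intro x hx y hy
  have h2 := hK hx hy
  have e : ∀ x : sphere (0 : V n) 1, extChartAt (𝓡 n) v x =
      (OrthonormalBasis.fromOrthogonalSpanSingleton (𝕜 := ℝ) n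
        (ne_zero_of_mem_unit_sphere (-v))).repr (stereoToFun (((-v : sphere (0 : V n) 1) : V n))
          (x : V n)) := by
    intro x
    rfl
  simp only [e, LinearIsometryEquiv.edist_map]
  exact h2

/-- smooth functions on `Sⁿ × Sⁿ` are Lipschitz -/
theorem lip (f : SmA n) : ∃ C : ℝ, 0 ≤ C ∧ ∀ p q : MM n,
    |ev p f - ev q f| ≤ C * (‖(p.1 : V n) - (q.1 : V n)‖ + ‖(p.2 : V n) - (q.2 : V n)‖) := by
  have hL : LocallyLipschitz (fun p : MM n => ev p f) := by
    intro p
    have hc : ContMDiffAt (IM n) 𝓘(ℝ, ℝ) 1 f.1 p := (f.2 p).of_le (by norm_num)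
    rw [contMDiffAt_iff] at hc
    have h1 := hc.2
    rw [ModelWithCorners.range_eq_univ, contDiffWithinAt_univ] at h1
    obtain ⟨K, t, ht, hK⟩ := h1.exists_lipschitzOnWith
    obtain ⟨K1, t1, ht1, hK1⟩ := lip_chart p.1
    obtain ⟨K2, t2, ht2, hK2⟩ := lip_chart p.2
    refine ⟨K * max K1 K2, ((t1 ×ˢ t2) ∩ (extChartAt (IM n) p) ⁻¹' t) ∩ (extChartAt (IM n) p).source,
      ?_, ?_⟩
    · refine inter_mem (inter_mem (prod_mem_nhds ht1 ht2) ?_) (extChartAt_source_mem_nhds p)
      exact (continuousAt_extChartAt p).preimage_mem_nhds ht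
    · rintro x ⟨⟨⟨hx1, hx2⟩, hx⟩, hxs⟩ y ⟨⟨⟨hy1, hy2⟩, hy⟩, hys⟩
      have a := hK hx hy
      simp only [Function.comp_apply, (extChartAt (IM n) p).left_inv hxs,
        (extChartAt (IM n) p).left_inv hys] at a
      refine le_trans a ?_
      rw [ENNReal.coe_mul, mul_assoc]
      refine mul_le_mul_right ?_ _
      have b1 := hK1 hx1 hy1
      have b2 := hK2 hx2 hy2
      rw [extChartAt_prod, Prod.edist_eq, Prod.edist_eq]
      refine max_le (b1.trans ?_) (b2.trans ?_)
      · refine mul_le_mul' ?_ (le_max_left _ _)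
        exact_mod_cast le_max_left _ _
      · refine mul_le_mul' ?_ (le_max_right _ _)
        exact_mod_cast le_max_right _ _
  obtain ⟨K, hK⟩ := LocallyLipschitzOn.exists_lipschitzOnWith_of_compact
    (isCompact_univ (X := MM n)) (locallyLipschitzOn_univ.2 hL)
  refine ⟨K, K.2, fun p q => ?_⟩
  have h1 := hK.dist_le_mul p (Set.mem_univ _) q (Set.mem_univ _)
  rw [Real.dist_eq] at h1
  refine h1.trans (mul_le_mul_of_nonneg_left ?_ K.2)
  rw [Prod.dist_eq, Subtype.dist_eq, Subtype.dist_eq, dist_eq_norm, dist_eq_norm]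
  exact max_le (le_add_of_nonneg_right (norm_nonneg _)) (le_add_of_nonneg_left (norm_nonneg _))

end Pool.Agent.H781.NG.Jcm
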