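import Pool.Agent.H781.NG.Jcm1
import Pool.Agent.H781.NG.JcmLip

/-!
Derivatives of the mollified function, Schur test, moments.
-/

open Bundle Manifold ContDiff VectorField Metric MeasureTheory Filter
open scoped Topology RealInnerProductSpace

set_option autoImplicit false
set_option synthInstance.maxHeartbeats 400000
set_option maxHeartbeats 4000000

noncomputable section

namespace Pool.Agent.H781.NG.Jcm

open Pool.Agent.H821R2 Pool.Agent.H821R3 Pool.Agent.H893R5.HO Pool.Agent.H781.NG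

variable {n : ℕ}

/-- finite expansions of kernels -/
def HasExp (K : MM n → MM n → ℝ) : Prop :=
  ∃ (ι : Type) (_ : Fintype ι) (φ ψ : ι → SmA n), ∀ p q, K p q = ∑ s, ev p (φ s) * ev q (ψ s)

theorem HasExp.mul {K K' : MM n → MM n → ℝ} (h : HasExp K) (h' : HasExp K') :
    HasExp (fun p q => K p q * K' p q) := by
  obtain ⟨ι, hι, φ, ψ, e⟩ := h
  obtain ⟨κ, hκ, φ', ψ', e'⟩ := h'
  refine ⟨ι × κ, inferInstance, fun s => φ s.1 * φ' s.2, fun s => ψ s.1 * ψ' s.2, fun p q => ?_⟩
  simp only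
  rw [e, e', Finset.sum_mul_sum, Fintype.sum_prod_type]
  refine Finset.sum_congr rfl fun s _ => Finset.sum_congr rfl fun t _ => ?_
  rw [map_mul, map_mul]
  ring

theorem HasExp.one : HasExp (fun _ _ : MM n => (1 : ℝ)) :=
  ⟨Unit, inferInstance, fun _ => 1, fun _ => 1, fun p q => by simp⟩

theorem HasExp.pow {K : MM n → MM n → ℝ} (h : HasExp K) (m : ℕ) :
    HasExp (fun p q => K p q ^ m) := by
  induction m with
  | zero => simpa using HasExp.one
  | succ m ih =>
    have := ih.mul h
    simpa only [pow_succ] using this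

theorem HasExp.t : HasExp (fun p q : MM n => 1 + ⟪(p.1 : V n), (q.1 : V n)⟫) := by
  refine ⟨Option (Fin (n + 1)), inferInstance, fun s => s.elim 1 fun k => cxA (.inl k),
    fun s => s.elim 1 fun k => cxA (.inl k), fun p q => ?_⟩
  rw [Fintype.sum_option]
  simp only [Option.elim_none, Option.elim_some, map_one, mul_one, inner_eq]
  rfl

theorem HasExp.s : HasExp (fun p q : MM n => 1 + ⟪(p.2 : V n), (q.2 : V n)⟫) := by
  refine ⟨Option (Fin (n + 1)), inferInstance, fun s => s.elim 1 fun k => cxA (.inr k),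
    fun s => s.elim 1 fun k => cxA (.inr k), fun p q => ?_⟩
  rw [Fintype.sum_option]
  simp only [Option.elim_none, Option.elim_some, map_one, mul_one, inner_eq]
  rfl

theorem HasExp.kk (a b : ℕ) : HasExp (fun p q : MM n => kk a b p q) :=
  (HasExp.t.pow a).mul (HasExp.s.pow b)

/-- derivatives of the mollified function -/
theorem D_J {μ : Measure (MM n)} (hμ : IsRound μ) {J : ℕ → SmA n →ₗ[ℝ] SmA n} (hJ : IsMol μ J)
    (D : Derivation ℝ (SmA n) (SmA n)) (m : ℕ) (f : SmA n) (p : MM n) :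
    ev p (D (J m f)) = ((cm n m) ^ 2)⁻¹ * ∫ q, ev p (D (KA m m q)) * ev q f ∂μ := by
  have := hμ.prob
  obtain ⟨ι, hι, φ, ψ, e⟩ := HasExp.kk (n := n) m m
  have h1 : ∀ q, KA m m q = ∑ s, cs (ev q (ψ s)) * φ s := by
    intro q
    apply ext_ev
    intro p
    rw [ev_KA, kk_comm, map_sum]
    refine (e p q).trans ?_
    refine Finset.sum_congr rfl fun s _ => ?_
    rw [map_mul, ev_cs]
    ring
  have h2 : J m f = cs ((cm n m) ^ 2)⁻¹ * ∑ s, cs (ig μ (ψ s * f)) * φ s := by
    apply ext_ev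
    intro p
    rw [hJ, map_mul, ev_cs, map_sum]
    congr 1
    have h3 : ∀ q, kk m m p q * ev q f = ∑ s, ev p (φ s) * (ev q (ψ s) * ev q f) := by
      intro q
      rw [show kk m m p q = _ from e p q, Finset.sum_mul]
      refine Finset.sum_congr rfl fun s _ => ?_
      ring
    simp_rw [h3]
    rw [integral_finsetSum _ fun s _ => (int_ev_mul _ _).const_mul _]
    refine Finset.sum_congr rfl fun s _ => ?_
    rw [integral_const_mul, map_mul, ev_cs, mul_comm]
    unfold ig
    simp only [map_mul]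
  rw [h2, D_cs, map_sum, map_mul, ev_cs, map_sum]
  congr 1
  have h4 : ∀ q, ev p (D (KA m m q)) * ev q f = ∑ s, ev p (D (φ s)) * (ev q (ψ s) * ev q f) := by
    intro q
    rw [h1, map_sum, map_sum, Finset.sum_mul]
    refine Finset.sum_congr rfl fun s _ => ?_
    rw [D_cs, map_mul, ev_cs]
    ring
  simp_rw [h4]
  rw [integral_finsetSum _ fun s _ => (int_ev_mul _ _).const_mul _]
  refine Finset.sum_congr rfl fun s _ => ?_
  rw [integral_const_mul, D_cs, map_mul, ev_cs, mul_comm]
  unfold ig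
  simp only [map_mul]

/-- integration by parts -/
theorem parts {μ : Measure (MM n)} (hμ : IsRound μ) (i j : Ix n) (f g : SmA n) :
    ∫ q, ev q f * ev q (Lr i j g) ∂μ = - ∫ q, ev q (Lr i j f) * ev q g ∂μ := by
  have := hμ.prob
  have h1 := int_Lr hμ i j (f * g)
  rw [Derivation.leibniz, ig_add, smul_eq_mul, smul_eq_mul] at h1
  unfold ig at h1
  simp only [map_mul] at h1
  have h2 : ∫ q, ev q g * ev q (Lr i j f) ∂μ = ∫ q, ev q (Lr i j f) * ev q g ∂μ := by
    simp_rw [mul_comm]
  linarith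

/-- the rotation fields commute with the mollifier -/
theorem Lr_J {μ : Measure (MM n)} (hμ : IsRound μ) {J : ℕ → SmA n →ₗ[ℝ] SmA n} (hJ : IsMol μ J)
    (i j : Ix n) (h : blk i j = 1) (m : ℕ) (f : SmA n) : Lr i j (J m f) = J m (Lr i j f) := by
  apply ext_ev
  intro p
  rw [D_J hμ hJ, hJ]
  congr 1
  have h1 := parts hμ i j (KA m m p) f
  simp only [ev_KA] at h1
  rw [h1, ← integral_neg]
  refine integral_congr_ae (ae_of_all _ fun q => ?_)
  simp only
  rw [Lr_KA_symm i j h m q p]
  ring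

/-- the remainder of the commutator -/
theorem comm_eq {μ : Measure (MM n)} (hμ : IsRound μ) {J : ℕ → SmA n →ₗ[ℝ] SmA n} (hJ : IsMol μ J)
    (i j : Ix n) (m : ℕ) (b f : SmA n) (p : MM n) :
    ev p (J m (Lr i j b * f) - (b * J m (Lr i j f) - J m (b * Lr i j f))) =
      ((cm n m) ^ 2)⁻¹ * ∫ q, (ev p b - ev q b) * ev q (Lr i j (KA m m p)) * ev q f ∂μ := by
  have := hμ.prob
  have h1 := parts hμ i j ((cs (ev p b) - b) * KA m m p) f
  have h2 : ∀ q, ev q (Lr i j ((cs (ev p b) - b) * KA m m p)) * ev q f =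
      (ev p b - ev q b) * ev q (Lr i j (KA m m p)) * ev q f
        - kk m m p q * ev q (Lr i j b * f) := by
    intro q
    have h3 : Lr i j (cs (ev p b)) = 0 := Derivation.map_algebraMap _ _
    rw [Derivation.leibniz, map_sub, h3]
    simp only [smul_eq_mul, map_add, map_mul, map_sub, ev_cs, ev_KA, map_zero]
    ring
  simp_rw [h2] at h1
  have i1 : Integrable (fun q => (ev p b - ev q b) * ev q (Lr i j (KA m m p)) * ev q f) μ :=
    int_cont (((continuous_const.sub (cont_ev _)).mul (cont_ev _)).mul (cont_ev _))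
  have i2 : ∀ g : SmA n, Integrable (fun q => kk m m p q * ev q g) μ := fun g =>
    (int_ev_mul (KA m m p) g).congr (ae_of_all _ fun q => by simp only [ev_KA])
  rw [integral_sub i1 (i2 _)] at h1
  have h4 : ∀ q, ev q ((cs (ev p b) - b) * KA m m p) * ev q (Lr i j f) =
      ev p b * (kk m m p q * ev q (Lr i j f)) - kk m m p q * ev q (b * Lr i j f) := by
    intro q
    simp only [map_mul, map_sub, ev_cs, ev_KA]
    ring
  simp_rw [h4] at h1
  rw [integral_sub ((i2 _).const_mul _) (i2 _), integral_const_mul] at h1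
  rw [map_sub, map_sub, map_mul (ev p), hJ, hJ, hJ]
  linear_combination ((cm n m) ^ 2)⁻¹ * (-h1)

/-- Schur test -/
theorem schur {μ : Measure (MM n)} [IsProbabilityMeasure μ] (k : MM n → MM n → ℝ)
    (hk : Continuous (fun z : MM n × MM n => k z.1 z.2)) (h0 : ∀ p q, 0 ≤ k p q)
    (hs : ∀ p q, k p q = k q p) (A : ℝ) (hA : ∀ p, ∫ q, k p q ∂μ ≤ A) (g r : SmA n)
    (hr : ∀ p, |ev p r| ≤ ∫ q, k p q * |ev q g| ∂μ) :
    ig μ (r * r) ≤ A ^ 2 * ig μ (g * g) := by
  have hkp : ∀ p, Continuous (fun q => k p q) := fun p => hk.comp (Continuous.prodMk_right p)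
  have hg : Continuous (fun q => ev q g) := cont_ev g
  have hp1 : ∀ p, 0 ≤ ∫ q, k p q ∂μ := fun p => integral_nonneg (fun q => h0 p q)
  have hA0 : 0 ≤ A := by
    obtain ⟨p⟩ := nonempty_of_isProbabilityMeasure μ
    exact (hp1 p).trans (hA p)
  have h1 : ∀ p, (∫ q, k p q * |ev q g| ∂μ) ^ 2 ≤ A * ∫ q, k p q * (ev q g) ^ 2 ∂μ := by
    intro p
    have i0 : Integrable (fun q => k p q) μ := int_cont (hkp p)
    have i1 : Integrable (fun q => k p q * |ev q g|) μ := int_cont ((hkp p).mul hg.abs)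
    have i2 : Integrable (fun q => k p q * (ev q g) ^ 2) μ := int_cont ((hkp p).mul (hg.pow 2))
    have h2 : ∀ x : ℝ, 0 ≤ (∫ q, k p q ∂μ) * (x * x) + (-2 * ∫ q, k p q * |ev q g| ∂μ) * x
        + ∫ q, k p q * (ev q g) ^ 2 ∂μ := by
      intro x
      have h3 : 0 ≤ ∫ q, k p q * (x - |ev q g|) ^ 2 ∂μ :=
        integral_nonneg (fun q => mul_nonneg (h0 p q) (sq_nonneg _))
      have h4 : ∀ q, k p q * (x - |ev q g|) ^ 2 =
          (x * x) * k p q + (-2 * x) * (k p q * |ev q g|) + k p q * (ev q g) ^ 2 := by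
        intro q
        rw [← sq_abs (ev q g)]
        ring
      simp_rw [h4] at h3
      have h5 : ∫ q, ((x * x) * k p q + (-2 * x) * (k p q * |ev q g|) + k p q * (ev q g) ^ 2) ∂μ =
          (x * x) * (∫ q, k p q ∂μ) + (-2 * x) * (∫ q, k p q * |ev q g| ∂μ)
            + ∫ q, k p q * (ev q g) ^ 2 ∂μ := by
        have j0 : Integrable (fun q => (x * x) * k p q) μ := i0.const_mul _
        have j1 : Integrable (fun q => (-2 * x) * (k p q * |ev q g|)) μ := i1.const_mul _
        rw [← integral_const_mul, ← integral_const_mul, ← integral_add j0 j1]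
        exact integral_add (j0.add j1) i2
      rw [h5] at h3
      linarith
    have h5 := discrim_le_zero h2
    unfold discrim at h5
    have h6 : (∫ q, k p q * |ev q g| ∂μ) ^ 2 ≤ (∫ q, k p q ∂μ) * ∫ q, k p q * (ev q g) ^ 2 ∂μ := by
      nlinarith
    refine h6.trans (mul_le_mul_of_nonneg_right (hA p) ?_)
    exact integral_nonneg (fun q => mul_nonneg (h0 p q) (sq_nonneg _))
  have hc2 : Continuous (Function.uncurry fun p q : MM n => k p q * (ev q g) ^ 2) :=
    hk.mul ((hg.comp continuous_snd).pow 2)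
  have hI : Integrable (Function.uncurry fun p q : MM n => k p q * (ev q g) ^ 2) (μ.prod μ) :=
    hc2.integrable_of_hasCompactSupport (HasCompactSupport.of_compactSpace _)
  have h2 : ig μ (r * r) ≤ ∫ p, A * ∫ q, k p q * (ev q g) ^ 2 ∂μ ∂μ := by
    unfold ig
    refine integral_mono (int_ev _) (hI.integral_prod_left.const_mul A) fun p => ?_
    simp only
    rw [map_mul]
    have h3 := (hr p)
    have h4 : ev p r * ev p r = |ev p r| ^ 2 := by rw [sq_abs]; ring
    rw [h4]
    refine le_trans ?_ (h1 p)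
    exact pow_le_pow_left₀ (abs_nonneg _) h3 2
  rw [integral_const_mul, integral_integral_swap hI] at h2
  have h3 : ∫ q, ∫ p, k p q * (ev q g) ^ 2 ∂μ ∂μ ≤ A * ig μ (g * g) := by
    unfold ig
    rw [← integral_const_mul]
    refine integral_mono hI.integral_prod_right ((int_ev (g * g)).const_mul A) fun q => ?_
    simp only
    rw [integral_mul_const, map_mul, ← sq]
    refine mul_le_mul_of_nonneg_right ?_ (sq_nonneg _)
    simp_rw [hs _ q]
    exact hA q
  calc ig μ (r * r) ≤ _ := h2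
    _ ≤ A * (A * ig μ (g * g)) := mul_le_mul_of_nonneg_left h3 hA0
    _ = _ := by ring

end Pool.Agent.H781.NG.Jcm
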